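import Mathlib
import Pool.Agent.Lib_MP_1209e6_ds.Defs

/-! PART (D), cones: lower bound of the gradient of a smooth form on the cone. -/

set_option autoImplicit false

open MvPolynomial

noncomputable section

namespace Pool.Agent.QK

/-- a form at a multiple of a point -/
theorem ahb_scale {n d : ℕ} {F : MvPolynomial (Fin n) ℂ} (hF : F.IsHomogeneous d) (c : ℂ)
    (z : Fin n → ℂ) : eval (fun j => c * z j) F = c ^ d * eval z F := by
  rw [eval_eq', eval_eq', Finset.mul_sum]
  refine Finset.sum_congr rfl fun m hm => ?_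
  have h1 : ∑ i, m i = d := by
    have h2 := hF (mem_support_iff.1 hm)
    rw [← h2, Finsupp.weight_apply, Finsupp.sum_fintype _ _ (by simp)]
    simp
  simp only [mul_pow, Finset.prod_mul_distrib, Finset.prod_pow_eq_pow_sum]
  rw [h1]
  ring

/-- the gradient of a smooth quartic form is bounded below (compactness of the unit sphere and homogeneity) -/
theorem lower {G : MvPolynomial (Fin 3) ℂ} (hG : G.IsHomogeneous 4) (hs : Pool.Agent.DS.Smooth G) :
    ∃ c : ℝ, 0 < c ∧ ∀ x : Fin 3 → ℂ, eval x G = 0 →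
      c * (∑ i, ‖x i‖ ^ 2) ^ 3 ≤ ∑ k, ‖eval x (pderiv k G)‖ ^ 2 := by
  classical
  let N : (Fin 3 → ℂ) → ℝ := fun x => ∑ i, ‖x i‖ ^ 2
  let f : (Fin 3 → ℂ) → ℝ := fun x => ∑ k, ‖eval x (pderiv k G)‖ ^ 2
  have hN : Continuous N := by fun_prop
  have hf : Continuous f := by
    refine continuous_finsetSum _ fun k _ => ?_
    exact ((MvPolynomial.continuous_eval (pderiv k G)).norm).pow 2
  have hcl : IsClosed {x | N x = 1} := isClosed_singleton.preimage hN
  have hcomp : IsCompact {x | N x = 1} := by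
    refine (isCompact_closedBall (0 : Fin 3 → ℂ) 1).of_isClosed_subset hcl ?_
    intro x hx
    rw [mem_closedBall_zero_iff, pi_norm_le_iff_of_nonneg zero_le_one]
    intro i
    have h1 : ‖x i‖ ^ 2 ≤ 1 := by
      rw [← show N x = 1 from hx]
      exact Finset.single_le_sum (f := fun i => ‖x i‖ ^ 2) (fun _ _ => sq_nonneg _) (Finset.mem_univ i)
    nlinarith [norm_nonneg (x i)]
  have hne : ({x | N x = 1} : Set (Fin 3 → ℂ)).Nonempty := ⟨![1, 0, 0], by
    show ∑ i, ‖(![1, 0, 0] : Fin 3 → ℂ) i‖ ^ 2 = 1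
    simp [Fin.sum_univ_three]⟩
  obtain ⟨x₀, hx₀, hmin⟩ := hcomp.exists_isMinOn hne hf.continuousOn
  have hpos : 0 < f x₀ := by
    refine lt_of_le_of_ne (Finset.sum_nonneg fun k _ => sq_nonneg _) fun h => ?_
    have h1 : ∀ k, eval x₀ (pderiv k G) = 0 := by
      intro k
      have h2 := (Finset.sum_eq_zero_iff_of_nonneg (fun k _ => sq_nonneg _)).1 h.symm k (Finset.mem_univ k)
      simpa using h2
    have h3 : x₀ = 0 := hs x₀ fun k => h1 k
    have h4 : N x₀ = 1 := hx₀
    rw [h3] at h4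
    simp [N] at h4
  refine ⟨f x₀, hpos, fun x _ => ?_⟩
  show f x₀ * N x ^ 3 ≤ f x
  have hNx : 0 ≤ N x := Finset.sum_nonneg fun _ _ => sq_nonneg _
  rcases hNx.eq_or_lt with h0 | h0
  · rw [← h0]
    have : 0 ≤ f x := Finset.sum_nonneg fun _ _ => sq_nonneg _
    simpa using this
  · set r : ℝ := Real.sqrt (N x) with hr
    have hr0 : 0 < r := Real.sqrt_pos.2 h0
    have hr2 : r ^ 2 = N x := Real.sq_sqrt hNx
    set y : Fin 3 → ℂ := fun i => (r : ℂ)⁻¹ * x i with hy
    have hy1 : N y = 1 := by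
      show ∑ i, ‖(r : ℂ)⁻¹ * x i‖ ^ 2 = 1
      simp only [norm_mul, mul_pow, norm_inv, Complex.norm_real, Real.norm_eq_abs, abs_of_pos hr0]
      rw [← Finset.mul_sum]
      show (r⁻¹) ^ 2 * N x = 1
      rw [← hr2]
      field_simp
    have h1 : f x₀ ≤ f y := hmin hy1
    have h2 : f x = r ^ 6 * f y := by
      have h3 : x = fun i => (r : ℂ) * y i := by
        funext i
        rw [hy]
        have : (r : ℂ) ≠ 0 := by exact_mod_cast hr0.ne'
        field_simp
      show ∑ k, ‖eval x (pderiv k G)‖ ^ 2 = r ^ 6 * ∑ k, ‖eval y (pderiv k G)‖ ^ 2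
      rw [Finset.mul_sum]
      refine Finset.sum_congr rfl fun k _ => ?_
      conv_lhs => rw [h3]
      rw [ahb_scale (hG.pderiv (i := k)), norm_mul, norm_pow, Complex.norm_real, Real.norm_eq_abs,
        abs_of_pos hr0]
      ring
    rw [h2, ← hr2]
    have h4 : 0 ≤ r ^ 6 := by positivity
    calc f x₀ * (r ^ 2) ^ 3 = r ^ 6 * f x₀ := by ring
      _ ≤ r ^ 6 * f y := mul_le_mul_of_nonneg_left h1 h4

end Pool.Agent.QK
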