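import Mathlib

/-!
# An Ahlfors-Schwarz lemma

`MP_1209e6_ag`, cones over smooth plane quartics: an entire curve `h` in `ℂ³` with `|h × h'| ≥ c |h|³`, `c > 0`,
is zero. The function `(R² - |z|²)² |h|²` has a maximum on the disc of radius `R`; look at its Laplacian there.
-/

set_option autoImplicit false

open Filter Topology ComplexConjugate

noncomputable section

namespace Pool.Agent.QX.Ahl

/-- first and second derivative at a local maximum -/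
theorem second_le (F F' : ℝ → ℝ) (F2 : ℝ) (h1 : ∀ x, HasDerivAt F (F' x) x) (h2 : HasDerivAt F' F2 0)
    (hm : IsLocalMax F 0) : F' 0 = 0 ∧ F2 ≤ 0 := by
  have h0 : F' 0 = 0 := hm.hasDerivAt_eq_zero (h1 0)
  refine ⟨h0, ?_⟩
  by_contra hcon
  push Not at hcon
  have hd : deriv F = F' := funext fun x => (h1 x).deriv
  have hmin : IsLocalMin F 0 := by
    refine isLocalMin_of_deriv_deriv_pos ?_ ?_ (h1 0).continuousAt
    · rw [hd, h2.deriv]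
      exact hcon
    · rw [hd]
      exact h0
  have hconst : F =ᶠ[𝓝 0] fun _ => F 0 := by
    filter_upwards [hm, hmin] with x hx1 hx2
    exact le_antisymm hx1 hx2
  have hder : F' =ᶠ[𝓝 0] fun _ => 0 := by
    have h3 := hconst.deriv
    rw [hd] at h3
    refine h3.trans (Filter.Eventually.of_forall fun x => ?_)
    simp
  have h4 := (h2.congr_of_eventuallyEq hder.symm).deriv
  simp only [deriv_const'] at h4
  exact absurd h4 (by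
    intro h5
    rw [← h5] at hcon
    exact lt_irrefl _ hcon)

theorem max_two (s s' l l' : ℝ → ℝ) (s2 l2 : ℝ) (hs : ∀ x, HasDerivAt s (s' x) x) (hs' : HasDerivAt s' s2 0)
    (hl : ∀ x, HasDerivAt l (l' x) x) (hl' : HasDerivAt l' l2 0)
    (hm : IsLocalMax (fun x => s x ^ 2 * l x) 0) :
    2 * s 0 * s' 0 * l 0 + s 0 ^ 2 * l' 0 = 0 ∧
      2 * (s' 0 ^ 2 + s 0 * s2) * l 0 + 4 * s 0 * s' 0 * l' 0 + s 0 ^ 2 * l2 ≤ 0 := by
  have h1 : ∀ x, HasDerivAt (fun x => s x ^ 2 * l x) (2 * s x * s' x * l x + s x ^ 2 * l' x) x := by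
    intro x
    refine HasDerivAt.congr_deriv (((hs x).pow 2).mul (hl x)) ?_
    simp
  have h2 : HasDerivAt (fun x => 2 * s x * s' x * l x + s x ^ 2 * l' x)
      (2 * (s' 0 ^ 2 + s 0 * s2) * l 0 + 4 * s 0 * s' 0 * l' 0 + s 0 ^ 2 * l2) 0 := by
    refine HasDerivAt.congr_deriv
      (((((hs 0).const_mul 2).mul hs').mul (hl 0)).add (((hs 0).pow 2).mul hl')) ?_
    simp
    ring
  exact second_le _ _ _ h1 h2 hm

/-- the two conditions in the direction `ζ` -/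
theorem dir (h : Fin 3 → ℂ → ℂ) (hh : ∀ i, Differentiable ℂ (h i)) (R : ℝ) (z₀ ζ : ℂ)
    (hm : IsLocalMax (fun x : ℝ => (R ^ 2 - ‖z₀ + (x : ℂ) * ζ‖ ^ 2) ^ 2 * ∑ i, ‖h i (z₀ + (x : ℂ) * ζ)‖ ^ 2) 0) :
    let s := R ^ 2 - ‖z₀‖ ^ 2
    let p := inner ℝ z₀ ζ
    let l := ∑ i, ‖h i z₀‖ ^ 2
    let l' := ∑ i, 2 * inner ℝ (h i z₀) (ζ * deriv (h i) z₀)
    let l2 := ∑ i, 2 * (inner ℝ (h i z₀) (ζ * (ζ * deriv (deriv (h i)) z₀)) + ‖ζ * deriv (h i) z₀‖ ^ 2)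
    2 * s * (-(2 * p)) * l + s ^ 2 * l' = 0 ∧
      2 * ((-(2 * p)) ^ 2 + s * (-(2 * ‖ζ‖ ^ 2))) * l + 4 * s * (-(2 * p)) * l' + s ^ 2 * l2 ≤ 0 := by
  intro s p l l' l2
  have hq : ∀ x : ℝ, HasDerivAt (fun x : ℝ => z₀ + (x : ℂ) * ζ) ζ x := by
    intro x
    have h1 := ((Complex.ofRealCLM.hasDerivAt (x := x)).mul_const ζ).const_add z₀
    simpa using h1
  have hcomp : ∀ (g : ℂ → ℂ), Differentiable ℂ g → ∀ x : ℝ,
      HasDerivAt (fun x : ℝ => g (z₀ + (x : ℂ) * ζ)) (ζ * deriv g (z₀ + (x : ℂ) * ζ)) x := by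
    intro g hg x
    have h1 := HasDerivAt.scomp x (hg (z₀ + (x : ℂ) * ζ)).hasDerivAt (hq x)
    exact h1
  have hdd : ∀ i, Differentiable ℂ (deriv (h i)) := fun i =>
    ((hh i).contDiff (n := 2)).differentiable_deriv_two
  have key := max_two (fun x : ℝ => R ^ 2 - ‖z₀ + (x : ℂ) * ζ‖ ^ 2)
    (fun x : ℝ => -(2 * inner ℝ (z₀ + (x : ℂ) * ζ) ζ))
    (fun x : ℝ => ∑ i, ‖h i (z₀ + (x : ℂ) * ζ)‖ ^ 2)
    (fun x : ℝ => ∑ i, 2 * inner ℝ (h i (z₀ + (x : ℂ) * ζ)) (ζ * deriv (h i) (z₀ + (x : ℂ) * ζ)))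
    (-(2 * ‖ζ‖ ^ 2)) l2 ?_ ?_ ?_ ?_ hm
  · simp only [Complex.ofReal_zero, zero_mul, add_zero] at key
    exact key
  · intro x
    exact ((hq x).norm_sq.const_sub (R ^ 2))
  · have h1 := ((hq 0).inner ℝ (hasDerivAt_const (0 : ℝ) ζ)).const_mul (2 : ℝ)
    refine HasDerivAt.congr_deriv h1.neg ?_
    rw [inner_zero_right, zero_add, real_inner_self_eq_norm_sq]
  · intro x
    have h1 : ∀ i ∈ (Finset.univ : Finset (Fin 3)), HasDerivAt (fun x : ℝ => ‖h i (z₀ + (x : ℂ) * ζ)‖ ^ 2)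
        (2 * inner ℝ (h i (z₀ + (x : ℂ) * ζ)) (ζ * deriv (h i) (z₀ + (x : ℂ) * ζ))) x := fun i _ =>
      (hcomp (h i) (hh i) x).norm_sq
    exact HasDerivAt.fun_sum h1
  · have h1 : ∀ i ∈ (Finset.univ : Finset (Fin 3)), HasDerivAt
        (fun x : ℝ => 2 * inner ℝ (h i (z₀ + (x : ℂ) * ζ)) (ζ * deriv (h i) (z₀ + (x : ℂ) * ζ)))
        (2 * (inner ℝ (h i z₀) (ζ * (ζ * deriv (deriv (h i)) z₀)) + ‖ζ * deriv (h i) z₀‖ ^ 2)) 0 := by
      intro i _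
      have h2 := ((hcomp (h i) (hh i) 0).inner ℝ ((hcomp (deriv (h i)) (hdd i) 0).const_mul ζ)).const_mul (2 : ℝ)
      simp only [Complex.ofReal_zero, zero_mul, add_zero] at h2
      rw [real_inner_self_eq_norm_sq] at h2
      exact h2
    exact HasDerivAt.fun_sum h1

/-- the real inner product of complex numbers -/
theorem inner_eq (w z : ℂ) : inner ℝ w z = w.re * z.re + w.im * z.im := by
  rw [Complex.inner]
  simp [Complex.mul_re]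
  ring

theorem normsq_eq (z : ℂ) : ‖z‖ ^ 2 = z.re ^ 2 + z.im ^ 2 := by
  rw [← Complex.normSq_eq_norm_sq, Complex.normSq_apply]
  ring

/-- the estimate at the maximum -/
theorem at_max (h : Fin 3 → ℂ → ℂ) (hh : ∀ i, Differentiable ℂ (h i)) (c : ℝ)
    (H : ∀ z, c * (∑ i, ‖h i z‖ ^ 2) ^ 3 ≤ ‖h 1 z * deriv (h 2) z - h 2 z * deriv (h 1) z‖ ^ 2 +
      ‖h 2 z * deriv (h 0) z - h 0 z * deriv (h 2) z‖ ^ 2 + ‖h 0 z * deriv (h 1) z - h 1 z * deriv (h 0) z‖ ^ 2)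
    (R : ℝ) (z₀ : ℂ) (hs : 0 < R ^ 2 - ‖z₀‖ ^ 2) (hl : 0 < ∑ i, ‖h i z₀‖ ^ 2)
    (hm : ∀ ζ : ℂ, IsLocalMax
      (fun x : ℝ => (R ^ 2 - ‖z₀ + (x : ℂ) * ζ‖ ^ 2) ^ 2 * ∑ i, ‖h i (z₀ + (x : ℂ) * ζ)‖ ^ 2) 0) :
    c * ((R ^ 2 - ‖z₀‖ ^ 2) ^ 2 * ∑ i, ‖h i z₀‖ ^ 2) ≤ 2 * R ^ 2 := by
  obtain ⟨a1, a2⟩ := dir h hh R z₀ 1 (hm 1)
  obtain ⟨b1, b2⟩ := dir h hh R z₀ Complex.I (hm Complex.I)
  have hH := H z₀
  simp only [inner_eq, normsq_eq, Fin.sum_univ_three, Complex.mul_re, Complex.mul_im, Complex.one_re,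
    Complex.one_im, Complex.I_re, Complex.I_im, Complex.sub_re, Complex.sub_im] at a1 a2 b1 b2 hH hs hl ⊢
  generalize (h 0 z₀).re = x0 at *
  generalize (h 0 z₀).im = y0 at *
  generalize (h 1 z₀).re = x1 at *
  generalize (h 1 z₀).im = y1 at *
  generalize (h 2 z₀).re = x2 at *
  generalize (h 2 z₀).im = y2 at *
  generalize (deriv (h 0) z₀).re = u0 at *
  generalize (deriv (h 0) z₀).im = v0 at *
  generalize (deriv (h 1) z₀).re = u1 at *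
  generalize (deriv (h 1) z₀).im = v1 at *
  generalize (deriv (h 2) z₀).re = u2 at *
  generalize (deriv (h 2) z₀).im = v2 at *
  generalize (deriv (deriv (h 0)) z₀).re = e0 at *
  generalize (deriv (deriv (h 0)) z₀).im = f0 at *
  generalize (deriv (deriv (h 1)) z₀).re = e1 at *
  generalize (deriv (deriv (h 1)) z₀).im = f1 at *
  generalize (deriv (deriv (h 2)) z₀).re = e2 at *
  generalize (deriv (deriv (h 2)) z₀).im = f2 at *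
  generalize z₀.re = a at *
  generalize z₀.im = b at *
  obtain ⟨s, hsd⟩ : ∃ s, s = R ^ 2 - (a ^ 2 + b ^ 2) := ⟨_, rfl⟩
  obtain ⟨l, hld⟩ : ∃ l, l = x0 ^ 2 + y0 ^ 2 + (x1 ^ 2 + y1 ^ 2) + (x2 ^ 2 + y2 ^ 2) := ⟨_, rfl⟩
  obtain ⟨P, hP⟩ : ∃ P, P = x0 * u0 + y0 * v0 + (x1 * u1 + y1 * v1) + (x2 * u2 + y2 * v2) := ⟨_, rfl⟩
  obtain ⟨Q, hQ⟩ : ∃ Q, Q = x0 * v0 - y0 * u0 + (x1 * v1 - y1 * u1) + (x2 * v2 - y2 * u2) := ⟨_, rfl⟩
  obtain ⟨S, hS⟩ : ∃ S, S = u0 ^ 2 + v0 ^ 2 + (u1 ^ 2 + v1 ^ 2) + (u2 ^ 2 + v2 ^ 2) := ⟨_, rfl⟩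
  rw [← hsd] at a1 a2 b1 b2 hs ⊢
  rw [← hld] at a1 a2 b1 b2 hH hl ⊢
  have A1 : s * (2 * P) = 4 * a * l := by
    have : s * (s * (2 * P) - 4 * a * l) = 0 := by
      rw [hP]
      linear_combination a1
    rcases mul_eq_zero.1 this with h1 | h1
    · exact absurd h1 hs.ne'
    · linarith
  have B1 : s * (-(2 * Q)) = 4 * b * l := by
    have : s * (s * (-(2 * Q)) - 4 * b * l) = 0 := by
      rw [hQ]
      linear_combination b1
    rcases mul_eq_zero.1 this with h1 | h1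
    · exact absurd h1 hs.ne'
    · linarith
  have lag : S * l = P ^ 2 + Q ^ 2 + ((x1 * u2 - y1 * v2 - (x2 * u1 - y2 * v1)) ^ 2 +
      (x1 * v2 + y1 * u2 - (x2 * v1 + y2 * u1)) ^ 2 +
      ((x2 * u0 - y2 * v0 - (x0 * u2 - y0 * v2)) ^ 2 + (x2 * v0 + y2 * u0 - (x0 * v2 + y0 * u2)) ^ 2) +
      ((x0 * u1 - y0 * v1 - (x1 * u0 - y1 * v0)) ^ 2 + (x0 * v1 + y0 * u1 - (x1 * v0 + y1 * u0)) ^ 2)) := by
    rw [hS, hld, hP, hQ]
    ring
  have hsum : s ^ 2 * (4 * S) ≤ 8 * s * l + 24 * (a ^ 2 + b ^ 2) * l := by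
    have h1 : s ^ 2 * (4 * S) - (8 * s * l + 24 * (a ^ 2 + b ^ 2) * l) ≤ 0 := by
      have h2 := add_le_add a2 b2
      refine le_trans (le_of_eq ?_) (h2.trans (by norm_num))
      rw [hS]
      have A1' := A1
      have B1' := B1
      rw [hP] at A1'
      rw [hQ] at B1'
      linear_combination (8 * a) * A1' + (8 * b) * B1'
    linarith
  have hcl : c * l ^ 3 ≤ S * l - (P ^ 2 + Q ^ 2) := by
    rw [lag]
    linarith
  have h3 : s ^ 2 * (4 * (P ^ 2 + Q ^ 2)) = 16 * (a ^ 2 + b ^ 2) * l ^ 2 := by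
    linear_combination (s * (2 * P) + 4 * a * l) * A1 + (s * (-(2 * Q)) + 4 * b * l) * B1
  have h4 : l ^ 2 * (c * (s ^ 2 * l)) ≤ l ^ 2 * (2 * R ^ 2) := by
    have h5 := mul_le_mul_of_nonneg_right hsum hl.le
    have h6 := mul_le_mul_of_nonneg_left hcl (by positivity : (0 : ℝ) ≤ 4 * s ^ 2)
    have h7 : R ^ 2 = s + (a ^ 2 + b ^ 2) := by rw [hsd]; ring
    rw [h7]
    nlinarith [h5, h6, h3]
  exact le_of_mul_le_mul_left h4 (by positivity)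

/-- the estimate at the centre of the disc -/
theorem at_zero (h : Fin 3 → ℂ → ℂ) (hh : ∀ i, Differentiable ℂ (h i)) (c : ℝ) (hc : 0 < c)
    (H : ∀ z, c * (∑ i, ‖h i z‖ ^ 2) ^ 3 ≤ ‖h 1 z * deriv (h 2) z - h 2 z * deriv (h 1) z‖ ^ 2 +
      ‖h 2 z * deriv (h 0) z - h 0 z * deriv (h 2) z‖ ^ 2 + ‖h 0 z * deriv (h 1) z - h 1 z * deriv (h 0) z‖ ^ 2)
    (R : ℝ) (hR : 0 < R) : c * (R ^ 4 * ∑ i, ‖h i 0‖ ^ 2) ≤ 2 * R ^ 2 := by
  have hcont : Continuous fun z : ℂ => (R ^ 2 - ‖z‖ ^ 2) ^ 2 * ∑ i, ‖h i z‖ ^ 2 := by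
    have h1 : ∀ i, Continuous (h i) := fun i => (hh i).continuous
    fun_prop
  obtain ⟨z₀, hz₀, hmax⟩ := (isCompact_closedBall (0 : ℂ) R).exists_isMaxOn
    ⟨0, Metric.mem_closedBall_self hR.le⟩ hcont.continuousOn
  have hmax' : ∀ z ∈ Metric.closedBall (0 : ℂ) R, (R ^ 2 - ‖z‖ ^ 2) ^ 2 * ∑ i, ‖h i z‖ ^ 2 ≤
      (R ^ 2 - ‖z₀‖ ^ 2) ^ 2 * ∑ i, ‖h i z₀‖ ^ 2 := fun z hz => hmax hz
  have h0 := hmax' 0 (Metric.mem_closedBall_self hR.le)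
  have hzR : ‖z₀‖ ≤ R := by simpa using hz₀
  have h0' : R ^ 4 * ∑ i, ‖h i 0‖ ^ 2 ≤ (R ^ 2 - ‖z₀‖ ^ 2) ^ 2 * ∑ i, ‖h i z₀‖ ^ 2 := by
    have h1 : (R ^ 2 - ‖(0 : ℂ)‖ ^ 2) ^ 2 = R ^ 4 := by
      rw [norm_zero]
      ring
    rwa [h1] at h0
  refine (mul_le_mul_of_nonneg_left h0' hc.le).trans ?_
  have hl0 : 0 ≤ ∑ i, ‖h i z₀‖ ^ 2 := Finset.sum_nonneg fun i _ => by positivity
  rcases hl0.eq_or_lt with hl | hl
  · rw [← hl]
    simp only [mul_zero]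
    positivity
  rcases hzR.eq_or_lt with hz | hz
  · rw [hz]
    simp only [sub_self, ne_eq, OfNat.ofNat_ne_zero, not_false_eq_true, zero_pow, zero_mul, mul_zero]
    positivity
  refine at_max h hh c H R z₀ ?_ hl fun ζ => ?_
  · have := norm_nonneg z₀
    nlinarith
  · have hc1 : Continuous fun x : ℝ => z₀ + (x : ℂ) * ζ := by fun_prop
    have h1 : ∀ᶠ x : ℝ in 𝓝 0, z₀ + (x : ℂ) * ζ ∈ Metric.ball (0 : ℂ) R := by
      refine hc1.continuousAt.eventually_mem (Metric.isOpen_ball.mem_nhds ?_)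
      simpa using hz
    filter_upwards [h1] with x hx
    have h2 := hmax' _ (Metric.ball_subset_closedBall hx)
    simpa using h2

/-- LEMMA AHL -/
theorem ahlfors (h : Fin 3 → ℂ → ℂ) (hh : ∀ i, Differentiable ℂ (h i)) (c : ℝ) (hc : 0 < c)
    (H : ∀ z, c * (∑ i, ‖h i z‖ ^ 2) ^ 3 ≤ ‖h 1 z * deriv (h 2) z - h 2 z * deriv (h 1) z‖ ^ 2 +
      ‖h 2 z * deriv (h 0) z - h 0 z * deriv (h 2) z‖ ^ 2 + ‖h 0 z * deriv (h 1) z - h 1 z * deriv (h 0) z‖ ^ 2)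
    (i : Fin 3) (w : ℂ) : h i w = 0 := by
  have hd : ∀ i, Differentiable ℂ fun z => h i (z + w) := fun i => (hh i).comp (by fun_prop)
  have hder : ∀ i z, deriv (fun z => h i (z + w)) z = deriv (h i) (z + w) := fun i z =>
    deriv_comp_add_const (h i) w z
  have h1 : ∀ R : ℝ, 0 < R → c * (R ^ 4 * ∑ i, ‖h i (0 + w)‖ ^ 2) ≤ 2 * R ^ 2 := fun R hR =>
    at_zero (fun i z => h i (z + w)) hd c hc (fun z => by
      simp only [hder]
      exact H (z + w)) R hR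
  have h2 : ∑ i, ‖h i (0 + w)‖ ^ 2 ≤ 0 := by
    by_contra hcon
    push Not at hcon
    set L := ∑ i, ‖h i (0 + w)‖ ^ 2 with hL
    obtain ⟨R, hR⟩ : ∃ R : ℝ, R = Real.sqrt (3 / (c * L)) := ⟨_, rfl⟩
    have hcL : 0 < c * L := mul_pos hc hcon
    have hR0 : 0 < R := by
      rw [hR]
      exact Real.sqrt_pos.2 (by positivity)
    have hR2 : R ^ 2 = 3 / (c * L) := by
      rw [hR, Real.sq_sqrt (by positivity)]
    have h3 := h1 R hR0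
    have h4 : R ^ 2 * (c * L) = 3 := by
      rw [hR2]
      field_simp
    have h5 : c * (R ^ 4 * L) = R ^ 2 * 3 := by
      rw [← h4]
      ring
    rw [h5] at h3
    have : 0 < R ^ 2 := by positivity
    linarith
  have h3 := (Finset.sum_eq_zero_iff_of_nonneg (fun i _ => by positivity)).1
    (le_antisymm h2 (Finset.sum_nonneg fun i _ => by positivity)) i (Finset.mem_univ i)
  have h4 : ‖h i (0 + w)‖ = 0 := by simpa using h3
  rw [zero_add] at h4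
  exact norm_eq_zero.1 h4

end Pool.Agent.QX.Ahl
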