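import Pool.Agent.Lib_MP_1209e6_qk.Core71

/-! From forms in three variables to polynomials in the last variable: the six-lines statement for forms. -/

set_option autoImplicit false

open MvPolynomial

noncomputable section

namespace Pool.Agent.QK29

/-- expansion in the last variable -/
def ex : MvPolynomial (Fin 3) ℂ →ₐ[ℂ] Polynomial (MvPolynomial (Fin 2) ℂ) :=
  (finSuccEquiv ℂ 2 : MvPolynomial (Fin 3) ℂ →ₐ[ℂ] Polynomial (MvPolynomial (Fin 2) ℂ)).comp
    (rename (finRotate 3))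

theorem ex_apply (G : MvPolynomial (Fin 3) ℂ) : ex G = finSuccEquiv ℂ 2 (rename (finRotate 3) G) := rfl

theorem ex_C (c : ℂ) : ex (C c) = Polynomial.C (C c) := by
  rw [ex_apply, rename_C, finSuccEquiv_apply]
  simp

theorem ex_X0 : ex (X 0) = Polynomial.C (X 0) := by
  rw [ex_apply, rename_X]
  exact finSuccEquiv_X_succ (j := (0 : Fin 2))

theorem ex_X1 : ex (X 1) = Polynomial.C (X 1) := by
  rw [ex_apply, rename_X]
  exact finSuccEquiv_X_succ (j := (1 : Fin 2))

theorem ex_X2 : ex (X 2) = Polynomial.X := by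
  rw [ex_apply, rename_X]
  exact finSuccEquiv_X_zero

theorem ex_deg {G : MvPolynomial (Fin 3) ℂ} {d : ℕ} (hG : G.IsHomogeneous d) : (ex G).natDegree ≤ d := by
  rw [ex_apply, natDegree_finSuccEquiv]
  exact (degreeOf_le_totalDegree _ _).trans (hG.rename_isHomogeneous (f := finRotate 3)).totalDegree_le

theorem ex_hom {G : MvPolynomial (Fin 3) ℂ} {d : ℕ} (hG : G.IsHomogeneous d) (k : ℕ) :
    ((ex G).coeff k).IsHomogeneous (d - k) := by
  by_cases hk : k ≤ d
  · exact (hG.rename_isHomogeneous (f := finRotate 3)).finSuccEquiv_coeff_isHomogeneous k (d - k) (by omega)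
  · rw [Polynomial.coeff_eq_zero_of_natDegree_lt (lt_of_le_of_lt (ex_deg hG) (by omega))]
    exact isHomogeneous_zero _ _ _

theorem eval_ex (y : Fin 3 → ℂ) (G : MvPolynomial (Fin 3) ℂ) :
    eval y G = ((ex G).eval₂ (eval (![y 0, y 1] : Fin 2 → ℂ)) (y 2)) := by
  have h : (eval y : MvPolynomial (Fin 3) ℂ →+* ℂ) =
      (Polynomial.eval₂RingHom (eval (![y 0, y 1] : Fin 2 → ℂ)) (y 2)).comp
        (ex : MvPolynomial (Fin 3) ℂ →+* Polynomial (MvPolynomial (Fin 2) ℂ)) := by
    apply MvPolynomial.ringHom_ext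
    · intro c
      simp only [RingHom.comp_apply, RingHom.coe_coe, ex_C]
      simp
    · intro j
      fin_cases j
      · simp only [RingHom.comp_apply, RingHom.coe_coe, Fin.zero_eta, ex_X0]
        simp
      · simp only [RingHom.comp_apply, RingHom.coe_coe, Fin.mk_one, ex_X1]
        simp
      · simp only [RingHom.comp_apply, RingHom.coe_coe, Fin.reduceFinMk, ex_X2]
        simp
  exact DFunLike.congr_fun h G

/-- the linear form `u x + w y` -/
def lin2 (u w : ℂ) : MvPolynomial (Fin 2) ℂ := C u * X 0 + C w * X 1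

theorem lin2_hom (u w : ℂ) : (lin2 u w).IsHomogeneous 1 := by
  have h : ∀ (c : ℂ) (i : Fin 2), (C c * X i : MvPolynomial (Fin 2) ℂ).IsHomogeneous 1 := fun c i => by
    simpa using (isHomogeneous_C (Fin 2) c).mul (isHomogeneous_X ℂ i)
  exact (h u 0).add (h w 1)

theorem coeff_lin2 (u w : ℂ) : coeff (Finsupp.single 0 1) (lin2 u w) = u ∧
    coeff (Finsupp.single 1 1) (lin2 u w) = w := by
  constructor
  · simp [lin2, coeff_C_mul, coeff_X, Finsupp.single_left_inj]
  · simp [lin2, coeff_C_mul, coeff_X, Finsupp.single_left_inj]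

theorem lin2_ne {u w : ℂ} (h : u ≠ 0 ∨ w ≠ 0) : lin2 u w ≠ 0 := by
  intro h0
  obtain ⟨h1, h2⟩ := coeff_lin2 u w
  rw [h0, coeff_zero] at h1 h2
  rcases h with h | h
  · exact h h1.symm
  · exact h h2.symm

theorem lin2_irr {u w : ℂ} (h : u ≠ 0 ∨ w ≠ 0) : Irreducible (lin2 u w) := by
  apply irreducible_of_totalDegree_eq_one ((lin2_hom u w).totalDegree (lin2_ne h))
  intro x hx
  obtain ⟨h1, h2⟩ := coeff_lin2 u w
  have h3 := hx (Finsupp.single 0 1)
  have h4 := hx (Finsupp.single 1 1)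
  rw [h1] at h3
  rw [h2] at h4
  have hx0 : x ≠ 0 := by
    rintro rfl
    rcases h with h | h
    · exact h (zero_dvd_iff.1 h3)
    · exact h (zero_dvd_iff.1 h4)
  exact isUnit_iff_ne_zero.2 hx0

theorem lin2_rel {u w u' w' : ℂ} (h : u * w' - u' * w ≠ 0) : IsRelPrime (lin2 u w) (lin2 u' w') := by
  have h1 : u ≠ 0 ∨ w ≠ 0 := by
    by_contra hc
    push Not at hc
    apply h
    rw [hc.1, hc.2]
    ring
  rw [(lin2_irr h1).isRelPrime_iff_not_dvd]
  rintro ⟨q, hq⟩
  have h2 : u' ≠ 0 ∨ w' ≠ 0 := by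
    by_contra hc
    push Not at hc
    apply h
    rw [hc.1, hc.2]
    ring
  have hq0 : q ≠ 0 := by
    rintro rfl
    exact lin2_ne h2 (by rw [hq, mul_zero])
  have h3 := congrArg totalDegree hq
  rw [totalDegree_mul_of_isDomain (lin2_ne h1) hq0, (lin2_hom u w).totalDegree (lin2_ne h1),
    (lin2_hom u' w').totalDegree (lin2_ne h2)] at h3
  have h4 : q.totalDegree = 0 := by omega
  rw [totalDegree_eq_zero_iff_eq_C] at h4
  obtain ⟨r, hr⟩ : ∃ r : ℂ, q = C r := ⟨_, h4⟩
  rw [hr, mul_comm] at hq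
  have e1 := congrArg (coeff (Finsupp.single 0 1)) hq
  have e2 := congrArg (coeff (Finsupp.single 1 1)) hq
  rw [coeff_C_mul, (coeff_lin2 u w).1, (coeff_lin2 u' w').1] at e1
  rw [coeff_C_mul, (coeff_lin2 u w).2, (coeff_lin2 u' w').2] at e2
  apply h
  rw [e1, e2]
  ring

theorem six_sqfree (c : ℂ) (hc : c ≠ 0) (u w : Fin 6 → ℂ) (hL : ∀ i j, i ≠ j → u i * w j - u j * w i ≠ 0) :
    Squarefree (C c * ∏ i, lin2 (u i) (w i)) := by
  have h1 : Squarefree (∏ i, lin2 (u i) (w i)) := by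
    apply Finset.squarefree_prod_of_pairwise_isCoprime
    · intro i _ j _ hij
      exact lin2_rel (hL i j hij)
    · intro i _
      apply (lin2_irr ?_).squarefree
      by_contra hcon
      push Not at hcon
      obtain ⟨j, hj⟩ : ∃ j : Fin 6, i ≠ j := by
        rcases eq_or_ne i 0 with h | h
        · exact ⟨1, by rw [h]; decide⟩
        · exact ⟨0, h⟩
      apply hL i j hj
      rw [hcon.1, hcon.2]
      ring
  have h2 : IsUnit (C c : MvPolynomial (Fin 2) ℂ) := (isUnit_iff_ne_zero.2 hc).map C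
  exact ((associated_unit_mul_left (∏ i, lin2 (u i) (w i)) (C c) h2).squarefree_iff).2 h1

/-- forms `A, B, E` of degrees 2, 3, 4 such that `B² - 4AE` is the product of six different lines through
`(0, 0, 1)` -/
theorem six_cone {A B E : MvPolynomial (Fin 3) ℂ} (hA : A.IsHomogeneous 2) (hB : B.IsHomogeneous 3)
    (hE : E.IsHomogeneous 4) (c : ℂ) (hc : c ≠ 0) (u w : Fin 6 → ℂ)
    (hL : ∀ i j, i ≠ j → u i * w j - u j * w i ≠ 0)
    (hD : B ^ 2 - C 4 * (A * E) = C c * ∏ i, (C (u i) * X 0 + C (w i) * X 1)) :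
    ∃ β : ℂ, ∀ y : Fin 3 → ℂ, eval (y + Pi.single 2 1) A = eval y A ∧
      eval (y + Pi.single 2 1) B = eval y B - 2 * β * eval y A ∧
      eval (y + Pi.single 2 1) E = eval y E - β * eval y B + β ^ 2 * eval y A := by
  have hg : (C c * ∏ i, lin2 (u i) (w i)).IsHomogeneous 6 := by
    have h := (isHomogeneous_C (Fin 2) c).mul
      (IsHomogeneous.prod Finset.univ (fun i : Fin 6 => lin2 (u i) (w i)) (fun _ => 1) fun i _ => lin2_hom _ _)
    simpa using h
  have hD' : ex B ^ 2 - 4 * (ex A * ex E) = Polynomial.C (C c * ∏ i, lin2 (u i) (w i)) := by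
    have h := congrArg ex hD
    simp only [map_sub, map_pow, map_mul, map_prod, map_add, ex_C, ex_X0, ex_X1] at h
    simp only [lin2, map_mul, map_prod, map_add]
    rw [← h]
    have h4 : (Polynomial.C (C 4) : Polynomial (MvPolynomial (Fin 2) ℂ)) = 4 := by
      have h5 : (C (4 : ℂ) : MvPolynomial (Fin 2) ℂ) = 4 := map_ofNat C 4
      rw [h5]
      exact map_ofNat Polynomial.C 4
    rw [h4]
  obtain ⟨m, a, b, e, h1, h2, h3⟩ := Pool.Agent.QK71.six_core (ex A) (ex B) (ex E) _ (ex_hom hA) (ex_deg hA)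
    (ex_hom hB) (ex_deg hB) (ex_hom hE) (ex_deg hE) hg (six_sqfree c hc u w hL) hD'
  refine ⟨-m, fun y => ?_⟩
  have hy : (![(y + Pi.single 2 1 : Fin 3 → ℂ) 0, (y + Pi.single 2 1 : Fin 3 → ℂ) 1] : Fin 2 → ℂ) =
      ![y 0, y 1] := by
    simp
  have hy2 : (y + Pi.single 2 1 : Fin 3 → ℂ) 2 = y 2 + 1 := by
    simp
  simp only [eval_ex _ A, eval_ex _ B, eval_ex _ E, h1, h2, h3, hy, hy2]
  simp only [Polynomial.eval₂_add, Polynomial.eval₂_mul, Polynomial.eval₂_pow, Polynomial.eval₂_C,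
    Polynomial.eval₂_X, map_mul, eval_C, map_pow]
  refine ⟨trivial, ?_, ?_⟩
  · ring
  · ring

end Pool.Agent.QK29
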