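import Pool.Agent.Lib_MP_1209e6_qk.Red29
import Pool.Agent.Lib_MP_1209e6_qk.Cone29

/-! Quartic surfaces with a singular point which are not cones are special and Brody-special. -/

set_option autoImplicit false

open MvPolynomial

namespace Pool.Agent.QK

open Pool.Agent.Campana Pool.Agent.CampanaFlow

theorem six_cone29 : Pool.Agent.QS.SixCone := by
  intro A B E hA hB hE c hc u w hL hD
  exact Pool.Agent.QK29.six_cone hA hB hE c hc u w hL hD

/-- a projective model of an irreducible quartic surface which has a singular point and is not a cone is special and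
Brody-special -/
theorem singular_both29 {F : MvPolynomial (Fin 4) ℂ} (hF : F.IsHomogeneous 4) (hi : Irreducible F)
    (a : Fin 4 → ℂ) (ha : a ≠ 0) (hs : ∀ j, eval a (pderiv j F) = 0)
    (hc : ∀ b : Fin 4 → ℂ, b ≠ 0 → ∃ x : Fin 4 → ℂ, eval (x + b) F ≠ eval x F) {n : ℕ}
    (P : Ideal (MvPolynomial (Fin (n + 1)) ℂ)) [P.IsPrime] (hP : IsVariety P)
    (hK : Pool.Agent.QX.IsQuartic (FunField P) F) : SpecialField (FunField P) ∧ BrodySpecial P :=
  Pool.Agent.QS.singular_both_of six_cone29 hF hi a ha hs hc P hP hK

end Pool.Agent.QK
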