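import Pool.Agent.Lib_MP_1209e6_ds.Coef
import Pool.Agent.Lib_MP_1209e6_qx.Model

/-! The double plane of an irreducible quartic surface with a double point is not branched in six concurrent
lines, unless the surface is a cone: the algebraic part. -/

set_option autoImplicit false

open MvPolynomial

noncomputable section

namespace Pool.Agent.QK

/-- the line in the direction of the third variable -/
def zl (x y : ℂ) : Fin 3 → Polynomial ℂ := ![Polynomial.C x, Polynomial.C y, Polynomial.X]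

theorem zl_eval (x y s : ℂ) (R : MvPolynomial (Fin 3) ℂ) :
    Polynomial.eval s (aeval (zl x y) R) = eval ![x, y, s] R := by
  have h1 : Polynomial.eval s (aeval (zl x y) R) = Polynomial.aeval s (aeval (zl x y) R) := by
    rw [Polynomial.coe_aeval_eq_eval]
  rw [h1, comp_aeval_apply, ← coe_aeval_eq_eval]
  have h2 : (fun i => Polynomial.aeval s (zl x y i)) = ![x, y, s] := by
    funext i
    fin_cases i <;> simp [zl]
  rw [h2]
  rfl

theorem zl_der (x y : ℂ) (R : MvPolynomial (Fin 3) ℂ) :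
    Polynomial.derivative (aeval (zl x y) R) = aeval (zl x y) (pderiv 2 R) := by
  have h1 := Pool.Agent.DS.chain (Polynomial.derivative' : Derivation ℂ (Polynomial ℂ) (Polynomial ℂ)) (zl x y) R
  rw [Fin.sum_univ_three] at h1
  simpa [zl] using h1

theorem const_z {x y k : ℂ} {R : MvPolynomial (Fin 3) ℂ} (h : ∀ z, eval ![x, y, z] R = k) (z : ℂ) :
    eval ![x, y, z] (pderiv 2 R) = 0 := by
  have h1 : aeval (zl x y) R = Polynomial.C k := by
    apply Polynomial.funext
    intro s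
    rw [zl_eval, h, Polynomial.eval_C]
  rw [← zl_eval, ← zl_der, h1]
  simp

theorem sq_const {x y k : ℂ} {R : MvPolynomial (Fin 3) ℂ} (h : ∀ z, eval ![x, y, z] R ^ 2 = k) :
    ∃ l, ∀ z, eval ![x, y, z] R = l := by
  have h1 : (aeval (zl x y) R) ^ 2 = Polynomial.C k := by
    apply Polynomial.funext
    intro s
    rw [Polynomial.eval_pow, zl_eval, h, Polynomial.eval_C]
  have h2 : (aeval (zl x y) R).natDegree = 0 := by
    have h3 := congrArg Polynomial.natDegree h1
    rw [Polynomial.natDegree_pow, Polynomial.natDegree_C] at h3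
    omega
  refine ⟨(aeval (zl x y) R).coeff 0, fun z => ?_⟩
  rw [← zl_eval, Polynomial.eq_C_of_natDegree_eq_zero h2]
  simp

theorem vec3 (y : Fin 3 → ℂ) : y = ![y 0, y 1, y 2] := by
  funext i
  fin_cases i <;> rfl

/-- a polynomial whose derivative in the third variable vanishes does not depend on the third variable -/
theorem no_z {R : MvPolynomial (Fin 3) ℂ} (h : pderiv 2 R = 0) (x y z z' : ℂ) :
    eval ![x, y, z] R = eval ![x, y, z'] R := by
  have h1 : Polynomial.derivative (aeval (zl x y) R) = 0 := by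
    rw [zl_der, h, map_zero]
  have h2 := Polynomial.eq_C_of_natDegree_eq_zero (Polynomial.natDegree_eq_zero_of_derivative_eq_zero h1)
  rw [← zl_eval, ← zl_eval, h2]
  simp

/-- the product of the six lines -/
def six (c : ℂ) (u w : Fin 6 → ℂ) : MvPolynomial (Fin 3) ℂ := C c * ∏ i, (C (u i) * X 0 + C (w i) * X 1)

theorem six_z (c : ℂ) (u w : Fin 6 → ℂ) : pderiv 2 (six c u w) = 0 := by
  have h : ∀ i, pderiv 2 (C (u i) * X 0 + C (w i) * X 1 : MvPolynomial (Fin 3) ℂ) = 0 := by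
    intro i
    simp [Derivation.leibniz, pderiv_X]
  rw [six, Derivation.leibniz, Fin.prod_univ_six]
  simp only [Derivation.leibniz, h]
  simp

theorem six_eval (c : ℂ) (u w : Fin 6 → ℂ) (y : Fin 3 → ℂ) :
    eval y (six c u w) = c * ∏ i, (u i * y 0 + w i * y 1) := by
  simp [six, map_prod]

theorem line_ne {u w : Fin 6 → ℂ} (hL : ∀ i j, i ≠ j → u i * w j - u j * w i ≠ 0) {i k : Fin 6} (hik : k ≠ i)
    {x y : ℂ} (hxy : ¬ (x = 0 ∧ y = 0)) (h : u i * x + w i * y = 0) : u k * x + w k * y ≠ 0 := by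
  intro hk
  apply hxy
  have h1 := hL i k hik.symm
  constructor
  · apply (mul_eq_zero.1 (show (u i * w k - u k * w i) * x = 0 by linear_combination w k * h - w i * hk)).resolve_left h1
  · apply (mul_eq_zero.1 (show (u i * w k - u k * w i) * y = 0 by linear_combination u i * hk - u k * h)).resolve_left h1

/-- the derivatives of the product at a point of one of the lines -/
theorem six_der {c : ℂ} (hc : c ≠ 0) {u w : Fin 6 → ℂ} (hL : ∀ i j, i ≠ j → u i * w j - u j * w i ≠ 0)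
    (i : Fin 6) (y : Fin 3 → ℂ) (hy : ¬ (y 0 = 0 ∧ y 1 = 0)) (h : u i * y 0 + w i * y 1 = 0) :
    ∃ g : ℂ, g ≠ 0 ∧ eval y (pderiv 0 (six c u w)) = u i * g ∧ eval y (pderiv 1 (six c u w)) = w i * g := by
  classical
  let G : MvPolynomial (Fin 3) ℂ := C c * ∏ k ∈ Finset.univ.erase i, (C (u k) * X 0 + C (w k) * X 1)
  have hG : six c u w = (C (u i) * X 0 + C (w i) * X 1) * G := by
    rw [six, ← Finset.mul_prod_erase Finset.univ _ (Finset.mem_univ i)]
    simp only [G]
    ring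
  refine ⟨eval y G, ?_, ?_, ?_⟩
  · simp only [G, map_mul, map_prod, eval_C]
    refine mul_ne_zero hc (Finset.prod_ne_zero_iff.2 fun k hk => ?_)
    have := line_ne hL (Finset.ne_of_mem_erase hk) hy h
    simpa using this
  · rw [hG, Derivation.leibniz]
    simp [Derivation.leibniz, pderiv_X, h]
    ring
  · rw [hG, Derivation.leibniz]
    simp [Derivation.leibniz, pderiv_X, h]
    ring

theorem line_nz {u w : Fin 6 → ℂ} (hL : ∀ i j, i ≠ j → u i * w j - u j * w i ≠ 0) (i : Fin 6) :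
    ¬ (u i = 0 ∧ w i = 0) := by
  rintro ⟨h1, h2⟩
  obtain ⟨j, hj⟩ : ∃ j : Fin 6, i ≠ j := by
    by_cases h : i = 0
    · exact ⟨1, by rw [h]; decide⟩
    · exact ⟨0, h⟩
  apply hL i j hj
  rw [h1, h2]
  ring

section core

variable {A B E : MvPolynomial (Fin 3) ℂ} {c : ℂ} {u w : Fin 6 → ℂ}

/-- the derivatives of the identity -/
theorem id_der (hD : B ^ 2 - C 4 * (A * E) = six c u w) (j : Fin 3) (y : Fin 3 → ℂ) :
    2 * eval y B * eval y (pderiv j B) - 4 * (eval y (pderiv j A) * eval y E + eval y A * eval y (pderiv j E)) =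
      eval y (pderiv j (six c u w)) := by
  rw [← hD]
  simp only [map_sub, Derivation.leibniz, Derivation.leibniz_pow, pderiv_C, smul_eq_mul, map_mul, map_add, eval_C,
    nsmul_eq_mul, map_pow, mul_zero, add_zero, zero_mul]
  simp
  ring

/-- a point of a line and of the conic `A = 0` -/
theorem at_line (hc : c ≠ 0) (hL : ∀ i j, i ≠ j → u i * w j - u j * w i ≠ 0)
    (hD : B ^ 2 - C 4 * (A * E) = six c u w) (i : Fin 6) (y : Fin 3 → ℂ) (hy : ¬ (y 0 = 0 ∧ y 1 = 0))
    (h : u i * y 0 + w i * y 1 = 0) (hA0 : eval y A = 0) :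
    eval y (pderiv 2 A) = 0 ∧ (eval y (pderiv 0 A) ≠ 0 ∨ eval y (pderiv 1 A) ≠ 0) := by
  obtain ⟨g, hg, h0, h1⟩ := six_der hc hL i y hy h
  have hB : eval y B = 0 := by
    have h2 := congrArg (eval y) hD
    rw [six_eval, Finset.prod_eq_zero (Finset.mem_univ i) h] at h2
    simp only [map_sub, map_pow, map_mul, eval_C, hA0, zero_mul, mul_zero, sub_zero] at h2
    exact pow_eq_zero_iff (two_ne_zero) |>.1 h2
  have d0 := id_der hD 0 y
  have d1 := id_der hD 1 y
  have d2 := id_der hD 2 y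
  rw [hB, hA0] at d0 d1 d2
  rw [h0] at d0
  rw [h1] at d1
  rw [six_z, map_zero] at d2
  have hE : eval y E ≠ 0 := by
    intro hE
    rw [hE] at d0 d1
    apply line_nz hL i
    constructor
    · exact (mul_eq_zero.1 (show u i * g = 0 by rw [← d0]; ring)).resolve_right hg
    · exact (mul_eq_zero.1 (show w i * g = 0 by rw [← d1]; ring)).resolve_right hg
  refine ⟨?_, ?_⟩
  · exact (mul_eq_zero.1 (show eval y (pderiv 2 A) * eval y E = 0 by linear_combination (-1 / 4) * d2)).resolve_right hE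
  · by_contra hcon
    push Not at hcon
    rw [hcon.1] at d0
    rw [hcon.2] at d1
    apply line_nz hL i
    constructor
    · exact (mul_eq_zero.1 (show u i * g = 0 by rw [← d0]; ring)).resolve_right hg
    · exact (mul_eq_zero.1 (show w i * g = 0 by rw [← d1]; ring)).resolve_right hg

/-- a quadratic form in coordinates -/
def qf (a : Fin 6 → ℂ) : MvPolynomial (Fin 3) ℂ :=
  C (a 0) * X 0 ^ 2 + C (a 1) * (X 0 * X 1) + C (a 2) * X 1 ^ 2 + C (a 3) * (X 0 * X 2) + C (a 4) * (X 1 * X 2) +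
    C (a 5) * X 2 ^ 2

theorem qf_eval (a : Fin 6 → ℂ) (p : Fin 3 → ℂ) : eval p (qf a) = a 0 * p 0 ^ 2 + a 1 * (p 0 * p 1) +
    a 2 * p 1 ^ 2 + a 3 * (p 0 * p 2) + a 4 * (p 1 * p 2) + a 5 * p 2 ^ 2 := by
  simp [qf]

theorem exists_qf (hA : A.IsHomogeneous 2) : ∃ a : Fin 6 → ℂ, A = qf a := by
  obtain ⟨a, -, ha⟩ := Pool.Agent.QX.quad_expand A hA
  refine ⟨a, MvPolynomial.funext fun p => ?_⟩
  rw [ha, qf_eval]

theorem qf_0 (a : Fin 6 → ℂ) (p : Fin 3 → ℂ) :
    eval p (pderiv 0 (qf a)) = 2 * a 0 * p 0 + a 1 * p 1 + a 3 * p 2 := by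
  simp [qf, Derivation.leibniz, Derivation.leibniz_pow, pderiv_X]
  ring

theorem qf_1 (a : Fin 6 → ℂ) (p : Fin 3 → ℂ) :
    eval p (pderiv 1 (qf a)) = a 1 * p 0 + 2 * a 2 * p 1 + a 4 * p 2 := by
  simp [qf, Derivation.leibniz, Derivation.leibniz_pow, pderiv_X]
  ring

theorem qf_2 (a : Fin 6 → ℂ) (p : Fin 3 → ℂ) :
    eval p (pderiv 2 (qf a)) = a 3 * p 0 + a 4 * p 1 + 2 * a 5 * p 2 := by
  simp [qf, Derivation.leibniz, Derivation.leibniz_pow, pderiv_X]
  ring

/-- the conic `A = 0` consists of lines through the common point -/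
theorem step1 (hc : c ≠ 0) (hL : ∀ i j, i ≠ j → u i * w j - u j * w i ≠ 0) {a : Fin 6 → ℂ}
    (hD : B ^ 2 - C 4 * (qf a * E) = six c u w) : a 3 = 0 ∧ a 4 = 0 ∧ a 5 = 0 := by
  have hv : ∀ (i : Fin 6) (t : ℂ), ¬ ((![w i, -u i, t] : Fin 3 → ℂ) 0 = 0 ∧ (![w i, -u i, t] : Fin 3 → ℂ) 1 = 0) := by
    intro i t h
    apply line_nz hL i
    refine ⟨?_, ?_⟩
    · simpa using h.2
    · simpa using h.1
  have key : ∀ (i : Fin 6) (t : ℂ), a 0 * w i ^ 2 + a 1 * (w i * (-u i)) + a 2 * (-u i) ^ 2 + a 3 * (w i * t) +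
      a 4 * (-u i * t) + a 5 * t ^ 2 = 0 → a 3 * w i - a 4 * u i + 2 * a 5 * t = 0 ∧
        (2 * a 0 * w i + a 1 * (-u i) + a 3 * t ≠ 0 ∨ a 1 * w i + 2 * a 2 * (-u i) + a 4 * t ≠ 0) := by
    intro i t h
    have h1 := at_line hc hL hD i ![w i, -u i, t] (hv i t)
      (by simp only [Matrix.cons_val_zero, Matrix.cons_val_one]; ring)
      (by rw [qf_eval]; simpa using h)
    rw [qf_0, qf_1, qf_2] at h1
    simp only [Matrix.cons_val_zero, Matrix.cons_val_one, Matrix.cons_val] at h1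
    refine ⟨by linear_combination h1.1, h1.2⟩
  by_cases h5 : a 5 = 0
  · have h34 : ∀ i, a 3 * w i - a 4 * u i = 0 := by
      intro i
      by_contra hne
      obtain ⟨t, ht⟩ : ∃ t, (a 3 * w i - a 4 * u i) * t = -(a 0 * w i ^ 2 + a 1 * (w i * (-u i)) + a 2 * (-u i) ^ 2) :=
        ⟨(a 3 * w i - a 4 * u i)⁻¹ * -(a 0 * w i ^ 2 + a 1 * (w i * (-u i)) + a 2 * (-u i) ^ 2), by
          rw [← mul_assoc, mul_inv_cancel₀ hne, one_mul]⟩
      obtain ⟨h, -⟩ := key i t (by rw [h5]; linear_combination ht)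
      rw [h5] at h
      apply hne
      linear_combination h
    have h1 := h34 0
    have h2 := h34 1
    have h3 := hL 0 1 (by decide)
    refine ⟨?_, ?_, h5⟩
    · exact (mul_eq_zero.1 (show (u 0 * w 1 - u 1 * w 0) * a 3 = 0 by
        linear_combination u 0 * h2 - u 1 * h1)).resolve_left h3
    · exact (mul_eq_zero.1 (show (u 0 * w 1 - u 1 * w 0) * a 4 = 0 by
        linear_combination w 0 * h2 - w 1 * h1)).resolve_left h3
  · exfalso
    -- the discriminant vanishes at the six directions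
    have hroot : ∀ i, ∃ t, a 0 * w i ^ 2 + a 1 * (w i * (-u i)) + a 2 * (-u i) ^ 2 + a 3 * (w i * t) +
        a 4 * (-u i * t) + a 5 * t ^ 2 = 0 := by
      intro i
      obtain ⟨δ, hδ⟩ := IsAlgClosed.exists_pow_nat_eq ((a 3 * w i - a 4 * u i) ^ 2 - 4 * a 5 *
        (a 0 * w i ^ 2 + a 1 * (w i * (-u i)) + a 2 * (-u i) ^ 2)) (n := 2) (by norm_num)
      refine ⟨(δ - (a 3 * w i - a 4 * u i)) / (2 * a 5), ?_⟩
      field_simp
      linear_combination hδ
    have hdisc : ∀ i, (a 3 ^ 2 - 4 * a 5 * a 0) * w i ^ 2 - (2 * a 3 * a 4 - 4 * a 5 * a 1) * (w i * u i) +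
        (a 4 ^ 2 - 4 * a 5 * a 2) * u i ^ 2 = 0 := by
      intro i
      obtain ⟨t, ht⟩ := hroot i
      obtain ⟨h1, -⟩ := key i t ht
      linear_combination (a 3 * w i - a 4 * u i + 2 * a 5 * t) * h1 - 4 * a 5 * ht
    obtain ⟨t, ht⟩ := hroot 0
    obtain ⟨h1, h2⟩ := key 0 t ht
    have hz : a 3 ^ 2 - 4 * a 5 * a 0 = 0 ∧ 2 * a 3 * a 4 - 4 * a 5 * a 1 = 0 ∧ a 4 ^ 2 - 4 * a 5 * a 2 = 0 := by
      have e0 := hdisc 0
      have e1 := hdisc 1
      have e2 := hdisc 2
      have n01 := hL 0 1 (by decide)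
      have n02 := hL 0 2 (by decide)
      have n12 := hL 1 2 (by decide)
      have hn : (u 0 * w 1 - u 1 * w 0) * (u 0 * w 2 - u 2 * w 0) * (u 1 * w 2 - u 2 * w 1) ≠ 0 :=
        mul_ne_zero (mul_ne_zero n01 n02) n12
      generalize a 3 ^ 2 - 4 * a 5 * a 0 = p at e0 e1 e2 ⊢
      generalize 2 * a 3 * a 4 - 4 * a 5 * a 1 = q at e0 e1 e2 ⊢
      generalize a 4 ^ 2 - 4 * a 5 * a 2 = r at e0 e1 e2 ⊢
      refine ⟨?_, ?_, ?_⟩
      · exact (mul_eq_zero.1 (show (u 0 * w 1 - u 1 * w 0) * (u 0 * w 2 - u 2 * w 0) * (u 1 * w 2 - u 2 * w 1) * p = 0 by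
          linear_combination u 1 * u 2 * (u 1 * w 2 - u 2 * w 1) * e0 - u 0 * u 2 * (u 0 * w 2 - u 2 * w 0) * e1 +
            u 0 * u 1 * (u 0 * w 1 - u 1 * w 0) * e2)).resolve_left hn
      · exact (mul_eq_zero.1 (show (u 0 * w 1 - u 1 * w 0) * (u 0 * w 2 - u 2 * w 0) * (u 1 * w 2 - u 2 * w 1) * q = 0 by
          linear_combination (u 1 * w 2 + u 2 * w 1) * (u 1 * w 2 - u 2 * w 1) * e0 -
            (u 0 * w 2 + u 2 * w 0) * (u 0 * w 2 - u 2 * w 0) * e1 +
            (u 0 * w 1 + u 1 * w 0) * (u 0 * w 1 - u 1 * w 0) * e2)).resolve_left hn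
      · exact (mul_eq_zero.1 (show (u 0 * w 1 - u 1 * w 0) * (u 0 * w 2 - u 2 * w 0) * (u 1 * w 2 - u 2 * w 1) * r = 0 by
          linear_combination w 1 * w 2 * (u 1 * w 2 - u 2 * w 1) * e0 - w 0 * w 2 * (u 0 * w 2 - u 2 * w 0) * e1 +
            w 0 * w 1 * (u 0 * w 1 - u 1 * w 0) * e2)).resolve_left hn
    rcases h2 with h2 | h2
    · apply h2
      have h3 : 4 * a 5 * (2 * a 0 * w 0 + a 1 * (-u 0) + a 3 * t) = 0 := by
        linear_combination 2 * a 3 * h1 - 2 * w 0 * hz.1 + u 0 * hz.2.1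
      exact (mul_eq_zero.1 h3).resolve_left (mul_ne_zero (by norm_num) h5)
    · apply h2
      have h3 : 4 * a 5 * (a 1 * w 0 + 2 * a 2 * (-u 0) + a 4 * t) = 0 := by
        linear_combination 2 * a 4 * h1 - w 0 * hz.2.1 + 2 * u 0 * hz.2.2
      exact (mul_eq_zero.1 h3).resolve_left (mul_ne_zero (by norm_num) h5)

theorem pderiv_comm (i j : Fin 3) (R : MvPolynomial (Fin 3) ℂ) :
    pderiv i (pderiv j R) = pderiv j (pderiv i R) := by
  have h : ⁅(pderiv i : Derivation ℂ (MvPolynomial (Fin 3) ℂ) (MvPolynomial (Fin 3) ℂ)),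
      (pderiv j : Derivation ℂ (MvPolynomial (Fin 3) ℂ) (MvPolynomial (Fin 3) ℂ))⁆ = 0 := by
    refine MvPolynomial.derivation_ext fun k => ?_
    rw [Derivation.commutator_apply, pderiv_X, pderiv_X, Derivation.zero_apply]
    simp only [Pi.single_apply]
    split_ifs <;> simp
  have h2 := congrArg (fun D => D R) h
  rw [Derivation.commutator_apply, Derivation.zero_apply, sub_eq_zero] at h2
  exact h2

/-- a binary quadratic form is a product of two linear forms -/
theorem exists_split (a0 a1 a2 : ℂ) : ∃ r1 s1 r2 s2 : ℂ, a0 = r1 * r2 ∧ a1 = r1 * s2 + r2 * s1 ∧ a2 = s1 * s2 := by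
  by_cases h : a0 = 0
  · exact ⟨0, 1, a1, a2, by rw [h]; ring, by ring, by ring⟩
  · obtain ⟨δ, hδ⟩ := IsAlgClosed.exists_pow_nat_eq (a1 ^ 2 - 4 * a0 * a2) (n := 2) (by norm_num)
    refine ⟨a0, (a1 + δ) / 2, 1, (a1 - δ) / (2 * a0), by ring, ?_, ?_⟩
    · field_simp
      ring
    · field_simp
      linear_combination hδ

/-- the derivative of `B` in the third variable is a multiple of `A` -/
theorem step2 (hc : c ≠ 0) (hL : ∀ i j, i ≠ j → u i * w j - u j * w i ≠ 0) {a e : Fin 6 → ℂ}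
    (h3 : a 3 = 0) (h4 : a 4 = 0) (h5 : a 5 = 0) (hA0 : ¬ (a 0 = 0 ∧ a 1 = 0 ∧ a 2 = 0))
    (hD : B ^ 2 - C 4 * (qf a * E) = six c u w) (hB : pderiv 2 B = qf e) :
    ∃ l : ℂ, qf e = C l * qf a := by
  obtain ⟨r1, s1, r2, s2, f0, f1, f2⟩ := exists_split (a 0) (a 1) (a 2)
  have n1 : ¬ (r1 = 0 ∧ s1 = 0) := by
    rintro ⟨h, h'⟩
    exact hA0 ⟨by rw [f0, h]; ring, by rw [f1, h, h']; ring, by rw [f2, h']; ring⟩
  have n2 : ¬ (r2 = 0 ∧ s2 = 0) := by
    rintro ⟨h, h'⟩
    exact hA0 ⟨by rw [f0, h]; ring, by rw [f1, h, h']; ring, by rw [f2, h']; ring⟩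
  have hAz : ∀ x y z : ℂ, eval ![x, y, z] (qf a) = a 0 * x ^ 2 + a 1 * (x * y) + a 2 * y ^ 2 := by
    intro x y z
    rw [qf_eval, h3, h4, h5]
    simp
  -- at a root of `A`, the form `B` does not depend on `z`
  have hBc : ∀ x y : ℂ, a 0 * x ^ 2 + a 1 * (x * y) + a 2 * y ^ 2 = 0 → ∃ l, ∀ z, eval ![x, y, z] B = l := by
    intro x y h
    apply sq_const (k := eval ![x, y, 0] (six c u w))
    intro z
    rw [no_z (six_z c u w) x y 0 z, ← hD, map_sub, map_pow, map_mul, map_mul, hAz, h]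
    ring
  have hQ : ∀ x y : ℂ, a 0 * x ^ 2 + a 1 * (x * y) + a 2 * y ^ 2 = 0 → ∀ z, eval ![x, y, z] (qf e) = 0 := by
    intro x y h z
    obtain ⟨l, hl⟩ := hBc x y h
    rw [← hB]
    exact const_z hl z
  have hQ' : ∀ x y : ℂ, a 0 * x ^ 2 + a 1 * (x * y) + a 2 * y ^ 2 = 0 → e 5 = 0 ∧ e 3 * x + e 4 * y = 0 ∧
      e 0 * x ^ 2 + e 1 * (x * y) + e 2 * y ^ 2 = 0 := by
    intro x y h
    have g0 := hQ x y h 0
    have g1 := hQ x y h 1
    have g2 := hQ x y h (-1)
    rw [qf_eval] at g0 g1 g2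
    simp only [Matrix.cons_val_zero, Matrix.cons_val_one, Matrix.cons_val] at g0 g1 g2
    refine ⟨by linear_combination g1 / 2 + g2 / 2 - g0, by linear_combination g1 / 2 - g2 / 2,
      by linear_combination g0⟩
  have k1 : a 0 * s1 ^ 2 + a 1 * (s1 * (-r1)) + a 2 * (-r1) ^ 2 = 0 := by
    rw [f0, f1, f2]
    ring
  have k2 : a 0 * s2 ^ 2 + a 1 * (s2 * (-r2)) + a 2 * (-r2) ^ 2 = 0 := by
    rw [f0, f1, f2]
    ring
  obtain ⟨e5, p1, q1⟩ := hQ' _ _ k1
  obtain ⟨-, p2, q2⟩ := hQ' _ _ k2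
  have fin : ∀ l : ℂ, e 3 = 0 → e 4 = 0 → e 0 = l * a 0 → e 1 = l * a 1 → e 2 = l * a 2 →
      ∃ l : ℂ, qf e = C l * qf a := by
    intro l e3 e4 g0 g1 g2
    refine ⟨l, MvPolynomial.funext fun p => ?_⟩
    rw [map_mul, eval_C, qf_eval, qf_eval, e3, e4, e5, h3, h4, h5, g0, g1, g2]
    ring
  by_cases hΔ : s1 * r2 - s2 * r1 = 0
  · -- double root
    obtain ⟨l, hl⟩ := hBc _ _ k1
    have hA0' : ∀ z, eval ![s1, -r1, z] (pderiv 0 (qf a)) = 0 := by
      intro z
      rw [qf_0]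
      simp only [Matrix.cons_val_zero, Matrix.cons_val_one, Matrix.cons_val]
      rw [h3, f0, f1]
      linear_combination r1 * hΔ
    have hA1' : ∀ z, eval ![s1, -r1, z] (pderiv 1 (qf a)) = 0 := by
      intro z
      rw [qf_1]
      simp only [Matrix.cons_val_zero, Matrix.cons_val_one, Matrix.cons_val]
      rw [h4, f1, f2]
      linear_combination s1 * hΔ
    have hAe : ∀ z, eval ![s1, -r1, z] (qf a) = 0 := by
      intro z
      rw [hAz]
      exact k1
    have hl0 : l ≠ 0 := by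
      rintro rfl
      have g1 := congrArg (eval ![s1, -r1, 0]) hD
      rw [map_sub, map_pow, map_mul, map_mul, hAe, hl, six_eval] at g1
      have g2 : ∏ i, (u i * (![s1, -r1, 0] : Fin 3 → ℂ) 0 + w i * (![s1, -r1, 0] : Fin 3 → ℂ) 1) = 0 := by
        have g3 : c * ∏ i, (u i * (![s1, -r1, 0] : Fin 3 → ℂ) 0 + w i * (![s1, -r1, 0] : Fin 3 → ℂ) 1) = 0 := by
          rw [← g1]
          ring
        exact (mul_eq_zero.1 g3).resolve_left hc
      obtain ⟨i, -, hi⟩ := Finset.prod_eq_zero_iff.1 g2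
      obtain ⟨g, hg, m0, m1⟩ := six_der hc hL i ![s1, -r1, 0] (by
        rintro ⟨h, h'⟩
        apply n1
        refine ⟨?_, ?_⟩
        · simpa using h'
        · simpa using h) hi
      have d0 := id_der hD 0 ![s1, -r1, 0]
      have d1 := id_der hD 1 ![s1, -r1, 0]
      rw [hAe, hl, hA0', m0] at d0
      rw [hAe, hl, hA1', m1] at d1
      apply line_nz hL i
      constructor
      · exact (mul_eq_zero.1 (show u i * g = 0 by rw [← d0]; ring)).resolve_right hg
      · exact (mul_eq_zero.1 (show w i * g = 0 by rw [← d1]; ring)).resolve_right hg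
    have hz : ∀ j : Fin 3, (∀ z, eval ![s1, -r1, z] (pderiv j (qf a)) = 0) →
        ∀ z, eval ![s1, -r1, z] (pderiv j (qf e)) = 0 := by
      intro j hj z
      rw [← hB, pderiv_comm]
      apply const_z (k := eval ![s1, -r1, 0] (pderiv j (six c u w)) / (2 * l))
      intro z
      have d := id_der hD j ![s1, -r1, z]
      rw [hAe, hl, hj] at d
      rw [no_z (R := pderiv j (six c u w)) (by rw [pderiv_comm, six_z, map_zero]) s1 (-r1) 0 z, ← d]
      field_simp
      ring
    have z0 := hz 0 hA0'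
    have z1 := hz 1 hA1'
    have z00 := z0 0
    have z01 := z0 1
    have z10 := z1 0
    have z11 := z1 1
    rw [qf_0] at z00 z01
    rw [qf_1] at z10 z11
    simp only [Matrix.cons_val_zero, Matrix.cons_val_one, Matrix.cons_val] at z00 z01 z10 z11
    have e3 : e 3 = 0 := by linear_combination z01 - z00
    have e4 : e 4 = 0 := by linear_combination z11 - z10
    -- `(r2, s2) = ν (r1, s1)`
    by_cases hr : r1 = 0
    · have hs : s1 ≠ 0 := fun h => n1 ⟨hr, h⟩
      have hr2 : r2 = 0 := by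
        rw [hr] at hΔ
        exact (mul_eq_zero.1 (show s1 * r2 = 0 by linear_combination hΔ)).resolve_left hs
      have hs2 : s2 ≠ 0 := fun h => n2 ⟨hr2, h⟩
      rw [hr] at z00 z10
      refine fin (e 2 / a 2) e3 e4 ?_ ?_ ?_
      · rw [f0, hr]
        have : e 0 * s1 = 0 := by linear_combination z00 / 2
        rw [(mul_eq_zero.1 this).resolve_right hs]
        ring
      · rw [f1, hr, hr2]
        have : e 1 * s1 = 0 := by linear_combination z10
        rw [(mul_eq_zero.1 this).resolve_right hs]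
        ring
      · rw [f2]
        field_simp
    · have hr2 : r2 ≠ 0 := by
        intro h
        rw [h] at hΔ
        apply n2
        exact ⟨h, (mul_eq_zero.1 (show s2 * r1 = 0 by linear_combination -hΔ)).resolve_right hr⟩
      have hs2 : s2 = s1 * r2 / r1 := by
        field_simp
        linear_combination -hΔ
      refine fin (e 0 / a 0) e3 e4 ?_ ?_ ?_
      · rw [f0]
        field_simp
      · rw [f0, f1, hs2]
        field_simp
        linear_combination -z00
      · rw [f0, f2, hs2]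
        field_simp
        have h1 : e 1 * r1 = 2 * e 0 * s1 := by linear_combination -z00
        have h2 : 2 * e 2 * r1 = e 1 * s1 := by linear_combination -z10
        linear_combination (r1 / 2) * h2 + (s1 / 2) * h1
  · have e3 : e 3 = 0 := (mul_eq_zero.1 (show (s1 * r2 - s2 * r1) * e 3 = 0 by
      linear_combination r2 * p1 - r1 * p2)).resolve_left hΔ
    have e4 : e 4 = 0 := (mul_eq_zero.1 (show (s1 * r2 - s2 * r1) * e 4 = 0 by
      linear_combination s2 * p1 - s1 * p2)).resolve_left hΔ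
    have hne : (s1 * r2 - s2 * r1) ^ 2 ≠ 0 := pow_ne_zero _ hΔ
    refine fin (((r1 * s2 + r2 * s1) * e 1 - 2 * (s1 * s2) * e 0 - 2 * (r1 * r2) * e 2) / (s1 * r2 - s2 * r1) ^ 2)
      e3 e4 ?_ ?_ ?_
    · rw [f0, div_mul_eq_mul_div, eq_div_iff hne]
      linear_combination r2 ^ 2 * q1 + r1 ^ 2 * q2
    · rw [f1, div_mul_eq_mul_div, eq_div_iff hne]
      linear_combination 2 * r2 * s2 * q1 + 2 * r1 * s1 * q2
    · rw [f2, div_mul_eq_mul_div, eq_div_iff hne]
      linear_combination s2 ^ 2 * q1 + s1 ^ 2 * q2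

theorem vec_add (y : Fin 3 → ℂ) : y + Pi.single 2 1 = ![y 0, y 1, y 2 + 1] := by
  funext i
  fin_cases i <;> simp

/-- the six concurrent lines only occur for cones: the translation which leaves `A X² + B X + E` invariant -/
theorem six_cone (hA : A.IsHomogeneous 2) (hB : B.IsHomogeneous 3) (_hE : E.IsHomogeneous 4) (c : ℂ) (hc : c ≠ 0)
    (u w : Fin 6 → ℂ) (hL : ∀ i j, i ≠ j → u i * w j - u j * w i ≠ 0)
    (hD : B ^ 2 - C 4 * (A * E) = C c * ∏ i, (C (u i) * X 0 + C (w i) * X 1)) :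
    ∃ β : ℂ, ∀ y : Fin 3 → ℂ, eval (y + Pi.single 2 1) A = eval y A ∧
      eval (y + Pi.single 2 1) B = eval y B - 2 * β * eval y A ∧
      eval (y + Pi.single 2 1) E = eval y E - β * eval y B + β ^ 2 * eval y A := by
  change B ^ 2 - C 4 * (A * E) = six c u w at hD
  obtain ⟨a, rfl⟩ := exists_qf hA
  obtain ⟨h3, h4, h5⟩ := step1 hc hL hD
  have hA0 : ¬ (a 0 = 0 ∧ a 1 = 0 ∧ a 2 = 0) := by
    rintro ⟨g0, g1, g2⟩
    have hz : qf a = 0 := by
      simp [qf, g0, g1, g2, h3, h4, h5]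
    have hp : u 0 * (![w 0, -u 0, 0] : Fin 3 → ℂ) 0 + w 0 * (![w 0, -u 0, 0] : Fin 3 → ℂ) 1 = 0 := by
      simp only [Matrix.cons_val_zero, Matrix.cons_val_one]
      ring
    have hp' : ¬ ((![w 0, -u 0, 0] : Fin 3 → ℂ) 0 = 0 ∧ (![w 0, -u 0, 0] : Fin 3 → ℂ) 1 = 0) := by
      intro h
      apply line_nz hL 0
      refine ⟨?_, ?_⟩
      · simpa using h.2
      · simpa using h.1
    obtain ⟨g, hg, m0, m1⟩ := six_der hc hL 0 ![w 0, -u 0, 0] hp' hp
    have d0 := id_der hD 0 ![w 0, -u 0, 0]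
    have d1 := id_der hD 1 ![w 0, -u 0, 0]
    have hB0 : eval ![w 0, -u 0, 0] B = 0 := by
      have h2 := congrArg (eval ![w 0, -u 0, 0]) hD
      rw [six_eval, Finset.prod_eq_zero (Finset.mem_univ 0) hp] at h2
      simp only [map_sub, map_pow, map_mul, eval_C, hz, map_zero, zero_mul, mul_zero, sub_zero] at h2
      exact pow_eq_zero_iff (two_ne_zero) |>.1 h2
    rw [hB0, hz, map_zero, map_zero, m0] at d0
    rw [hB0, hz, map_zero, map_zero, m1] at d1
    apply line_nz hL 0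
    constructor
    · exact (mul_eq_zero.1 (show u 0 * g = 0 by rw [← d0]; ring)).resolve_right hg
    · exact (mul_eq_zero.1 (show w 0 * g = 0 by rw [← d1]; ring)).resolve_right hg
  have hqne : qf a ≠ 0 := by
    intro hz
    apply hA0
    have e1 := congrArg (eval ![1, 0, 0]) hz
    have e2 := congrArg (eval ![0, 1, 0]) hz
    have e3 := congrArg (eval ![1, 1, 0]) hz
    rw [qf_eval, map_zero] at e1 e2 e3
    simp only [Matrix.cons_val_zero, Matrix.cons_val_one, Matrix.cons_val] at e1 e2 e3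
    have g0 : a 0 = 0 := by linear_combination e1
    have g2 : a 2 = 0 := by linear_combination e2
    exact ⟨g0, by linear_combination e3 - g0 - g2, g2⟩
  obtain ⟨e, he⟩ := exists_qf (A := pderiv 2 B) hB.pderiv
  obtain ⟨l, hl⟩ := step2 hc hL h3 h4 h5 hA0 hD he
  have hAz : ∀ y : Fin 3 → ℂ, eval (y + Pi.single 2 1) (qf a) = eval y (qf a) := by
    intro y
    rw [qf_eval, qf_eval, vec_add, h3, h4, h5]
    simp
  have hA2 : pderiv 2 (qf a) = 0 := by
    apply MvPolynomial.funext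
    intro p
    rw [qf_2, h3, h4, h5, map_zero]
    ring
  have hBz : ∀ y : Fin 3 → ℂ, eval (y + Pi.single 2 1) B = eval y B + l * eval y (qf a) := by
    intro y
    have h1 : pderiv 2 (B - C l * (qf a * X 2)) = 0 := by
      rw [map_sub, he, hl, Derivation.leibniz, Derivation.leibniz, hA2, pderiv_X]
      simp
    have h2 := no_z h1 (y 0) (y 1) (y 2 + 1) (y 2)
    rw [← vec_add, ← vec3] at h2
    simp only [map_sub, map_mul, eval_C, eval_X, hAz] at h2
    simp only [Pi.add_apply, Pi.single_eq_same] at h2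
    linear_combination h2
  have hDz : ∀ y : Fin 3 → ℂ, eval (y + Pi.single 2 1) (six c u w) = eval y (six c u w) := by
    intro y
    rw [six_eval, six_eval]
    simp
  let P : MvPolynomial (Fin 3) ℂ := aeval (fun i => X i + C (Pi.single (2 : Fin 3) (1 : ℂ) i)) E
  have hP : ∀ y : Fin 3 → ℂ, eval y P = eval (y + Pi.single 2 1) E := by
    intro y
    have h1 : eval y P = aeval y P := rfl
    rw [h1]
    simp only [P]
    rw [comp_aeval_apply]
    have h2 : (fun i => aeval y (X i + C (Pi.single (2 : Fin 3) (1 : ℂ) i) : MvPolynomial (Fin 3) ℂ)) =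
        y + Pi.single 2 1 := by
      funext i
      simp
    rw [h2]
    rfl
  have hfin : qf a * (C 4 * (P - E - C (l / 2) * B - C (l ^ 2 / 4) * qf a)) = 0 := by
    apply MvPolynomial.funext
    intro y
    have h1 := hDz y
    rw [← hD] at h1
    simp only [map_sub, map_mul, map_pow, eval_C, hAz, hBz] at h1
    simp only [map_sub, map_mul, eval_C, hP, map_zero]
    linear_combination -h1
  have hfin' : P - E - C (l / 2) * B - C (l ^ 2 / 4) * qf a = 0 := by
    have h1 := (mul_eq_zero.1 hfin).resolve_left hqne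
    refine (mul_eq_zero.1 h1).resolve_left fun h => ?_
    rw [C_eq_zero] at h
    norm_num at h
  refine ⟨-l / 2, fun y => ⟨hAz y, ?_, ?_⟩⟩
  · rw [hBz]
    ring
  · have h1 := congrArg (eval y) hfin'
    simp only [map_sub, map_mul, eval_C, hP, map_zero] at h1
    linear_combination h1

end core

end Pool.Agent.QK
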