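import Pool.Agent.Lib_MP_1209e6_qk.Red29
import Pool.Agent.Lib_MP_1209e6_qk.Cone95

/-! A quartic surface with a singular point which is not a cone is special and Brody-special. -/

set_option autoImplicit false

open MvPolynomial Pool.Agent.DP Pool.Agent.Campana Pool.Agent.CampanaFlow

noncomputable section

namespace Pool.Agent.QK

/-- a projective model of a quartic surface with a singular point which is not a cone is special and
Brody-special. -/
theorem singular_both {F : MvPolynomial (Fin 4) ℂ} (hF : F.IsHomogeneous 4) (hi : Irreducible F)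
    (a : Fin 4 → ℂ) (ha : a ≠ 0) (hs : ∀ j, eval a (pderiv j F) = 0)
    (hc : ∀ b : Fin 4 → ℂ, b ≠ 0 → ∃ x : Fin 4 → ℂ, eval (x + b) F ≠ eval x F) {n : ℕ}
    (P : Ideal (MvPolynomial (Fin (n + 1)) ℂ)) [P.IsPrime] (hP : IsVariety P)
    (hK : Pool.Agent.QX.IsQuartic (FunField P) F) : SpecialField (FunField P) ∧ BrodySpecial P :=
  Pool.Agent.QS.singular_both_of (fun _ _ _ hA hB hE c hc u w hL hD => six_cone hA hB hE c hc u w hL hD)
    hF hi a ha hs hc P hP hK

end Pool.Agent.QK
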