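import Pool.Agent.Lib_MP_1209e6_ds.Defs

/-! The gradient of a smooth plane quartic is bounded from below. -/

set_option autoImplicit false

open MvPolynomial

namespace Pool.Agent.QK

theorem grad_bound {G : MvPolynomial (Fin 3) ℂ} (hG : G.IsHomogeneous 4) (hs : Pool.Agent.DS.Smooth G) :
    ∃ c : ℝ, 0 < c ∧ ∀ v : Fin 3 → ℂ,
      c * (∑ i, ‖v i‖ ^ 2) ^ 3 ≤ ∑ i, ‖eval v (pderiv i G)‖ ^ 2 := by
  let S : Set (Fin 3 → ℂ) := {v | ∑ i, ‖v i‖ ^ 2 = 1}
  have hN : Continuous fun v : Fin 3 → ℂ => ∑ i, ‖v i‖ ^ 2 :=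
    continuous_finsetSum _ fun i _ => ((continuous_apply i).norm).pow 2
  have hg : Continuous fun v : Fin 3 → ℂ => ∑ i, ‖eval v (pderiv i G)‖ ^ 2 :=
    continuous_finsetSum _ fun i _ => ((MvPolynomial.continuous_eval _).norm).pow 2
  have hle : ∀ (v : Fin 3 → ℂ) (i : Fin 3), ‖v i‖ ^ 2 ≤ ∑ i, ‖v i‖ ^ 2 := fun v i =>
    Finset.single_le_sum (f := fun i => ‖v i‖ ^ 2) (fun j _ => by positivity) (Finset.mem_univ i)
  have hcl : IsClosed S := isClosed_eq hN continuous_const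
  have hcp : IsCompact S := by
    refine Metric.isCompact_of_isClosed_isBounded hcl ((Metric.isBounded_closedBall (x := (0 : Fin 3 → ℂ))
      (r := 1)).subset fun v hv => ?_)
    rw [mem_closedBall_zero_iff, pi_norm_le_iff_of_nonneg zero_le_one]
    intro i
    have h1 := hle v i
    rw [show ∑ i, ‖v i‖ ^ 2 = 1 from hv] at h1
    nlinarith [norm_nonneg (v i)]
  have hne : S.Nonempty := ⟨![1, 0, 0], by simp [S, Fin.sum_univ_three]⟩
  obtain ⟨w, hw, hmin⟩ := hcp.exists_isMinOn hne hg.continuousOn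
  have hpos : 0 < ∑ i, ‖eval w (pderiv i G)‖ ^ 2 := by
    by_contra hcon
    have h0 : ∑ i, ‖eval w (pderiv i G)‖ ^ 2 = 0 :=
      le_antisymm (not_lt.1 hcon) (Finset.sum_nonneg fun i _ => by positivity)
    have h1 : ∀ i, eval w (pderiv i G) = 0 := by
      intro i
      have h2 := (Finset.sum_eq_zero_iff_of_nonneg fun j _ => by positivity).1 h0 i (Finset.mem_univ i)
      exact norm_eq_zero.1 (pow_eq_zero_iff (two_ne_zero)|>.1 h2)
    have h2 : w = 0 := hs w fun j => by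
      have h := h1 j
      rw [MvPolynomial.eval_eq'] at h
      rw [MvPolynomial.aeval_def, MvPolynomial.eval₂_eq']
      exact h
    rw [h2] at hw
    simp [S] at hw
  refine ⟨_, hpos, fun v => ?_⟩
  by_cases hv : ∑ i, ‖v i‖ ^ 2 = 0
  · rw [hv]
    simp only [ne_eq, OfNat.ofNat_ne_zero, not_false_eq_true, zero_pow, mul_zero]
    exact Finset.sum_nonneg fun i _ => by positivity
  · have hv0 : 0 < ∑ i, ‖v i‖ ^ 2 := lt_of_le_of_ne (Finset.sum_nonneg fun i _ => by positivity) (Ne.symm hv)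
    obtain ⟨r, hr⟩ : ∃ r : ℝ, r = Real.sqrt (∑ i, ‖v i‖ ^ 2) := ⟨_, rfl⟩
    have hr0 : 0 < r := hr ▸ Real.sqrt_pos.2 hv0
    have hr2 : r ^ 2 = ∑ i, ‖v i‖ ^ 2 := by rw [hr, Real.sq_sqrt hv0.le]
    have hrC : (r : ℂ) ≠ 0 := by exact_mod_cast hr0.ne'
    have hvw : v = fun i => (r : ℂ) * ((r : ℂ)⁻¹ * v i) := by
      funext i
      field_simp
    have hS : (fun i => (r : ℂ)⁻¹ * v i) ∈ S := by
      show ∑ i, ‖(r : ℂ)⁻¹ * v i‖ ^ 2 = 1
      simp only [norm_mul, norm_inv, Complex.norm_real, Real.norm_eq_abs, abs_of_pos hr0, mul_pow]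
      rw [← Finset.mul_sum, ← hr2]
      field_simp
    have h1 := hmin hS
    have h2 : ∀ i, eval v (pderiv i G) = (r : ℂ) ^ 3 * eval (fun i => (r : ℂ)⁻¹ * v i) (pderiv i G) := by
      intro i
      have hp : (pderiv i G).IsHomogeneous 3 := hG.pderiv
      conv_lhs => rw [hvw]
      rw [MvPolynomial.eval_eq', MvPolynomial.eval_eq', Finset.mul_sum]
      refine Finset.sum_congr rfl fun m hm => ?_
      have h3 : ∑ i, m i = 3 := by
        have h4 := hp (mem_support_iff.1 hm)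
        have h5 : ∑ i, m i = Finsupp.weight 1 m := by
          rw [Finsupp.weight_apply, Finsupp.sum_fintype _ _ (by simp)]
          simp
        exact h5.trans h4
      simp only [mul_pow, Finset.prod_mul_distrib, Finset.prod_pow_eq_pow_sum]
      rw [h3]
      ring
    have h3 : ∑ i, ‖eval v (pderiv i G)‖ ^ 2 =
        (r ^ 2) ^ 3 * ∑ i, ‖eval (fun i => (r : ℂ)⁻¹ * v i) (pderiv i G)‖ ^ 2 := by
      rw [Finset.mul_sum]
      refine Finset.sum_congr rfl fun i _ => ?_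
      rw [h2, norm_mul, norm_pow, Complex.norm_real, Real.norm_eq_abs, abs_of_pos hr0]
      ring
    rw [h3, ← hr2, mul_comm]
    exact mul_le_mul_of_nonneg_left h1 (by positivity)

end Pool.Agent.QK
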