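import Mathlib

set_option autoImplicit false

namespace Pool.Agent.QK71

open MvPolynomial

abbrev R2 := MvPolynomial (Fin 2) ℂ

theorem not_unit {n : ℕ} (hn : n ≠ 0) {p : R2} (hp : p.IsHomogeneous n) : ¬ IsUnit p := by
  intro h
  have h1 := h.map (MvPolynomial.constantCoeff (R := ℂ) (σ := Fin 2))
  have h2 : MvPolynomial.constantCoeff p = 0 := by
    rw [MvPolynomial.constantCoeff_eq]
    by_contra h3
    have := hp h3
    simp at this
    exact hn this.symm
  rw [h2] at h1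
  exact not_isUnit_zero h1

/-- a square times a unit is not squarefree of positive degree -/
theorem not_sq {g x u v : R2} (hg : g.IsHomogeneous 6) (hsq : Squarefree g) (hu : IsUnit u)
    (h : u * g = v * (x * x)) (hv : IsUnit v) : False := by
  have h1 : x * x ∣ g := by
    obtain ⟨u', hu'⟩ := hu.exists_left_inv
    refine ⟨u' * v, ?_⟩
    have : g = u' * (u * g) := by rw [← mul_assoc, hu', one_mul]
    rw [this, h]; ring
  have h2 := hsq x h1
  have h3 : IsUnit (u * g) := by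
    rw [h]
    exact hv.mul (h2.mul h2)
  exact not_unit (by norm_num) hg (isUnit_of_mul_isUnit_right h3)

theorem eqs {A B C : Polynomial R2} {g : R2} (hA' : A.natDegree ≤ 2) (hB' : B.natDegree ≤ 3)
    (hC' : C.natDegree ≤ 4) (h : B ^ 2 - 4 * (A * C) = Polynomial.C g) :
    (A = Polynomial.C (A.coeff 0) + Polynomial.C (A.coeff 1) * Polynomial.X +
      Polynomial.C (A.coeff 2) * Polynomial.X ^ 2) ∧
    (B = Polynomial.C (B.coeff 0) + Polynomial.C (B.coeff 1) * Polynomial.X +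
      Polynomial.C (B.coeff 2) * Polynomial.X ^ 2 + Polynomial.C (B.coeff 3) * Polynomial.X ^ 3) ∧
    (C = Polynomial.C (C.coeff 0) + Polynomial.C (C.coeff 1) * Polynomial.X +
      Polynomial.C (C.coeff 2) * Polynomial.X ^ 2 + Polynomial.C (C.coeff 3) * Polynomial.X ^ 3 +
      Polynomial.C (C.coeff 4) * Polynomial.X ^ 4) ∧
    B.coeff 0 ^ 2 - 4 * (A.coeff 0 * C.coeff 0) - g = 0 ∧
    2 * B.coeff 0 * B.coeff 1 - 4 * (A.coeff 0 * C.coeff 1 + A.coeff 1 * C.coeff 0) = 0 ∧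
    2 * B.coeff 0 * B.coeff 2 + B.coeff 1 ^ 2 -
      4 * (A.coeff 0 * C.coeff 2 + A.coeff 1 * C.coeff 1 + A.coeff 2 * C.coeff 0) = 0 ∧
    2 * B.coeff 0 * B.coeff 3 + 2 * B.coeff 1 * B.coeff 2 -
      4 * (A.coeff 0 * C.coeff 3 + A.coeff 1 * C.coeff 2 + A.coeff 2 * C.coeff 1) = 0 ∧
    2 * B.coeff 1 * B.coeff 3 + B.coeff 2 ^ 2 -
      4 * (A.coeff 0 * C.coeff 4 + A.coeff 1 * C.coeff 3 + A.coeff 2 * C.coeff 2) = 0 ∧
    2 * B.coeff 2 * B.coeff 3 - 4 * (A.coeff 1 * C.coeff 4 + A.coeff 2 * C.coeff 3) = 0 ∧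
    B.coeff 3 ^ 2 - 4 * (A.coeff 2 * C.coeff 4) = 0 := by
  have eA : A = Polynomial.C (A.coeff 0) + Polynomial.C (A.coeff 1) * Polynomial.X +
      Polynomial.C (A.coeff 2) * Polynomial.X ^ 2 := by
    conv_lhs => rw [A.as_sum_range_C_mul_X_pow' (Nat.lt_succ_of_le hA')]
    simp only [Finset.sum_range_succ, Finset.sum_range_zero]
    ring
  have eB : B = Polynomial.C (B.coeff 0) + Polynomial.C (B.coeff 1) * Polynomial.X +
      Polynomial.C (B.coeff 2) * Polynomial.X ^ 2 + Polynomial.C (B.coeff 3) * Polynomial.X ^ 3 := by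
    conv_lhs => rw [B.as_sum_range_C_mul_X_pow' (Nat.lt_succ_of_le hB')]
    simp only [Finset.sum_range_succ, Finset.sum_range_zero]
    ring
  have eC : C = Polynomial.C (C.coeff 0) + Polynomial.C (C.coeff 1) * Polynomial.X +
      Polynomial.C (C.coeff 2) * Polynomial.X ^ 2 + Polynomial.C (C.coeff 3) * Polynomial.X ^ 3 +
      Polynomial.C (C.coeff 4) * Polynomial.X ^ 4 := by
    conv_lhs => rw [C.as_sum_range_C_mul_X_pow' (Nat.lt_succ_of_le hC')]
    simp only [Finset.sum_range_succ, Finset.sum_range_zero]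
    ring
  refine ⟨eA, eB, eC, ?_⟩
  generalize A.coeff 0 = a0 at *
  generalize A.coeff 1 = a1 at *
  generalize A.coeff 2 = a2 at *
  generalize B.coeff 0 = b0 at *
  generalize B.coeff 1 = b1 at *
  generalize B.coeff 2 = b2 at *
  generalize B.coeff 3 = b3 at *
  generalize C.coeff 0 = c0 at *
  generalize C.coeff 1 = c1 at *
  generalize C.coeff 2 = c2 at *
  generalize C.coeff 3 = c3 at *
  generalize C.coeff 4 = c4 at *
  have key : Polynomial.C (b0 ^ 2 - 4 * (a0 * c0) - g) +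
      Polynomial.C (2 * b0 * b1 - 4 * (a0 * c1 + a1 * c0)) * Polynomial.X ^ 1 +
      Polynomial.C (2 * b0 * b2 + b1 ^ 2 - 4 * (a0 * c2 + a1 * c1 + a2 * c0)) * Polynomial.X ^ 2 +
      Polynomial.C (2 * b0 * b3 + 2 * b1 * b2 - 4 * (a0 * c3 + a1 * c2 + a2 * c1)) *
        Polynomial.X ^ 3 +
      Polynomial.C (2 * b1 * b3 + b2 ^ 2 - 4 * (a0 * c4 + a1 * c3 + a2 * c2)) * Polynomial.X ^ 4 +
      Polynomial.C (2 * b2 * b3 - 4 * (a1 * c4 + a2 * c3)) * Polynomial.X ^ 5 +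
      Polynomial.C (b3 ^ 2 - 4 * (a2 * c4)) * Polynomial.X ^ 6 = 0 := by
    have h2 := h
    rw [eA, eB, eC] at h2
    have h4 : (Polynomial.C (4 : R2)) = 4 := map_ofNat Polynomial.C 4
    have h22 : (Polynomial.C (2 : R2)) = 2 := map_ofNat Polynomial.C 2
    simp only [Polynomial.C_sub, Polynomial.C_add, Polynomial.C_mul, Polynomial.C_pow, h4, h22]
    linear_combination h2
  have hc : ∀ k, (Polynomial.C (b0 ^ 2 - 4 * (a0 * c0) - g) +
      Polynomial.C (2 * b0 * b1 - 4 * (a0 * c1 + a1 * c0)) * Polynomial.X ^ 1 +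
      Polynomial.C (2 * b0 * b2 + b1 ^ 2 - 4 * (a0 * c2 + a1 * c1 + a2 * c0)) * Polynomial.X ^ 2 +
      Polynomial.C (2 * b0 * b3 + 2 * b1 * b2 - 4 * (a0 * c3 + a1 * c2 + a2 * c1)) *
        Polynomial.X ^ 3 +
      Polynomial.C (2 * b1 * b3 + b2 ^ 2 - 4 * (a0 * c4 + a1 * c3 + a2 * c2)) * Polynomial.X ^ 4 +
      Polynomial.C (2 * b2 * b3 - 4 * (a1 * c4 + a2 * c3)) * Polynomial.X ^ 5 +
      Polynomial.C (b3 ^ 2 - 4 * (a2 * c4)) * Polynomial.X ^ 6).coeff k = 0 := by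
    intro k
    rw [key, Polynomial.coeff_zero]
  simp only [Polynomial.coeff_add, Polynomial.coeff_C_mul, Polynomial.coeff_X_pow,
    Polynomial.coeff_C] at hc
  have h0 := hc 0
  have h1 := hc 1
  have h2 := hc 2
  have h3 := hc 3
  have h4 := hc 4
  have h5 := hc 5
  have h6 := hc 6
  simp only [reduceIte, OfNat.ofNat_ne_zero, OfNat.zero_ne_ofNat, OfNat.one_ne_ofNat,
    OfNat.ofNat_ne_one, zero_ne_one, one_ne_zero, Nat.reduceEqDiff, mul_zero, mul_one, add_zero,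
    zero_add] at h0 h1 h2 h3 h4 h5 h6
  exact ⟨h0, h1, h2, h3, h4, h5, h6⟩

theorem six_core (A B C : Polynomial (MvPolynomial (Fin 2) ℂ)) (g : MvPolynomial (Fin 2) ℂ)
    (hA : ∀ k, (A.coeff k).IsHomogeneous (2 - k)) (hA' : A.natDegree ≤ 2)
    (hB : ∀ k, (B.coeff k).IsHomogeneous (3 - k)) (hB' : B.natDegree ≤ 3)
    (hC : ∀ k, (C.coeff k).IsHomogeneous (4 - k)) (hC' : C.natDegree ≤ 4)
    (hg : g.IsHomogeneous 6) (hsq : Squarefree g) (h : B ^ 2 - 4 * (A * C) = Polynomial.C g) :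
    ∃ (m : ℂ) (a b e : MvPolynomial (Fin 2) ℂ), A = Polynomial.C a ∧
      B = Polynomial.C b + Polynomial.C (MvPolynomial.C (2 * m) * a) * Polynomial.X ∧
      C = Polynomial.C e + Polynomial.C (MvPolynomial.C m * b) * Polynomial.X +
        Polynomial.C (MvPolynomial.C (m ^ 2) * a) * Polynomial.X ^ 2 := by
  obtain ⟨eA, eB, eC, E0, E1, E2, E3, E4, E5, E6⟩ := eqs hA' hB' hC' h
  have ha0 := hA 0
  have ha1 := hA 1
  have ha2 := hA 2
  have hb0 := hB 0
  have hb1 := hB 1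
  have hb2 := hB 2
  have hb3 := hB 3
  clear h hA hB hC hA' hB' hC'
  generalize A.coeff 0 = a0 at *
  generalize A.coeff 1 = a1 at *
  generalize A.coeff 2 = a2 at *
  generalize B.coeff 0 = b0 at *
  generalize B.coeff 1 = b1 at *
  generalize B.coeff 2 = b2 at *
  generalize B.coeff 3 = b3 at *
  generalize C.coeff 0 = c0 at *
  generalize C.coeff 1 = c1 at *
  generalize C.coeff 2 = c2 at *
  generalize C.coeff 3 = c3 at *
  generalize C.coeff 4 = c4 at *
  norm_num at ha0 ha1 ha2 hb0 hb1 hb2 hb3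
  have u4 : IsUnit (4 : R2) := by
    have : (4 : R2) = MvPolynomial.C 4 := (map_ofNat MvPolynomial.C 4).symm
    rw [this]
    exact (IsUnit.mk0 (4 : ℂ) (by norm_num)).map MvPolynomial.C
  have u2 : IsUnit (2 : R2) := by
    have : (2 : R2) = MvPolynomial.C 2 := (map_ofNat MvPolynomial.C 2).symm
    rw [this]
    exact (IsUnit.mk0 (2 : ℂ) (by norm_num)).map MvPolynomial.C
  -- `a2 = 0`
  have za2 : a2 = 0 := by
    by_contra hne
    have ua2 : IsUnit a2 := by
      have h1 : a2.totalDegree = 0 := by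
        have := ha2.totalDegree hne
        exact this
      rw [MvPolynomial.totalDegree_eq_zero_iff_eq_C] at h1
      rw [h1]
      refine (IsUnit.mk0 _ ?_).map MvPolynomial.C
      intro h2
      rw [h2] at h1
      exact hne (by rw [h1]; simp)
    set r0 : R2 := a2 ^ 2 * b0 - a0 * a2 * b2 + a0 * a1 * b3 with hr0
    set r1 : R2 := a2 ^ 2 * b1 - a1 * a2 * b2 + (a1 ^ 2 - a0 * a2) * b3 with hr1
    have hr1h : r1.IsHomogeneous 2 := by
      have t1 : (a2 ^ 2 * b1).IsHomogeneous 2 := by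
        have := (ha2.pow 2).mul hb1
        simpa using this
      have t2 : (a1 * a2 * b2).IsHomogeneous 2 := by
        have := (ha1.mul ha2).mul hb2
        simpa using this
      have t3 : ((a1 ^ 2 - a0 * a2) * b3).IsHomogeneous 2 := by
        have s1 : (a1 ^ 2).IsHomogeneous 2 := by simpa using ha1.pow 2
        have s2 : (a0 * a2).IsHomogeneous 2 := by simpa using ha0.mul ha2
        have := (s1.sub s2).mul hb3
        simpa using this
      exact (t1.sub t2).add t3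
    have k0 : a2 * r0 ^ 2 - a0 * r1 ^ 2 = a2 ^ 5 * g := by
      rw [hr0, hr1]
      linear_combination a2 ^ 5 * E0 + a2 ^ 4 * (-a0) * E2 + a2 ^ 3 * (a0 * a1) * E3 +
        a2 ^ 2 * (-a0 * a1 ^ 2 + a0 ^ 2 * a2) * E4 +
        a2 * (a0 * a1 ^ 3 - 2 * a0 ^ 2 * a1 * a2) * E5 +
        (-a0 * (a1 ^ 4 - 3 * a0 * a1 ^ 2 * a2 + a0 ^ 2 * a2 ^ 2)) * E6
    have k1 : r1 * (2 * a2 * r0 - a1 * r1) = 0 := by
      rw [hr0, hr1]
      linear_combination a2 ^ 5 * E1 + a2 ^ 4 * (-a1) * E2 + a2 ^ 3 * (a1 ^ 2 - a0 * a2) * E3 +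
        a2 ^ 2 * (-a1 ^ 3 + 2 * a0 * a1 * a2) * E4 +
        a2 * (a1 ^ 4 - 3 * a0 * a1 ^ 2 * a2 + a0 ^ 2 * a2 ^ 2) * E5 +
        (-a1 * (a1 ^ 4 - 3 * a0 * a1 ^ 2 * a2 + a0 ^ 2 * a2 ^ 2) +
          a2 * (a0 * a1 ^ 3 - 2 * a0 ^ 2 * a1 * a2)) * E6
    rcases mul_eq_zero.mp k1 with h1 | h1
    · refine not_sq hg hsq (ua2.pow 5) (v := a2) (x := r0) ?_ ua2
      rw [← k0, h1]; ring
    · have h2 : 4 * a2 ^ 6 * g = (a1 ^ 2 - 4 * a0 * a2) * (r1 * r1) := by
        linear_combination (-(4 * a2)) * k0 + (2 * a2 * r0 + a1 * r1) * h1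
      have h3 : r1 * r1 ∣ g := by
        obtain ⟨u', hu'⟩ := (u4.mul (ua2.pow 6)).exists_left_inv
        refine ⟨u' * (a1 ^ 2 - 4 * a0 * a2), ?_⟩
        have : g = u' * (4 * a2 ^ 6 * g) := by rw [← mul_assoc, hu', one_mul]
        rw [this, h2]; ring
      exact not_unit (by norm_num) hr1h (hsq r1 h3)
  subst za2
  -- `a1 = 0`
  have za1 : a1 = 0 := by
    by_contra hne
    set β : R2 := a1 ^ 3 * b0 - a1 ^ 2 * a0 * b1 + a1 * a0 ^ 2 * b2 - a0 ^ 3 * b3 with hβ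
    have k0 : β ^ 2 = (a1 ^ 3) ^ 2 * g := by
      rw [hβ]
      linear_combination a1 ^ 6 * E0 - a1 ^ 5 * a0 * E1 + a1 ^ 4 * a0 ^ 2 * E2 -
        a1 ^ 3 * a0 ^ 3 * E3 + a1 ^ 2 * a0 ^ 4 * E4 - a1 * a0 ^ 5 * E5 + a0 ^ 6 * E6
    have k1 : a1 ^ 3 ∣ β := (IsIntegrallyClosed.pow_dvd_pow_iff two_ne_zero).1 ⟨g, k0⟩
    obtain ⟨γ, hγ⟩ := k1
    have k2 : g = γ * γ := by
      have h1 : (a1 ^ 3) ^ 2 * g = (a1 ^ 3) ^ 2 * (γ * γ) := by
        rw [← k0, hγ]; ring
      exact mul_left_cancel₀ (pow_ne_zero _ (pow_ne_zero _ hne)) h1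
    exact not_sq hg hsq isUnit_one (v := 1) (x := γ) (by rw [one_mul, one_mul, k2]) isUnit_one
  subst za1
  have zb3 : b3 = 0 := by
    have : b3 ^ 2 = 0 := by linear_combination E6
    exact pow_eq_zero_iff two_ne_zero |>.1 this
  subst zb3
  have na0 : a0 ≠ 0 := by
    rintro rfl
    exact not_sq hg hsq isUnit_one (v := 1) (x := b0) (by linear_combination -E0) isUnit_one
  have F0 : b0 ^ 2 - 4 * (a0 * c0) = g := by linear_combination E0
  have F1 : b0 * b1 = 2 * (a0 * c1) := by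
    refine u2.mul_left_cancel ?_
    linear_combination E1
  have F2 : 2 * b0 * b2 + b1 ^ 2 = 4 * (a0 * c2) := by linear_combination E2
  have F3 : b1 * b2 = 2 * (a0 * c3) := by
    refine u2.mul_left_cancel ?_
    linear_combination E3
  have F4 : b2 ^ 2 = 4 * (a0 * c4) := by linear_combination E4
  obtain ⟨a', b', c, hrel, hca, hcb⟩ := UniqueFactorizationMonoid.exists_reduced_factors a0 na0 b0
  have nc : c ≠ 0 := by
    rintro rfl
    rw [zero_mul] at hca
    exact na0 hca.symm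
  have hcg : c ∣ g := by
    rw [← F0, ← hca, ← hcb]
    exact ⟨c * b' ^ 2 - 4 * (a' * c0), by ring⟩
  have hcs : Squarefree c := hsq.squarefree_of_dvd hcg
  have hc1 : c ∣ b1 := by
    rw [← hcs.dvd_pow_iff_dvd two_ne_zero]
    refine ⟨4 * (a' * c2) - 2 * b' * b2, ?_⟩
    rw [← hca, ← hcb] at F2
    linear_combination F2
  have hc2 : c ∣ b2 := by
    rw [← hcs.dvd_pow_iff_dvd two_ne_zero]
    refine ⟨4 * (a' * c4), ?_⟩
    rw [← hca] at F4
    linear_combination F4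
  have ha1' : a' ∣ b1 := by
    refine hrel.dvd_of_dvd_mul_left ?_
    refine ⟨2 * c1, ?_⟩
    refine mul_left_cancel₀ nc ?_
    rw [← hca, ← hcb] at F1
    linear_combination F1
  have hcop : IsRelPrime c a' := by
    intro x hx1 hx2
    refine hsq x ?_
    obtain ⟨y, hy⟩ := hx1
    obtain ⟨z, hz⟩ := hx2
    refine ⟨y ^ 2 * b' ^ 2 - 4 * (y * z * c0), ?_⟩
    rw [← F0, ← hca, ← hcb, hy, hz]
    ring
  have hd1 : a0 ∣ b1 := by
    rw [← hca]
    exact hcop.mul_dvd hc1 ha1'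
  obtain ⟨κ, hκ⟩ := hd1
  have ha2' : a' ∣ b2 := by
    have h1 : a' ∣ b' * (2 * b2) := by
      refine ⟨4 * c2 - a0 * κ ^ 2, ?_⟩
      refine mul_left_cancel₀ nc ?_
      have h2 := F2
      rw [hκ, ← hcb] at h2
      linear_combination h2 + (a0 * κ ^ 2 - 4 * c2) * hca
    have h2 := hrel.dvd_of_dvd_mul_left h1
    exact (u2.dvd_mul_left).1 h2
  have hd2 : a0 ∣ b2 := by
    rw [← hca]
    exact hcop.mul_dvd hc2 ha2'
  have da0 : a0.totalDegree = 2 := ha0.totalDegree na0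
  have zb2 : b2 = 0 := by
    by_contra hne
    have h1 := MvPolynomial.totalDegree_le_of_dvd_of_isDomain hd2 hne
    rw [da0, hb2.totalDegree hne] at h1
    omega
  subst zb2
  -- `κ` is a constant
  obtain ⟨k, hk⟩ : ∃ k : ℂ, κ = MvPolynomial.C k := by
    by_cases h0 : κ = 0
    · exact ⟨0, by rw [h0]; simp⟩
    have nb1 : b1 ≠ 0 := by
      rw [hκ]
      exact mul_ne_zero na0 h0
    have h1 := MvPolynomial.totalDegree_mul_of_isDomain na0 h0
    rw [← hκ, hb1.totalDegree nb1, da0] at h1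
    have h2 : κ.totalDegree = 0 := by omega
    rw [MvPolynomial.totalDegree_eq_zero_iff_eq_C] at h2
    exact ⟨_, h2⟩
  have zc4 : c4 = 0 := by
    have h1 : (4 * a0) * c4 = 0 := by linear_combination -F4
    rcases mul_eq_zero.mp h1 with h2 | h2
    · exact absurd h2 (mul_ne_zero u4.ne_zero na0)
    · exact h2
  have zc3 : c3 = 0 := by
    have h1 : (2 * a0) * c3 = 0 := by linear_combination -F3
    rcases mul_eq_zero.mp h1 with h2 | h2
    · exact absurd h2 (mul_ne_zero u2.ne_zero na0)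
    · exact h2
  have e2 : c2 = MvPolynomial.C ((k / 2) ^ 2) * a0 := by
    have h1 : (4 * a0) * c2 = (4 * a0) * (MvPolynomial.C ((k / 2) ^ 2) * a0) := by
      have h2 : MvPolynomial.C ((k / 2) ^ 2) * (4 : R2) = κ ^ 2 := by
        rw [hk, ← map_pow, show (4 : R2) = MvPolynomial.C 4 from (map_ofNat MvPolynomial.C 4).symm, ← map_mul]
        congr 1
        ring
      have h3 := F2
      rw [hκ] at h3
      linear_combination -h3 - a0 ^ 2 * h2
    exact mul_left_cancel₀ (mul_ne_zero u4.ne_zero na0) h1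
  have e1 : c1 = MvPolynomial.C (k / 2) * b0 := by
    have h1 : (2 * a0) * c1 = (2 * a0) * (MvPolynomial.C (k / 2) * b0) := by
      have h2 : MvPolynomial.C (k / 2) * (2 : R2) = κ := by
        rw [hk, show (2 : R2) = MvPolynomial.C 2 from (map_ofNat MvPolynomial.C 2).symm, ← map_mul]
        congr 1
        ring
      have h3 := F1
      rw [hκ] at h3
      linear_combination -h3 - a0 * b0 * h2
    exact mul_left_cancel₀ (mul_ne_zero u2.ne_zero na0) h1
  refine ⟨k / 2, a0, b0, c0, ?_, ?_, ?_⟩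
  · rw [eA]; simp
  · rw [eB, hκ, hk]
    have : (MvPolynomial.C (2 * (k / 2)) : R2) = MvPolynomial.C k := by congr 1; ring
    rw [this]
    simp [mul_comm]
  · rw [eC, zc3, zc4, e1, e2]
    simp

end Pool.Agent.QK71
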