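import Pool.Agent.Lib_MP_1209e6_qk.Red29
import Pool.Agent.Lib_MP_1209e6_qk.Core71

/-! The bridge from the algebraic core (polynomials in the last variable over the polynomial ring in two variables)
to the statement SixCone on forms in three variables. -/

set_option autoImplicit false
open MvPolynomial
noncomputable section
namespace Pool.Agent.QS

/-- a binary linear form -/
def bl (a b : ℂ) : MvPolynomial (Fin 2) ℂ := C a * X 0 + C b * X 1

theorem bl_hom (a b : ℂ) : (bl a b).IsHomogeneous 1 := by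
  have h : ∀ (c : ℂ) (i : Fin 2), (C c * X i : MvPolynomial (Fin 2) ℂ).IsHomogeneous 1 := fun c i => by
    simpa using (isHomogeneous_C (Fin 2) c).mul (isHomogeneous_X ℂ i)
  exact (h a 0).add (h b 1)

theorem rel_X : IsRelPrime (X 0 : MvPolynomial (Fin 2) ℂ) (X 1) := by
  rw [Irreducible.isRelPrime_iff_not_dvd (MvPolynomial.X_prime (R := ℂ) (i := (0 : Fin 2))).irreducible]
  rw [MvPolynomial.X_dvd_X]
  decide

theorem rel_bl {a b a' b' : ℂ} (h : a * b' - a' * b ≠ 0) : IsRelPrime (bl a b) (bl a' b') := by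
  intro d h1 h2
  have k0 : d ∣ C (a * b' - a' * b) * X 0 := by
    have e : C (a * b' - a' * b) * X 0 = C b' * bl a b - C b * bl a' b' := by
      simp only [bl, map_sub, map_mul]
      ring
    rw [e]
    exact dvd_sub (dvd_mul_of_dvd_right h1 _) (dvd_mul_of_dvd_right h2 _)
  have k1 : d ∣ C (a * b' - a' * b) * X 1 := by
    have e : C (a * b' - a' * b) * X 1 = C a * bl a' b' - C a' * bl a b := by
      simp only [bl, map_sub, map_mul]
      ring
    rw [e]
    exact dvd_sub (dvd_mul_of_dvd_right h2 _) (dvd_mul_of_dvd_right h1 _)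
  have hu : IsUnit (C (a * b' - a' * b) : MvPolynomial (Fin 2) ℂ) := (isUnit_iff_ne_zero.2 h).map C
  exact rel_X ((hu.dvd_mul_left).1 k0) ((hu.dvd_mul_left).1 k1)

theorem sq_bl {a b : ℂ} (h : bl a b ≠ 0) : Squarefree (bl a b) := by
  rintro x ⟨y, hy⟩
  have hx : x ≠ 0 := by
    rintro rfl
    exact h (by rw [hy]; simp)
  have hy0 : y ≠ 0 := by
    rintro rfl
    exact h (by rw [hy]; simp)
  have h1 := (bl_hom a b).totalDegree_le
  rw [hy, totalDegree_mul_of_isDomain (mul_ne_zero hx hx) hy0, totalDegree_mul_of_isDomain hx hx] at h1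
  have h2 : x.totalDegree = 0 := by omega
  rw [totalDegree_eq_zero_iff_eq_C] at h2
  rw [h2]
  refine (isUnit_iff_ne_zero.2 fun h3 => hx ?_).map C
  rw [h2, h3, map_zero]

/-- forms in three variables as polynomials in the last variable -/
def ph : MvPolynomial (Fin 3) ℂ →ₐ[ℂ] Polynomial (MvPolynomial (Fin 2) ℂ) :=
  (MvPolynomial.finSuccEquiv ℂ 2).toAlgHom.comp (rename ![1, 2, 0])

theorem ph_apply (A : MvPolynomial (Fin 3) ℂ) :
    ph A = MvPolynomial.finSuccEquiv ℂ 2 (rename ![1, 2, 0] A) := rfl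

theorem ph_eval (A : MvPolynomial (Fin 3) ℂ) (y : Fin 3 → ℂ) :
    eval y A = Polynomial.eval (y 2) (Polynomial.map (eval ![y 0, y 1]) (ph A)) := by
  rw [ph_apply, ← eval_eq_eval_mv_eval', eval_rename]
  congr 2
  funext i
  fin_cases i <;> rfl

theorem ph_coeff {A : MvPolynomial (Fin 3) ℂ} {d : ℕ} (hA : A.IsHomogeneous d) (k : ℕ) :
    ((ph A).coeff k).IsHomogeneous (d - k) ∧ (ph A).natDegree ≤ d := by
  have h1 : (rename (![1, 2, 0] : Fin 3 → Fin 3) A).IsHomogeneous d := hA.rename_isHomogeneous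
  have h2 : (ph A).natDegree ≤ d := by
    rw [ph_apply, natDegree_finSuccEquiv]
    exact (degreeOf_le_totalDegree _ _).trans h1.totalDegree_le
  refine ⟨?_, h2⟩
  rcases le_or_gt k d with hk | hk
  · rw [ph_apply]
    exact h1.finSuccEquiv_coeff_isHomogeneous k (d - k) (by omega)
  · rw [Polynomial.coeff_eq_zero_of_natDegree_lt (by omega)]
    exact isHomogeneous_zero _ _ _

theorem ph_C (c : ℂ) : ph (C c) = Polynomial.C (C c) := by
  rw [ph_apply, rename_C]
  have := MvPolynomial.algHom_C (MvPolynomial.finSuccEquiv ℂ 2).toAlgHom c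
  exact this

theorem ph_X0 : ph (X 0) = Polynomial.C (X 0) := by
  rw [ph_apply, rename_X]
  exact finSuccEquiv_X_succ (R := ℂ) (j := (0 : Fin 2))

theorem ph_X1 : ph (X 1) = Polynomial.C (X 1) := by
  rw [ph_apply, rename_X]
  exact finSuccEquiv_X_succ (R := ℂ) (j := (1 : Fin 2))

/-- if the discriminant of a quartic form (with respect to a singular point) is a product of six different lines
through a point, then the quartic surface is a cone -/
theorem sixCone : SixCone := by
  intro A B E hA hB hE c hc u w hL hD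
  have hne : ∀ i, bl (u i) (w i) ≠ 0 := by
    intro i h
    obtain ⟨j, hj⟩ : ∃ j : Fin 6, i ≠ j := by
      rcases eq_or_ne i 0 with h | h
      · exact ⟨1, by rw [h]; decide⟩
      · exact ⟨0, h⟩
    have h1 : eval (![w j, -u j] : Fin 2 → ℂ) (bl (u i) (w i)) = 0 := by rw [h, map_zero]
    apply hL i j hj
    simp [bl] at h1
    linear_combination h1
  have hu : IsUnit (C c : MvPolynomial (Fin 2) ℂ) := (isUnit_iff_ne_zero.2 hc).map C
  have hsq : Squarefree (C c * ∏ i, bl (u i) (w i) : MvPolynomial (Fin 2) ℂ) := by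
    rw [squarefree_mul_iff]
    refine ⟨hu.isRelPrime_left, hu.squarefree, ?_⟩
    refine Finset.squarefree_prod_of_pairwise_isCoprime ?_ fun i _ => sq_bl (hne i)
    intro i _ j _ hij
    exact rel_bl (hL i j hij)
  have hg : (C c * ∏ i, bl (u i) (w i) : MvPolynomial (Fin 2) ℂ).IsHomogeneous 6 := by
    have h := (isHomogeneous_C (Fin 2) c).mul
      (IsHomogeneous.prod Finset.univ (fun i : Fin 6 => bl (u i) (w i)) (fun _ => 1) fun i _ => bl_hom (u i) (w i))
    simpa using h
  have h : ph B ^ 2 - 4 * (ph A * ph E) = Polynomial.C (C c * ∏ i, bl (u i) (w i)) := by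
    have h2 := congrArg ph hD
    simp only [map_sub, map_mul, map_pow, map_prod, map_add, ph_C, ph_X0, ph_X1] at h2
    simp only [bl, map_mul, map_prod, map_add]
    rw [← h2]
    have h4 : (4 : Polynomial (MvPolynomial (Fin 2) ℂ)) = Polynomial.C (C 4) := by
      simp only [map_ofNat]
    rw [h4]
  obtain ⟨m, a, b, e, e1, e2, e3⟩ := Pool.Agent.QK71.six_core (ph A) (ph B) (ph E) _
    (fun k => (ph_coeff hA k).1) (ph_coeff hA 0).2 (fun k => (ph_coeff hB k).1) (ph_coeff hB 0).2
    (fun k => (ph_coeff hE k).1) (ph_coeff hE 0).2 hg hsq h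
  have f1 : ∀ y : Fin 3 → ℂ, eval y A = eval ![y 0, y 1] a := by
    intro y
    rw [ph_eval, e1]
    simp
  have f2 : ∀ y : Fin 3 → ℂ, eval y B = eval ![y 0, y 1] b + 2 * m * eval ![y 0, y 1] a * y 2 := by
    intro y
    rw [ph_eval, e2]
    simp
  have f3 : ∀ y : Fin 3 → ℂ, eval y E = eval ![y 0, y 1] e + m * eval ![y 0, y 1] b * y 2 +
      m ^ 2 * eval ![y 0, y 1] a * y 2 ^ 2 := by
    intro y
    rw [ph_eval, e3]
    simp
  refine ⟨-m, fun y => ?_⟩
  have g0 : (y + Pi.single 2 1 : Fin 3 → ℂ) 0 = y 0 := by simp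
  have g1 : (y + Pi.single 2 1 : Fin 3 → ℂ) 1 = y 1 := by simp
  have g2 : (y + Pi.single 2 1 : Fin 3 → ℂ) 2 = y 2 + 1 := by simp
  refine ⟨?_, ?_, ?_⟩
  · rw [f1, f1, g0, g1]
  · rw [f2, f2, f1, g0, g1, g2]
    ring
  · rw [f3, f3, f2, f1, g0, g1, g2]
    ring

end Pool.Agent.QS
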