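import Pool.Agent.Lib_MP_1209e6_ds.Defs
import Pool.Agent.Lib_MP_1209e6_qx.X86
import Pool.Agent.Lib_MP_b9fedf_lo.Gcd

/-! PART (D), piece Curve (helper97): entire curves in a smooth plane quartic are constant. -/

set_option autoImplicit false

open MvPolynomial Filter Topology

noncomputable section

namespace Pool.Agent.QK

theorem c97_deriv {n : ℕ} (P : MvPolynomial (Fin n) ℂ) (g : Fin n → ℂ → ℂ) (z : ℂ) (g' : Fin n → ℂ)
    (hg : ∀ i, HasDerivAt (g i) (g' i) z) :
    HasDerivAt (fun w => eval (fun i => g i w) P) (∑ i, g' i * eval (fun i => g i z) (pderiv i P)) z := by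
  classical
  induction P using MvPolynomial.induction_on with
  | C a => simpa using hasDerivAt_const z a
  | add p q hp hq =>
    have h := hp.add hq
    simp only [map_add, mul_add, Finset.sum_add_distrib]
    exact h
  | mul_X p i hp =>
    have h := hp.mul (hg i)
    have h1 : ∑ l, g' l * eval (fun i => g i z) (pderiv l (p * X i)) =
        (∑ l, g' l * eval (fun i => g i z) (pderiv l p)) * g i z + eval (fun i => g i z) p * g' i := by
      have h2 : ∀ l, g' l * eval (fun i => g i z) (pderiv l (p * X i)) =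
          g' l * eval (fun i => g i z) (pderiv l p) * g i z +
            eval (fun i => g i z) p * (if i = l then g' l else 0) := by
        intro l
        rw [pderiv_mul, pderiv_X, map_add, map_mul, map_mul, eval_X, Pi.single_apply]
        by_cases hl : i = l
        · rw [if_pos hl, if_pos hl, map_one]; ring
        · rw [if_neg hl, if_neg hl, map_zero]; ring
      simp only [h2, Finset.sum_add_distrib, ← Finset.sum_mul, ← Finset.mul_sum,
        Finset.sum_ite_eq, Finset.mem_univ, if_true]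
    rw [h1]
    simp only [map_mul, eval_X]
    exact h

theorem c97_mul_zero {a b : ℂ → ℂ} (ha : Differentiable ℂ a) (hb : Differentiable ℂ b)
    (h : ∀ z, a z * b z = 0) (h0 : ∃ z, a z ≠ 0) (z : ℂ) : b z = 0 := by
  by_contra hz
  obtain ⟨z₀, hz₀⟩ := h0
  have h1 : ∀ᶠ w in 𝓝 z, b w ≠ 0 := hb.continuous.continuousAt.eventually_ne hz
  have h2 : a =ᶠ[𝓝 z] 0 := by
    filter_upwards [h1] with w hw
    exact (mul_eq_zero.mp (h w)).resolve_right hw
  have h3 : AnalyticOnNhd ℂ a Set.univ := fun w _ => ha.analyticAt w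
  exact hz₀ (h3.eqOn_zero_of_preconnected_of_eventuallyEq_zero isPreconnected_univ (Set.mem_univ z) h2
    (Set.mem_univ z₀))

theorem c97_scale {G : MvPolynomial (Fin 3) ℂ} {d : ℕ} (hG : G.IsHomogeneous d) (s : ℂ) (v : Fin 3 → ℂ) :
    eval (fun i => s * v i) G = s ^ d * eval v G := by
  have h := Pool.Agent.QX.x86_scale hG s v
  simpa [MvPolynomial.coe_aeval_eq_eval] using h

theorem c97_lower {G : MvPolynomial (Fin 3) ℂ} (hG : G.IsHomogeneous 4) (hs : Pool.Agent.DS.Smooth G) :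
    ∃ c : ℝ, 0 < c ∧ ∀ v : Fin 3 → ℂ,
      c * (∑ i, ‖v i‖ ^ 2) ^ 3 ≤ ∑ k, ‖eval v (pderiv k G)‖ ^ 2 := by
  classical
  let S : Set (Fin 3 → ℂ) := {v | ∑ i, ‖v i‖ ^ 2 = 1}
  have hcl : IsClosed S := isClosed_eq (by fun_prop) continuous_const
  have hbd : Bornology.IsBounded S := by
    refine (Metric.isBounded_closedBall (x := (0 : Fin 3 → ℂ)) (r := 1)).subset fun v hv => ?_
    rw [mem_closedBall_zero_iff, pi_norm_le_iff_of_nonneg zero_le_one]
    intro i
    have h1 : ‖v i‖ ^ 2 ≤ 1 := by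
      have h2 : ∑ i, ‖v i‖ ^ 2 = 1 := hv
      rw [← h2]
      exact Finset.single_le_sum (f := fun i => ‖v i‖ ^ 2) (fun j _ => by positivity) (Finset.mem_univ i)
    nlinarith [norm_nonneg (v i)]
  have hcp : IsCompact S := Metric.isCompact_of_isClosed_isBounded hcl hbd
  have hne : S.Nonempty := ⟨Pi.single 0 1, by
    show ∑ i, ‖(Pi.single 0 1 : Fin 3 → ℂ) i‖ ^ 2 = 1
    rw [Fin.sum_univ_three]
    simp⟩
  have hcont : Continuous fun v : Fin 3 → ℂ => ∑ k, ‖eval v (pderiv k G)‖ ^ 2 := by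
    refine continuous_finsetSum _ fun k _ => ?_
    exact ((MvPolynomial.continuous_eval _).norm).pow 2
  obtain ⟨w, hw, hmin⟩ := hcp.exists_isMinOn hne hcont.continuousOn
  have hpos : 0 < ∑ k, ‖eval w (pderiv k G)‖ ^ 2 := by
    refine lt_of_le_of_ne (Finset.sum_nonneg fun k _ => by positivity) fun h0 => ?_
    have h1 := (Finset.sum_eq_zero_iff_of_nonneg fun k _ => by positivity).mp h0.symm
    have h2 : w = 0 := hs w fun k => by
      have h3 := h1 k (Finset.mem_univ k)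
      rw [MvPolynomial.aeval_eq_eval]
      exact norm_eq_zero.mp (pow_eq_zero_iff two_ne_zero |>.mp h3)
    have h4 : ∑ i, ‖w i‖ ^ 2 = 1 := hw
    rw [h2] at h4
    simp at h4
  refine ⟨_, hpos, fun v => ?_⟩
  by_cases hv : ∑ i, ‖v i‖ ^ 2 = 0
  · rw [hv]
    have : (0 : ℝ) ≤ ∑ k, ‖eval v (pderiv k G)‖ ^ 2 := Finset.sum_nonneg fun k _ => by positivity
    simpa using this
  · have hv0 : 0 < ∑ i, ‖v i‖ ^ 2 :=
      lt_of_le_of_ne (Finset.sum_nonneg fun k _ => by positivity) (Ne.symm hv)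
    set N := ∑ i, ‖v i‖ ^ 2 with hN
    set r := Real.sqrt N with hr
    have hr0 : 0 < r := Real.sqrt_pos.mpr hv0
    have hr2 : r ^ 2 = N := Real.sq_sqrt hv0.le
    have hvw : v = fun i => (r : ℂ) * ((r : ℂ)⁻¹ * v i) := by
      funext i
      rw [mul_inv_cancel_left₀]
      exact_mod_cast hr0.ne'
    have hmem : (fun i => (r : ℂ)⁻¹ * v i) ∈ S := by
      show ∑ i, ‖(r : ℂ)⁻¹ * v i‖ ^ 2 = 1
      simp only [norm_mul, mul_pow, norm_inv, Complex.norm_real, Real.norm_eq_abs, abs_of_pos hr0]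
      rw [← Finset.mul_sum, ← hN, ← hr2, inv_pow]
      exact inv_mul_cancel₀ (by positivity)
    have h1 := hmin hmem
    have h2 : ∑ k, ‖eval v (pderiv k G)‖ ^ 2 =
        N ^ 3 * ∑ k, ‖eval (fun i => (r : ℂ)⁻¹ * v i) (pderiv k G)‖ ^ 2 := by
      rw [Finset.mul_sum]
      refine Finset.sum_congr rfl fun k _ => ?_
      have h3 : (pderiv k G).IsHomogeneous 3 := by simpa using hG.pderiv (i := k)
      conv_lhs => rw [hvw]
      rw [c97_scale h3, norm_mul, norm_pow, Complex.norm_real, Real.norm_eq_abs, abs_of_pos hr0, ← hr2]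
      ring
    rw [h2, mul_comm]
    exact mul_le_mul_of_nonneg_left h1 (by positivity)

/-- `curve_const` from `ahlfors` (hypothesis `AH`, helper95's `Pool.Agent.QX.ahlfors`) -/
theorem c97_curve (AH : ∀ h : Fin 3 → ℂ → ℂ, (∀ i, Differentiable ℂ (h i)) → ∀ c : ℝ, 0 < c →
      (∀ z, c * (∑ i, ‖h i z‖ ^ 2) ^ 3 ≤ ‖h 1 z * deriv (h 2) z - h 2 z * deriv (h 1) z‖ ^ 2 +
        ‖h 2 z * deriv (h 0) z - h 0 z * deriv (h 2) z‖ ^ 2 +
        ‖h 0 z * deriv (h 1) z - h 1 z * deriv (h 0) z‖ ^ 2) → ∀ i z, h i z = 0)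
    {G : MvPolynomial (Fin 3) ℂ} (hG : G.IsHomogeneous 4) (hs : Pool.Agent.DS.Smooth G)
    (g : Fin 3 → ℂ → ℂ) (hg : ∀ i, Differentiable ℂ (g i)) (h : ∀ z, eval (fun i => g i z) G = 0)
    (h0 : ∃ z, g 0 z ≠ 0) : ∃ c : ℂ, ∀ z, g 1 z = c * g 0 z := by
  classical
  obtain ⟨u, f, hu, hu0, hf, hfne, hfg⟩ := Pool.Agent.LO.exists_gcd (n := 2) g hg ⟨0, h0⟩
  have hfi : ∀ i, Differentiable ℂ (fun z => f z i) := fun i => differentiable_pi.mp hf i
  have hDi : ∀ i, Differentiable ℂ (deriv fun z => f z i) := fun i =>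
    differentiableOn_univ.mp ((hfi i).differentiableOn.deriv isOpen_univ)
  have hev : ∀ P : MvPolynomial (Fin 3) ℂ, Differentiable ℂ (fun z => eval (f z) P) := fun P z =>
    (c97_deriv P (fun i w => f w i) z _ fun i => (hfi i z).hasDerivAt).differentiableAt
  have hE : ∀ z, eval (f z) G = 0 := by
    refine c97_mul_zero (a := fun z => u z ^ 4) (hu.pow 4) (hev G) (fun z => ?_) ?_
    · have h1 := h z
      simp only [hfg] at h1
      rw [c97_scale hG] at h1
      exact h1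
    · obtain ⟨z, hz⟩ := hu0
      exact ⟨z, pow_ne_zero 4 hz⟩
  set gr : Fin 3 → ℂ → ℂ := fun k z => eval (f z) (pderiv k G) with hgr
  set D : Fin 3 → ℂ → ℂ := fun i => deriv fun z => f z i with hD
  have euler : ∀ z, f z 0 * gr 0 z + f z 1 * gr 1 z + f z 2 * gr 2 z = 0 := by
    intro z
    have h1 := congrArg (eval (f z)) hG.sum_X_mul_pderiv
    rw [Fin.sum_univ_three] at h1
    simp only [map_add, map_mul, eval_X, map_nsmul, hE, smul_zero] at h1
    exact h1
  have chain : ∀ z, D 0 z * gr 0 z + D 1 z * gr 1 z + D 2 z * gr 2 z = 0 := by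
    intro z
    have h1 := c97_deriv G (fun i w => f w i) z _ fun i => (hfi i z).hasDerivAt
    have h2 : (fun w => eval (fun i => f w i) G) = fun _ => (0 : ℂ) := by
      funext w
      exact hE w
    rw [h2] at h1
    have h3 := h1.unique (hasDerivAt_const z (0 : ℂ))
    rw [Fin.sum_univ_three] at h3
    exact h3
  set W : Fin 3 → ℂ → ℂ := ![fun z => f z 1 * D 2 z - f z 2 * D 1 z,
    fun z => f z 2 * D 0 z - f z 0 * D 2 z, fun z => f z 0 * D 1 z - f z 1 * D 0 z] with hW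
  have hW0 : ∀ z, W 0 z = f z 1 * D 2 z - f z 2 * D 1 z := fun z => rfl
  have hW1 : ∀ z, W 1 z = f z 2 * D 0 z - f z 0 * D 2 z := fun z => rfl
  have hW2 : ∀ z, W 2 z = f z 0 * D 1 z - f z 1 * D 0 z := fun z => rfl
  have hWd : ∀ i, Differentiable ℂ (W i) := by
    intro i
    fin_cases i
    · exact ((hfi 1).mul (hDi 2)).sub ((hfi 2).mul (hDi 1))
    · exact ((hfi 2).mul (hDi 0)).sub ((hfi 0).mul (hDi 2))
    · exact ((hfi 0).mul (hDi 1)).sub ((hfi 1).mul (hDi 0))
  have cross : ∀ i k z, W i z * gr k z = W k z * gr i z := by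
    intro i k z
    have c12 : W 1 z * gr 2 z = W 2 z * gr 1 z := by
      rw [hW1, hW2]
      linear_combination D 0 z * euler z - f z 0 * chain z
    have c01 : W 0 z * gr 1 z = W 1 z * gr 0 z := by
      rw [hW0, hW1]
      linear_combination D 2 z * euler z - f z 2 * chain z
    have c02 : W 0 z * gr 2 z = W 2 z * gr 0 z := by
      rw [hW0, hW2]
      linear_combination -D 1 z * euler z + f z 1 * chain z
    fin_cases i <;> fin_cases k
    · rfl
    · exact c01
    · exact c02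
    · exact c01.symm
    · rfl
    · exact c12
    · exact c02.symm
    · exact c12.symm
    · rfl
  have hex : ∀ z, ∃ k, gr k z ≠ 0 := by
    intro z
    by_contra hcon
    push Not at hcon
    exact hfne z (hs (f z) fun k => by rw [MvPolynomial.aeval_eq_eval]; exact hcon k)
  choose kk hkk using hex
  set ξ : ℂ → ℂ := fun z => W (kk z) z / gr (kk z) z with hξ
  have hξW : ∀ i z, W i z = ξ z * gr i z := by
    intro i z
    rw [hξ]
    simp only
    rw [div_mul_eq_mul_div, eq_div_iff (hkk z)]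
    exact cross i (kk z) z
  have hξd : Differentiable ℂ ξ := by
    intro z
    have h1 : ∀ᶠ w in 𝓝 z, gr (kk z) w ≠ 0 :=
      (hev (pderiv (kk z) G)).continuous.continuousAt.eventually_ne (hkk z)
    have h2 : ξ =ᶠ[𝓝 z] fun w => W (kk z) w / gr (kk z) w := by
      filter_upwards [h1] with w hw
      rw [eq_div_iff hw]
      exact (hξW (kk z) w).symm
    exact (((hWd (kk z)) z).div (hev (pderiv (kk z) G) z) (hkk z)).congr_of_eventuallyEq h2
  have hhd : ∀ i, Differentiable ℂ (fun z => ξ z * f z i) := fun i => hξd.mul (hfi i)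
  have hder : ∀ i z, deriv (fun z => ξ z * f z i) z = deriv ξ z * f z i + ξ z * D i z := fun i z =>
    ((hξd z).hasDerivAt.mul ((hfi i) z).hasDerivAt).deriv
  obtain ⟨c, hc, hlow⟩ := c97_lower hG hs
  have hzero := AH (fun i z => ξ z * f z i) hhd c hc (fun z => by
    refine (hlow fun i => ξ z * f z i).trans (le_of_eq ?_)
    have h3 : ∀ k, eval (fun i => ξ z * f z i) (pderiv k G) = ξ z ^ 3 * gr k z := fun k =>
      c97_scale (by simpa using hG.pderiv (i := k)) (ξ z) (f z)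
    rw [Fin.sum_univ_three, h3, h3, h3, hder, hder, hder]
    have e0 : ξ z * f z 1 * (deriv ξ z * f z 2 + ξ z * D 2 z) -
        ξ z * f z 2 * (deriv ξ z * f z 1 + ξ z * D 1 z) = ξ z ^ 3 * gr 0 z := by
      linear_combination ξ z ^ 2 * hξW 0 z - ξ z ^ 2 * hW0 z
    have e1 : ξ z * f z 2 * (deriv ξ z * f z 0 + ξ z * D 0 z) -
        ξ z * f z 0 * (deriv ξ z * f z 2 + ξ z * D 2 z) = ξ z ^ 3 * gr 1 z := by
      linear_combination ξ z ^ 2 * hξW 1 z - ξ z ^ 2 * hW1 z
    have e2 : ξ z * f z 0 * (deriv ξ z * f z 1 + ξ z * D 1 z) -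
        ξ z * f z 1 * (deriv ξ z * f z 0 + ξ z * D 0 z) = ξ z ^ 3 * gr 2 z := by
      linear_combination ξ z ^ 2 * hξW 2 z - ξ z ^ 2 * hW2 z
    rw [e0, e1, e2])
  have hξ0 : ∀ z, ξ z = 0 := by
    intro z
    by_contra hz
    exact hfne z (funext fun i => (mul_eq_zero.mp (hzero i z)).resolve_left hz)
  have hwr : ∀ z, f z 0 * D 1 z - f z 1 * D 0 z = 0 := by
    intro z
    rw [← hW2, hξW, hξ0, zero_mul]
  -- the Wronskian vanishes
  obtain ⟨z₀, hz₀⟩ := h0
  have hf0 : f z₀ 0 ≠ 0 := by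
    intro h1
    exact hz₀ (by rw [hfg, h1, mul_zero])
  have hopen : ∀ᶠ w in 𝓝 z₀, f w 0 ≠ 0 := (hfi 0).continuous.continuousAt.eventually_ne hf0
  obtain ⟨ε, hε, hball⟩ := Metric.eventually_nhds_iff_ball.mp hopen
  have hconst : ∀ w ∈ Metric.ball z₀ ε, f w 1 / f w 0 = f z₀ 1 / f z₀ 0 := by
    intro w hw
    refine Metric.isOpen_ball.is_const_of_deriv_eq_zero (f := fun w => f w 1 / f w 0)
      (convex_ball z₀ ε).isPreconnected ?_ ?_ hw (Metric.mem_ball_self hε)
    · intro v hv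
      exact ((hfi 1 v).div (hfi 0 v) (hball v hv)).differentiableWithinAt
    · intro v hv
      have h1 : HasDerivAt (fun w => f w 1 / f w 0)
          ((D 1 v * f v 0 - f v 1 * D 0 v) / f v 0 ^ 2) v :=
        (hfi 1 v).hasDerivAt.div (hfi 0 v).hasDerivAt (hball v hv)
      rw [h1.deriv, show D 1 v * f v 0 - f v 1 * D 0 v = 0 by linear_combination hwr v, zero_div]
      rfl
  refine ⟨f z₀ 1 / f z₀ 0, fun z => ?_⟩
  have h5 : AnalyticOnNhd ℂ (fun z => f z 1 - f z₀ 1 / f z₀ 0 * f z 0) Set.univ := fun w _ =>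
    ((hfi 1).sub ((hfi 0).const_mul _)).analyticAt w
  have h6 : (fun z => f z 1 - f z₀ 1 / f z₀ 0 * f z 0) =ᶠ[𝓝 z₀] 0 := by
    filter_upwards [Metric.ball_mem_nhds z₀ hε] with w hw
    have h7 := hconst w hw
    have h8 := hball w hw
    show f w 1 - f z₀ 1 / f z₀ 0 * f w 0 = 0
    rw [← h7, div_mul_cancel₀ _ h8, sub_self]
  have h9 := h5.eqOn_zero_of_preconnected_of_eventuallyEq_zero isPreconnected_univ (Set.mem_univ z₀) h6
    (Set.mem_univ z)
  have h10 : f z 1 - f z₀ 1 / f z₀ 0 * f z 0 = 0 := h9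
  rw [hfg, hfg]
  linear_combination u z * h10

end Pool.Agent.QK
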