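import Pool.Agent.Lib_MP_1209e6_qk.Ahl
import Pool.Agent.Lib_MP_1209e6_qk.C97

/-! Entire curves in a smooth plane quartic are constant. -/

set_option autoImplicit false

open MvPolynomial

namespace Pool.Agent.QK

/-- entire curves in a smooth plane quartic are constant -/
theorem curve_const {G : MvPolynomial (Fin 3) ℂ} (hG : G.IsHomogeneous 4) (hs : Pool.Agent.DS.Smooth G)
    (g : Fin 3 → ℂ → ℂ) (hg : ∀ i, Differentiable ℂ (g i)) (h : ∀ z, eval (fun i => g i z) G = 0)
    (h0 : ∃ z, g 0 z ≠ 0) : ∃ c : ℂ, ∀ z, g 1 z = c * g 0 z :=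
  c97_curve (fun h hh c hc H i z => Pool.Agent.QX.Ahl.ahlfors h hh c hc H i z) hG hs g hg h h0

end Pool.Agent.QK
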