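import Pool.Agent.Lib_MP_1209e6_mh.Pull
import Pool.Agent.Lib_MP_1209e6_qx.SingC
import Pool.Agent.Lib_MP_1209e6_qk.Curve

/-! Cones over smooth plane quartics have no Zariski dense entire curve. -/

set_option autoImplicit false

open MvPolynomial Pool.Agent.Campana Pool.Agent.SQ

noncomputable section

namespace Pool.Agent.QK

/-- a variety whose function field has a nonconstant point on a smooth plane quartic over `ℂ` has no Zariski
dense entire curve -/
theorem cone_not_brody {n : ℕ} (P : Ideal (MvPolynomial (Fin (n + 1)) ℂ)) [P.IsPrime] (hP : IsVariety P)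
    {G : MvPolynomial (Fin 3) ℂ} (hG : G.IsHomogeneous 4) (hs : Pool.Agent.DS.Smooth G)
    (x : Fin 3 → FunField P) (h0 : x 0 ≠ 0) (hx : aeval x G = 0)
    (hne : ∀ c : ℂ, x 1 ≠ algebraMap ℂ _ c * x 0) : ¬ BrodySpecial P := by
  rintro ⟨f, hf, hf0, hfP, hdense⟩
  obtain ⟨-, -, j₀, hj₀⟩ := hP
  obtain ⟨ψ, -⟩ := exists_pullback P j₀ hj₀ f hf hfP hdense
  obtain ⟨b, hb⟩ := IsLocalization.exist_integer_multiples_of_finite (nonZeroDivisors Ent)
    (fun i => ψ (x i))
  choose A hA using hb
  have hb0 : algebraMap Ent Mer (b : Ent) ≠ 0 := by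
    rw [Ne, FaithfulSMul.algebraMap_eq_zero_iff]
    exact nonZeroDivisors.coe_ne_zero b
  have hA' : ∀ i, algebraMap Ent Mer (A i) = algebraMap Ent Mer (b : Ent) * ψ (x i) := by
    intro i
    rw [hA i, Algebra.smul_def]
  have hinj : Function.Injective (algebraMap Ent Mer) := FaithfulSMul.algebraMap_injective Ent Mer
  have hGA : aeval A G = 0 := by
    apply hinj
    rw [map_zero]
    have h1 : algebraMap Ent Mer (aeval A G) = aeval (fun i => algebraMap Ent Mer (A i)) G := by
      have h3 := comp_aeval_apply (R := ℂ) (f := A) (IsScalarTower.toAlgHom ℂ Ent Mer) G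
      exact h3
    have h2 : aeval (fun i => ψ (x i)) G = ψ (aeval x G) := by
      have h3 := comp_aeval_apply (R := ℂ) (f := x) ψ G
      exact h3.symm
    rw [h1, funext hA', Pool.Agent.QS.scale hG, h2, hx, map_zero, mul_zero]
  have hev : ∀ z : ℂ, eval (fun i => (A i).1 z) G = 0 := by
    intro z
    let ev : Ent →ₐ[ℂ] ℂ := (Pi.evalAlgHom ℂ (fun _ : ℂ => ℂ) z).comp Ent.val
    have h1 := comp_aeval_apply (R := ℂ) (f := A) ev G
    rw [hGA, map_zero] at h1
    rw [← aeval_eq_eval]
    exact h1.symm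
  have hA0 : A 0 ≠ 0 := by
    intro h
    have h1 := hA' 0
    rw [h, map_zero] at h1
    have h2 := (mul_eq_zero.1 h1.symm).resolve_left hb0
    exact h0 ((map_eq_zero_iff ψ ψ.toRingHom.injective).1 h2)
  obtain ⟨c, hc⟩ := curve_const hG hs (fun i => (A i).1) (fun i => Ent.diff (A i)) hev (by
    by_contra hcon
    push Not at hcon
    exact hA0 (Subtype.ext (funext hcon)))
  apply hne c
  have h1 : A 1 = algebraMap ℂ Ent c * A 0 := Subtype.ext (funext hc)
  have h2 := congrArg (algebraMap Ent Mer) h1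
  rw [map_mul, hA' 1, hA' 0, ← IsScalarTower.algebraMap_apply] at h2
  have h3 : algebraMap Ent Mer (b : Ent) * (ψ (x 1) - ψ (algebraMap ℂ _ c * x 0)) = 0 := by
    rw [map_mul, AlgHom.commutes]
    linear_combination h2
  have h4 := (mul_eq_zero.1 h3).resolve_left hb0
  exact ψ.toRingHom.injective (sub_eq_zero.1 h4)

end Pool.Agent.QK
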