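import Pool.Agent.Lib_MP_1209e6_qk.Core77

set_option autoImplicit false

namespace Pool.Agent.QK77

open MvPolynomial

/-- polynomials in `X 2` over the polynomials in `X 0`, `X 1` -/
noncomputable def T : MvPolynomial (Fin 3) ℂ ≃ₐ[ℂ] Polynomial (MvPolynomial (Fin 2) ℂ) :=
  (renameEquiv ℂ (finRotate 3)).trans (finSuccEquiv ℂ 2)

theorem T_apply (F : MvPolynomial (Fin 3) ℂ) : T F = finSuccEquiv ℂ 2 (rename (finRotate 3) F) := rfl

theorem T_X0 : T (X 0) = Polynomial.C (X 0) := by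
  rw [T_apply, rename_X]
  exact finSuccEquiv_X_succ (j := (0 : Fin 2))

theorem T_X1 : T (X 1) = Polynomial.C (X 1) := by
  rw [T_apply, rename_X]
  exact finSuccEquiv_X_succ (j := (1 : Fin 2))

theorem T_C (a : ℂ) : T (C a) = Polynomial.C (C a) := T.commutes a

theorem T_hom {F : MvPolynomial (Fin 3) ℂ} {n : ℕ} (hF : F.IsHomogeneous n) (i j : ℕ) (h : i + j = n) :
    ((T F).coeff i).IsHomogeneous j := by
  rw [T_apply]
  exact (hF.rename_isHomogeneous).finSuccEquiv_coeff_isHomogeneous i j h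

theorem T_deg {F : MvPolynomial (Fin 3) ℂ} {n : ℕ} (hF : F.IsHomogeneous n) : (T F).natDegree < n + 1 := by
  rw [T_apply, natDegree_finSuccEquiv]
  have h1 := degreeOf_le_totalDegree (rename (finRotate 3) F) 0
  have h2 := (hF.rename_isHomogeneous (f := finRotate 3)).totalDegree_le
  omega

theorem T_eval (y : Fin 3 → ℂ) (F : MvPolynomial (Fin 3) ℂ) :
    eval y F = Polynomial.eval (y 2) (Polynomial.map (eval ![y 0, y 1]) (T F)) := by
  rw [T_apply, ← eval_eq_eval_mv_eval', eval_rename]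
  congr 2
  funext i
  fin_cases i <;> rfl

theorem lin_tot {u w : ℂ} (h : u ≠ 0 ∨ w ≠ 0) :
    (C u * X 0 + C w * X 1 : MvPolynomial (Fin 2) ℂ).totalDegree = 1 ∧
      (C u * X 0 + C w * X 1 : MvPolynomial (Fin 2) ℂ) ≠ 0 := by
  have hh : (C u * X 0 + C w * X 1 : MvPolynomial (Fin 2) ℂ).IsHomogeneous 1 :=
    (isHomogeneous_C_mul_X _ _).add (isHomogeneous_C_mul_X _ _)
  have hne : (C u * X 0 + C w * X 1 : MvPolynomial (Fin 2) ℂ) ≠ 0 := by
    intro h0
    have h1 := congrArg (eval ![(1 : ℂ), 0]) h0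
    have h2 := congrArg (eval ![(0 : ℂ), 1]) h0
    simp at h1 h2
    rcases h with h | h
    · exact h h1
    · exact h h2
  exact ⟨hh.totalDegree hne, hne⟩

theorem lin_irr {u w : ℂ} (h : u ≠ 0 ∨ w ≠ 0) :
    Irreducible (C u * X 0 + C w * X 1 : MvPolynomial (Fin 2) ℂ) := by
  obtain ⟨h1, h2⟩ := lin_tot h
  refine irreducible_of_totalDegree_eq_one h1 fun x hx => ?_
  refine isUnit_iff_ne_zero.2 ?_
  rintro rfl
  apply h2
  ext i
  rw [coeff_zero]
  exact zero_dvd_iff.1 (hx i)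

theorem lin_rel {u w u' w' : ℂ} (h : u * w' - u' * w ≠ 0) :
    IsRelPrime (C u * X 0 + C w * X 1 : MvPolynomial (Fin 2) ℂ) (C u' * X 0 + C w' * X 1) := by
  have h1 : u ≠ 0 ∨ w ≠ 0 := by
    by_contra hc
    push Not at hc
    apply h
    rw [hc.1, hc.2]
    ring
  have h2 : u' ≠ 0 ∨ w' ≠ 0 := by
    by_contra hc
    push Not at hc
    apply h
    rw [hc.1, hc.2]
    ring
  rw [(lin_irr h1).isRelPrime_iff_not_dvd]
  intro hd
  obtain ⟨r, hr⟩ := hd
  -- evaluate at the zero `(w, -u)` of the first form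
  have h3 := congrArg (eval ![w, -u]) hr
  simp at h3
  apply h
  have : u * w - w * u = 0 := by ring
  linear_combination (-1 : ℂ) * h3 + (eval ![w, -u] r) * this

theorem six_cone {A B E : MvPolynomial (Fin 3) ℂ} (hA : A.IsHomogeneous 2) (hB : B.IsHomogeneous 3)
    (hE : E.IsHomogeneous 4) (c : ℂ) (hc : c ≠ 0) (u w : Fin 6 → ℂ)
    (hL : ∀ i j, i ≠ j → u i * w j - u j * w i ≠ 0)
    (hD : B ^ 2 - C 4 * (A * E) = C c * ∏ i, (C (u i) * X 0 + C (w i) * X 1)) :
    ∃ β : ℂ, ∀ y : Fin 3 → ℂ, eval (y + Pi.single 2 1) A = eval y A ∧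
      eval (y + Pi.single 2 1) B = eval y B - 2 * β * eval y A ∧
      eval (y + Pi.single 2 1) E = eval y E - β * eval y B + β ^ 2 * eval y A := by
  set g : MvPolynomial (Fin 2) ℂ := C c * ∏ i, (C (u i) * X 0 + C (w i) * X 1) with hgdef
  have hT : (T B) ^ 2 - 4 * (T A * T E) = Polynomial.C g := by
    have h := congrArg T hD
    rw [map_sub, map_pow, map_mul, map_mul, map_mul, T_C, T_C, map_prod] at h
    simp only [map_add, map_mul, T_C, T_X0, T_X1] at h
    have h4 : Polynomial.C (C 4 : MvPolynomial (Fin 2) ℂ) = 4 := by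
      rw [map_ofNat C 4, map_ofNat]
    rw [h4] at h
    rw [hgdef, map_mul, map_prod]
    simp only [map_add, map_mul]
    exact h
  have hAs := (T A).as_sum_range_C_mul_X_pow' (T_deg hA)
  have hBs := (T B).as_sum_range_C_mul_X_pow' (T_deg hB)
  have hEs := (T E).as_sum_range_C_mul_X_pow' (T_deg hE)
  simp only [Finset.sum_range_succ, Finset.sum_range_zero, zero_add, pow_zero, mul_one, pow_one] at hAs hBs hEs
  obtain ⟨α, hα⟩ : ∃ α : ℂ, (T A).coeff 2 = C α := by
    have h := T_hom hA 2 0 rfl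
    exact ⟨_, totalDegree_eq_zero_iff_eq_C.1 (Nat.le_zero.1 h.totalDegree_le)⟩
  have ha0 := T_hom hA 0 2 rfl
  have ha1 := T_hom hA 1 1 rfl
  have hb0 := T_hom hB 0 3 rfl
  have hb1 := T_hom hB 1 2 rfl
  have hb2 := T_hom hB 2 1 rfl
  rw [hα] at hAs
  set a0 := (T A).coeff 0
  set a1 := (T A).coeff 1
  set b0 := (T B).coeff 0
  set b1 := (T B).coeff 1
  set b2 := (T B).coeff 2
  set b3 := (T B).coeff 3
  set c0 := (T E).coeff 0
  set c1 := (T E).coeff 1
  set c2 := (T E).coeff 2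
  set c3 := (T E).coeff 3
  set c4 := (T E).coeff 4
  have hsum : Polynomial.C (b0 ^ 2 - 4 * (a0 * c0) - g) +
      Polynomial.C (2 * (b0 * b1) - 4 * (a0 * c1 + a1 * c0)) * Polynomial.X +
      Polynomial.C (2 * (b0 * b2) + b1 ^ 2 - 4 * (a0 * c2 + a1 * c1 + C α * c0)) * Polynomial.X ^ 2 +
      Polynomial.C (2 * (b0 * b3) + 2 * (b1 * b2) - 4 * (a0 * c3 + a1 * c2 + C α * c1)) * Polynomial.X ^ 3 +
      Polynomial.C (2 * (b1 * b3) + b2 ^ 2 - 4 * (a0 * c4 + a1 * c3 + C α * c2)) * Polynomial.X ^ 4 +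
      Polynomial.C (2 * (b2 * b3) - 4 * (a1 * c4 + C α * c3)) * Polynomial.X ^ 5 +
      Polynomial.C (b3 ^ 2 - 4 * (C α * c4)) * Polynomial.X ^ 6 = 0 := by
    rw [hAs, hBs, hEs] at hT
    have h4 : (Polynomial.C (4 : MvPolynomial (Fin 2) ℂ)) = 4 := map_ofNat Polynomial.C 4
    have h2 : (Polynomial.C (2 : MvPolynomial (Fin 2) ℂ)) = 2 := map_ofNat Polynomial.C 2
    simp only [map_sub, map_add, map_mul, map_pow, h4, h2]
    linear_combination hT
  have hk : ∀ k : ℕ, _ := fun k => congrArg (fun p => Polynomial.coeff p k) hsum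
  have e0 := hk 0
  have e1 := hk 1
  have e2 := hk 2
  have e3 := hk 3
  have e4 := hk 4
  have e5 := hk 5
  have e6 := hk 6
  simp only [Polynomial.coeff_add, Polynomial.coeff_C_mul, Polynomial.coeff_X_pow, Polynomial.coeff_C,
    Polynomial.coeff_X, Polynomial.coeff_zero] at e0 e1 e2 e3 e4 e5 e6
  norm_num at e0 e1 e2 e3 e4 e5 e6
  have hcu : IsUnit (C c : MvPolynomial (Fin 2) ℂ) := (isUnit_iff_ne_zero.2 hc).map C
  have hirr : ∀ i, Irreducible (C (u i) * X 0 + C (w i) * X 1 : MvPolynomial (Fin 2) ℂ) := by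
    intro i
    apply lin_irr
    by_contra hcon
    push Not at hcon
    obtain ⟨j, hj⟩ : ∃ j : Fin 6, i ≠ j := by
      by_cases h : i = 0
      · exact ⟨1, by rw [h]; decide⟩
      · exact ⟨0, h⟩
    apply hL i j hj
    rw [hcon.1, hcon.2]
    ring
  have hsqf : Squarefree g := by
    have hs : ∀ s : Finset (Fin 6),
        Squarefree (∏ i ∈ s, (C (u i) * X 0 + C (w i) * X 1 : MvPolynomial (Fin 2) ℂ)) := by
      intro s
      induction s using Finset.induction_on with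
      | empty => simp
      | insert i s hi ih =>
        rw [Finset.prod_insert hi, squarefree_mul_iff]
        refine ⟨IsRelPrime.prod_right fun j hj => lin_rel (hL i j ?_), (hirr i).squarefree, ih⟩
        rintro rfl
        exact hi hj
    intro x hx
    exact hs Finset.univ x ((hcu.dvd_mul_left).1 hx)
  have hg0 : eval 0 g = 0 := by
    rw [hgdef]
    simp
  have hgne : g ≠ 0 := hsqf.ne_zero
  obtain ⟨rfl, h1, h2, h3, h4, h5, κ, h6, h7, h8⟩ :=
    core α ha0 ha1 hb0 hb1 hb2 hg0 hsqf hgne (sub_eq_zero.1 e0) e1 e2 e3 e4 e5 e6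
  refine ⟨-κ / 2, fun y => ?_⟩
  have hy : ![(y + Pi.single 2 1 : Fin 3 → ℂ) 0, (y + Pi.single 2 1 : Fin 3 → ℂ) 1] = ![y 0, y 1] := by
    simp
  have hy2 : (y + Pi.single 2 1 : Fin 3 → ℂ) 2 = y 2 + 1 := by
    simp
  rw [T_eval, T_eval y A, T_eval _ B, T_eval y B, T_eval _ E, T_eval y E, hy, hy2, hAs, hBs, hEs, h1, h2, h3,
    h4, h5, h6, h7, h8]
  simp only [Polynomial.map_add, Polynomial.map_mul, Polynomial.map_pow, Polynomial.map_X, Polynomial.map_C,
    Polynomial.eval_add, Polynomial.eval_mul, Polynomial.eval_pow, Polynomial.eval_X, Polynomial.eval_C,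
    map_mul, map_zero, eval_C, Polynomial.map_zero, Polynomial.eval_zero, zero_mul, mul_zero, add_zero]
  refine ⟨?_, ?_, ?_⟩
  · first | trivial | ring
  · ring
  · ring

end Pool.Agent.QK77
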