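import Mathlib

/-! A quadratic form in two variables over a polynomial ring, whose discriminant is a squarefree binary sextic. -/

set_option autoImplicit false

open MvPolynomial

namespace Pool.Agent.QK

/-- a squarefree binary sextic is not a square -/
theorem not_sq {g : MvPolynomial (Fin 2) ℂ} (hg : g.IsHomogeneous 6) (hsq : Squarefree g) (h : MvPolynomial (Fin 2) ℂ) :
    g ≠ h ^ 2 := by
  intro he
  have hg0 : g ≠ 0 := hsq.ne_zero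
  have hu : IsUnit h := hsq h ⟨1, by rw [he]; ring⟩
  have hd : g.totalDegree = 6 := hg.totalDegree hg0
  obtain ⟨c, -, hc⟩ := (MvPolynomial.isUnit_iff_eq_C_of_isReduced).1 hu
  rw [he, hc, ← C_pow, totalDegree_C] at hd
  omega

/-- the leading coefficient is a constant `≠ 0`, normalised to `1` -/
theorem core_monic {a0 a1 b0 b1 b2 b3 c0 c1 c2 c3 c4 g : MvPolynomial (Fin 2) ℂ}
    (ha1 : a1.IsHomogeneous 1) (ha0 : a0.IsHomogeneous 2)
    (hg : g.IsHomogeneous 6) (hsq : Squarefree g)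
    (E0 : b0 ^ 2 - a0 * c0 = g) (E1 : 2 * b0 * b1 - a0 * c1 - a1 * c0 = 0)
    (E2 : 2 * b0 * b2 + b1 ^ 2 - a0 * c2 - a1 * c1 - c0 = 0)
    (E3 : 2 * b0 * b3 + 2 * b1 * b2 - a0 * c3 - a1 * c2 - c1 = 0)
    (E4 : 2 * b1 * b3 + b2 ^ 2 - a0 * c4 - a1 * c3 - c2 = 0)
    (E5 : 2 * b2 * b3 - a1 * c4 - c3 = 0)
    (E6 : b3 ^ 2 - c4 = 0) : False := by
  have hg0 : g ≠ 0 := hsq.ne_zero
  obtain ⟨be, hbe⟩ : ∃ x, x = b1 - a1 * b2 + (a1 ^ 2 - a0) * b3 := ⟨_, rfl⟩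
  obtain ⟨ga, hga⟩ : ∃ x, x = b0 - a0 * b2 + a1 * a0 * b3 := ⟨_, rfl⟩
  -- `Z ^ k = p k * Z + q k`
  have H1 : 2 * be * ga = be ^ 2 * a1 := by
    rw [hbe, hga]
    linear_combination E1 - a1 * E2 + (a1 ^ 2 - a0) * E3 + (-a1 ^ 3 + 2 * a0 * a1) * E4 +
      (a1 ^ 4 - 3 * a0 * a1 ^ 2 + a0 ^ 2) * E5 + (-a1 ^ 5 + 4 * a0 * a1 ^ 3 - 3 * a0 ^ 2 * a1) * E6
  have H0 : ga ^ 2 - g = be ^ 2 * a0 := by
    rw [hbe, hga]
    linear_combination E0 - a0 * E2 + a0 * a1 * E3 + (-a0 * a1 ^ 2 + a0 ^ 2) * E4 +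
      (a0 * a1 ^ 3 - 2 * a0 ^ 2 * a1) * E5 + (-a0 * a1 ^ 4 + 3 * a0 ^ 2 * a1 ^ 2 - a0 ^ 3) * E6
  by_cases hb : be = 0
  · refine not_sq hg hsq ga ?_
    rw [hb] at H0
    linear_combination -H0
  · have H2 : 2 * ga = be * a1 := by
      have : be * (2 * ga) = be * (be * a1) := by linear_combination H1
      exact mul_left_cancel₀ hb this
    have H3 : 4 * g = be * be * (a1 ^ 2 - 4 * a0) := by
      linear_combination (2 * ga + be * a1) * H2 - 4 * H0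
    have h4 : (4 : MvPolynomial (Fin 2) ℂ) = C 4 := by rw [← map_ofNat (C : ℂ →+* MvPolynomial (Fin 2) ℂ) 4]
    have hgf : g = be * be * (C (1 / 4) * (a1 ^ 2 - 4 * a0)) := by
      have : C (1 / 4 : ℂ) * (4 * g) = g := by
        rw [h4, ← mul_assoc, ← C_mul]
        norm_num
      rw [← this, H3]
      ring
    have hu : IsUnit be := hsq be ⟨_, hgf⟩
    obtain ⟨c, -, hc⟩ := (MvPolynomial.isUnit_iff_eq_C_of_isReduced).1 hu
    have hd : g.totalDegree = 6 := hg.totalDegree hg0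
    have h5 : g.IsHomogeneous 2 := by
      rw [hgf, hc, ← C_mul, ← mul_assoc, ← C_mul]
      have h6 : (a1 ^ 2 - 4 * a0).IsHomogeneous 2 := by
        refine IsHomogeneous.sub (by simpa using ha1.pow 2) ?_
        rw [h4]
        simpa using (isHomogeneous_C (Fin 2) (4 : ℂ)).mul ha0
      simpa using (isHomogeneous_C (Fin 2) (c * c * (1 / 4))).mul h6
    rw [h5.totalDegree hg0] at hd
    omega

/-- a binary quadratic form with coefficients in `R[z]`, `R = ℂ[x, y]`, whose discriminant is a squarefree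
sextic in `R`: the first coefficient does not depend on `z` -/
theorem core_top {a0 a1 b0 b1 b2 b3 c0 c1 c2 c3 c4 g : MvPolynomial (Fin 2) ℂ} {al : ℂ}
    (ha1 : a1.IsHomogeneous 1) (ha0 : a0.IsHomogeneous 2)
    (hg : g.IsHomogeneous 6) (hsq : Squarefree g)
    (E0 : b0 ^ 2 - a0 * c0 = g) (E1 : 2 * b0 * b1 - a0 * c1 - a1 * c0 = 0)
    (E2 : 2 * b0 * b2 + b1 ^ 2 - a0 * c2 - a1 * c1 - C al * c0 = 0)
    (E3 : 2 * b0 * b3 + 2 * b1 * b2 - a0 * c3 - a1 * c2 - C al * c1 = 0)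
    (E4 : 2 * b1 * b3 + b2 ^ 2 - a0 * c4 - a1 * c3 - C al * c2 = 0)
    (E5 : 2 * b2 * b3 - a1 * c4 - C al * c3 = 0)
    (E6 : b3 ^ 2 - C al * c4 = 0) : al = 0 ∧ a1 = 0 := by
  by_cases hal : al = 0
  · refine ⟨hal, ?_⟩
    by_contra h1
    rw [hal, C_0] at E2 E3 E4 E5 E6
    obtain ⟨N, hN⟩ : ∃ x, x = b0 * a1 ^ 3 - b1 * a0 * a1 ^ 2 + b2 * a0 ^ 2 * a1 - b3 * a0 ^ 3 := ⟨_, rfl⟩
    have h2 : N ^ 2 = (a1 ^ 3) ^ 2 * g := by
      rw [hN]
      linear_combination a1 ^ 6 * E0 - a0 * a1 ^ 5 * E1 + a0 ^ 2 * a1 ^ 4 * E2 - a0 ^ 3 * a1 ^ 3 * E3 +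
        a0 ^ 4 * a1 ^ 2 * E4 - a0 ^ 5 * a1 * E5 + a0 ^ 6 * E6
    have h3 : a1 ^ 3 ∣ N := by
      rw [← IsIntegrallyClosed.pow_dvd_pow_iff (two_ne_zero)]
      exact ⟨g, h2⟩
    obtain ⟨M, hM⟩ := h3
    refine not_sq hg hsq M ?_
    have h4 : (a1 ^ 3) ^ 2 ≠ 0 := pow_ne_zero _ (pow_ne_zero _ h1)
    apply mul_left_cancel₀ h4
    rw [← h2, hM]
    ring
  · exfalso
    have hC : (C al : MvPolynomial (Fin 2) ℂ) * C al⁻¹ = 1 := by
      rw [← C_mul, mul_inv_cancel₀ hal, C_1]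
    obtain ⟨v, hv⟩ : ∃ v : MvPolynomial (Fin 2) ℂ, v = C al⁻¹ := ⟨_, rfl⟩
    obtain ⟨w, hw⟩ : ∃ w : MvPolynomial (Fin 2) ℂ, w = C al := ⟨_, rfl⟩
    rw [← hv, ← hw] at hC
    rw [← hw] at E2 E3 E4 E5 E6
    refine core_monic (a0 := v * a0) (a1 := v * a1) (b0 := b0) (b1 := b1) (b2 := b2) (b3 := b3)
      (c0 := w * c0) (c1 := w * c1) (c2 := w * c2) (c3 := w * c3) (c4 := w * c4) (g := g) ?_ ?_ hg hsq ?_ ?_ ?_ ?_ ?_ ?_ ?_
    · rw [hv]
      simpa using (isHomogeneous_C (Fin 2) (al⁻¹)).mul ha1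
    · rw [hv]
      simpa using (isHomogeneous_C (Fin 2) (al⁻¹)).mul ha0
    · linear_combination E0 - a0 * c0 * hC
    · linear_combination E1 - (a0 * c1 + a1 * c0) * hC
    · linear_combination E2 - (a0 * c2 + a1 * c1) * hC
    · linear_combination E3 - (a0 * c3 + a1 * c2) * hC
    · linear_combination E4 - (a0 * c4 + a1 * c3) * hC
    · linear_combination E5 - (a1 * c4) * hC
    · linear_combination E6

end Pool.Agent.QK
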