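import Pool.Agent.Lib_MP_1209e6_qk.Core13

/-! The first coefficient does not involve `z`: normal form. -/

set_option autoImplicit false

open MvPolynomial

namespace Pool.Agent.QK

/-- `a ^ 2 ∣ b ^ 2 * g` with `g` squarefree gives `a ∣ b` -/
theorem dvd_of_sq_dvd {R : Type*} [CommRing R] [IsDomain R] [UniqueFactorizationMonoid R] {a b g : R}
    (hg : Squarefree g) (hg0 : g ≠ 0) (h : a ^ 2 ∣ b ^ 2 * g) : a ∣ b := by
  obtain ⟨S, hS⟩ := h
  by_cases ha : a = 0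
  · rw [ha] at hS
    have h1 : b ^ 2 * g = 0 := by rw [hS]; ring
    rcases mul_eq_zero.1 h1 with h2 | h2
    · rw [pow_eq_zero_iff two_ne_zero] at h2
      rw [h2]
      exact dvd_zero a
    · exact absurd h2 hg0
  · have h1 : a ^ 2 ∣ (b * g) ^ 2 := ⟨S * g, by linear_combination g * hS⟩
    rw [IsIntegrallyClosed.pow_dvd_pow_iff two_ne_zero] at h1
    obtain ⟨T, hT⟩ := h1
    have h2 : T ^ 2 = g * S := by
      apply mul_left_cancel₀ (pow_ne_zero 2 ha)
      linear_combination (-(b * g) - a * T) * hT + g * hS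
    have h3 : g ∣ T := by
      rw [← hg.dvd_pow_iff_dvd two_ne_zero]
      exact ⟨S, h2⟩
    obtain ⟨T', hT'⟩ := h3
    refine ⟨T', ?_⟩
    apply mul_left_cancel₀ hg0
    rw [hT'] at hT
    linear_combination hT

/-- the normal form when the first coefficient is a binary quadratic form `a0` -/
theorem core_low {a0 b0 b1 b2 b3 c0 c1 c2 c3 c4 g : MvPolynomial (Fin 2) ℂ}
    (ha0 : a0.IsHomogeneous 2) (hb2 : b2.IsHomogeneous 1) (hb1 : b1.IsHomogeneous 2)
    (hc4 : c4.IsHomogeneous 0) (hg : g.IsHomogeneous 6) (hsq : Squarefree g)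
    (E0 : b0 ^ 2 - a0 * c0 = g) (E1 : 2 * b0 * b1 - a0 * c1 = 0)
    (E2 : 2 * b0 * b2 + b1 ^ 2 - a0 * c2 = 0)
    (E3 : 2 * b0 * b3 + 2 * b1 * b2 - a0 * c3 = 0)
    (E4 : 2 * b1 * b3 + b2 ^ 2 - a0 * c4 = 0)
    (E6 : b3 ^ 2 = 0) :
    ∃ m : ℂ, b3 = 0 ∧ b2 = 0 ∧ b1 = C m * a0 ∧ c4 = 0 ∧ c3 = 0 ∧ c2 = C m ^ 2 * a0 ∧ c1 = 2 * C m * b0 := by
  have hg0 : g ≠ 0 := hsq.ne_zero
  have h2C : (2 : MvPolynomial (Fin 2) ℂ) = C 2 := by rw [← map_ofNat (C : ℂ →+* MvPolynomial (Fin 2) ℂ) 2]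
  have hh : (C (1 / 2 : ℂ) : MvPolynomial (Fin 2) ℂ) * 2 = 1 := by
    rw [h2C, ← C_mul]
    norm_num
  have hb3 : b3 = 0 := by
    rwa [pow_eq_zero_iff two_ne_zero] at E6
  subst hb3
  have ha : a0 ≠ 0 := by
    rintro rfl
    exact not_sq hg hsq b0 (by linear_combination -E0)
  have hb2z : b2 = 0 := by
    by_contra hb
    have hc4ne : c4 ≠ 0 := by
      rintro rfl
      apply hb
      have h1 : b2 ^ 2 = 0 := by linear_combination E4
      rwa [pow_eq_zero_iff two_ne_zero] at h1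
    have hc4C : c4 = C (c4.coeff 0) := totalDegree_eq_zero_iff_eq_C.1 (hc4.totalDegree hc4ne)
    obtain ⟨k, hk⟩ : ∃ k : ℂ, c4 = C k := ⟨_, hc4C⟩
    have hk0 : k ≠ 0 := by
      rintro rfl
      exact hc4ne (by rw [hk, C_0])
    have hkk : (C k⁻¹ : MvPolynomial (Fin 2) ℂ) * C k = 1 := by
      rw [← C_mul, inv_mul_cancel₀ hk0, C_1]
    have hA : a0 = C k⁻¹ * b2 ^ 2 := by
      rw [hk] at E4
      linear_combination -(C k⁻¹) * E4 - a0 * hkk
    have h1 : b2 ∣ b1 := by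
      refine ⟨C (1 / 2) * C k⁻¹ * c3, ?_⟩
      have h2 : b2 * (2 * b1) = b2 * (C k⁻¹ * b2 * c3) := by
        rw [hA] at E3
        linear_combination E3
      have h3 := mul_left_cancel₀ hb h2
      linear_combination C (1 / 2) * h3 - b1 * hh
    obtain ⟨e, he⟩ := h1
    have h4 : b2 ∣ b0 := by
      refine ⟨C (1 / 2) * (C k⁻¹ * c2 - e ^ 2), ?_⟩
      have h5 : b2 * (2 * b0) = b2 * (b2 * (C k⁻¹ * c2 - e ^ 2)) := by
        rw [hA, he] at E2
        linear_combination E2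
      have h6 := mul_left_cancel₀ hb h5
      linear_combination C (1 / 2) * h6 - b0 * hh
    obtain ⟨f, hf⟩ := h4
    have hu : IsUnit b2 := hsq b2 ⟨f ^ 2 - C k⁻¹ * c0, by
      rw [← E0, hf, hA]
      ring⟩
    obtain ⟨c, -, hc⟩ := (MvPolynomial.isUnit_iff_eq_C_of_isReduced).1 hu
    have hd := hb2.totalDegree hb
    rw [hc, totalDegree_C] at hd
    omega
  subst hb2z
  have hc4z : c4 = 0 := by
    have h1 : a0 * c4 = 0 := by linear_combination -E4
    exact (mul_eq_zero.1 h1).resolve_left ha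
  have hc3z : c3 = 0 := by
    have h1 : a0 * c3 = 0 := by linear_combination -E3
    exact (mul_eq_zero.1 h1).resolve_left ha
  have hdvd : a0 ∣ b1 := by
    refine dvd_of_sq_dvd hsq hg0 ⟨C (1 / 2) ^ 2 * c1 ^ 2 - c2 * c0, ?_⟩
    have h1 : b0 * b1 = C (1 / 2) * (a0 * c1) := by
      linear_combination C (1 / 2) * E1 - b0 * b1 * hh
    rw [← E0]
    linear_combination (b0 * b1 + C (1 / 2) * (a0 * c1)) * h1 - a0 * c0 * E2
  obtain ⟨T, hT⟩ := hdvd
  have hm : ∃ m : ℂ, b1 = C m * a0 := by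
    by_cases hb : b1 = 0
    · exact ⟨0, by rw [hb, C_0, zero_mul]⟩
    · have hT0 : T ≠ 0 := by
        rintro rfl
        exact hb (by rw [hT, mul_zero])
      have h1 := totalDegree_mul_of_isDomain ha hT0
      rw [← hT, hb1.totalDegree hb, ha0.totalDegree ha] at h1
      have h2 : T.totalDegree = 0 := by omega
      refine ⟨T.coeff 0, ?_⟩
      rw [← totalDegree_eq_zero_iff_eq_C.1 h2, hT, mul_comm]
  obtain ⟨m, hm⟩ := hm
  refine ⟨m, rfl, rfl, hm, hc4z, hc3z, ?_, ?_⟩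
  · apply mul_left_cancel₀ ha
    rw [hm] at E2
    linear_combination -E2
  · apply mul_left_cancel₀ ha
    rw [hm] at E1
    linear_combination -E1

end Pool.Agent.QK
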