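import Pool.Agent.Lib_MP_1209e6_qk.Core13b

/-! The core in terms of polynomials in `z` over `ℂ[x, y]`. -/

set_option autoImplicit false

open MvPolynomial

namespace Pool.Agent.QK

theorem coeff_mul_range {R : Type*} [CommRing R] (p q : Polynomial R) (k : ℕ) :
    (p * q).coeff k = ∑ i ∈ Finset.range (k + 1), p.coeff i * q.coeff (k - i) := by
  rw [Polynomial.coeff_mul, Finset.Nat.sum_antidiagonal_eq_sum_range_succ_mk]

theorem six_core13 (A B C' : Polynomial (MvPolynomial (Fin 2) ℂ)) (g : MvPolynomial (Fin 2) ℂ)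
    (hA : ∀ k, (A.coeff k).IsHomogeneous (2 - k)) (hA' : A.natDegree ≤ 2)
    (hB : ∀ k, (B.coeff k).IsHomogeneous (3 - k)) (hB' : B.natDegree ≤ 3)
    (hC : ∀ k, (C'.coeff k).IsHomogeneous (4 - k)) (hC' : C'.natDegree ≤ 4)
    (hg : g.IsHomogeneous 6) (hsq : Squarefree g)
    (h : B ^ 2 - 4 * (A * C') = Polynomial.C g) :
    ∃ (m : ℂ) (a b e : MvPolynomial (Fin 2) ℂ), A = Polynomial.C a ∧
      B = Polynomial.C b + Polynomial.C (MvPolynomial.C (2 * m) * a) * Polynomial.X ∧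
      C' = Polynomial.C e + Polynomial.C (MvPolynomial.C m * b) * Polynomial.X +
        Polynomial.C (MvPolynomial.C (m ^ 2) * a) * Polynomial.X ^ 2 := by
  have zA : ∀ k, 2 < k → A.coeff k = 0 := fun k hk => Polynomial.coeff_eq_zero_of_natDegree_lt (lt_of_le_of_lt hA' hk)
  have zB : ∀ k, 3 < k → B.coeff k = 0 := fun k hk => Polynomial.coeff_eq_zero_of_natDegree_lt (lt_of_le_of_lt hB' hk)
  have zC : ∀ k, 4 < k → C'.coeff k = 0 := fun k hk => Polynomial.coeff_eq_zero_of_natDegree_lt (lt_of_le_of_lt hC' hk)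
  have key : ∀ k, ∑ i ∈ Finset.range (k + 1), B.coeff i * B.coeff (k - i) -
      4 * ∑ i ∈ Finset.range (k + 1), A.coeff i * C'.coeff (k - i) = (Polynomial.C g).coeff k := by
    intro k
    rw [← h, Polynomial.coeff_sub, sq, coeff_mul_range]
    congr 1
    have h4 : (4 : Polynomial (MvPolynomial (Fin 2) ℂ)) = Polynomial.C 4 := by
      rw [← map_ofNat (Polynomial.C : MvPolynomial (Fin 2) ℂ →+* _) 4]
    rw [h4, Polynomial.coeff_C_mul, coeff_mul_range]
  have k0 := key 0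
  have k1 := key 1
  have k2 := key 2
  have k3 := key 3
  have k4 := key 4
  have k5 := key 5
  have k6 := key 6
  simp only [Finset.sum_range_succ, Finset.sum_range_zero, zero_add, Nat.sub_zero, Nat.sub_self, Polynomial.coeff_C_zero,
    Nat.reduceSub, zA 3 (by norm_num), zA 4 (by norm_num), zA 5 (by norm_num), zA 6 (by norm_num),
    zB 4 (by norm_num), zB 5 (by norm_num), zB 6 (by norm_num), zC 5 (by norm_num), zC 6 (by norm_num),
    zero_mul, mul_zero, add_zero] at k0 k1 k2 k3 k4 k5 k6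
  rw [Polynomial.coeff_C_of_ne_zero (by norm_num)] at k1 k2 k3 k4 k5 k6
  have hA2 : ∃ al : ℂ, A.coeff 2 = C al := by
    by_cases h0 : A.coeff 2 = 0
    · exact ⟨0, by rw [h0, C_0]⟩
    · exact ⟨_, totalDegree_eq_zero_iff_eq_C.1 ((hA 2).totalDegree h0)⟩
  obtain ⟨al, hal⟩ := hA2
  rw [hal] at k2 k3 k4 k5 k6
  obtain ⟨hal0, hA1⟩ := core_top (a0 := A.coeff 0) (a1 := A.coeff 1) (b0 := B.coeff 0) (b1 := B.coeff 1)
    (b2 := B.coeff 2) (b3 := B.coeff 3) (c0 := 4 * C'.coeff 0) (c1 := 4 * C'.coeff 1) (c2 := 4 * C'.coeff 2)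
    (c3 := 4 * C'.coeff 3) (c4 := 4 * C'.coeff 4) (g := g) (al := al) (hA 1) (hA 0) hg hsq
    (by linear_combination k0) (by linear_combination k1) (by linear_combination k2)
    (by linear_combination k3) (by linear_combination k4) (by linear_combination k5)
    (by linear_combination k6)
  rw [hal0, C_0] at hal k2 k3 k4 k5 k6
  rw [hA1] at k1 k2 k3 k4 k5
  have h4C : (4 : MvPolynomial (Fin 2) ℂ) = C 4 := by rw [← map_ofNat (C : ℂ →+* MvPolynomial (Fin 2) ℂ) 4]
  have hq : (C (1 / 4 : ℂ) : MvPolynomial (Fin 2) ℂ) * 4 = 1 := by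
    rw [h4C, ← C_mul]
    norm_num
  obtain ⟨m, hb3, hb2, hb1, hc4, hc3, hc2, hc1⟩ := core_low (a0 := A.coeff 0) (b0 := B.coeff 0) (b1 := B.coeff 1)
    (b2 := B.coeff 2) (b3 := B.coeff 3) (c0 := 4 * C'.coeff 0) (c1 := 4 * C'.coeff 1) (c2 := 4 * C'.coeff 2)
    (c3 := 4 * C'.coeff 3) (c4 := 4 * C'.coeff 4) (g := g) (hA 0) (hB 2) (hB 1)
    (by
      rw [h4C]
      simpa using (isHomogeneous_C (Fin 2) (4 : ℂ)).mul (hC 4)) hg hsq
    (by linear_combination k0) (by linear_combination k1) (by linear_combination k2)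
    (by linear_combination k3) (by linear_combination k4) (by linear_combination k6)
  have hc4' : C'.coeff 4 = 0 := by linear_combination C (1 / 4) * hc4 - C'.coeff 4 * hq
  have hc3' : C'.coeff 3 = 0 := by linear_combination C (1 / 4) * hc3 - C'.coeff 3 * hq
  have hm2 : (C (2 * (m / 2)) : MvPolynomial (Fin 2) ℂ) = C m := by
    congr 1
    ring
  have hm4 : (C ((m / 2) ^ 2) : MvPolynomial (Fin 2) ℂ) = C (1 / 4) * C m ^ 2 := by
    rw [← C_pow, ← C_mul]
    congr 1
    ring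
  have hm1 : (C (m / 2) : MvPolynomial (Fin 2) ℂ) = C (1 / 4) * (2 * C m) := by
    have h2C : (2 : MvPolynomial (Fin 2) ℂ) = C 2 := by rw [← map_ofNat (C : ℂ →+* MvPolynomial (Fin 2) ℂ) 2]
    rw [h2C, ← C_mul, ← C_mul]
    congr 1
    ring
  refine ⟨m / 2, A.coeff 0, B.coeff 0, C'.coeff 0, ?_, ?_, ?_⟩
  · rw [Polynomial.as_sum_range_C_mul_X_pow' A (n := 3) (by omega)]
    simp only [Finset.sum_range_succ, Finset.sum_range_zero, hA1, hal]
    simp
  · rw [hm2, ← hb1]
    conv_lhs => rw [Polynomial.as_sum_range_C_mul_X_pow' B (n := 4) (by omega)]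
    simp only [Finset.sum_range_succ, Finset.sum_range_zero, hb2, hb3]
    simp
  · have e1 : C'.coeff 1 = C (m / 2) * B.coeff 0 := by
      rw [hm1]
      linear_combination C (1 / 4) * hc1 - C'.coeff 1 * hq
    have e2 : C'.coeff 2 = C ((m / 2) ^ 2) * A.coeff 0 := by
      rw [hm4]
      linear_combination C (1 / 4) * hc2 - C'.coeff 2 * hq
    rw [← e1, ← e2]
    conv_lhs => rw [Polynomial.as_sum_range_C_mul_X_pow' C' (n := 5) (by omega)]
    simp only [Finset.sum_range_succ, Finset.sum_range_zero, hc3', hc4']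
    simp

end Pool.Agent.QK
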