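import Mathlib

set_option autoImplicit false

namespace Pool.Agent.QK77

open MvPolynomial

/-- polynomials in two variables -/
abbrev P : Type := MvPolynomial (Fin 2) ℂ

/-- the coefficient form of the core -/
theorem core {a0 a1 b0 b1 b2 b3 c0 c1 c2 c3 c4 g : P} (α : ℂ)
    (ha0 : a0.IsHomogeneous 2) (ha1 : a1.IsHomogeneous 1)
    (hb0 : b0.IsHomogeneous 3) (hb1 : b1.IsHomogeneous 2) (hb2 : b2.IsHomogeneous 1)
    (hg0 : eval 0 g = 0) (hg : Squarefree g) (hgne : g ≠ 0)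
    (e0 : b0 ^ 2 - 4 * (a0 * c0) = g)
    (e1 : 2 * (b0 * b1) - 4 * (a0 * c1 + a1 * c0) = 0)
    (e2 : 2 * (b0 * b2) + b1 ^ 2 - 4 * (a0 * c2 + a1 * c1 + C α * c0) = 0)
    (e3 : 2 * (b0 * b3) + 2 * (b1 * b2) - 4 * (a0 * c3 + a1 * c2 + C α * c1) = 0)
    (e4 : 2 * (b1 * b3) + b2 ^ 2 - 4 * (a0 * c4 + a1 * c3 + C α * c2) = 0)
    (e5 : 2 * (b2 * b3) - 4 * (a1 * c4 + C α * c3) = 0)
    (e6 : b3 ^ 2 - 4 * (C α * c4) = 0) :
    α = 0 ∧ a1 = 0 ∧ b2 = 0 ∧ b3 = 0 ∧ c4 = 0 ∧ c3 = 0 ∧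
      ∃ κ : ℂ, b1 = C κ * a0 ∧ c1 = C (κ / 2) * b0 ∧ c2 = C (κ ^ 2 / 4) * a0 := by
  have hz : ∀ {f : P} {n : ℕ}, f.IsHomogeneous n → n ≠ 0 → eval 0 f = 0 := by
    intro f n hf hn
    rw [MvPolynomial.eval_zero]
    show coeff 0 f = 0
    exact hf.coeff_eq_zero (by simpa using hn.symm)
  have hgu : ¬ IsUnit g := by
    intro h
    have := h.map (eval (0 : Fin 2 → ℂ))
    rw [hg0] at this
    exact not_isUnit_zero this
  have hsq : ∀ n : P, n ^ 2 ≠ g := by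
    intro n hn
    have h1 : IsUnit n := hg n ⟨1, by rw [← hn]; ring⟩
    exact hgu (hn ▸ h1.pow 2)
  have two : (2 : P) ≠ 0 := two_ne_zero
  have four : (4 : P) ≠ 0 := by norm_num
  -- `α = 0`
  have hα : α = 0 := by
    by_contra hα
    have hinv : (C α : P) * C (1 / α) = 1 := by
      rw [← C_mul, mul_one_div_cancel hα, C_1]
    obtain ⟨p, hp⟩ : ∃ p : P, a1 = C α * p := ⟨C (1 / α) * a1, by rw [← mul_assoc, hinv, one_mul]⟩
    obtain ⟨q, hq⟩ : ∃ q : P, a0 = C α * q := ⟨C (1 / α) * a0, by rw [← mul_assoc, hinv, one_mul]⟩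
    have hp0 : eval 0 p = 0 := by
      have h := hz ha1 one_ne_zero
      rw [hp, map_mul, eval_C] at h
      exact (mul_eq_zero.1 h).resolve_left hα
    have hq0 : eval 0 q = 0 := by
      have h := hz ha0 two_ne_zero
      rw [hq, map_mul, eval_C] at h
      exact (mul_eq_zero.1 h).resolve_left hα
    have hb10 := hz hb1 two_ne_zero
    subst hp hq
    obtain ⟨β, hβ⟩ : ∃ β : P, β = b3 * (p ^ 2 - q) - b2 * p + b1 := ⟨_, rfl⟩
    obtain ⟨γ, hγ⟩ : ∃ γ : P, γ = b3 * (p * q) - b2 * q + b0 := ⟨_, rfl⟩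
    have h1 : 2 * (β * γ) - β ^ 2 * p = 0 := by
      rw [hβ, hγ]
      linear_combination (1 : P) * e1 + (-p) * e2 + (p ^ 2 - q) * e3 + (-p ^ 3 + 2 * p * q) * e4 +
        (p ^ 4 - 3 * p ^ 2 * q + q ^ 2) * e5 + (-p ^ 5 + 4 * p ^ 3 * q - 3 * p * q ^ 2) * e6
    have h2 : γ ^ 2 - g - β ^ 2 * q = 0 := by
      rw [hβ, hγ]
      linear_combination (1 : P) * e0 + (-q) * e2 + (p * q) * e3 + (-p ^ 2 * q + q ^ 2) * e4 +
        (p ^ 3 * q - 2 * p * q ^ 2) * e5 + (-p ^ 4 * q + 3 * p ^ 2 * q ^ 2 - q ^ 3) * e6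
    have hβ0 : eval 0 β = 0 := by
      rw [hβ, map_add, map_sub, map_mul, map_mul, map_sub, map_pow, hp0, hq0, hb10]
      simp
    by_cases hb : β = 0
    · rw [hb] at h2
      exact hsq γ (by linear_combination h2)
    · have h3 : 2 * γ = β * p := by
        apply mul_left_cancel₀ hb
        linear_combination h1
      have h4 : β * β ∣ 4 * g := ⟨p ^ 2 - 4 * q, by linear_combination (2 * γ + β * p) * h3 - 4 * h2⟩
      have h5 : β * β ∣ g := by
        have h6 : IsUnit (4 : P) := by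
          have : (4 : P) = C 4 := (map_ofNat C 4).symm
          rw [this]
          exact (isUnit_iff_ne_zero.2 (by norm_num : (4 : ℂ) ≠ 0)).map C
        exact (h6.dvd_mul_left).1 h4
      have h6 := (hg β h5).map (eval (0 : Fin 2 → ℂ))
      rw [hβ0] at h6
      exact not_isUnit_zero h6
  subst hα
  have hb3 : b3 = 0 := by
    have : b3 ^ 2 = 0 := by linear_combination e6 + (4 * c4) * (C_0 : (C (0 : ℂ) : P) = 0)
    exact pow_eq_zero_iff two_ne_zero |>.1 this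
  subst hb3
  rw [C_0] at e2 e3 e4 e5 e6
  -- `a1 = 0`
  have ha1' : a1 = 0 := by
    by_contra h1
    have hc4 : c4 = 0 := by
      have h2 : (4 * a1) * c4 = 0 := by linear_combination -e5
      rcases mul_eq_zero.1 h2 with h3 | h3
      · exact absurd ((mul_eq_zero.1 h3).resolve_left (by norm_num)) h1
      · exact h3
    subst hc4
    have h2 : (b0 * a1 ^ 2 - b1 * a0 * a1 + b2 * a0 ^ 2) ^ 2 = (a1 ^ 2) ^ 2 * g := by
      linear_combination a1 ^ 4 * e0 - a0 * a1 ^ 3 * e1 + a0 ^ 2 * a1 ^ 2 * e2 - a0 ^ 3 * a1 * e3 + a0 ^ 4 * e4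
    have h3 : a1 ^ 2 ∣ (b0 * a1 ^ 2 - b1 * a0 * a1 + b2 * a0 ^ 2) :=
      (IsIntegrallyClosed.pow_dvd_pow_iff (n := 2) two_ne_zero).1 ⟨g, h2⟩
    obtain ⟨n, hn⟩ := h3
    rw [hn] at h2
    refine hsq n ?_
    have h4 : (a1 ^ 2) ^ 2 ≠ 0 := pow_ne_zero _ (pow_ne_zero _ h1)
    apply mul_left_cancel₀ h4
    linear_combination h2
  subst ha1'
  have ha0' : a0 ≠ 0 := by
    rintro rfl
    exact hsq b0 (by linear_combination e0)
  obtain ⟨a', b', c', hrel, hca, hcb⟩ := UniqueFactorizationMonoid.exists_reduced_factors a0 ha0' b0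
  have hc'0 : c' ≠ 0 := by
    rintro rfl
    exact ha0' (by rw [← hca, zero_mul])
  have hgf : g = c' * (c' * b' ^ 2 - 4 * (a' * c0)) := by
    rw [← e0, ← hca, ← hcb]
    ring
  have hc'sq : Squarefree c' := hg.squarefree_of_dvd ⟨_, hgf⟩
  have hrel2 : IsRelPrime c' a' := by
    intro d hd1 hd2
    refine hg d ?_
    rw [hgf]
    refine mul_dvd_mul hd1 (dvd_sub (hd1.mul_right _) ?_)
    exact (hd2.mul_right _).mul_left _
  have unit2 : IsUnit (2 : P) := by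
    have : (2 : P) = C 2 := (map_ofNat C 2).symm
    rw [this]
    exact (isUnit_iff_ne_zero.2 (by norm_num : (2 : ℂ) ≠ 0)).map C
  -- `a' ∣ b1`
  have k1 : a' ∣ b1 := by
    refine hrel.dvd_of_dvd_mul_left (?_ : a' ∣ b' * b1)
    refine ⟨2 * c1, ?_⟩
    have h4 : (2 * c') * (b' * b1) = (2 * c') * (a' * (2 * c1)) := by
      rw [← hca, ← hcb] at e1
      linear_combination e1
    exact mul_left_cancel₀ (mul_ne_zero two hc'0) h4
  have k2 : c' ∣ b2 := by
    have h4 : c' ∣ b2 ^ 2 := ⟨4 * (a' * c4), by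
      rw [← hca] at e4
      linear_combination e4⟩
    exact (hc'sq.isRadical 2 b2 h4)
  have k3 : c' ∣ b1 := by
    have h4 : c' ∣ b1 ^ 2 := ⟨4 * (a' * c2) - 2 * (b' * b2), by
      rw [← hca, ← hcb] at e2
      linear_combination e2⟩
    exact (hc'sq.isRadical 2 b1 h4)
  have k4 : a0 ∣ b1 := by
    rw [← hca]
    exact hrel2.mul_dvd k3 k1
  have k5 : a' ∣ b2 := by
    refine hrel.dvd_of_dvd_mul_left (?_ : a' ∣ b' * b2)
    obtain ⟨x, hx⟩ := k4
    have h4 : a' ∣ 2 * (b' * b2) := by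
      refine ⟨4 * c2 - b1 * x, mul_left_cancel₀ hc'0 ?_⟩
      rw [← hca, ← hcb] at e2
      rw [← hca] at hx
      linear_combination e2 - b1 * hx
    exact (unit2.dvd_mul_left).1 h4
  have k6 : a0 ∣ b2 := by
    rw [← hca]
    exact hrel2.mul_dvd k2 k5
  have hda : a0.totalDegree = 2 := ha0.totalDegree ha0'
  have hb2' : b2 = 0 := by
    by_contra h
    obtain ⟨x, hx⟩ := k6
    have hx0 : x ≠ 0 := by
      rintro rfl
      exact h (by rw [hx, mul_zero])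
    have h1 := hb2.totalDegree h
    rw [hx, totalDegree_mul_of_isDomain ha0' hx0, hda] at h1
    omega
  subst hb2'
  have hc4 : c4 = 0 := by
    have h2 : (4 * a0) * c4 = 0 := by linear_combination -e4
    exact (mul_eq_zero.1 h2).resolve_left (mul_ne_zero four ha0')
  have hc3 : c3 = 0 := by
    have h2 : (4 * a0) * c3 = 0 := by linear_combination -e3
    exact (mul_eq_zero.1 h2).resolve_left (mul_ne_zero four ha0')
  obtain ⟨κ, hκ⟩ : ∃ κ : ℂ, b1 = C κ * a0 := by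
    by_cases h : b1 = 0
    · exact ⟨0, by rw [h, C_0, zero_mul]⟩
    obtain ⟨x, hx⟩ := k4
    have hx0 : x ≠ 0 := by
      rintro rfl
      exact h (by rw [hx, mul_zero])
    have h1 := hb1.totalDegree h
    rw [hx, totalDegree_mul_of_isDomain ha0' hx0, hda] at h1
    have h2 : x.totalDegree = 0 := by omega
    exact ⟨x.coeff 0, by rw [hx, ← totalDegree_eq_zero_iff_eq_C.1 h2, mul_comm]⟩
  have hC2 : (C (κ / 2) : P) * 2 = C κ := by
    rw [← map_ofNat C 2, ← C_mul]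
    congr 1
    ring
  have hC4 : (C (κ ^ 2 / 4) : P) * 4 = C κ ^ 2 := by
    rw [← map_ofNat C 4, ← C_mul, ← C_pow]
    congr 1
    ring
  refine ⟨rfl, rfl, rfl, rfl, hc4, hc3, κ, hκ, ?_, ?_⟩
  · apply mul_left_cancel₀ (mul_ne_zero four ha0')
    subst hκ
    linear_combination -e1 + (-2 * a0 * b0) * hC2
  · apply mul_left_cancel₀ (mul_ne_zero four ha0')
    subst hκ
    linear_combination -e2 - (a0 ^ 2) * hC4

end Pool.Agent.QK77
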