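import Mathlib

set_option linter.unusedSectionVars false

open MvPolynomial

namespace Pool.Agent.QK91

variable {R : Type*} [CommRing R] [IsDomain R] [UniqueFactorizationMonoid R]

theorem dvd_of_sq_dvd {A b g : R} (hA : A ≠ 0) (hg : Squarefree g) (h : A ^ 2 ∣ b ^ 2 * g) :
    A ∣ b := by
  obtain ⟨A', b', d, hrel, hA', hb'⟩ := UniqueFactorizationMonoid.exists_reduced_factors A hA b
  have hd : d ≠ 0 := by
    rintro rfl
    exact hA (by rw [← hA', zero_mul])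
  have h1 : d ^ 2 * A' ^ 2 ∣ d ^ 2 * (b' ^ 2 * g) := by
    rw [← hA', ← hb'] at h
    have e1 : (d * A') ^ 2 = d ^ 2 * A' ^ 2 := by ring
    have e2 : (d * b') ^ 2 * g = d ^ 2 * (b' ^ 2 * g) := by ring
    rw [← e1, ← e2]
    exact h
  have h2 : A' ^ 2 ∣ b' ^ 2 * g := (mul_dvd_mul_iff_left (pow_ne_zero 2 hd)).1 h1
  have h3 : IsRelPrime (A' ^ 2) (b' ^ 2) := by
    exact hrel.pow
  have h4 : A' ^ 2 ∣ g := h3.dvd_of_dvd_mul_left h2
  have h5 : IsUnit A' := hg A' (by rw [← sq]; exact h4)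
  obtain ⟨u, hu⟩ := h5.exists_left_inv
  refine ⟨u * b', ?_⟩
  rw [← hA', ← hb']
  linear_combination (-(d * b')) * hu

theorem square_contra {M g : R} (hg : Squarefree g) (hu : ¬ IsUnit g) (h : g = M ^ 2) : False := by
  have : IsUnit M := hg M (by rw [h, sq])
  exact hu (by rw [h]; exact this.pow 2)

/-- pure algebra core -/
theorem core (h2 : IsUnit (2 : R))
    {a0 a1 a2 b0 b1 b2 b3 c0 c1 c2 c3 c4 g : R}
    (e6 : b0 ^ 2 - 4 * (a0 * c0) = 0)
    (e5 : 2 * b0 * b1 - 4 * (a0 * c1 + a1 * c0) = 0)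
    (e4 : b1 ^ 2 + 2 * b0 * b2 - 4 * (a0 * c2 + a1 * c1 + a2 * c0) = 0)
    (e3 : 2 * b0 * b3 + 2 * b1 * b2 - 4 * (a0 * c3 + a1 * c2 + a2 * c1) = 0)
    (e2 : b2 ^ 2 + 2 * b1 * b3 - 4 * (a0 * c4 + a1 * c3 + a2 * c2) = 0)
    (e1 : 2 * b2 * b3 - 4 * (a1 * c4 + a2 * c3) = 0)
    (e0 : b3 ^ 2 - 4 * (a2 * c4) = g)
    (hg : Squarefree g) (hgu : ¬ IsUnit g)
    (ha0 : a0 = 0 ∨ IsUnit a0) (hc0 : c0 = 0 ∨ IsUnit c0)
    (hb1 : ¬ IsUnit b1)
    (hr : ¬ IsUnit (b0 * (a1 ^ 2 - a0 * a2) - b1 * a1 * a0 + b2 * a0 ^ 2)) :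
    a0 = 0 ∧ a1 = 0 ∧ a2 ≠ 0 ∧ b0 = 0 ∧ b1 = 0 ∧ c0 = 0 ∧ c1 = 0 ∧ a2 ∣ b2 := by
  have h4 : IsUnit (4 : R) := by
    have : (4 : R) = 2 * 2 := by norm_num
    rw [this]; exact h2.mul h2
  have A0 : a0 = 0 := by
    rcases ha0 with h | h
    · exact h
    exfalso
    have ha : a0 ≠ 0 := h.ne_zero
    set r1 := b0 * (a1 ^ 2 - a0 * a2) - b1 * a1 * a0 + b2 * a0 ^ 2 with hr1
    set r0 := b0 * a1 * a2 - b1 * a2 * a0 + b3 * a0 ^ 2 with hr0
    have k1 : r1 * (2 * a0 * r0 - a1 * r1) = 0 := by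
      rw [hr1, hr0]
      linear_combination (-a1 ^ 5 + 4 * a0 * a1 ^ 3 * a2 - 3 * a0 ^ 2 * a1 * a2 ^ 2) * e6
        + a0 * (a1 ^ 4 - 3 * a0 * a1 ^ 2 * a2 + a0 ^ 2 * a2 ^ 2) * e5
        + a0 ^ 2 * (-a1 ^ 3 + 2 * a0 * a1 * a2) * e4
        + a0 ^ 3 * (a1 ^ 2 - a0 * a2) * e3 + a0 ^ 4 * (-a1) * e2 + a0 ^ 5 * e1
    have k0 : a0 * r0 ^ 2 - a2 * r1 ^ 2 = a0 ^ 5 * g := by
      rw [hr1, hr0]
      linear_combination (-a1 ^ 4 * a2 + 3 * a0 * a1 ^ 2 * a2 ^ 2 - a0 ^ 2 * a2 ^ 3) * e6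
        + a0 * (a1 ^ 3 * a2 - 2 * a0 * a1 * a2 ^ 2) * e5
        + a0 ^ 2 * (-a1 ^ 2 * a2 + a0 * a2 ^ 2) * e4
        + a0 ^ 3 * (a1 * a2) * e3 + a0 ^ 4 * (-a2) * e2 + a0 ^ 5 * e0
    obtain ⟨w, hw⟩ := h.exists_left_inv
    rcases mul_eq_zero.1 k1 with k | k
    · refine square_contra (M := r0 * w ^ 2) hg hgu ?_
      rw [k] at k0
      have k3 : a0 * (r0 ^ 2 - a0 ^ 4 * g) = 0 := by linear_combination k0
      have k4 : r0 ^ 2 = a0 ^ 4 * g := by
        rcases mul_eq_zero.1 k3 with k5 | k5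
        · exact absurd k5 ha
        · linear_combination k5
      have k6 : (w * a0) ^ 4 = 1 := by rw [hw, one_pow]
      linear_combination (-g) * k6 - w ^ 4 * k4
    · have k3 : (a1 ^ 2 - 4 * a0 * a2) * r1 ^ 2 = 4 * a0 ^ 6 * g := by
        linear_combination 4 * a0 * k0 - (2 * a0 * r0 + a1 * r1) * k
      have k4 : r1 * r1 ∣ 4 * a0 ^ 6 * g := ⟨a1 ^ 2 - 4 * a0 * a2, by rw [← k3]; ring⟩
      have k5 : r1 * r1 ∣ g := ((h4.mul (h.pow 6)).dvd_mul_left).1 k4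
      exact hr (hg r1 k5)
  subst A0
  have A1 : a1 = 0 := by
    by_contra ha
    have k : (b3 * a1 ^ 3 - b2 * a2 * a1 ^ 2 + b1 * a2 ^ 2 * a1 - b0 * a2 ^ 3) ^ 2
        = a1 ^ 6 * g := by
      linear_combination (a2 ^ 6) * e6 - a2 ^ 5 * a1 * e5 + a2 ^ 4 * a1 ^ 2 * e4
        - a2 ^ 3 * a1 ^ 3 * e3 + a2 ^ 2 * a1 ^ 4 * e2 - a2 * a1 ^ 5 * e1 + a1 ^ 6 * e0
    have ha3 : a1 ^ 3 ≠ 0 := pow_ne_zero 3 ha
    obtain ⟨M, hM⟩ := dvd_of_sq_dvd (b := b3 * a1 ^ 3 - b2 * a2 * a1 ^ 2 + b1 * a2 ^ 2 * a1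
      - b0 * a2 ^ 3) (g := 1) ha3 squarefree_one ⟨g, by rw [mul_one, k]; ring⟩
    rw [hM] at k
    refine square_contra (M := M) hg hgu ?_
    have k3 : a1 ^ 6 * (g - M ^ 2) = 0 := by linear_combination -k
    rcases mul_eq_zero.1 k3 with k5 | k5
    · exact absurd k5 (pow_ne_zero 6 ha)
    · linear_combination k5
  subst A1
  have hb0 : b0 = 0 := by
    have : b0 ^ 2 = 0 := by linear_combination e6
    exact pow_eq_zero_iff (two_ne_zero) |>.1 this
  subst hb0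
  have ha2 : a2 ≠ 0 := by
    rintro rfl
    exact square_contra (M := b3) hg hgu (by linear_combination -e0)
  have B1 : b1 = 0 := by
    rcases hc0 with h | h
    · have : b1 ^ 2 = 0 := by rw [h] at e4; linear_combination e4
      exact pow_eq_zero_iff (two_ne_zero) |>.1 this
    exfalso
    obtain ⟨v, hv⟩ := (h4.mul h).exists_left_inv
    have s1 : a2 = v * b1 ^ 2 := by linear_combination (-a2) * hv - v * e4
    have hb : b1 ≠ 0 := by
      rintro rfl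
      exact ha2 (by rw [s1]; ring)
    obtain ⟨t, ht⟩ := h2.exists_left_inv
    have s2 : b2 = 2 * v * b1 * c1 := by
      have : b1 * (2 * b2 - 4 * v * b1 * c1) = 0 := by linear_combination e3 + 4 * c1 * s1
      rcases mul_eq_zero.1 this with k | k
      · exact absurd k hb
      · linear_combination (-b2 + 2 * v * b1 * c1) * ht + t * k
    have s3 : b3 = b1 * (2 * v * c2 - 2 * v ^ 2 * c1 ^ 2) := by
      have : b1 * (2 * b3 - b1 * (4 * v * c2 - 4 * v ^ 2 * c1 ^ 2)) = 0 := by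
        linear_combination e2 + 4 * c2 * s1 - (b2 + 2 * v * b1 * c1) * s2
      rcases mul_eq_zero.1 this with k | k
      · exact absurd k hb
      · linear_combination (-b3 + b1 * (2 * v * c2 - 2 * v ^ 2 * c1 ^ 2)) * ht + t * k
    refine hb1 (hg b1 ⟨(2 * v * c2 - 2 * v ^ 2 * c1 ^ 2) ^ 2 - 4 * v * c4, ?_⟩)
    rw [← e0, s3, s1]; ring
  subst B1
  have C0 : c0 = 0 := by
    have : (4 : R) * (a2 * c0) = 0 := by linear_combination -e4
    rcases mul_eq_zero.1 this with k | k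
    · exact absurd k h4.ne_zero
    · rcases mul_eq_zero.1 k with k | k
      · exact absurd k ha2
      · exact k
  have C1 : c1 = 0 := by
    have : (4 : R) * (a2 * c1) = 0 := by linear_combination -e3
    rcases mul_eq_zero.1 this with k | k
    · exact absurd k h4.ne_zero
    · rcases mul_eq_zero.1 k with k | k
      · exact absurd k ha2
      · exact k
  subst C0 C1
  refine ⟨rfl, rfl, ha2, rfl, rfl, rfl, rfl, ?_⟩
  refine dvd_of_sq_dvd ha2 hg ⟨4 * c3 ^ 2 - 16 * c2 * c4, ?_⟩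
  obtain ⟨t, ht⟩ := h2.exists_left_inv
  have s1 : b2 * b3 = 2 * a2 * c3 := by
    linear_combination (-(b2 * b3) + 2 * a2 * c3) * ht + t * e1
  have s2 : b2 ^ 2 = 4 * a2 * c2 := by linear_combination e2
  rw [← e0]
  linear_combination (b2 * b3 + 2 * a2 * c3) * s1 - 4 * a2 * c4 * s2

theorem unit_degree {σ : Type*} {p : MvPolynomial σ ℂ} {n : ℕ} (hp : p.IsHomogeneous n)
    (hn : n ≠ 0) : ¬ IsUnit p := by
  intro hu
  obtain ⟨r, hr, hr'⟩ := (MvPolynomial.isUnit_iff_eq_C_of_isReduced).1 hu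
  have h0 : p.IsHomogeneous 0 := by rw [hr']; exact isHomogeneous_C σ r
  exact hn (hp.inj_right h0 hu.ne_zero)

theorem const_of_zero {σ : Type*} {p : MvPolynomial σ ℂ} (hp : p.IsHomogeneous 0) :
    ∃ c : ℂ, p = MvPolynomial.C c := by
  have h : p.totalDegree = 0 := Nat.le_zero.1 hp.totalDegree_le
  exact ⟨_, MvPolynomial.totalDegree_eq_zero_iff_eq_C.1 h⟩

theorem unit_or_zero {σ : Type*} {p : MvPolynomial σ ℂ} (hp : p.IsHomogeneous 0) :
    p = 0 ∨ IsUnit p := by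
  obtain ⟨c, hc⟩ := const_of_zero hp
  by_cases h : c = 0
  · left; rw [hc, h, map_zero]
  · right; rw [hc]; exact (isUnit_iff_ne_zero.2 h).map MvPolynomial.C

theorem coeffs_gen (r0 r1 r2 r3 r4 r5 r6 g : R)
    (key : Polynomial.C r6 * Polynomial.X ^ 6 + Polynomial.C r5 * Polynomial.X ^ 5
      + Polynomial.C r4 * Polynomial.X ^ 4 + Polynomial.C r3 * Polynomial.X ^ 3
      + Polynomial.C r2 * Polynomial.X ^ 2 + Polynomial.C r1 * Polynomial.X
      + Polynomial.C r0 = Polynomial.C g) :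
    r6 = 0 ∧ r5 = 0 ∧ r4 = 0 ∧ r3 = 0 ∧ r2 = 0 ∧ r1 = 0 ∧ r0 = g := by
  have hk := fun k => congrArg (fun p : Polynomial R => p.coeff k) key
  refine ⟨?_, ?_, ?_, ?_, ?_, ?_, ?_⟩
  · simpa [Polynomial.coeff_X, Polynomial.coeff_C, Polynomial.coeff_X_pow] using hk 6
  · simpa [Polynomial.coeff_X, Polynomial.coeff_C, Polynomial.coeff_X_pow] using hk 5
  · simpa [Polynomial.coeff_X, Polynomial.coeff_C, Polynomial.coeff_X_pow] using hk 4
  · simpa [Polynomial.coeff_X, Polynomial.coeff_C, Polynomial.coeff_X_pow] using hk 3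
  · simpa [Polynomial.coeff_X, Polynomial.coeff_C, Polynomial.coeff_X_pow] using hk 2
  · simpa [Polynomial.coeff_X, Polynomial.coeff_C, Polynomial.coeff_X_pow] using hk 1
  · simpa [Polynomial.coeff_X, Polynomial.coeff_C, Polynomial.coeff_X_pow] using hk 0

theorem coeffs_eq (a0 a1 a2 b0 b1 b2 b3 c0 c1 c2 c3 c4 g : R)
    (h : (Polynomial.C b3 + Polynomial.C b2 * Polynomial.X + Polynomial.C b1 * Polynomial.X ^ 2
          + Polynomial.C b0 * Polynomial.X ^ 3) ^ 2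
        - 4 * ((Polynomial.C a2 + Polynomial.C a1 * Polynomial.X
            + Polynomial.C a0 * Polynomial.X ^ 2)
          * (Polynomial.C c4 + Polynomial.C c3 * Polynomial.X + Polynomial.C c2 * Polynomial.X ^ 2
            + Polynomial.C c1 * Polynomial.X ^ 3 + Polynomial.C c0 * Polynomial.X ^ 4))
        = Polynomial.C g) :
    b0 ^ 2 - 4 * (a0 * c0) = 0 ∧
    2 * b0 * b1 - 4 * (a0 * c1 + a1 * c0) = 0 ∧
    b1 ^ 2 + 2 * b0 * b2 - 4 * (a0 * c2 + a1 * c1 + a2 * c0) = 0 ∧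
    2 * b0 * b3 + 2 * b1 * b2 - 4 * (a0 * c3 + a1 * c2 + a2 * c1) = 0 ∧
    b2 ^ 2 + 2 * b1 * b3 - 4 * (a0 * c4 + a1 * c3 + a2 * c2) = 0 ∧
    2 * b2 * b3 - 4 * (a1 * c4 + a2 * c3) = 0 ∧
    b3 ^ 2 - 4 * (a2 * c4) = g := by
  have key : Polynomial.C (b0 ^ 2 - 4 * (a0 * c0)) * Polynomial.X ^ 6
      + Polynomial.C (2 * b0 * b1 - 4 * (a0 * c1 + a1 * c0)) * Polynomial.X ^ 5
      + Polynomial.C (b1 ^ 2 + 2 * b0 * b2 - 4 * (a0 * c2 + a1 * c1 + a2 * c0))
        * Polynomial.X ^ 4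
      + Polynomial.C (2 * b0 * b3 + 2 * b1 * b2 - 4 * (a0 * c3 + a1 * c2 + a2 * c1))
        * Polynomial.X ^ 3
      + Polynomial.C (b2 ^ 2 + 2 * b1 * b3 - 4 * (a0 * c4 + a1 * c3 + a2 * c2))
        * Polynomial.X ^ 2
      + Polynomial.C (2 * b2 * b3 - 4 * (a1 * c4 + a2 * c3)) * Polynomial.X
      + Polynomial.C (b3 ^ 2 - 4 * (a2 * c4)) = Polynomial.C g := by
    rw [← h]
    simp only [map_sub, map_add, map_mul, map_pow, map_ofNat]
    ring
  exact coeffs_gen _ _ _ _ _ _ _ _ key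

end Pool.Agent.QK91

namespace Pool.Agent.QK

open Pool.Agent.QK91

theorem six_core (A B C : Polynomial (MvPolynomial (Fin 2) ℂ)) (g : MvPolynomial (Fin 2) ℂ)
    (hA : ∀ k, (A.coeff k).IsHomogeneous (2 - k)) (hA' : A.natDegree ≤ 2)
    (hB : ∀ k, (B.coeff k).IsHomogeneous (3 - k)) (hB' : B.natDegree ≤ 3)
    (hC : ∀ k, (C.coeff k).IsHomogeneous (4 - k)) (hC' : C.natDegree ≤ 4)
    (hg : g.IsHomogeneous 6) (hsq : Squarefree g)
    (h : B ^ 2 - 4 * (A * C) = Polynomial.C g) :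
    ∃ (m : ℂ) (a b e : MvPolynomial (Fin 2) ℂ),
      A = Polynomial.C a ∧
      B = Polynomial.C b + Polynomial.C (MvPolynomial.C (2 * m) * a) * Polynomial.X ∧
      C = Polynomial.C e + Polynomial.C (MvPolynomial.C m * b) * Polynomial.X
        + Polynomial.C (MvPolynomial.C (m ^ 2) * a) * Polynomial.X ^ 2 := by
  have eA : A = Polynomial.C (A.coeff 0) + Polynomial.C (A.coeff 1) * Polynomial.X
      + Polynomial.C (A.coeff 2) * Polynomial.X ^ 2 := by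
    conv_lhs => rw [A.as_sum_range_C_mul_X_pow' (Nat.lt_succ_of_le hA')]
    simp [Finset.sum_range_succ]
  have eB : B = Polynomial.C (B.coeff 0) + Polynomial.C (B.coeff 1) * Polynomial.X
      + Polynomial.C (B.coeff 2) * Polynomial.X ^ 2
      + Polynomial.C (B.coeff 3) * Polynomial.X ^ 3 := by
    conv_lhs => rw [B.as_sum_range_C_mul_X_pow' (Nat.lt_succ_of_le hB')]
    simp [Finset.sum_range_succ]
  have eC : C = Polynomial.C (C.coeff 0) + Polynomial.C (C.coeff 1) * Polynomial.X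
      + Polynomial.C (C.coeff 2) * Polynomial.X ^ 2
      + Polynomial.C (C.coeff 3) * Polynomial.X ^ 3
      + Polynomial.C (C.coeff 4) * Polynomial.X ^ 4 := by
    conv_lhs => rw [C.as_sum_range_C_mul_X_pow' (Nat.lt_succ_of_le hC')]
    simp [Finset.sum_range_succ]
  have hA0 := hA 0
  have hA1 := hA 1
  have hA2 := hA 2
  have hB0 := hB 0
  have hB1 := hB 1
  have hB2 := hB 2
  have hB3 := hB 3
  have hC0 := hC 0
  have hC1 := hC 1
  have hC2 := hC 2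
  have hC3 := hC 3
  have hC4 := hC 4
  generalize A.coeff 0 = a2 at *
  generalize A.coeff 1 = a1 at *
  generalize A.coeff 2 = a0 at *
  generalize B.coeff 0 = b3 at *
  generalize B.coeff 1 = b2 at *
  generalize B.coeff 2 = b1 at *
  generalize B.coeff 3 = b0 at *
  generalize C.coeff 0 = c4 at *
  generalize C.coeff 1 = c3 at *
  generalize C.coeff 2 = c2 at *
  generalize C.coeff 3 = c1 at *
  generalize C.coeff 4 = c0 at *
  norm_num at hA0 hA1 hA2 hB0 hB1 hB2 hB3 hC0 hC1 hC2 hC3 hC4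
  rw [eA, eB, eC] at h
  obtain ⟨e6, e5, e4, e3, e2, e1, e0⟩ := coeffs_eq _ _ _ _ _ _ _ _ _ _ _ _ _ h
  have h2 : IsUnit (2 : MvPolynomial (Fin 2) ℂ) := by
    have : (2 : MvPolynomial (Fin 2) ℂ) = MvPolynomial.C 2 := (map_ofNat MvPolynomial.C 2).symm
    rw [this]
    exact (isUnit_iff_ne_zero.2 (by norm_num)).map MvPolynomial.C
  have hr : ¬ IsUnit (b0 * (a1 ^ 2 - a0 * a2) - b1 * a1 * a0 + b2 * a0 ^ 2) := by
    refine unit_degree (n := 2) ?_ (by norm_num)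
    have t1 : (b0 * (a1 ^ 2 - a0 * a2)).IsHomogeneous 2 := by
      have s1 : (a1 ^ 2).IsHomogeneous 2 := hA1.pow 2
      have s2 : (a0 * a2).IsHomogeneous 2 := by
        have := hA2.mul hA0
        rwa [zero_add] at this
      have := hB3.mul (s1.sub s2)
      rwa [zero_add] at this
    have t2 : (b1 * a1 * a0).IsHomogeneous 2 := (hB2.mul hA1).mul hA2
    have t3 : (b2 * a0 ^ 2).IsHomogeneous 2 := hB1.mul (hA2.pow 2)
    exact (t1.sub t2).add t3
  obtain ⟨rfl, rfl, ha2, rfl, rfl, rfl, rfl, k, hk⟩ := core h2 e6 e5 e4 e3 e2 e1 e0 hsq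
    (unit_degree hg (by norm_num)) (unit_or_zero hA2) (unit_or_zero hC4)
    (unit_degree hB2 (by norm_num)) hr
  have hkd : k.totalDegree = 0 := by
    by_cases hk0 : k = 0
    · rw [hk0]; exact totalDegree_zero
    have d1 := MvPolynomial.totalDegree_mul_of_isDomain ha2 hk0
    have hb2 : b2 ≠ 0 := by rw [hk]; exact mul_ne_zero ha2 hk0
    rw [← hk, hB1.totalDegree hb2, hA0.totalDegree ha2] at d1
    omega
  obtain ⟨c, hc⟩ : ∃ c : ℂ, k = MvPolynomial.C c :=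
    ⟨_, MvPolynomial.totalDegree_eq_zero_iff_eq_C.1 hkd⟩
  have hc2 : c = 2 * (c / 2) := by ring
  set m := c / 2 with hm
  have hkm : k = 2 * MvPolynomial.C m := by
    rw [hc, hc2, map_mul]
    congr 1
  have h4 : (4 : MvPolynomial (Fin 2) ℂ) ≠ 0 := by norm_num
  have f2 : c2 = MvPolynomial.C m ^ 2 * a2 := by
    have : (4 * a2) * (c2 - MvPolynomial.C m ^ 2 * a2) = 0 := by
      rw [hk, hkm] at e2
      linear_combination -e2
    rcases mul_eq_zero.1 this with q | q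
    · exact absurd q (mul_ne_zero h4 ha2)
    · linear_combination q
  have f3 : c3 = MvPolynomial.C m * b3 := by
    have : (4 * a2) * (c3 - MvPolynomial.C m * b3) = 0 := by
      rw [hk, hkm] at e1
      linear_combination -e1
    rcases mul_eq_zero.1 this with q | q
    · exact absurd q (mul_ne_zero h4 ha2)
    · linear_combination q
  refine ⟨m, a2, b3, c4, ?_, ?_, ?_⟩
  · rw [eA]; simp
  · rw [eB, hk, hkm]
    simp only [map_zero, zero_mul, add_zero, map_mul, map_ofNat]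
    ring
  · rw [eC, f2, f3]
    simp only [map_zero, zero_mul, add_zero, map_mul, map_pow]

end Pool.Agent.QK

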