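import Pool.Agent.Lib_MP_1209e6_qk.Two93

/-! PIECE SIX (helper93): six lines through a point: the quartic form is invariant under a translation. -/

set_option autoImplicit false

open MvPolynomial

noncomputable section

namespace Pool.Agent.QK

/-- the explicit form of a ternary quadratic form -/
theorem s93_quad {A : MvPolynomial (Fin 3) ℂ} (hA : A.IsHomogeneous 2) : ∃ a b c d e f : ℂ,
    A = C a * X 0 ^ 2 + C b * (X 0 * X 1) + C c * X 1 ^ 2 + C d * (X 0 * X 2) + C e * (X 1 * X 2) +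
      C f * X 2 ^ 2 := by
  have hM : ∀ i j, ∃ k : ℂ, pderiv i (pderiv j A) = C k := by
    intro i j
    have h1 : (pderiv i (pderiv j A)).IsHomogeneous 0 := (hA.pderiv (i := j)).pderiv (i := i)
    refine ⟨_, totalDegree_eq_zero_iff_eq_C.1 ?_⟩
    exact Nat.le_zero.1 h1.totalDegree_le
  choose M hM using hM
  have h1 : ∀ j, pderiv j A = ∑ i, X i * C (M i j) := by
    intro j
    have h2 := (hA.pderiv (i := j)).sum_X_mul_pderiv
    simp only [hM] at h2
    rw [h2]
    simp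
  have h2 := hA.sum_X_mul_pderiv
  simp only [h1, Fin.sum_univ_three] at h2
  have h3 : (2 : MvPolynomial (Fin 3) ℂ) * C (1 / 2) = 1 := by
    have h4 : (2 : MvPolynomial (Fin 3) ℂ) = C 2 := (map_ofNat (C : ℂ →+* MvPolynomial (Fin 3) ℂ) 2).symm
    rw [h4, ← C_mul]
    norm_num
  refine ⟨1 / 2 * M 0 0, 1 / 2 * (M 0 1 + M 1 0), 1 / 2 * M 1 1, 1 / 2 * (M 0 2 + M 2 0),
    1 / 2 * (M 1 2 + M 2 1), 1 / 2 * M 2 2, ?_⟩
  have h5 : A = C (1 / 2) * (2 • A) := by
    rw [nsmul_eq_mul]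
    push_cast
    linear_combination (-A) * h3
  conv_lhs => rw [h5, ← h2]
  simp only [C_mul, C_add]
  ring

theorem s93_L_irr {u w : ℂ} (h : u ≠ 0 ∨ w ≠ 0) :
    Irreducible (C u * X 0 + C w * X 1 : MvPolynomial (Fin 3) ℂ) := by
  have h0 : (C u * X 0 + C w * X 1 : MvPolynomial (Fin 3) ℂ) ≠ 0 := by
    intro h1
    rcases h with h | h
    · have h2 := congrArg (eval ![1, 0, 0]) h1
      simp at h2
      exact h h2
    · have h2 := congrArg (eval ![0, 1, 0]) h1
      simp at h2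
      exact h h2
  have hh : (C u * X 0 + C w * X 1 : MvPolynomial (Fin 3) ℂ).IsHomogeneous 1 := by
    refine IsHomogeneous.add ?_ ?_
    · simpa using (isHomogeneous_C (Fin 3) u).mul (isHomogeneous_X ℂ (0 : Fin 3))
    · simpa using (isHomogeneous_C (Fin 3) w).mul (isHomogeneous_X ℂ (1 : Fin 3))
  refine irreducible_of_totalDegree_eq_one (hh.totalDegree h0) fun x hx => ?_
  obtain ⟨m, hm⟩ := exists_coeff_ne_zero h0
  refine isUnit_iff_ne_zero.2 fun hx0 => hm ?_
  have := hx m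
  rw [hx0, zero_dvd_iff] at this
  exact this

theorem s93_rel {u w u' w' : ℂ} (h : u ≠ 0 ∨ w ≠ 0) (h' : u * w' - u' * w ≠ 0) :
    IsRelPrime (C u * X 0 + C w * X 1 : MvPolynomial (Fin 3) ℂ) (C u' * X 0 + C w' * X 1) := by
  rw [(s93_L_irr h).isRelPrime_iff_not_dvd]
  rintro ⟨q, hq⟩
  have h2 := congrArg (eval ![w, -u, 0]) hq
  simp at h2
  apply h'
  have h3 : u * w + -(w * u) = 0 := by ring
  rw [h3, zero_mul] at h2
  linear_combination -h2

theorem s93_sqf (c : ℂ) (hc : c ≠ 0) (u w : Fin 6 → ℂ)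
    (hL : ∀ i j, i ≠ j → u i * w j - u j * w i ≠ 0) :
    Squarefree (C c * ∏ i, (C (u i) * X 0 + C (w i) * X 1) : MvPolynomial (Fin 3) ℂ) := by
  have hne : ∀ i, u i ≠ 0 ∨ w i ≠ 0 := by
    intro i
    by_contra hcon
    push Not at hcon
    obtain ⟨j, hj⟩ : ∃ j : Fin 6, i ≠ j := ⟨i + 1, by fin_cases i <;> decide⟩
    apply hL i j hj
    rw [hcon.1, hcon.2]
    ring
  have hunit : IsUnit (C c : MvPolynomial (Fin 3) ℂ) := (isUnit_iff_ne_zero.2 hc).map C
  have key : ∀ S : Finset (Fin 6), Squarefree (∏ i ∈ S, (C (u i) * X 0 + C (w i) * X 1) :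
      MvPolynomial (Fin 3) ℂ) := by
    intro S
    classical
    induction S using Finset.induction_on with
    | empty => simp
    | insert a S ha ih =>
      rw [Finset.prod_insert ha, squarefree_mul_iff]
      refine ⟨?_, (s93_L_irr (hne a)).squarefree, ih⟩
      refine IsRelPrime.prod_right fun j hj => s93_rel (hne a) (hL a j ?_)
      rintro rfl
      exact ha hj
  rw [squarefree_mul_iff]
  exact ⟨hunit.isRelPrime_left, hunit.squarefree, key _⟩

theorem s93_K {A B E : MvPolynomial (Fin 3) ℂ} (c : ℂ) (hc : c ≠ 0) (u w : Fin 6 → ℂ)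
    (hL : ∀ i j, i ≠ j → u i * w j - u j * w i ≠ 0)
    (hD : B ^ 2 - C 4 * (A * E) = C c * ∏ i, (C (u i) * X 0 + C (w i) * X 1)) (i : Fin 6) (s : ℂ)
    (hP : eval ![w i, -u i, s] A = 0) :
    eval ![w i, -u i, s] (pderiv 2 A) = 0 ∧
      (eval ![w i, -u i, s] (pderiv 0 A) ≠ 0 ∨ eval ![w i, -u i, s] (pderiv 1 A) ≠ 0) := by
  classical
  have hne : u i ≠ 0 ∨ w i ≠ 0 := by
    by_contra hcon
    push Not at hcon
    obtain ⟨j, hj⟩ : ∃ j : Fin 6, i ≠ j := ⟨i + 1, by fin_cases i <;> decide⟩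
    apply hL i j hj
    rw [hcon.1, hcon.2]
    ring
  set P : Fin 3 → ℂ := ![w i, -u i, s] with hPd
  let R : MvPolynomial (Fin 3) ℂ := ∏ j ∈ Finset.univ.erase i, (C (u j) * X 0 + C (w j) * X 1)
  have hR : ∏ j, (C (u j) * X 0 + C (w j) * X 1 : MvPolynomial (Fin 3) ℂ) =
      (C (u i) * X 0 + C (w i) * X 1) * R := (Finset.mul_prod_erase _ _ (Finset.mem_univ i)).symm
  have hRP : eval P R ≠ 0 := by
    rw [map_prod]
    refine Finset.prod_ne_zero_iff.2 fun j hj => ?_
    have h1 := hL i j (Finset.ne_of_mem_erase hj).symm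
    have h2 : eval P (C (u j) * X 0 + C (w j) * X 1) = -(u i * w j - u j * w i) := by
      simp [hPd]
      ring
    rw [h2]
    exact neg_ne_zero.2 h1
  have hLP : eval P (C (u i) * X 0 + C (w i) * X 1) = 0 := by
    simp [hPd]
    ring
  rw [hR] at hD
  have hBP : eval P B = 0 := by
    have h1 := congrArg (eval P) hD
    simp only [map_sub, map_mul, map_pow, hP, hLP] at h1
    simp only [zero_mul, mul_zero, sub_zero] at h1
    exact pow_eq_zero_iff (two_ne_zero) |>.1 h1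
  have hder : ∀ k, -4 * eval P (pderiv k A) * eval P E =
      c * (eval P (pderiv k (C (u i) * X 0 + C (w i) * X 1)) * eval P R) := by
    intro k
    have h1 := congrArg (fun G => eval P (pderiv k G)) hD
    simp only [map_sub, sq, Derivation.leibniz, smul_eq_mul, pderiv_C, map_add, map_mul, map_zero,
      hBP, hP, eval_C] at h1
    have h2 : eval P (C (u i) * X 0 + C (w i) * X 1) = 0 := hLP
    simp only [map_add, map_mul, eval_C] at h2
    simp only [Derivation.leibniz, smul_eq_mul, pderiv_C, map_add, map_mul, map_zero, eval_C]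
    linear_combination h1 + c * eval P (pderiv k R) * h2
  have e0 : eval P (pderiv 0 (C (u i) * X 0 + C (w i) * X 1)) = u i := by
    simp [pderiv_X]
  have e1 : eval P (pderiv 1 (C (u i) * X 0 + C (w i) * X 1)) = w i := by
    simp [pderiv_X]
  have e2 : eval P (pderiv 2 (C (u i) * X 0 + C (w i) * X 1)) = 0 := by
    simp [pderiv_X]
  have h0 := hder 0
  have h1 := hder 1
  have h2 := hder 2
  rw [e0] at h0
  rw [e1] at h1
  rw [e2, zero_mul, mul_zero] at h2
  rcases hne with h | h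
  · have h3 : c * (u i * eval P R) ≠ 0 := mul_ne_zero hc (mul_ne_zero h hRP)
    rw [← h0] at h3
    have h4 := right_ne_zero_of_mul h3
    have h5 := right_ne_zero_of_mul (left_ne_zero_of_mul h3)
    refine ⟨?_, Or.inl h5⟩
    have h6 := (mul_eq_zero.1 h2).resolve_right h4
    exact (mul_eq_zero.1 h6).resolve_left (by norm_num)
  · have h3 : c * (w i * eval P R) ≠ 0 := mul_ne_zero hc (mul_ne_zero h hRP)
    rw [← h1] at h3
    have h4 := right_ne_zero_of_mul h3
    have h5 := right_ne_zero_of_mul (left_ne_zero_of_mul h3)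
    refine ⟨?_, Or.inr h5⟩
    have h6 := (mul_eq_zero.1 h2).resolve_right h4
    exact (mul_eq_zero.1 h6).resolve_left (by norm_num)

/-- three zeros of a binary quadratic form -/
theorem s93_three {α β γ w0 u0 w1 u1 w2 u2 : ℂ} (h01 : u0 * w1 - u1 * w0 ≠ 0)
    (h02 : u0 * w2 - u2 * w0 ≠ 0) (h12 : u1 * w2 - u2 * w1 ≠ 0)
    (e0 : α * w0 ^ 2 + β * (w0 * u0) + γ * u0 ^ 2 = 0) (e1 : α * w1 ^ 2 + β * (w1 * u1) + γ * u1 ^ 2 = 0)
    (e2 : α * w2 ^ 2 + β * (w2 * u2) + γ * u2 ^ 2 = 0) : α = 0 ∧ β = 0 ∧ γ = 0 := by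
  have hd : (u0 * w1 - u1 * w0) * (u0 * w2 - u2 * w0) * (u1 * w2 - u2 * w1) ≠ 0 :=
    mul_ne_zero (mul_ne_zero h01 h02) h12
  refine ⟨?_, ?_, ?_⟩
  · refine (mul_eq_zero.1 (?_ : (u0 * w1 - u1 * w0) * (u0 * w2 - u2 * w0) * (u1 * w2 - u2 * w1) * α = 0)).resolve_left hd
    linear_combination (u1 * u2 * (u1 * w2 - u2 * w1)) * e0 - (u0 * u2 * (u0 * w2 - u2 * w0)) * e1 +
      (u0 * u1 * (u0 * w1 - u1 * w0)) * e2
  · refine (mul_eq_zero.1 (?_ : (u0 * w1 - u1 * w0) * (u0 * w2 - u2 * w0) * (u1 * w2 - u2 * w1) * β = 0)).resolve_left hd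
    linear_combination (-(u1 ^ 2 * w2 ^ 2 - u2 ^ 2 * w1 ^ 2)) * e0 + (u0 ^ 2 * w2 ^ 2 - u2 ^ 2 * w0 ^ 2) * e1 -
      (u0 ^ 2 * w1 ^ 2 - u1 ^ 2 * w0 ^ 2) * e2
  · refine (mul_eq_zero.1 (?_ : (u0 * w1 - u1 * w0) * (u0 * w2 - u2 * w0) * (u1 * w2 - u2 * w1) * γ = 0)).resolve_left hd
    linear_combination (w1 * w2 * (u1 * w2 - u2 * w1)) * e0 - (w0 * w2 * (u0 * w2 - u2 * w0)) * e1 +
      (w0 * w1 * (u0 * w1 - u1 * w0)) * e2

theorem s93_one {A B E : MvPolynomial (Fin 3) ℂ} (hA : A.IsHomogeneous 2) (c : ℂ) (hc : c ≠ 0)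
    (u w : Fin 6 → ℂ) (hL : ∀ i j, i ≠ j → u i * w j - u j * w i ≠ 0)
    (hD : B ^ 2 - C 4 * (A * E) = C c * ∏ i, (C (u i) * X 0 + C (w i) * X 1)) : pderiv 2 A = 0 := by
  obtain ⟨a, b, k, d, e, f, rfl⟩ := s93_quad hA
  have K := fun i s => s93_K c hc u w hL hD i s
  set A : MvPolynomial (Fin 3) ℂ := C a * X 0 ^ 2 + C b * (X 0 * X 1) + C k * X 1 ^ 2 +
    C d * (X 0 * X 2) + C e * (X 1 * X 2) + C f * X 2 ^ 2 with hAd
  have v : ∀ x y z : ℂ, eval ![x, y, z] A = a * x ^ 2 + b * (x * y) + k * y ^ 2 + d * (x * z) +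
      e * (y * z) + f * z ^ 2 := by
    intro x y z
    simp [hAd]
  have v0 : ∀ x y z : ℂ, eval ![x, y, z] (pderiv 0 A) = 2 * a * x + b * y + d * z := by
    intro x y z
    simp [hAd, pderiv_X]
    ring
  have v1 : ∀ x y z : ℂ, eval ![x, y, z] (pderiv 1 A) = b * x + 2 * k * y + e * z := by
    intro x y z
    simp [hAd, pderiv_X]
    ring
  have v2 : ∀ x y z : ℂ, eval ![x, y, z] (pderiv 2 A) = d * x + e * y + 2 * f * z := by
    intro x y z
    simp [hAd, pderiv_X]
    ring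
  by_cases hf : f = 0
  · have h1 : ∀ i, d * w i - e * u i = 0 := by
      intro i
      by_contra hcon
      obtain ⟨s, hs⟩ : ∃ s, (d * w i - e * u i) * s = -(a * w i ^ 2 - b * (w i * u i) + k * u i ^ 2) :=
        ⟨-(a * w i ^ 2 - b * (w i * u i) + k * u i ^ 2) * (d * w i - e * u i)⁻¹, by
          rw [mul_comm, mul_assoc, inv_mul_cancel₀ hcon, mul_one]⟩
      have h2 := K i s (by
        rw [v, hf]
        linear_combination hs)
      rw [v2, hf] at h2
      apply hcon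
      linear_combination h2.1
    have h01 := hL 0 1 (by decide)
    have hd : d = 0 := by
      refine (mul_eq_zero.1 (?_ : (u 0 * w 1 - u 1 * w 0) * d = 0)).resolve_left h01
      linear_combination u 0 * h1 1 - u 1 * h1 0
    have he : e = 0 := by
      refine (mul_eq_zero.1 (?_ : (u 0 * w 1 - u 1 * w 0) * e = 0)).resolve_left h01
      linear_combination w 0 * h1 1 - w 1 * h1 0
    rw [hAd, hf, hd, he]
    simp [pderiv_X]
  · exfalso
    have hroot : ∀ i, ∃ s, eval ![w i, -u i, s] A = 0 := by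
      intro i
      obtain ⟨r, hr⟩ := IsAlgClosed.exists_pow_nat_eq
        ((d * w i - e * u i) ^ 2 - 4 * f * (a * w i ^ 2 - b * (w i * u i) + k * u i ^ 2)) (n := 2) (by norm_num)
      refine ⟨(-(d * w i - e * u i) + r) / (2 * f), ?_⟩
      rw [v]
      field_simp
      linear_combination hr
    have hq : ∀ i, (4 * f * a - d ^ 2) * w i ^ 2 + (2 * d * e - 4 * f * b) * (w i * u i) +
        (4 * f * k - e ^ 2) * u i ^ 2 = 0 := by
      intro i
      obtain ⟨s, hs⟩ := hroot i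
      have h2 := (K i s hs).1
      rw [v] at hs
      rw [v2] at h2
      linear_combination (4 * f) * hs - (d * w i - e * u i + 2 * f * s) * h2
    obtain ⟨q1, q2, q3⟩ := s93_three (hL 0 1 (by decide)) (hL 0 2 (by decide)) (hL 1 2 (by decide))
      (hq 0) (hq 1) (hq 2)
    obtain ⟨s, hs⟩ := hroot 0
    have h2 := K 0 s hs
    rw [v0, v1, v2] at h2
    obtain ⟨h3, h4⟩ := h2
    have h2f : (2 : ℂ) * f ≠ 0 := mul_ne_zero two_ne_zero hf
    rcases h4 with h4 | h4
    · apply h4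
      refine (mul_eq_zero.1 (?_ : (2 * f) * _ = 0)).resolve_left h2f
      linear_combination d * h3 + w 0 * q1 + (1 / 2) * u 0 * q2
    · apply h4
      refine (mul_eq_zero.1 (?_ : (2 * f) * _ = 0)).resolve_left h2f
      linear_combination e * h3 - (1 / 2) * w 0 * q2 - u 0 * q3

/-- six lines through a point -/
theorem six_cone93 {A B E : MvPolynomial (Fin 3) ℂ} (hA : A.IsHomogeneous 2) (hB : B.IsHomogeneous 3)
    (_hE : E.IsHomogeneous 4) (c : ℂ) (hc : c ≠ 0) (u w : Fin 6 → ℂ)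
    (hL : ∀ i j, i ≠ j → u i * w j - u j * w i ≠ 0)
    (hD : B ^ 2 - C 4 * (A * E) = C c * ∏ i, (C (u i) * X 0 + C (w i) * X 1)) :
    ∃ β : ℂ, ∀ y : Fin 3 → ℂ, eval (y + Pi.single 2 1) A = eval y A ∧
      eval (y + Pi.single 2 1) B = eval y B - 2 * β * eval y A ∧
      eval (y + Pi.single 2 1) E = eval y E - β * eval y B + β ^ 2 * eval y A := by
  have h4 : (4 : MvPolynomial (Fin 3) ℂ) = C 4 := (map_ofNat (C : ℂ →+* MvPolynomial (Fin 3) ℂ) 4).symm
  have hX : ∀ j : Fin 3, j ≠ 2 → Dp (Pi.single 2 1 : Fin 3 → ℂ) (X j) = 0 := by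
    intro j hj
    rw [Dp_X, Pi.single_eq_of_ne hj, C_0]
  have hCz : ∀ r : ℂ, Dp (Pi.single 2 1 : Fin 3 → ℂ) (C r) = 0 := by
    intro r
    rw [← algebraMap_eq]
    exact Derivation.map_algebraMap _ _
  refine six_two_eval hA hB (Pi.single 2 1) ?_ ?_ ?_
  · rw [h4, hD]
    exact s93_sqf c hc u w hL
  · rw [Dp_eq, Finset.sum_eq_single 2]
    · rw [s93_one hA c hc u w hL hD, mul_zero]
    · intro j _ hj
      rw [Pi.single_eq_of_ne hj, C_0, zero_mul]
    · intro h; exact absurd (Finset.mem_univ _) h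
  · rw [h4, hD]
    have key : ∀ S : Finset (Fin 6), Dp (Pi.single 2 1 : Fin 3 → ℂ)
        (∏ i ∈ S, (C (u i) * X 0 + C (w i) * X 1)) = 0 := by
      intro S
      classical
      induction S using Finset.induction_on with
      | empty => rw [Finset.prod_empty, Derivation.map_one_eq_zero]
      | insert a S ha ih =>
        rw [Finset.prod_insert ha, Derivation.leibniz, ih, map_add, Derivation.leibniz,
          Derivation.leibniz, hX 0 (by decide), hX 1 (by decide), hCz, hCz]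
        simp
    rw [Derivation.leibniz, key, hCz]
    simp

end Pool.Agent.QK
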