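import Pool.Agent.Lib_MP_1209e6_qk.Plane

/-! The entire curve `h = ξ g` with `h × h' = grad G (h)`. -/

set_option autoImplicit false

open MvPolynomial

namespace Pool.Agent.QK
open Filter Metric Set Topology Pool.Agent.GGL

theorem nhds_of_ne {z0 : ℂ} {p : ℂ → Prop} (h0 : p z0) (h : ∀ᶠ z in 𝓝[≠] z0, p z) :
    ∀ᶠ z in 𝓝 z0, p z := by
  rw [eventually_nhdsWithin_iff] at h
  filter_upwards [h] with z hz
  by_cases hzz : z = z0
  · rw [hzz]
    exact h0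
  · exact hz hzz

theorem glue {F ψ : ℂ → ℂ} {z0 : ℂ} (hψ : AnalyticAt ℂ ψ z0) (h : ∀ᶠ z in 𝓝[≠] z0, F z = ψ z) :
    (fun z => limUnder (𝓝[≠] z) F) =ᶠ[𝓝 z0] ψ := by
  refine nhds_of_ne ?_ ?_
  · refine Tendsto.limUnder_eq ?_
    refine (hψ.continuousAt.tendsto.mono_left nhdsWithin_le_nhds).congr' ?_
    filter_upwards [h] with z hz
    exact hz.symm
  · have h1 : ∀ᶠ z in 𝓝[≠] z0, ∀ᶠ w in 𝓝 z, F w = ψ w := by
      rw [eventually_nhdsWithin_iff] at h ⊢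
      filter_upwards [h.eventually_nhds] with z hz hzz
      filter_upwards [hz, isOpen_compl_singleton.mem_nhds hzz] with w hw1 hw2
      exact hw1 hw2
    have h2 : ∀ᶠ z in 𝓝[≠] z0, AnalyticAt ℂ ψ z :=
      hψ.eventually_analyticAt.filter_mono nhdsWithin_le_nhds
    filter_upwards [h1, h2] with z hz1 hz2
    refine Tendsto.limUnder_eq ?_
    refine (hz2.continuousAt.tendsto.mono_left nhdsWithin_le_nhds).congr' ?_
    filter_upwards [hz1.filter_mono nhdsWithin_le_nhds] with w hw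
    exact hw.symm

theorem an_zero {p : ℂ → ℂ} {z0 : ℂ} (hp : AnalyticAt ℂ p z0) (h : ∀ᶠ z in 𝓝[≠] z0, p z = 0) :
    ∀ᶠ z in 𝓝 z0, p z = 0 := by
  rcases hp.eventually_eq_zero_or_eventually_ne_zero with h1 | h1
  · exact h1
  · exfalso
    obtain ⟨z, hz1, hz2⟩ := (h.and h1).exists
    exact hz2 hz1

open scoped Classical in
/-- an index with nonzero partial derivative -/
noncomputable def idx (G : MvPolynomial (Fin 3) ℂ) (x : Fin 3 → ℂ) : Fin 3 :=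
  if h : ∃ i, eval x (pderiv i G) ≠ 0 then h.choose else 0

theorem idx_spec {G : MvPolynomial (Fin 3) ℂ} (hs : Pool.Agent.DS.Smooth G) {x : Fin 3 → ℂ}
    (hx : x ≠ 0) : eval x (pderiv (idx G x) G) ≠ 0 := by
  have h : ∃ i, eval x (pderiv i G) ≠ 0 := by
    by_contra hcon
    push Not at hcon
    exact hx (hs x hcon)
  rw [idx, dif_pos h]
  exact h.choose_spec

/-- the curve before filling the common zeros -/
noncomputable def raw (G : MvPolynomial (Fin 3) ℂ) (g : Fin 3 → ℂ → ℂ) (k : Fin 3) (z : ℂ) : ℂ :=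
  wr g z (idx G fun k => g k z) / eval (fun k => g k z) (pderiv (idx G fun k => g k z) G) * g k z

/-- the local data of the curve -/
theorem exists_data {G : MvPolynomial (Fin 3) ℂ} (hG : G.IsHomogeneous 4)
    (hs : Pool.Agent.DS.Smooth G) {g : Fin 3 → ℂ → ℂ} (hg : ∀ k, Differentiable ℂ (g k))
    (h0 : ∃ z, g 0 z ≠ 0) (hGg : ∀ z, eval (fun k => g k z) G = 0) (z0 : ℂ) :
    ∃ (ξ : ℂ → ℂ) (u : Fin 3 → ℂ → ℂ), AnalyticAt ℂ ξ z0 ∧ (∀ k, AnalyticAt ℂ (u k) z0) ∧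
      (∃ k, u k z0 ≠ 0) ∧
      (∀ᶠ z in 𝓝 z0, ∀ i, wr u z i = ξ z * eval (fun k => u k z) (pderiv i G)) ∧
      (∀ᶠ z in 𝓝[≠] z0, ∀ k, raw G g k z = ξ z * u k z) ∧
      (∀ᶠ z in 𝓝[≠] z0, ∃ p : ℂ, ∀ i, wr g z i = p ^ 2 * wr u z i) := by
  obtain ⟨m, u, hu, ⟨k0, hk0⟩, hgu⟩ := exists_loc hg h0 z0
  have hscal : ∀ (p : ℂ) (x y : Fin 3 → ℂ) (d : ℕ) (q : MvPolynomial (Fin 3) ℂ), q.IsHomogeneous d →
      (∀ k, x k = p * y k) → eval x q = p ^ d * eval y q := by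
    intro p x y d q hq hxy
    have h1 : x = p • y := funext fun k => by rw [hxy k]; rfl
    rw [h1]
    exact smooth_eval_smul hq p y
  have hne : ∀ᶠ z in 𝓝[≠] z0, (z - z0) ^ m ≠ 0 := by
    rw [eventually_nhdsWithin_iff]
    filter_upwards with z hz
    exact pow_ne_zero _ (sub_ne_zero.2 hz)
  have hGu : ∀ᶠ z in 𝓝 z0, eval (fun k => u k z) G = 0 := by
    refine an_zero (an_eval G hu) ?_
    filter_upwards [hgu.filter_mono nhdsWithin_le_nhds, hne] with z hz1 hz2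
    have h1 := hscal ((z - z0) ^ m) (fun k => g k z) (fun k => u k z) 4 G hG hz1
    rw [hGg z] at h1
    exact (mul_eq_zero.1 h1.symm).resolve_left (pow_ne_zero _ hz2)
  obtain ⟨ξ, hξ, hw⟩ := exists_xi hG hs hu ⟨k0, hk0⟩ hGu
  have hwr : ∀ᶠ z in 𝓝[≠] z0, ∀ i, wr g z i = ((z - z0) ^ m) ^ 2 * wr u z i := by
    have h1 : ∀ᶠ z in 𝓝 z0, ∀ k, AnalyticAt ℂ (u k) z :=
      eventually_all.2 fun k => (hu k).eventually_analyticAt
    filter_upwards [hgu.eventually_nhds.filter_mono nhdsWithin_le_nhds,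
      h1.filter_mono nhdsWithin_le_nhds] with z hz1 hz2 i
    rw [wr_congr (g := fun k w => (w - z0) ^ m * u k w) (fun k => by
      filter_upwards [hz1] with w hw
      exact hw k) i]
    exact wr_mul (p := fun w => (w - z0) ^ m) (fun k => (hz2 k).differentiableAt)
      (((differentiable_id.sub (differentiable_const _)).pow m) z) i
  refine ⟨ξ, u, hξ, hu, ⟨k0, hk0⟩, hw, ?_, ?_⟩
  · have hu0 : ∀ᶠ z in 𝓝 z0, u k0 z ≠ 0 := (hu k0).continuousAt.eventually_ne hk0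
    filter_upwards [hgu.filter_mono nhdsWithin_le_nhds, hne, hwr,
      hw.filter_mono nhdsWithin_le_nhds, hu0.filter_mono nhdsWithin_le_nhds] with z h1 h2 h3 h4 h5 k
    have hgz : (fun k => g k z) ≠ 0 := by
      intro h
      have h6 := congrFun h k0
      simp only [Pi.zero_apply] at h6
      rw [h1 k0] at h6
      exact (mul_ne_zero h2 h5) h6
    have h7 := idx_spec hs hgz
    have h8 := hscal ((z - z0) ^ m) (fun k => g k z) (fun k => u k z) 3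
      (pderiv (idx G fun k => g k z) G) (hG.pderiv) h1
    rw [raw]
    rw [h8] at h7 ⊢
    have h9 : eval (fun k => u k z) (pderiv (idx G fun k => g k z) G) ≠ 0 := (mul_ne_zero_iff.1 h7).2
    rw [h3, h4, h1 k]
    field_simp
  · filter_upwards [hwr] with z hz
    exact ⟨_, hz⟩

/-- the entire curve `h` -/
theorem exists_entire {G : MvPolynomial (Fin 3) ℂ} (hG : G.IsHomogeneous 4)
    (hs : Pool.Agent.DS.Smooth G) {g : Fin 3 → ℂ → ℂ} (hg : ∀ k, Differentiable ℂ (g k))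
    (h0 : ∃ z, g 0 z ≠ 0) (hGg : ∀ z, eval (fun k => g k z) G = 0) :
    ∃ h : Fin 3 → ℂ → ℂ, (∀ k, Differentiable ℂ (h k)) ∧
      (∀ z i, wr h z i = eval (fun k => h k z) (pderiv i G)) ∧
      ((∀ k z, h k z = 0) → ∀ z i, wr g z i = 0) := by
  set h : Fin 3 → ℂ → ℂ := fun k z => limUnder (𝓝[≠] z) (raw G g k) with hh
  have hloc : ∀ z0 : ℂ, ∃ (ξ : ℂ → ℂ) (u : Fin 3 → ℂ → ℂ), AnalyticAt ℂ ξ z0 ∧
      (∀ k, AnalyticAt ℂ (u k) z0) ∧ (∃ k, u k z0 ≠ 0) ∧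
      (∀ᶠ z in 𝓝 z0, ∀ i, wr u z i = ξ z * eval (fun k => u k z) (pderiv i G)) ∧
      (∀ k, h k =ᶠ[𝓝 z0] fun z => ξ z * u k z) ∧
      (∀ᶠ z in 𝓝[≠] z0, ∃ p : ℂ, ∀ i, wr g z i = p ^ 2 * wr u z i) := by
    intro z0
    obtain ⟨ξ, u, hξ, hu, hu0, hw, hr, hp⟩ := exists_data hG hs hg h0 hGg z0
    refine ⟨ξ, u, hξ, hu, hu0, hw, fun k => ?_, hp⟩
    exact glue (hξ.mul (hu k)) (by
      filter_upwards [hr] with z hz
      exact hz k)
  refine ⟨h, ?_, ?_, ?_⟩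
  · intro k z0
    obtain ⟨ξ, u, hξ, hu, -, -, hr, -⟩ := hloc z0
    exact ((hξ.mul (hu k)).differentiableAt).congr_of_eventuallyEq (hr k)
  · intro z0 i
    obtain ⟨ξ, u, hξ, hu, -, hw, hr, -⟩ := hloc z0
    rw [wr_congr (g := fun k w => ξ w * u k w) hr i,
      wr_mul (fun k => (hu k).differentiableAt) hξ.differentiableAt i, hw.self_of_nhds i]
    have h1 : (fun k => h k z0) = ξ z0 • fun k => u k z0 := by
      funext k
      exact (hr k).self_of_nhds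
    rw [h1, smooth_eval_smul (hG.pderiv (i := i)) (ξ z0) (fun k => u k z0)]
    ring
  · intro hzero z0 i
    obtain ⟨ξ, u, hξ, hu, ⟨k0, hk0⟩, hw, hr, hp⟩ := hloc z0
    have hu0 : ∀ᶠ z in 𝓝 z0, u k0 z ≠ 0 := (hu k0).continuousAt.eventually_ne hk0
    have h1 : ∀ᶠ z in 𝓝 z0, ξ z = 0 := by
      filter_upwards [hr k0, hu0] with z hz1 hz2
      rw [hzero k0 z] at hz1
      exact (mul_eq_zero.1 hz1.symm).resolve_right hz2
    have h2 : ∀ᶠ z in 𝓝[≠] z0, wr g z i = 0 := by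
      filter_upwards [hp, h1.filter_mono nhdsWithin_le_nhds,
        hw.filter_mono nhdsWithin_le_nhds] with z ⟨p, hz1⟩ hz2 hz3
      rw [hz1 i, hz3 i, hz2]
      ring
    exact (an_zero (wr_analytic (fun k => (hg k).analyticAt z0) i) h2).self_of_nhds

end Pool.Agent.QK
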