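import Pool.Agent.Lib_MP_1209e6_ds.Defs
import Pool.Agent.Lib_MP_1209e6_ds.Krull20
import Pool.Agent.Lib_MP_1209e6_qx.SingC

/-! A quartic cone whose singular points are vertices is a cone over a smooth plane quartic. -/

set_option autoImplicit false

open MvPolynomial

noncomputable section

namespace Pool.Agent.QK

open Pool.Agent.QS

theorem ae {n : ℕ} (x : Fin n → ℂ) (G : MvPolynomial (Fin n) ℂ) : aeval x G = eval x G := by
  rw [← coe_aeval_eq_eval]
  rfl

theorem eval_scale {n d : ℕ} {G : MvPolynomial (Fin n) ℂ} (hG : G.IsHomogeneous d) (s : ℂ) (p : Fin n → ℂ) :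
    eval (fun i => s * p i) G = s ^ d * eval p G := by
  have h := scale hG s p
  rwa [ae, ae] at h

/-- translation by multiples of a vertex -/
theorem vertex_smul {n d : ℕ} {G : MvPolynomial (Fin n) ℂ} (hG : G.IsHomogeneous d) (a : Fin n → ℂ)
    (h : ∀ x, eval (x + a) G = eval x G) (t : ℂ) (x : Fin n → ℂ) :
    eval (fun i => x i + t * a i) G = eval x G := by
  by_cases ht : t = 0
  · subst ht
    simp
  · have h1 := h fun i => t⁻¹ * x i
    have h2 : (fun i => x i + t * a i) = fun i => t * (((fun i => t⁻¹ * x i) + a : Fin n → ℂ) i) := by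
      funext i
      simp only [Pi.add_apply]
      field_simp
    have h3 : x = fun i => t * (t⁻¹ * x i) := by
      funext i
      field_simp
    rw [h2, eval_scale hG, h1, ← eval_scale hG, ← h3]

/-- an irreducible form of degree four does not vanish on the zero set of a nonzero linear form -/
theorem no_plane {n : ℕ} {F : MvPolynomial (Fin n) ℂ} (hF : F.IsHomogeneous 4) (hi : Irreducible F)
    (ℓ : MvPolynomial (Fin n) ℂ) (hℓ : ℓ.IsHomogeneous 1) (h0 : ℓ ≠ 0)
    (h : ∀ x : Fin n → ℂ, eval x ℓ = 0 → eval x F = 0) : False := by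
  have h1 : F ∈ (Ideal.span {ℓ}).radical := by
    rw [← vanishingIdeal_zeroLocus_eq_radical (k := ℂ) (K := ℂ), mem_vanishingIdeal_iff]
    intro x hx
    rw [mem_zeroLocus_iff] at hx
    have h2 := hx ℓ (Ideal.subset_span rfl)
    rw [ae] at h2 ⊢
    exact h x h2
  obtain ⟨N, hN⟩ := h1
  rw [Ideal.mem_span_singleton] at hN
  have hu : ¬ IsUnit ℓ := by
    intro hu
    obtain ⟨c, -, hc⟩ := MvPolynomial.isUnit_iff_eq_C_of_isReduced.1 hu
    have h2 := hℓ.totalDegree h0
    rw [hc, totalDegree_C] at h2
    exact zero_ne_one h2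
  obtain ⟨π, hπ, hπℓ⟩ := WfDvdMonoid.exists_irreducible_factor hu h0
  have h2 : π ∣ F := (irreducible_iff_prime.1 hπ).dvd_of_dvd_pow (hπℓ.trans hN)
  have h3 : F ∣ π := hπ.dvd_symm hi h2
  obtain ⟨s, hs⟩ := h3.trans hπℓ
  have hs0 : s ≠ 0 := by
    rintro rfl
    rw [mul_zero] at hs
    exact h0 hs
  have h4 := congrArg totalDegree hs
  rw [totalDegree_mul_of_isDomain hi.ne_zero hs0, hF.totalDegree hi.ne_zero, hℓ.totalDegree h0] at h4
  omega

theorem cone_form' {F : MvPolynomial (Fin 4) ℂ} (hF : F.IsHomogeneous 4) (hi : Irreducible F)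
    (a : Fin 4 → ℂ) (ha : a ≠ 0) (hs : ∀ j, eval a (pderiv j F) = 0)
    (hv : ∀ b : Fin 4 → ℂ, (∀ j, eval b (pderiv j F) = 0) → ∀ x, eval (x + b) F = eval x F) :
    ∃ (G : MvPolynomial (Fin 3) ℂ) (M : Fin 3 → Fin 4 → ℂ), G.IsHomogeneous 4 ∧
      Pool.Agent.DS.Smooth G ∧ LinearIndependent ℂ M ∧ aeval (fun i => ∑ j, C (M i j) * X j) G = F := by
  classical
  obtain ⟨m, hm⟩ := Function.ne_iff.1 ha
  have ham : a m ≠ 0 := hm
  let G := gc a m F 0
  have hG : G.IsHomogeneous 4 := gc_hom hF 0 4 rfl
  let M : Fin 3 → Fin 4 → ℂ := fun i j =>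
    (if j = m.succAbove i then 1 else 0) - (if j = m then a (m.succAbove i) * (a m)⁻¹ else 0)
  have hM : ∀ (x : Fin 4 → ℂ) (i : Fin 3), ∑ j, M i j * x j = x (m.succAbove i) - a (m.succAbove i) * (a m)⁻¹ * x m := by
    intro x i
    simp only [M, sub_mul, Finset.sum_sub_distrib, ite_mul, one_mul, zero_mul, Finset.sum_ite_eq',
      Finset.mem_univ, if_true]
  have hMy : ∀ (x : Fin 4 → ℂ), (fun i => ∑ j, M i j * x j) = fun i : Fin 3 => yc a m x i.succ := by
    intro x
    funext i
    rw [hM]
    simp only [yc, Fin.cons_succ, Algebra.algebraMap_self, RingHom.id_apply]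
    ring
  have hFG : ∀ x : Fin 4 → ℂ, eval x F = eval (fun i => ∑ j, M i j * x j) G := by
    intro x
    rw [hMy]
    have h1 := vertex_smul hF a (hv a hs) (- ((a m)⁻¹ * x m)) x
    rw [← h1]
    have h2 := aeval_newF a m F (Fin.cons 0 (fun i : Fin 3 => yc a m x i.succ) : Fin 4 → ℂ)
    rw [expand hF hs] at h2
    have h3 : xc a m (Fin.cons 0 (fun i : Fin 3 => yc a m x i.succ) : Fin 4 → ℂ) =
        fun i => x i + - ((a m)⁻¹ * x m) * a i := by
      funext j
      rcases Fin.eq_self_or_eq_succAbove m j with rfl | ⟨i, rfl⟩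
      · simp only [xc, Fin.cons_zero, Fin.insertNth_apply_same, mul_zero, add_zero]
        field_simp
        ring
      · simp only [xc, yc, Fin.cons_zero, Fin.cons_succ, Fin.insertNth_apply_succAbove, mul_zero, zero_add,
          Algebra.algebraMap_self, RingHom.id_apply]
        ring
    rw [h3] at h2
    simp only [Fin.cons_succ, Fin.cons_zero, mul_zero, add_zero] at h2
    rw [ae, ae] at h2
    have h4 : (0 : ℂ) ^ 2 = 0 := by norm_num
    rw [h4, mul_zero, add_zero] at h2
    exact h2.symm
  have hMsurj : ∀ q : Fin 3 → ℂ, (fun i => ∑ j, M i j * (Fin.insertNth m 0 q : Fin 4 → ℂ) j) = q := by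
    intro q
    funext i
    rw [hM, Fin.insertNth_apply_succAbove, Fin.insertNth_apply_same]
    ring
  have hFeq : aeval (fun i => ∑ j, C (M i j) * X j) G = F := by
    apply MvPolynomial.funext
    intro x
    rw [hFG]
    have h1 := DFunLike.congr_fun (comp_aeval (R := ℂ) (fun i => ∑ j, C (M i j) * (X j : MvPolynomial (Fin 4) ℂ))
      (aeval x : MvPolynomial (Fin 4) ℂ →ₐ[ℂ] ℂ)) G
    rw [AlgHom.comp_apply, ae, ae] at h1
    rw [h1]
    congr 2
    funext i
    rw [map_sum]
    refine Finset.sum_congr rfl fun j _ => ?_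
    rw [map_mul, algHom_C, aeval_X]
    rfl
  refine ⟨G, M, hG, ?_, ?_, hFeq⟩
  · -- smoothness
    intro p hp
    by_contra hp0
    have hp' : ∀ i, eval p (pderiv i G) = 0 := fun i => by
      have := hp i
      rwa [ae] at this
    let b : Fin 4 → ℂ := Fin.insertNth m 0 p
    have hb : ∀ j, eval b (pderiv j F) = 0 := by
      intro j
      have h1 := chain (pderiv j : Derivation ℂ (MvPolynomial (Fin 4) ℂ) (MvPolynomial (Fin 4) ℂ))
        (fun i => ∑ j, C (M i j) * (X j : MvPolynomial (Fin 4) ℂ)) G
      rw [hFeq] at h1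
      rw [h1, map_sum]
      refine Finset.sum_eq_zero fun i _ => ?_
      have h2 : eval b (aeval (fun i => ∑ j, C (M i j) * (X j : MvPolynomial (Fin 4) ℂ)) (pderiv i G)) = 0 := by
        have h3 := DFunLike.congr_fun (comp_aeval (R := ℂ) (fun i => ∑ j, C (M i j) * (X j : MvPolynomial (Fin 4) ℂ))
          (aeval b : MvPolynomial (Fin 4) ℂ →ₐ[ℂ] ℂ)) (pderiv i G)
        rw [AlgHom.comp_apply, ae, ae] at h3
        rw [h3, ← hp' i]
        congr 2
        funext i
        rw [map_sum]
        have h4 := congrFun (hMsurj p) i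
        rw [← h4]
        refine Finset.sum_congr rfl fun j _ => ?_
        rw [map_mul, algHom_C, aeval_X]
        rfl
      rw [map_mul, h2, mul_zero]
    have hGp : ∀ q, eval (q + p) G = eval q G := by
      intro q
      have h1 := hv b hb (Fin.insertNth m 0 q : Fin 4 → ℂ)
      rw [hFG, hFG, hMsurj] at h1
      rw [← h1]
      congr 2
      funext i
      have h2 := congrFun (hMsurj q) i
      have h3 := congrFun (hMsurj p) i
      simp only [Pi.add_apply, mul_add, Finset.sum_add_distrib]
      rw [← h2, ← h3]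
    obtain ⟨l, hl⟩ := Function.ne_iff.1 hp0
    have hl' : p l ≠ 0 := hl
    -- a zero `c` of `G` with `c l = 0`
    obtain ⟨c, hc0, hc⟩ := Pool.Agent.DS.exists_common_zero (Ω := ℂ) (J := Fin 3) (I := Fin 2)
      (![G, X l] : Fin 2 → MvPolynomial (Fin 3) ℂ) (by
        intro i
        fin_cases i
        · have h1 := eval_scale hG 0 0
          simp only [Matrix.cons_val_zero, Fin.zero_eta]
          rw [ae]
          have h2 : (fun i : Fin 3 => (0 : ℂ) * (0 : Fin 3 → ℂ) i) = 0 := by
            funext i
            simp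
          rw [h2] at h1
          rw [h1]
          ring
        · simp) (by simp)
    have hcG : eval c G = 0 := by
      have := hc 0
      simpa [ae] using this
    have hcl : c l = 0 := by
      have := hc 1
      simpa using this
    let i1 : Fin 3 := l.succAbove 0
    let i2 : Fin 3 := l.succAbove 1
    have hcases : ∀ i : Fin 3, i = l ∨ i = i1 ∨ i = i2 := by
      intro i
      rcases Fin.eq_self_or_eq_succAbove l i with rfl | ⟨k, rfl⟩
      · exact Or.inl rfl
      · fin_cases k
        · exact Or.inr (Or.inl rfl)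
        · exact Or.inr (Or.inr rfl)
    have hc12 : c i1 ≠ 0 ∨ c i2 ≠ 0 := by
      by_contra hcon
      push Not at hcon
      apply hc0
      funext i
      rcases hcases i with rfl | rfl | rfl
      · exact hcl
      · exact hcon.1
      · exact hcon.2
    -- the linear form
    let L : (Fin 3 → ℂ) → ℂ := fun q => c i2 * (p l * q i1 - p i1 * q l) - c i1 * (p l * q i2 - p i2 * q l)
    have hL : ∀ q, L q = 0 → eval q G = 0 := by
      intro q hq
      have h1 := vertex_smul hG p hGp (- (q l / p l)) q
      rw [← h1]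
      obtain ⟨κ, hκ⟩ : ∃ κ : ℂ, (fun i => q i + - (q l / p l) * p i) = fun i => κ * c i := by
        have e1 : c i2 * (q i1 - q l / p l * p i1) = c i1 * (q i2 - q l / p l * p i2) := by
          simp only [L] at hq
          field_simp
          linear_combination hq
        rcases hc12 with h2 | h2
        · refine ⟨(q i1 - q l / p l * p i1) / c i1, ?_⟩
          funext i
          rcases hcases i with rfl | rfl | rfl
          · rw [hcl]
            field_simp
            ring
          · field_simp
            ring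
          · field_simp
            field_simp at e1
            linear_combination -e1
        · refine ⟨(q i2 - q l / p l * p i2) / c i2, ?_⟩
          funext i
          rcases hcases i with rfl | rfl | rfl
          · rw [hcl]
            field_simp
            ring
          · field_simp
            field_simp at e1
            linear_combination e1
          · field_simp
            ring
      rw [hκ, eval_scale hG, hcG, mul_zero]
    -- as a polynomial in four variables
    let Y : Fin 3 → MvPolynomial (Fin 4) ℂ := fun i => ∑ j, C (M i j) * X j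
    have hY : ∀ (x : Fin 4 → ℂ) i, eval x (Y i) = ∑ j, M i j * x j := by
      intro x i
      simp only [Y, map_sum, map_mul, eval_C, eval_X]
    have hYh : ∀ i, (Y i).IsHomogeneous 1 := by
      intro i
      refine IsHomogeneous.sum _ _ _ fun j _ => ?_
      simpa using (isHomogeneous_C (Fin 4) (M i j)).mul (isHomogeneous_X ℂ j)
    let ℓ : MvPolynomial (Fin 4) ℂ :=
      C (c i2) * (C (p l) * Y i1 - C (p i1) * Y l) - C (c i1) * (C (p l) * Y i2 - C (p i2) * Y l)
    have hℓe : ∀ x, eval x ℓ = L fun i => ∑ j, M i j * x j := by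
      intro x
      simp only [ℓ, L, map_sub, map_mul, eval_C, hY]
    have hCh : ∀ (c : ℂ) {Z : MvPolynomial (Fin 4) ℂ}, Z.IsHomogeneous 1 → (C c * Z).IsHomogeneous 1 := by
      intro c Z hZ
      simpa using (isHomogeneous_C (Fin 4) c).mul hZ
    refine no_plane hF hi ℓ ?_ ?_ ?_
    · exact (hCh _ ((hCh _ (hYh _)).sub (hCh _ (hYh _)))).sub (hCh _ ((hCh _ (hYh _)).sub (hCh _ (hYh _))))
    · intro h0
      have h1 : ∀ q, L q = 0 := by
        intro q
        have h2 := hℓe (Fin.insertNth m 0 q : Fin 4 → ℂ)
        rw [hMsurj, h0, map_zero] at h2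
        exact h2.symm
      have n1 : i1 ≠ l := Fin.succAbove_ne _ _
      have n2 : i2 ≠ l := Fin.succAbove_ne _ _
      have n3 : i1 ≠ i2 := by
        intro h2
        have h3 := Fin.succAbove_right_injective h2
        exact absurd h3 (by decide)
      have h2 := h1 (Pi.single i1 1)
      have h3 := h1 (Pi.single i2 1)
      simp only [L, Pi.single_eq_same, Pi.single_eq_of_ne n1.symm, Pi.single_eq_of_ne n2.symm,
        Pi.single_eq_of_ne n3, Pi.single_eq_of_ne n3.symm] at h2 h3
      simp only [mul_one, mul_zero, sub_zero, zero_sub, sub_self] at h2 h3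
      rcases hc12 with h4 | h4
      · apply h4
        rcases mul_eq_zero.1 (neg_eq_zero.1 h3) with h5 | h5
        · exact h5
        · exact absurd h5 hl'
      · apply h4
        rcases mul_eq_zero.1 h2 with h5 | h5
        · exact h5
        · exact absurd h5 hl'
    · intro x hx
      rw [hℓe] at hx
      rw [hFG]
      exact hL _ hx
  · -- independence
    rw [Fintype.linearIndependent_iff]
    intro g hg i
    have h1 := congrFun hg (m.succAbove i)
    simp only [Finset.sum_apply, Pi.smul_apply, smul_eq_mul, Pi.zero_apply] at h1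
    rw [Finset.sum_eq_single i] at h1
    · have h2 : M i (m.succAbove i) = 1 := by
        simp only [M, if_true]
        rw [if_neg (Fin.succAbove_ne _ _), sub_zero]
      rwa [h2, mul_one] at h1
    · intro i' _ hne
      have h2 : M i' (m.succAbove i) = 0 := by
        simp only [M]
        rw [if_neg (Fin.succAbove_ne _ _), sub_zero, if_neg]
        intro h3
        exact hne (Fin.succAbove_right_injective h3).symm
      rw [h2, mul_zero]
    · intro h2
      exact absurd (Finset.mem_univ i) h2

end Pool.Agent.QK
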