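import Pool.Agent.Lib_MP_1209e6_ds.Defs
import Pool.Agent.Lib_MP_1209e6_qk.Geo29

/-! A quartic cone whose singular points are vertices is a cone over a smooth plane quartic. -/

set_option autoImplicit false

open MvPolynomial

namespace Pool.Agent.QK

/-- if all the singular points of an irreducible quartic surface are vertices, and there is one, then the
surface is a cone over a smooth plane quartic -/
theorem cone_form {F : MvPolynomial (Fin 4) ℂ} (hF : F.IsHomogeneous 4) (hi : Irreducible F)
    (a : Fin 4 → ℂ) (ha : a ≠ 0) (hs : ∀ j, eval a (pderiv j F) = 0)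
    (hv : ∀ b : Fin 4 → ℂ, (∀ j, eval b (pderiv j F) = 0) → ∀ x, eval (x + b) F = eval x F) :
    ∃ (G : MvPolynomial (Fin 3) ℂ) (M : Fin 3 → Fin 4 → ℂ), G.IsHomogeneous 4 ∧
      Pool.Agent.DS.Smooth G ∧ LinearIndependent ℂ M ∧ aeval (fun i => ∑ j, C (M i j) * X j) G = F :=
  cone_form' hF hi a ha hs hv

end Pool.Agent.QK
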