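import Pool.Agent.Lib_MP_1209e6_ds.Coef
import Pool.Agent.Lib_MP_1209e6_ds.GenericNe

/-! A quartic cone with only one vertex, all of whose singular points are vertices, is a cone over a smooth
plane quartic. -/

set_option autoImplicit false

open MvPolynomial

namespace Pool.Agent.QK

/-- a multiple of a singular point is one -/
theorem g41_smul {F : MvPolynomial (Fin 4) ℂ} (hF : F.IsHomogeneous 4) {a : Fin 4 → ℂ}
    (hs : ∀ j, eval a (pderiv j F) = 0) (t : ℂ) (j : Fin 4) :
    eval (fun i => t * a i) (pderiv j F) = 0 := by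
  rw [Pool.Agent.DS.h30_eval_smul (hF.pderiv (i := j)), hs, mul_zero]

/-- the derivative in the direction of a vertex vanishes -/
theorem g41_dir {F : MvPolynomial (Fin 4) ℂ} {a : Fin 4 → ℂ}
    (hv : ∀ (t : ℂ) (x : Fin 4 → ℂ), eval (x + fun i => t * a i) F = eval x F) (b : Fin 4 → ℂ) :
    ∑ j, a j * eval b (pderiv j F) = 0 := by
  let p : Fin 4 → Polynomial ℂ := fun j => Polynomial.C (b j) + Polynomial.C (a j) * Polynomial.X
  have hev : ∀ (H : MvPolynomial (Fin 4) ℂ) (t : ℂ),
      (aeval p H).eval t = eval (b + fun i => t * a i) H := by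
    intro H t
    have h1 : ((Polynomial.aeval t : Polynomial ℂ →ₐ[ℂ] ℂ).comp (aeval p)) =
        (aeval (b + fun i => t * a i) : MvPolynomial (Fin 4) ℂ →ₐ[ℂ] ℂ) := by
      apply MvPolynomial.algHom_ext
      intro j
      rw [AlgHom.comp_apply, aeval_X, aeval_X]
      show Polynomial.aeval t (Polynomial.C (b j) + Polynomial.C (a j) * Polynomial.X) = b j + t * a j
      rw [map_add, map_mul, Polynomial.aeval_C, Polynomial.aeval_C, Polynomial.aeval_X]
      simp only [Algebra.algebraMap_self, RingHom.id_apply]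
      ring
    have h2 := DFunLike.congr_fun h1 H
    rw [AlgHom.comp_apply] at h2
    rw [Polynomial.coe_aeval_eq_eval] at h2
    rw [h2, MvPolynomial.aeval_eq_eval]
  have hc : aeval p F = Polynomial.C (eval b F) := by
    apply Polynomial.funext
    intro t
    rw [hev, hv, Polynomial.eval_C]
  have h3 := Pool.Agent.DS.chain (Polynomial.derivative' : Derivation ℂ (Polynomial ℂ) (Polynomial ℂ)) p F
  rw [hc] at h3
  have h4 := congrArg (Polynomial.eval 0) h3
  have h5 : ∀ j, Polynomial.derivative' (p j) = Polynomial.C (a j) := by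
    intro j
    simp [p, Polynomial.derivative']
  have h6 : (b + fun i => (0 : ℂ) * a i) = b := by
    funext i
    simp
  simp only [h5, Polynomial.eval_finsetSum, Polynomial.eval_mul, Polynomial.eval_C, hev, h6] at h4
  rw [← h4]
  simp [Polynomial.derivative']

/-- `cone_form`, with the lemma on two vertices as a hypothesis -/
theorem cone_form_of {F : MvPolynomial (Fin 4) ℂ} (hF : F.IsHomogeneous 4)
    (H : ∀ a b : Fin 4 → ℂ, LinearIndependent ℂ ![a, b] → (∀ x, eval (x + a) F = eval x F) →
      (∀ x, eval (x + b) F = eval x F) → False)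
    (a : Fin 4 → ℂ) (ha : a ≠ 0) (hs : ∀ j, eval a (pderiv j F) = 0)
    (hv : ∀ b : Fin 4 → ℂ, (∀ j, eval b (pderiv j F) = 0) → ∀ x, eval (x + b) F = eval x F) :
    ∃ (G : MvPolynomial (Fin 3) ℂ) (M : Fin 3 → Fin 4 → ℂ), G.IsHomogeneous 4 ∧
      Pool.Agent.DS.Smooth G ∧ LinearIndependent ℂ M ∧ aeval (fun i => ∑ j, C (M i j) * X j) G = F := by
  classical
  obtain ⟨k, hk⟩ : ∃ k, a k ≠ 0 := by
    by_contra hcon
    push Not at hcon
    exact ha (funext hcon)
  have hva : ∀ (t : ℂ) (x : Fin 4 → ℂ), eval (x + fun i => t * a i) F = eval x F := fun t x =>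
    hv _ (g41_smul hF hs t) x
  let E : Fin 4 → MvPolynomial (Fin 3) ℂ :=
    Fin.insertNth (α := fun _ => MvPolynomial (Fin 3) ℂ) k 0 (fun i => X i)
  let N : (Fin 3 → ℂ) → Fin 4 → ℂ := fun y => Fin.insertNth (α := fun _ => ℂ) k 0 y
  let M : Fin 3 → Fin 4 → ℂ := fun i =>
    Fin.insertNth (α := fun _ => ℂ) k (-(a (k.succAbove i) / a k)) (Pi.single i 1)
  have hEk : E k = 0 := by simp [E]
  have hEs : ∀ i, E (k.succAbove i) = X i := fun i => by simp [E]
  have hNk : ∀ y, N y k = 0 := fun y => by simp [N]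
  have hNs : ∀ y i, N y (k.succAbove i) = y i := fun y i => by simp [N]
  have hMk : ∀ i, M i k = -(a (k.succAbove i) / a k) := fun i => by simp [M]
  have hMs : ∀ i i', M i (k.succAbove i') = if i' = i then 1 else 0 := fun i i' => by
    simp [M, Pi.single_apply]
  have hev : ∀ (P : MvPolynomial (Fin 4) ℂ) (y : Fin 3 → ℂ), eval y (aeval E P) = eval (N y) P := by
    intro P y
    have h1 : ((aeval y : MvPolynomial (Fin 3) ℂ →ₐ[ℂ] ℂ).comp (aeval E)) =
        (aeval (N y) : MvPolynomial (Fin 4) ℂ →ₐ[ℂ] ℂ) := by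
      apply MvPolynomial.algHom_ext
      intro j
      rw [AlgHom.comp_apply, aeval_X, aeval_X]
      rcases Fin.eq_self_or_eq_succAbove k j with rfl | ⟨i, rfl⟩
      · rw [hEk, hNk, map_zero]
      · rw [hEs, hNs, aeval_X]
    have h2 := DFunLike.congr_fun h1 P
    rw [AlgHom.comp_apply, MvPolynomial.aeval_eq_eval, MvPolynomial.aeval_eq_eval] at h2
    exact h2
  refine ⟨aeval E F, M, ?_, ?_, ?_, ?_⟩
  · have h := hF.aeval E (n := 1) (fun j => by
      rcases Fin.eq_self_or_eq_succAbove k j with rfl | ⟨i, rfl⟩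
      · rw [hEk]
        exact isHomogeneous_zero _ _ _
      · rw [hEs]
        exact isHomogeneous_X _ _)
    simpa using h
  · intro p hp
    by_contra hp0
    obtain ⟨i0, hi0⟩ : ∃ i, p i ≠ 0 := by
      by_contra hcon
      push Not at hcon
      exact hp0 (funext hcon)
    have hpd : ∀ i : Fin 3, eval (N p) (pderiv (k.succAbove i) F) = 0 := by
      intro i
      have h1 := Pool.Agent.DS.chain (pderiv i : Derivation ℂ (MvPolynomial (Fin 3) ℂ) _) E F
      rw [Fin.sum_univ_succAbove _ k, hEk, map_zero, zero_mul, zero_add] at h1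
      have h2 : ∀ i' : Fin 3, pderiv i (E (k.succAbove i')) * aeval E (pderiv (k.succAbove i') F) =
          if i' = i then aeval E (pderiv (k.succAbove i') F) else 0 := by
        intro i'
        rw [hEs, pderiv_X, Pi.single_apply]
        by_cases h : i' = i
        · rw [if_pos h, if_pos h, one_mul]
        · rw [if_neg h, if_neg h, zero_mul]
      simp only [h2, Finset.sum_ite_eq', Finset.mem_univ, if_true] at h1
      have h3 := hp i
      rw [h1, MvPolynomial.aeval_eq_eval, hev] at h3
      exact h3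
    have hpk : eval (N p) (pderiv k F) = 0 := by
      have h1 := g41_dir hva (N p)
      rw [Fin.sum_univ_succAbove _ k] at h1
      simp only [hpd, mul_zero, Finset.sum_const_zero, add_zero] at h1
      exact (mul_eq_zero.mp h1).resolve_left hk
    have hall : ∀ j, eval (N p) (pderiv j F) = 0 := by
      intro j
      rcases Fin.eq_self_or_eq_succAbove k j with rfl | ⟨i, rfl⟩
      · exact hpk
      · exact hpd i
    refine H a (N p) ?_ (hv a hs) (hv _ hall)
    rw [LinearIndependent.pair_iff]
    intro s t hst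
    have h1 := congrFun hst k
    simp only [Pi.add_apply, Pi.smul_apply, smul_eq_mul, hNk, mul_zero, add_zero, Pi.zero_apply] at h1
    have hs0 : s = 0 := (mul_eq_zero.mp h1).resolve_right hk
    have h2 := congrFun hst (k.succAbove i0)
    simp only [Pi.add_apply, Pi.smul_apply, smul_eq_mul, hNs, hs0, zero_mul, zero_add,
      Pi.zero_apply] at h2
    exact ⟨hs0, (mul_eq_zero.mp h2).resolve_right hi0⟩
  · rw [Fintype.linearIndependent_iff]
    intro g hg i
    have h1 := congrFun hg (k.succAbove i)
    simp only [Finset.sum_apply, Pi.smul_apply, smul_eq_mul, hMs, mul_ite, mul_one, mul_zero,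
      Finset.sum_ite_eq, Finset.mem_univ, if_true, Pi.zero_apply] at h1
    exact h1
  · apply MvPolynomial.funext
    intro x
    have h1 : eval x (aeval (fun i => ∑ j, C (M i j) * X j) (aeval E F)) =
        eval (fun i => ∑ j, M i j * x j) (aeval E F) := by
      have h2 : ((aeval x : MvPolynomial (Fin 4) ℂ →ₐ[ℂ] ℂ).comp
          (aeval (fun i : Fin 3 => ∑ j, C (M i j) * X j))) =
          (aeval (fun i => ∑ j, M i j * x j) : MvPolynomial (Fin 3) ℂ →ₐ[ℂ] ℂ) := by
        apply MvPolynomial.algHom_ext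
        intro i
        rw [AlgHom.comp_apply, aeval_X, aeval_X, map_sum]
        refine Finset.sum_congr rfl fun j _ => ?_
        rw [map_mul, aeval_X, MvPolynomial.aeval_C]
        rfl
      have h3 := DFunLike.congr_fun h2 (aeval E F)
      rw [AlgHom.comp_apply, MvPolynomial.aeval_eq_eval, MvPolynomial.aeval_eq_eval] at h3
      exact h3
    rw [h1, hev]
    have h4 : x = (N fun i => ∑ j, M i j * x j) + fun i => (x k / a k) * a i := by
      funext j
      rcases Fin.eq_self_or_eq_succAbove k j with rfl | ⟨i, rfl⟩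
      · rw [Pi.add_apply, hNk, zero_add, div_mul_cancel₀ _ hk]
      · rw [Pi.add_apply, hNs, Fin.sum_univ_succAbove _ k, hMk]
        simp only [hMs, ite_mul, one_mul, zero_mul, Finset.sum_ite_eq', Finset.mem_univ, if_true]
        field_simp
        ring
    conv_rhs => rw [h4, hva]

end Pool.Agent.QK
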