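import Pool.Agent.Lib_MP_1209e6_qx.SingD
import Pool.Agent.Lib_MP_1209e6_qx.Defs
import Pool.Agent.Lib_MP_1209e6_dl.Class
import Pool.Agent.Lib_MP_1209e6_qk.Geo29

/-! Irreducible surfaces of degree at most three: they are special and Brody-special. -/

set_option autoImplicit false

open MvPolynomial

noncomputable section

namespace Pool.Agent.Low

open Pool.Agent.DP Pool.Agent.Campana Pool.Agent.CampanaFlow Pool.Agent.QS Pool.Agent.QK

theorem newF_hom' {a : Fin 4 → ℂ} {m : Fin 4} {F : MvPolynomial (Fin 4) ℂ} {d : ℕ} (hF : F.IsHomogeneous d) :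
    (newF a m F).IsHomogeneous d := by
  have h := hF.aeval (xc a m (X : Fin 4 → MvPolynomial (Fin 4) ℂ)) (n := 1) (fun j => by
    rcases Fin.eq_self_or_eq_succAbove m j with rfl | ⟨i, rfl⟩
    · simp only [xc, Fin.insertNth_apply_same, add_zero]
      simpa using (isHomogeneous_C (Fin 4) (a j)).mul (isHomogeneous_X ℂ (0 : Fin 4))
    · simp only [xc, Fin.insertNth_apply_succAbove]
      refine IsHomogeneous.add ?_ (isHomogeneous_X ℂ _)
      simpa using (isHomogeneous_C (Fin 4) (a (m.succAbove i))).mul (isHomogeneous_X ℂ (0 : Fin 4)))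
  simpa [newF] using h

variable {a : Fin 4 → ℂ} {m : Fin 4} {F : MvPolynomial (Fin 4) ℂ} {d : ℕ}

theorem gc_hom' (hF : F.IsHomogeneous d) (i j : ℕ) (h : i + j = d) : (gc a m F i).IsHomogeneous j :=
  (newF_hom' hF).finSuccEquiv_coeff_isHomogeneous i j h

theorem gc_big' (hF : F.IsHomogeneous d) (i : ℕ) (hi : d < i) : gc a m F i = 0 := by
  apply Polynomial.coeff_eq_zero_of_natDegree_lt
  rw [natDegree_finSuccEquiv]
  refine lt_of_le_of_lt (degreeOf_le_totalDegree _ _) (lt_of_le_of_lt ?_ hi)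
  exact (newF_hom' hF).totalDegree_le

theorem eval_newF_axis (a : Fin 4 → ℂ) (m : Fin 4) (F : MvPolynomial (Fin 4) ℂ) :
    eval (Fin.cons 1 0 : Fin 4 → ℂ) (newF a m F) = eval a F := by
  have h := aeval_newF a m F (Fin.cons 1 0 : Fin 4 → ℂ)
  rw [xc_axis] at h
  rw [← coe_aeval_eq_eval, ← coe_aeval_eq_eval]
  exact h

/-- the leading coefficient is the value at `a` -/
theorem gc_top (hF : F.IsHomogeneous d) : coeff 0 (gc a m F d) = eval a F := by
  rw [← eval_newF_axis a m F, eval_axis (newF_hom' hF), gc, finSuccEquiv_coeff_coeff]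
  congr 1
  ext j
  refine Fin.cases ?_ (fun i => ?_) j
  · simp
  · rw [Finsupp.cons_succ, Finsupp.single_apply, if_neg (Fin.succ_ne_zero i).symm]
    rfl

theorem gc_top_zero (hF : F.IsHomogeneous d) (h : eval a F = 0) : gc a m F d = 0 := by
  ext e
  rw [coeff_zero]
  by_contra hne
  have h1 := gc_hom' hF d 0 rfl hne
  have he : e = 0 := by
    rw [Finsupp.weight_apply, Finsupp.sum_fintype _ _ (fun i => by simp)] at h1
    ext j
    have h2 := (Finset.sum_eq_zero_iff.1 h1) j (Finset.mem_univ j)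
    simpa using h2
  apply hne
  rw [he, gc_top hF, h]

/-- the equation in the new coordinates -/
theorem expand' (h3 : ∀ i, 2 < i → gc a m F i = 0) {A : Type} [CommRing A]
    [Algebra ℂ A] (y : Fin 4 → A) : aeval y (newF a m F) =
      aeval (fun i : Fin 3 => y i.succ) (gc a m F 0) + aeval (fun i : Fin 3 => y i.succ) (gc a m F 1) * y 0 +
        aeval (fun i : Fin 3 => y i.succ) (gc a m F 2) * y 0 ^ 2 := by
  have hd : (finSuccEquiv ℂ 3 (newF a m F)).natDegree < 3 := by
    refine Nat.lt_succ_of_le (Polynomial.natDegree_le_iff_coeff_eq_zero.2 fun N hN => h3 N hN)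
  rw [aeval_fin, Polynomial.eval₂_eq_sum_range' _ hd]
  simp [Finset.sum_range_succ, gc]

variable {K : Type} [Field K] [Algebra ℂ K]

theorem dvd_of_zero' {F : MvPolynomial (Fin 4) ℂ} {D : ℕ} (hF : F.IsHomogeneous D) (hi : Irreducible F)
    (z : Fin 3 → K) (hz : aeval (Fin.cons 1 z : Fin 4 → K) F = 0)
    (hij : ∃ i j, AlgebraicIndependent ℂ ![z i, z j]) {B : MvPolynomial (Fin 4) ℂ} {d : ℕ}
    (hB : B.IsHomogeneous d) (hB0 : aeval (Fin.cons 1 z : Fin 4 → K) B = 0) : F ∣ B := by
  by_contra hdvd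
  have hB1 : B ≠ 0 := by
    rintro rfl
    exact hdvd (dvd_zero _)
  let ι : K →ₐ[ℂ] LF K := (toL K).comp Polynomial.CAlgHom
  let l : LF K := toL K Polynomial.X
  have hl : l ≠ 0 := by
    intro h
    have h1 : toL K Polynomial.X = toL K 0 := by rw [map_zero]; exact h
    exact Polynomial.X_ne_zero (toL_inj K h1)
  let P : Fin (3 + 1) → LF K := fun j => l * ι ((Fin.cons 1 z : Fin 4 → K) j)
  have key : ∀ {H : MvPolynomial (Fin 4) ℂ} {e : ℕ}, H.IsHomogeneous e →
      aeval (Fin.cons 1 z : Fin 4 → K) H = 0 → aeval P H = 0 := by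
    intro H e hH h0
    have h1 : aeval P H = l ^ e * aeval (fun j => ι ((Fin.cons 1 z : Fin 4 → K) j)) H := scale hH l _
    have h2 : aeval (fun j => ι ((Fin.cons 1 z : Fin 4 → K) j)) H =
        ι (aeval (Fin.cons 1 z : Fin 4 → K) H) := by
      have h3 := DFunLike.congr_fun (comp_aeval (R := ℂ) (Fin.cons 1 z : Fin 4 → K) ι) H
      exact h3.symm
    rw [h1, h2, h0, map_zero, mul_zero]
  have hlt := Pool.Agent.DS.trdeg_lt P F B ((hi.isRelPrime_iff_not_dvd).2 hdvd) hB1 (key hF hz) (key hB hB0)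
  obtain ⟨i, j, hv⟩ := hij
  let M := IntermediateField.adjoin ℂ (Set.range P)
  have hP : ∀ k, P k ∈ M := fun k => IntermediateField.subset_adjoin _ _ ⟨k, rfl⟩
  have hlM : l ∈ M := by
    have h1 := hP 0
    have h2 : P 0 = l := by
      change l * ι 1 = l
      rw [map_one, mul_one]
    rwa [h2] at h1
  have hzM : ∀ k, ι (z k) ∈ M := by
    intro k
    have h1 := M.div_mem (hP k.succ) hlM
    have h2 : P k.succ / l = ι (z k) := by
      change l * ι (z k) / l = ι (z k)
      rw [mul_comm, mul_div_cancel_right₀ _ hl]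
    rwa [h2] at h1
  let w : Option (Fin 2) → M := fun o => o.elim ⟨l, hlM⟩ fun i' =>
    ⟨ι ((![z i, z j] : Fin 2 → K) i'), by
      fin_cases i'
      · exact hzM i
      · exact hzM j⟩
  have hw : AlgebraicIndependent ℂ w := by
    apply AlgebraicIndependent.of_comp M.val
    have h1 := indep_lam hv
    convert h1 using 1
    funext o
    cases o with
    | none => rfl
    | some i' => rfl
  have h3 := hw.cardinalMk_le_trdeg
  have h4 : Cardinal.mk (Option (Fin 2)) = ((3 : ℕ) : Cardinal) := by simp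
  rw [h4] at h3
  exact absurd (lt_of_le_of_lt h3 hlt) (lt_irrefl _)

theorem vanish' {D : ℕ} (hF : F.IsHomogeneous D) (hi : Irreducible F) (ha : a m ≠ 0)
    (hg : gc a m F 1 ≠ 0 ∨ gc a m F 2 ≠ 0) (z : Fin 3 → K) (hz : aeval (Fin.cons 1 z : Fin 4 → K) F = 0)
    (hij : ∃ i j, AlgebraicIndependent ℂ ![z i, z j]) (d : ℕ) (A : MvPolynomial (Fin 3) ℂ)
    (hA : A.IsHomogeneous d)
    (h0 : aeval (fun i : Fin 3 => yc a m (Fin.cons 1 z : Fin 4 → K) i.succ) A = 0) : A = 0 := by
  let B : MvPolynomial (Fin 4) ℂ :=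
    aeval (fun i : Fin 3 => yc a m (X : Fin 4 → MvPolynomial (Fin 4) ℂ) i.succ) A
  have hB : B.IsHomogeneous d := by
    have h := hA.aeval (fun i : Fin 3 => yc a m (X : Fin 4 → MvPolynomial (Fin 4) ℂ) i.succ) (n := 1) (fun i => by
      simp only [yc, Fin.cons_succ]
      refine (isHomogeneous_X ℂ (m.succAbove i)).sub ?_
      have h1 := (isHomogeneous_C (Fin 4) (a (m.succAbove i))).mul
        ((isHomogeneous_C (Fin 4) (a m)⁻¹).mul (isHomogeneous_X ℂ m))
      simpa using h1)
    simpa [B] using h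
  have hB0 : aeval (Fin.cons 1 z : Fin 4 → K) B = 0 := by
    rw [← h0]
    have h := DFunLike.congr_fun (comp_aeval (R := ℂ)
      (fun i : Fin 3 => yc a m (X : Fin 4 → MvPolynomial (Fin 4) ℂ) i.succ)
      (aeval (Fin.cons 1 z : Fin 4 → K) : MvPolynomial (Fin 4) ℂ →ₐ[ℂ] K)) A
    refine Eq.trans h ?_
    congr 2
    funext i
    rw [map_yc]
    congr 1
    funext j
    exact aeval_X _ _
  obtain ⟨q, hq⟩ := dvd_of_zero' hF hi z hz hij hB hB0
  have h1 : aeval (xc a m (X : Fin 4 → MvPolynomial (Fin 4) ℂ)) B = rename Fin.succ A := by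
    have h := DFunLike.congr_fun (comp_aeval (R := ℂ)
      (fun i : Fin 3 => yc a m (X : Fin 4 → MvPolynomial (Fin 4) ℂ) i.succ)
      (aeval (xc a m (X : Fin 4 → MvPolynomial (Fin 4) ℂ)) :
        MvPolynomial (Fin 4) ℂ →ₐ[ℂ] MvPolynomial (Fin 4) ℂ)) A
    refine Eq.trans h ?_
    rw [rename_eq_aeval]
    congr 2
    funext i
    rw [map_yc]
    have h2 : (fun j => aeval (xc a m (X : Fin 4 → MvPolynomial (Fin 4) ℂ)) (X j : MvPolynomial (Fin 4) ℂ)) =
        xc a m (X : Fin 4 → MvPolynomial (Fin 4) ℂ) := by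
      funext j
      exact aeval_X _ _
    rw [h2, yc_xc ha]
    rfl
  rw [hq, map_mul] at h1
  have h2 := congrArg (finSuccEquiv ℂ 3) h1
  rw [map_mul, finSucc_rename] at h2
  by_contra hA0
  have h3 := congrArg Polynomial.natDegree h2
  have h4 : finSuccEquiv ℂ 3 (aeval (xc a m (X : Fin 4 → MvPolynomial (Fin 4) ℂ)) F) *
      finSuccEquiv ℂ 3 (aeval (xc a m (X : Fin 4 → MvPolynomial (Fin 4) ℂ)) q) ≠ 0 := by
    rw [h2]
    exact Polynomial.C_ne_zero.2 hA0
  rw [Polynomial.natDegree_mul (left_ne_zero_of_mul h4) (right_ne_zero_of_mul h4),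
    Polynomial.natDegree_C] at h3
  have h5 : (finSuccEquiv ℂ 3 (newF a m F)).natDegree = 0 := by
    have h6 : (finSuccEquiv ℂ 3 (aeval (xc a m (X : Fin 4 → MvPolynomial (Fin 4) ℂ)) F)).natDegree = 0 := by
      omega
    exact h6
  rcases hg with hg | hg
  · exact hg (Polynomial.coeff_eq_zero_of_natDegree_lt (by omega))
  · exact hg (Polynomial.coeff_eq_zero_of_natDegree_lt (by omega))

/-- the double plane -/
theorem core (hm' : a m ≠ 0) (z : Fin 3 → K) (hgen : IntermediateField.adjoin ℂ (Set.range z) = ⊤)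
    (ht : yc a m (Fin.cons 1 z : Fin 4 → K) 1 ≠ 0)
    (hu : AlgebraicIndependent ℂ (fun i : Fin 2 => yc a m (Fin.cons 1 z : Fin 4 → K) i.succ.succ /
      yc a m (Fin.cons 1 z : Fin 4 → K) 1)) (g0 g1 g2 : MvPolynomial (Fin 2) ℂ)
    (hE : aeval (fun i : Fin 2 => yc a m (Fin.cons 1 z : Fin 4 → K) i.succ.succ /
        yc a m (Fin.cons 1 z : Fin 4 → K) 1) g0 +
      aeval (fun i : Fin 2 => yc a m (Fin.cons 1 z : Fin 4 → K) i.succ.succ /
        yc a m (Fin.cons 1 z : Fin 4 → K) 1) g1 *
        (yc a m (Fin.cons 1 z : Fin 4 → K) 0 / yc a m (Fin.cons 1 z : Fin 4 → K) 1) +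
      aeval (fun i : Fin 2 => yc a m (Fin.cons 1 z : Fin 4 → K) i.succ.succ /
        yc a m (Fin.cons 1 z : Fin 4 → K) 1) g2 *
        (yc a m (Fin.cons 1 z : Fin 4 → K) 0 / yc a m (Fin.cons 1 z : Fin 4 → K) 1) ^ 2 = 0)
    (hg : g1 ≠ 0 ∨ g2 ≠ 0) (d1 : g1.totalDegree ≤ 2) (d2 : g2.totalDegree + g0.totalDegree ≤ 4) :
    ∃ f : MvPolynomial (Fin 2) ℂ, f ≠ 0 ∧ f.totalDegree ≤ 4 ∧ IsDoublePlane K f := by
  let x : Fin 4 → K := Fin.cons 1 z
  let y : Fin 4 → K := yc a m x
  let t : Fin 3 → K := fun i => y i.succ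
  let u : Fin 2 → K := fun i => t i.succ / t 0
  let r : K := y 0 / t 0
  replace ht : t 0 ≠ 0 := ht
  replace hu : AlgebraicIndependent ℂ u := hu
  let A4 : K := aeval u g0
  let A3 : K := aeval u g1
  let A2 : K := aeval u g2
  replace hE : A4 + A3 * r + A2 * r ^ 2 = 0 := hE
  have hy0 : y 0 = t 0 * r := by
    simp only [r]
    field_simp
  have hne : ∀ G : MvPolynomial (Fin 2) ℂ, G ≠ 0 → aeval u G ≠ 0 := fun G hG h0 =>
    hG ((algebraicIndependent_iff.1 hu) G h0)
  -- the field is generated by `u` and `r`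
  have hgen' : ∀ L : IntermediateField ℂ K, (∀ i, u i ∈ L) → r ∈ L → L = ⊤ := by
    intro L hL hr
    let η : Fin 4 → K := Fin.cons r (Fin.cons 1 u)
    have hη : ∀ i, η i ∈ L := by
      intro i
      refine Fin.cases ?_ (fun j => ?_) i
      · exact hr
      · refine Fin.cases ?_ (fun k => ?_) j
        · exact L.one_mem
        · exact hL k
    have hyη : ∀ i, y i = t 0 * η i := by
      intro i
      refine Fin.cases ?_ (fun j => ?_) i
      · exact hy0
      · refine Fin.cases ?_ (fun k => ?_) j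
        · change t 0 = t 0 * 1
          rw [mul_one]
        · change t k.succ = t 0 * (t k.succ / t 0)
          field_simp
    have hξ : ∀ j, xc a m η j ∈ L := by
      intro j
      refine L.add_mem (L.mul_mem (L.algebraMap_mem _) (hη 0)) ?_
      rcases Fin.eq_self_or_eq_succAbove m j with rfl | ⟨i, rfl⟩
      · rw [Fin.insertNth_apply_same]
        exact L.zero_mem
      · rw [Fin.insertNth_apply_succAbove]
        exact hη _
    have hxξ : ∀ j, x j = t 0 * xc a m η j := by
      intro j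
      have h1 : x j = xc a m y j := by rw [xc_yc hm']
      rw [h1, xc, xc, hyη 0, mul_add]
      rcases Fin.eq_self_or_eq_succAbove m j with rfl | ⟨i, rfl⟩
      · rw [Fin.insertNth_apply_same, Fin.insertNth_apply_same]
        ring
      · rw [Fin.insertNth_apply_succAbove, Fin.insertNth_apply_succAbove, hyη]
        ring
    have h0 : (1 : K) = t 0 * xc a m η 0 := hxξ 0
    have ht0 : t 0 ∈ L := by
      have h1 : t 0 = (xc a m η 0)⁻¹ := eq_inv_of_mul_eq_one_left h0.symm
      rw [h1]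
      exact L.inv_mem (hξ 0)
    rw [eq_top_iff, ← hgen, IntermediateField.adjoin_le_iff]
    rintro _ ⟨j, rfl⟩
    have h1 : z j = t 0 * xc a m η j.succ := hxξ j.succ
    change z j ∈ L
    rw [h1]
    exact L.mul_mem ht0 (hξ _)
  have haeval : ∀ (L : IntermediateField ℂ K), (∀ i, u i ∈ L) → ∀ G : MvPolynomial (Fin 2) ℂ, aeval u G ∈ L := by
    intro L hL G
    induction G using MvPolynomial.induction_on with
    | C c => rw [algHom_C]; exact L.algebraMap_mem c
    | add p q hp hq => rw [map_add]; exact L.add_mem hp hq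
    | mul_X p i hp => rw [map_mul, aeval_X]; exact L.mul_mem hp (hL i)
  -- the rational case
  have hrat : (∀ L : IntermediateField ℂ K, (∀ i, u i ∈ L) → r ∈ L) →
      ∃ f : MvPolynomial (Fin 2) ℂ, f ≠ 0 ∧ f.totalDegree ≤ 4 ∧ IsDoublePlane K f := by
    intro h
    refine ⟨1, one_ne_zero, by simp, u, 1, hu, by simp, ?_⟩
    have hL : ∀ i, u i ∈ IntermediateField.adjoin ℂ (Set.range u ∪ {(1 : K)}) := fun i =>
      IntermediateField.subset_adjoin _ _ (Or.inl ⟨i, rfl⟩)
    exact hgen' _ hL (h _ hL)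
  by_cases h2 : g2 = 0
  · have h3 : g1 ≠ 0 := by
      rcases hg with h | h
      · exact h
      · exact absurd h2 h
    have hA3 : A3 ≠ 0 := hne _ h3
    have hA2 : A2 = 0 := by
      simp only [A2, h2, map_zero]
    apply hrat
    intro L hL
    have hr : r = -A4 / A3 := by
      rw [hA2, zero_mul, add_zero] at hE
      rw [eq_div_iff hA3]
      linear_combination hE
    rw [hr]
    exact L.div_mem (L.neg_mem (haeval L hL _)) (haeval L hL _)
  · have hA2 : A2 ≠ 0 := hne _ h2
    let w : K := 2 * A2 * r + A3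
    let D : MvPolynomial (Fin 2) ℂ := g1 ^ 2 - C 4 * (g2 * g0)
    have hw : w ^ 2 = aeval u D := by
      have h4 : (aeval u D : K) = A3 ^ 2 - 4 * (A2 * A4) := by
        simp only [D, map_sub, map_mul, map_pow, A2, A3, A4, map_ofNat]
      rw [h4]
      simp only [w]
      linear_combination (4 * A2) * hE
    have hr : r = (w - A3) / (2 * A2) := by
      rw [eq_div_iff (mul_ne_zero (by
        have h5 : (2 : K) = algebraMap ℂ K 2 := (map_ofNat (algebraMap ℂ K) 2).symm
        rw [h5]
        exact (map_ne_zero _).2 two_ne_zero) hA2)]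
      simp only [w]
      ring
    have h2mem : ∀ L : IntermediateField ℂ K, (2 : K) ∈ L := fun L => by
      have h5 : (2 : K) = algebraMap ℂ K 2 := (map_ofNat (algebraMap ℂ K) 2).symm
      rw [h5]
      exact L.algebraMap_mem _
    by_cases hD : D = 0
    · apply hrat
      intro L hL
      have hw0 : w = 0 := by
        rw [hD, map_zero] at hw
        exact pow_eq_zero_iff (two_ne_zero) |>.1 hw
      rw [hr, hw0]
      exact L.div_mem (L.sub_mem L.zero_mem (haeval L hL _)) (L.mul_mem (h2mem L) (haeval L hL _))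
    · refine ⟨D, hD, ?_, u, w, hu, hw, ?_⟩
      · refine (totalDegree_sub _ _).trans (max_le ?_ ?_)
        · refine (totalDegree_pow _ _).trans ?_
          omega
        · refine (totalDegree_mul _ _).trans ?_
          rw [totalDegree_C, zero_add]
          refine (totalDegree_mul _ _).trans ?_
          omega
      · have hL : ∀ i, u i ∈ IntermediateField.adjoin ℂ (Set.range u ∪ {w}) := fun i =>
          IntermediateField.subset_adjoin _ _ (Or.inl ⟨i, rfl⟩)
        have hwL : w ∈ IntermediateField.adjoin ℂ (Set.range u ∪ {w}) :=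
          IntermediateField.subset_adjoin _ _ (Or.inr rfl)
        apply hgen' _ hL
        rw [hr]
        exact (IntermediateField.adjoin ℂ (Set.range u ∪ {w})).div_mem
          ((IntermediateField.adjoin ℂ (Set.range u ∪ {w})).sub_mem hwL (haeval _ hL _))
          ((IntermediateField.adjoin ℂ (Set.range u ∪ {w})).mul_mem (h2mem _) (haeval _ hL _))

theorem not_six {f : MvPolynomial (Fin 2) ℂ} (hf : f ≠ 0) (h4 : f.totalDegree ≤ 4) : ¬ SixConcurrentLines f := by
  classical
  rintro ⟨s, l, p, -, -, hl, hfs⟩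
  have hne : ∀ i, linPoly (l i) ≠ 0 := by
    intro i h0
    apply hf
    rw [hfs, Finset.prod_eq_zero (Finset.mem_univ i) h0, mul_zero]
  have hdeg : ∀ i, (l i 1 ≠ 0 ∨ l i 2 ≠ 0) → 1 ≤ (linPoly (l i)).totalDegree := by
    intro i hi
    have hc1 : coeff (Finsupp.single 0 1) (linPoly (l i)) = l i 1 := by
      simp [linPoly, coeff_C, coeff_C_mul, coeff_X, Finsupp.single_left_inj]
      intro h0
      have h1 := DFunLike.congr_fun h0 (0 : Fin 2)
      simp at h1
    have hc2 : coeff (Finsupp.single 1 1) (linPoly (l i)) = l i 2 := by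
      simp [linPoly, coeff_C, coeff_C_mul, coeff_X, Finsupp.single_left_inj]
      intro h0
      have h1 := DFunLike.congr_fun h0 (1 : Fin 2)
      simp at h1
    rcases hi with h | h
    · have h1 := le_totalDegree (mem_support_iff.2 (by rw [hc1]; exact h : coeff (Finsupp.single 0 1) (linPoly (l i)) ≠ 0))
      simpa using h1
    · have h1 := le_totalDegree (mem_support_iff.2 (by rw [hc2]; exact h : coeff (Finsupp.single 1 1) (linPoly (l i)) ≠ 0))
      simpa using h1
  have hone : ∀ i j, i ≠ j → (l i 1 ≠ 0 ∨ l i 2 ≠ 0) ∨ (l j 1 ≠ 0 ∨ l j 2 ≠ 0) := by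
    intro i j hij
    by_contra hcon
    push Not at hcon
    obtain ⟨⟨h1, h2⟩, h3, h4⟩ := hcon
    have h5 := hl i j hij (l j 0) (l i 0) (by
      intro t
      fin_cases t
      · simp only [Fin.zero_eta]
        ring
      · simp [h1, h3]
      · simp [h2, h4])
    have h6 := hl i j hij 1 0 (by
      intro t
      fin_cases t
      · simp [h5.2]
      · simp [h1]
      · simp [h2])
    exact one_ne_zero h6.1
  have hcard : ∀ S : Finset (Fin 6), (∀ i ∈ S, l i 1 ≠ 0 ∨ l i 2 ≠ 0) →
      S.card ≤ (∏ i ∈ S, linPoly (l i)).totalDegree := by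
    intro S
    induction S using Finset.induction_on with
    | empty => intro _; simp
    | insert i S hi ih =>
      intro h
      rw [Finset.prod_insert hi, Finset.card_insert_of_notMem hi, totalDegree_mul_of_isDomain (hne i)
        (Finset.prod_ne_zero_iff.2 fun j _ => hne j)]
      have h1 := ih fun j hj => h j (Finset.mem_insert_of_mem hj)
      have h2 := hdeg i (h i (Finset.mem_insert_self i S))
      omega
  obtain ⟨S, hS, hS5⟩ : ∃ S : Finset (Fin 6), (∀ i ∈ S, l i 1 ≠ 0 ∨ l i 2 ≠ 0) ∧ 5 ≤ S.card := by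
    by_cases h : ∃ i0, ¬ (l i0 1 ≠ 0 ∨ l i0 2 ≠ 0)
    · obtain ⟨i0, h0⟩ := h
      refine ⟨Finset.univ.erase i0, fun i hi => ?_, ?_⟩
      · exact (hone i i0 (Finset.ne_of_mem_erase hi)).resolve_right h0
      · rw [Finset.card_erase_of_mem (Finset.mem_univ i0)]
        simp
    · push Not at h
      exact ⟨Finset.univ, fun i _ => h i, by simp⟩
  have h5 := hcard S hS
  have hs0 : s ^ 2 * ∏ i ∈ Sᶜ, linPoly (l i) ≠ 0 := by
    refine mul_ne_zero ?_ (Finset.prod_ne_zero_iff.2 fun j _ => hne j)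
    intro h0
    apply hf
    rw [hfs, h0, zero_mul]
  have h6 : f = (s ^ 2 * ∏ i ∈ Sᶜ, linPoly (l i)) * ∏ i ∈ S, linPoly (l i) := by
    rw [hfs, ← Finset.prod_mul_prod_compl S]
    ring
  have h7 := totalDegree_mul_of_isDomain hs0 (Finset.prod_ne_zero_iff.2 fun j (_ : j ∈ S) => hne j)
  rw [← h6] at h7
  omega

theorem eval_zero_of_hom {n e : ℕ} {G : MvPolynomial (Fin n) ℂ} (hG : G.IsHomogeneous e) (he : e ≠ 0) :
    eval (0 : Fin n → ℂ) G = 0 := by
  have h1 := eval_scale hG 0 0
  have h2 : (fun i : Fin n => (0 : ℂ) * (0 : Fin n → ℂ) i) = 0 := by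
    funext i
    simp
  rw [h2, zero_pow he, zero_mul] at h1
  exact h1

/-- an irreducible surface of degree three has a smooth point -/
theorem exists_smooth (hF : F.IsHomogeneous 3) (hi : Irreducible F) :
    ∃ (a : Fin 4 → ℂ) (j : Fin 4), eval a F = 0 ∧ eval a (pderiv j F) ≠ 0 := by
  by_contra hcon
  push Not at hcon
  have hpr : (Ideal.span {F}).IsPrime := (Ideal.span_singleton_prime hi.ne_zero).2 (irreducible_iff_prime.1 hi)
  have h0 : ∀ j, pderiv j F = 0 := by
    intro j
    by_contra hj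
    have h1 : pderiv j F ∈ (Ideal.span {F}).radical := by
      rw [← vanishingIdeal_zeroLocus_eq_radical (k := ℂ) (K := ℂ), mem_vanishingIdeal_iff]
      intro x hx
      rw [mem_zeroLocus_iff] at hx
      have h2 := hx F (Ideal.subset_span rfl)
      rw [ae] at h2 ⊢
      exact hcon x j h2
    rw [hpr.radical, Ideal.mem_span_singleton] at h1
    obtain ⟨s, hs⟩ := h1
    have hs0 : s ≠ 0 := by
      rintro rfl
      rw [mul_zero] at hs
      exact hj hs
    have h3 := congrArg totalDegree hs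
    rw [totalDegree_mul_of_isDomain hi.ne_zero hs0, hF.totalDegree hi.ne_zero,
      (hF.pderiv (i := j)).totalDegree hj] at h3
    omega
  have h4 := hF.sum_X_mul_pderiv
  simp only [h0, mul_zero, Finset.sum_const_zero] at h4
  have h5 : (3 : MvPolynomial (Fin 4) ℂ) * F = 0 := by
    rw [nsmul_eq_mul] at h4
    exact_mod_cast h4.symm
  rcases mul_eq_zero.1 h5 with h6 | h6
  · exact absurd h6 (by norm_num)
  · exact hi.ne_zero h6

/-- at a smooth point of a cubic surface the linear coefficient is not zero -/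
theorem gc_two_ne (hF : F.IsHomogeneous 3) (ha : a m ≠ 0) (h0 : eval a F = 0) {j : Fin 4}
    (hj : eval a (pderiv j F) ≠ 0) : gc a m F 2 ≠ 0 := by
  intro h2
  apply hj
  have hax : ∀ i, eval (Fin.cons 1 0 : Fin 4 → ℂ) (pderiv i (newF a m F)) = 0 := by
    have hsucc : ∀ i : Fin 3, eval (Fin.cons 1 0 : Fin 4 → ℂ) (pderiv i.succ (newF a m F)) = 0 := by
      intro i
      rw [eval_axis ((newF_hom' hF).pderiv (i := i.succ)), coeff_pderiv]
      have h4 : Finsupp.single (0 : Fin 4) (3 - 1) + Finsupp.single i.succ 1 =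
          Finsupp.cons 2 (Finsupp.single i 1) := by
        ext k
        refine Fin.cases ?_ (fun k => ?_) k
        · simp [Fin.succ_ne_zero]
        · rw [Finsupp.cons_succ]
          simp [Finsupp.single_apply, Fin.succ_inj]
      rw [h4]
      have h5 : coeff (Finsupp.cons 2 (Finsupp.single i 1)) (newF a m F) = 0 := by
        have h6 := congrArg (coeff (Finsupp.single i 1)) h2
        rw [gc, finSuccEquiv_coeff_coeff, coeff_zero] at h6
        exact h6
      rw [h5, zero_mul]
    intro i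
    refine Fin.cases ?_ hsucc i
    have h5 := congrArg (eval (Fin.cons 1 0 : Fin 4 → ℂ)) (newF_hom' (a := a) (m := m) hF).sum_X_mul_pderiv
    rw [map_sum, Fin.sum_univ_succ, map_nsmul, eval_newF_axis, h0, smul_zero] at h5
    simp only [map_mul, eval_X, Fin.cons_zero, one_mul, hsucc, mul_zero, Finset.sum_const_zero, add_zero] at h5
    exact h5
  -- `F` in terms of `newF`
  have hFn : aeval (yc a m (X : Fin 4 → MvPolynomial (Fin 4) ℂ)) (newF a m F) = F := by
    rw [aeval_newF, xc_yc ha, aeval_X_left, AlgHom.id_apply]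
  have h6 := chain (pderiv j : Derivation ℂ (MvPolynomial (Fin 4) ℂ) (MvPolynomial (Fin 4) ℂ))
    (yc a m (X : Fin 4 → MvPolynomial (Fin 4) ℂ)) (newF a m F)
  rw [hFn] at h6
  rw [h6, map_sum]
  refine Finset.sum_eq_zero fun i _ => ?_
  have h7 : eval a (aeval (yc a m (X : Fin 4 → MvPolynomial (Fin 4) ℂ)) (pderiv i (newF a m F))) =
      eval (Fin.cons 1 0 : Fin 4 → ℂ) (pderiv i (newF a m F)) := by
    have h8 := DFunLike.congr_fun (comp_aeval (R := ℂ) (yc a m (X : Fin 4 → MvPolynomial (Fin 4) ℂ))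
      (aeval a : MvPolynomial (Fin 4) ℂ →ₐ[ℂ] ℂ)) (pderiv i (newF a m F))
    rw [AlgHom.comp_apply, ae, ae] at h8
    rw [h8]
    congr 2
    funext k
    rw [map_yc]
    have h9 : (fun i => aeval a (X i : MvPolynomial (Fin 4) ℂ)) = (a : Fin 4 → ℂ) := by
      funext i
      exact aeval_X _ _
    rw [h9]
    have h10 := yc_xc ha (Fin.cons 1 0 : Fin 4 → ℂ)
    rw [xc_axis] at h10
    rw [h10]
  rw [map_mul, h7, hax i, mul_zero]

/-- irreducible surfaces of degree at most three -/
theorem double_low (hd : d ≤ 3) (hF : F.IsHomogeneous d) (hi : Irreducible F)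
    (hK : Pool.Agent.QX.IsQuartic K F) :
    ∃ f : MvPolynomial (Fin 2) ℂ, f ≠ 0 ∧ f.totalDegree ≤ 4 ∧ IsDoublePlane K f := by
  obtain ⟨z, hz, hij, hgen⟩ := hK
  have hd0 : d ≠ 0 := by
    rintro rfl
    have h1 := totalDegree_eq_zero_iff_eq_C.1 (Nat.le_zero.1 hF.totalDegree_le)
    rw [h1] at hi
    apply hi.not_isUnit
    refine (isUnit_iff_ne_zero.2 ?_).map (C : ℂ →+* MvPolynomial (Fin 4) ℂ)
    intro h2
    rw [h2, map_zero] at hi
    exact hi.ne_zero rfl
  -- the centre of the projection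
  obtain ⟨a, m, ha, hbig, hg⟩ : ∃ (a : Fin 4 → ℂ) (m : Fin 4), a m ≠ 0 ∧ (∀ i, 2 < i → gc a m F i = 0) ∧
      (gc a m F 1 ≠ 0 ∨ gc a m F 2 ≠ 0) := by
    by_cases h3 : d = 3
    · subst h3
      obtain ⟨a, j, h0, hj⟩ := exists_smooth hF hi
      have ha0 : a ≠ 0 := by
        rintro rfl
        exact hj (eval_zero_of_hom (hF.pderiv (i := j)) (by norm_num))
      obtain ⟨m, hm⟩ := Function.ne_iff.1 ha0
      refine ⟨a, m, hm, fun i hi => ?_, Or.inr (gc_two_ne hF hm h0 hj)⟩
      rcases Nat.lt_or_ge 3 i with h | h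
      · exact gc_big' hF i h
      · have h4 : i = 3 := by omega
        rw [h4]
        exact gc_top_zero hF h0
    · have h1 : ∃ a : Fin 4 → ℂ, eval a F ≠ 0 := by
        by_contra hcon
        push Not at hcon
        exact hi.ne_zero (MvPolynomial.funext fun x => by rw [hcon x, map_zero])
      obtain ⟨a, ha⟩ := h1
      have ha0 : a ≠ 0 := by
        rintro rfl
        exact ha (eval_zero_of_hom hF hd0)
      obtain ⟨m, hm⟩ := Function.ne_iff.1 ha0
      refine ⟨a, m, hm, fun i hi => gc_big' hF i (by omega), ?_⟩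
      have htop : gc a m F d ≠ 0 := by
        intro h2
        apply ha
        rw [← gc_top (m := m) hF, h2, coeff_zero]
      have h4 : d = 1 ∨ d = 2 := by omega
      rcases h4 with rfl | rfl
      · exact Or.inl htop
      · exact Or.inr htop
  let x : Fin 4 → K := Fin.cons 1 z
  let y : Fin 4 → K := yc a m x
  let t : Fin 3 → K := fun i => y i.succ
  have V : ∀ (d : ℕ) (A : MvPolynomial (Fin 3) ℂ), A.IsHomogeneous d → aeval t A = 0 → A = 0 :=
    fun d A hA h0 => vanish' hF hi ha hg z hz hij d A hA h0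
  have ht : t 0 ≠ 0 := by
    intro h
    have h1 := V 1 (X 0) (isHomogeneous_X ℂ 0) (by rw [aeval_X]; exact h)
    exact X_ne_zero (0 : Fin 3) h1
  let u : Fin 2 → K := fun i => t i.succ / t 0
  let r : K := y 0 / t 0
  have hu : AlgebraicIndependent ℂ u := indep_u ht V
  have hy0 : y 0 = t 0 * r := by
    simp only [r]
    field_simp
  have hfl : ∀ {i e : ℕ}, (gc a m F i).IsHomogeneous e → gc a m F i ≠ 0 → flat (gc a m F i) ≠ 0 := by
    intro i e hh h0 h1
    have h2 := flat_ne ht V hh h0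
    rw [h1, map_zero] at h2
    exact h2 rfl
  have h1 : aeval t (gc a m F 0) + aeval t (gc a m F 1) * y 0 + aeval t (gc a m F 2) * y 0 ^ 2 = 0 := by
    have h2 : aeval y (newF a m F) = 0 := by
      rw [aeval_newF, xc_yc ha]
      exact hz
    rw [expand' hbig] at h2
    exact h2
  have e0 : aeval t (gc a m F 0) = t 0 ^ d * aeval u (flat (gc a m F 0)) :=
    flat_scale (gc_hom' hF 0 d (by omega)) ht
  have e1 : aeval t (gc a m F 1) = t 0 ^ (d - 1) * aeval u (flat (gc a m F 1)) :=
    flat_scale (gc_hom' hF 1 (d - 1) (by omega)) ht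
  have dg0 : (flat (gc a m F 0)).totalDegree ≤ d := deg_flat (gc_hom' hF 0 d (by omega))
  have dg1 : (flat (gc a m F 1)).totalDegree ≤ d - 1 := deg_flat (gc_hom' hF 1 (d - 1) (by omega))
  have hg1 : gc a m F 1 ≠ 0 → flat (gc a m F 1) ≠ 0 := hfl (gc_hom' hF 1 (d - 1) (by omega))
  rcases Nat.lt_or_ge d 2 with h2 | h2
  · -- planes
    have hd1 : d = 1 := by omega
    have hz2 : gc a m F 2 = 0 := gc_big' hF 2 (by omega)
    refine core ha z hgen ht hu (flat (gc a m F 0)) (flat (gc a m F 1)) 0 ?_ ?_ (by omega) ?_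
    · change aeval u (flat (gc a m F 0)) + aeval u (flat (gc a m F 1)) * r + aeval u (0 : MvPolynomial (Fin 2) ℂ) * r ^ 2 = 0
      rw [map_zero, zero_mul, add_zero]
      rw [hz2, map_zero, zero_mul, add_zero, e0, e1, hy0] at h1
      subst hd1
      have h3 : t 0 * (aeval u (flat (gc a m F 0)) + aeval u (flat (gc a m F 1)) * r) = 0 := by
        rw [← h1]
        simp
        ring
      exact (mul_eq_zero.1 h3).resolve_left ht
    · rcases hg with h | h
      · exact Or.inl (hg1 h)
      · exact absurd hz2 h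
    · rw [totalDegree_zero]
      omega
  · have hh2 : (gc a m F 2).IsHomogeneous (d - 2) := gc_hom' hF 2 (d - 2) (by omega)
    have e2 : aeval t (gc a m F 2) = t 0 ^ (d - 2) * aeval u (flat (gc a m F 2)) := flat_scale hh2 ht
    have dg2 : (flat (gc a m F 2)).totalDegree ≤ d - 2 := deg_flat hh2
    refine core ha z hgen ht hu (flat (gc a m F 0)) (flat (gc a m F 1)) (flat (gc a m F 2)) ?_ ?_ (by omega) (by omega)
    · change aeval u (flat (gc a m F 0)) + aeval u (flat (gc a m F 1)) * r + aeval u (flat (gc a m F 2)) * r ^ 2 = 0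
      rw [e0, e1, e2, hy0] at h1
      obtain ⟨k, rfl⟩ : ∃ k, d = k + 2 := ⟨d - 2, by omega⟩
      have h3 : t 0 ^ (k + 2) * (aeval u (flat (gc a m F 0)) + aeval u (flat (gc a m F 1)) * r +
          aeval u (flat (gc a m F 2)) * r ^ 2) = 0 := by
        rw [← h1]
        have k1 : k + 2 - 1 = k + 1 := by omega
        have k2 : k + 2 - 2 = k := by omega
        rw [k1, k2]
        ring
      exact (mul_eq_zero.1 h3).resolve_left (pow_ne_zero _ ht)
    · rcases hg with h | h
      · exact Or.inl (hg1 h)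
      · exact Or.inr (hfl hh2 h)

/-- an irreducible surface of degree at most three in `ℙ³` is special and Brody-special. -/
theorem low (hd : d ≤ 3) (hF : F.IsHomogeneous d) (hi : Irreducible F) {n : ℕ}
    (P : Ideal (MvPolynomial (Fin (n + 1)) ℂ)) [P.IsPrime] (hP : IsVariety P)
    (hK : Pool.Agent.QX.IsQuartic (FunField P) F) : SpecialField (FunField P) ∧ BrodySpecial P := by
  obtain ⟨f, hf0, h4, hD⟩ := double_low hd hF hi hK
  have h := classify hf0 (h4.trans (by norm_num)) P hP hD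
  have h6 := not_six hf0 h4
  exact ⟨h.1.2 h6, h.2.2 h6⟩

end Pool.Agent.Low


namespace Pool.Agent.QK

open MvPolynomial Pool.Agent.Campana Pool.Agent.CampanaFlow

/-- A projective model of an irreducible surface of degree at most three in `ℙ³` is special and Brody-special
(the same statement as `Pool.Agent.Low.low`). -/
theorem low {F : MvPolynomial (Fin 4) ℂ} {d : ℕ} (hd : d ≤ 3) (hF : F.IsHomogeneous d) (hi : Irreducible F)
    {n : ℕ} (P : Ideal (MvPolynomial (Fin (n + 1)) ℂ)) [P.IsPrime] (hP : IsVariety P)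
    (hK : Pool.Agent.QX.IsQuartic (FunField P) F) : SpecialField (FunField P) ∧ BrodySpecial P :=
  Pool.Agent.Low.low hd hF hi P hP hK

end Pool.Agent.QK
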