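import Pool.Agent.Lib_MP_1209e6_dl.Class

/-! PIECE LOW (helper93): surfaces of degree at most three: the centre of the projection, and the double planes
branched in degree at most four. -/

set_option autoImplicit false

open MvPolynomial

noncomputable section

namespace Pool.Agent.QK

theorem l93_ae {n : ℕ} (y : Fin n → ℂ) (q : MvPolynomial (Fin n) ℂ) : aeval y q = eval y q := rfl

theorem l93_scale {n e : ℕ} {F : MvPolynomial (Fin n) ℂ} (hF : F.IsHomogeneous e) (s : ℂ)
    (p : Fin n → ℂ) : eval (s • p) F = s ^ e * eval p F := by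
  rw [eval_eq', eval_eq', Finset.mul_sum]
  refine Finset.sum_congr rfl fun t ht => ?_
  have h2 : ∑ i, t i = e := by
    have h3 := hF (mem_support_iff.1 ht)
    rw [Finsupp.weight_apply, Finsupp.sum_fintype _ _ (by simp)] at h3
    simpa using h3
  rw [← h2, ← Finset.prod_pow_eq_pow_sum]
  simp only [Pi.smul_apply, smul_eq_mul, mul_pow, Finset.prod_mul_distrib]
  ring

theorem l93_vert {n e : ℕ} {F : MvPolynomial (Fin n) ℂ} (hF : F.IsHomogeneous e) {b : Fin n → ℂ}
    (hb : ∀ x, eval (x + b) F = eval x F) (s : ℂ) (x : Fin n → ℂ) :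
    eval (x + s • b) F = eval x F := by
  by_cases hs : s = 0
  · rw [hs, zero_smul, add_zero]
  · have h1 : x + s • b = s • (s⁻¹ • x + b) := by
      rw [smul_add, smul_smul, mul_inv_cancel₀ hs, one_smul]
    have h2 : x = s • (s⁻¹ • x) := by
      rw [smul_smul, mul_inv_cancel₀ hs, one_smul]
    rw [h1, l93_scale hF, hb, ← l93_scale hF, ← h2]

theorem l93_root {n e : ℕ} {F : MvPolynomial (Fin n) ℂ} (hF : F.IsHomogeneous e) (he : e ≠ 0)
    (c d : Fin n → ℂ) :
    eval d F = 0 ∨ ∃ t : ℂ, eval (c + t • d) F = 0 := by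
  by_contra h
  push Not at h
  obtain ⟨h1, h2⟩ := h
  let q : Polynomial ℂ := aeval (fun j => Polynomial.C (c j) + Polynomial.X * Polynomial.C (d j)) F
  have hq : ∀ t, q.eval t = eval (c + t • d) F := by
    intro t
    have h3 : (Polynomial.aeval t : Polynomial ℂ →ₐ[ℂ] ℂ) q =
        aeval (fun j => c j + t * d j) F := by
      change ((Polynomial.aeval t : Polynomial ℂ →ₐ[ℂ] ℂ).comp
        (aeval (fun j => Polynomial.C (c j) + Polynomial.X * Polynomial.C (d j)))) F = _
      congr 1
      ext j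
      simp only [AlgHom.comp_apply, aeval_X, map_add, map_mul, Polynomial.aeval_C,
        Polynomial.aeval_X]
      rfl
    rw [Polynomial.coe_aeval_eq_eval] at h3
    rw [h3, l93_ae]
    rfl
  have hdeg : q.degree = 0 := by
    by_contra h3
    obtain ⟨t, ht⟩ := IsAlgClosed.exists_root q h3
    exact h2 t (by rw [← hq]; exact ht)
  rw [Polynomial.eq_C_of_degree_eq_zero hdeg] at hq
  have h4 : (fun s : ℂ => eval (s • c + d) F) = fun s => s ^ e * q.coeff 0 := by
    refine Continuous.ext_on (s := {0}ᶜ) (dense_compl_singleton (0 : ℂ)) ?_ (by fun_prop) ?_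
    · exact (continuous_eval F).comp (by fun_prop)
    · intro s hs
      have hs0 : s ≠ 0 := hs
      have h5 : s • c + d = s • (c + s⁻¹ • d) := by
        rw [smul_add, smul_smul, mul_inv_cancel₀ hs0, one_smul]
      change eval (s • c + d) F = s ^ e * q.coeff 0
      rw [h5, l93_scale hF, ← hq, Polynomial.eval_C]
  have h6 := congrFun h4 0
  simp only [zero_smul, zero_add, zero_pow he, zero_mul] at h6
  exact h1 h6

/-- the linear form of a functional -/
def l93_L (l : (Fin 4 → ℂ) →ₗ[ℂ] ℂ) : MvPolynomial (Fin 4) ℂ :=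
  ∑ j, C (l (Pi.single j 1)) * X j

theorem l93_L_eval (l : (Fin 4 → ℂ) →ₗ[ℂ] ℂ) (x : Fin 4 → ℂ) : eval x (l93_L l) = l x := by
  rw [l93_L, map_sum]
  conv_rhs => rw [← Finset.univ_sum_single x]
  rw [map_sum]
  refine Finset.sum_congr rfl fun j _ => ?_
  rw [map_mul, eval_C, eval_X]
  have h1 : (Pi.single j (x j) : Fin 4 → ℂ) = x j • Pi.single j 1 := by
    rw [← Pi.single_smul, smul_eq_mul, mul_one]
  rw [h1, map_smul, smul_eq_mul, mul_comm]

theorem l93_L_hom (l : (Fin 4 → ℂ) →ₗ[ℂ] ℂ) : (l93_L l).IsHomogeneous 1 :=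
  IsHomogeneous.sum _ _ _ fun j _ => by
    have := (isHomogeneous_C (Fin 4) (l (Pi.single j 1))).mul (isHomogeneous_X ℂ j)
    simpa using this

theorem l93_L_irr (l : (Fin 4 → ℂ) →ₗ[ℂ] ℂ) (hl : l ≠ 0) : Irreducible (l93_L l) := by
  have h0 : l93_L l ≠ 0 := by
    intro h
    apply hl
    ext j
    have := l93_L_eval l (Pi.single j 1)
    rw [h, map_zero] at this
    simpa using this.symm
  refine irreducible_of_totalDegree_eq_one ((l93_L_hom l).totalDegree h0) fun x hx => ?_
  obtain ⟨m, hm⟩ := exists_coeff_ne_zero h0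
  refine isUnit_iff_ne_zero.2 fun hx0 => hm ?_
  have := hx m
  rw [hx0, zero_dvd_iff] at this
  exact this

/-- an irreducible form of degree at least two vanishes on no hyperplane -/
theorem l93_plane {F : MvPolynomial (Fin 4) ℂ} {e : ℕ} (hF : F.IsHomogeneous e) (he : 2 ≤ e)
    (hi : Irreducible F)
    (l : (Fin 4 → ℂ) →ₗ[ℂ] ℂ) (hl : l ≠ 0) (h : ∀ x, l x = 0 → eval x F = 0) : False := by
  have h1 := l93_L_irr l hl
  have hX : F ∈ vanishingIdeal ℂ (zeroLocus ℂ (Ideal.span {l93_L l})) := by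
    rw [mem_vanishingIdeal_iff]
    intro w hw
    have h2 := (mem_zeroLocus_iff.1 hw) _ (Ideal.subset_span (Set.mem_singleton _))
    rw [l93_ae] at h2 ⊢
    exact h w (by rw [← l93_L_eval]; exact h2)
  rw [vanishingIdeal_zeroLocus_eq_radical] at hX
  obtain ⟨N, hN⟩ := hX
  rw [Ideal.mem_span_singleton] at hN
  obtain ⟨Q, hQ⟩ := h1.prime.dvd_of_dvd_pow hN
  have hd : F.totalDegree = e := hF.totalDegree hi.ne_zero
  rcases hi.isUnit_or_isUnit hQ with h2 | h2
  · exact h1.not_isUnit h2
  · have h3 := (isUnit_iff_totalDegree_of_isReduced.1 h2).2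
    have hQ0 : Q ≠ 0 := h2.ne_zero
    rw [hQ, totalDegree_mul_of_isDomain h1.ne_zero hQ0, h3, (l93_L_hom l).totalDegree h1.ne_zero] at hd
    omega

/-- an irreducible form of degree at least two has no two independent vertices -/
theorem l93_two {F : MvPolynomial (Fin 4) ℂ} {e : ℕ} (hF : F.IsHomogeneous e) (he : 2 ≤ e)
    (hi : Irreducible F)
    (a b : Fin 4 → ℂ) (hab : LinearIndependent ℂ ![a, b]) (ha : ∀ x, eval (x + a) F = eval x F)
    (hb : ∀ x, eval (x + b) F = eval x F) : False := by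
  obtain ⟨c, hc⟩ := exists_linearIndependent_snoc_of_lt_finrank hab (by simp)
  obtain ⟨d, hd⟩ := exists_linearIndependent_snoc_of_lt_finrank hc (by simp)
  let B := basisOfLinearIndependentOfCardEqFinrank hd (by simp)
  have hB : ∀ x : Fin 4 → ℂ, x = B.coord 2 x • c + B.coord 3 x • d + B.coord 0 x • a +
      B.coord 1 x • b := by
    intro x
    have h1 := B.sum_repr x
    rw [Fin.sum_univ_four, coe_basisOfLinearIndependentOfCardEqFinrank] at h1
    have e0 : (Fin.snoc (Fin.snoc ![a, b] c) d : Fin 4 → Fin 4 → ℂ) 0 = a := rfl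
    have e1 : (Fin.snoc (Fin.snoc ![a, b] c) d : Fin 4 → Fin 4 → ℂ) 1 = b := rfl
    have e2 : (Fin.snoc (Fin.snoc ![a, b] c) d : Fin 4 → Fin 4 → ℂ) 2 = c := rfl
    have e3 : (Fin.snoc (Fin.snoc ![a, b] c) d : Fin 4 → Fin 4 → ℂ) 3 = d := rfl
    rw [e0, e1, e2, e3] at h1
    simp only [Module.Basis.coord_apply]
    conv_lhs => rw [← h1]
    abel
  have hFx : ∀ x, eval x F = eval (B.coord 2 x • c + B.coord 3 x • d) F := by
    intro x
    conv_lhs => rw [hB x]
    rw [l93_vert hF hb, l93_vert hF ha]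
  have hBv : ∀ i j, B.coord i (B j) = if j = i then 1 else 0 := by
    intro i j
    rw [Module.Basis.coord_apply, Module.Basis.repr_self, Finsupp.single_apply]
  rcases l93_root hF (by omega) c d with h | ⟨t, h⟩
  · refine l93_plane hF he hi (B.coord 2) ?_ fun x hx => ?_
    · intro h0
      have := hBv 2 2
      rw [h0] at this
      simp at this
    · rw [hFx, hx, zero_smul, zero_add, l93_scale hF, h, mul_zero]
  · refine l93_plane hF he hi (B.coord 3 - t • B.coord 2) ?_ fun x hx => ?_
    · intro h0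
      have h1 : (B.coord 3 - t • B.coord 2) (B 3) = 0 := by rw [h0]; rfl
      rw [LinearMap.sub_apply, LinearMap.smul_apply, hBv, hBv] at h1
      simp at h1
    · rw [LinearMap.sub_apply, LinearMap.smul_apply, smul_eq_mul, sub_eq_zero] at hx
      have h1 : B.coord 2 x • c + B.coord 3 x • d = B.coord 2 x • (c + t • d) := by
        rw [hx, smul_add, smul_smul, mul_comm t]
      rw [hFx, h1, l93_scale hF, h, mul_zero]


/-- the centre of the projection -/
theorem low_center {F : MvPolynomial (Fin 4) ℂ} {d : ℕ} (hF : F.IsHomogeneous d) (hi : Irreducible F)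
    (h1 : 1 ≤ d) : ∃ a : Fin 4 → ℂ, (3 ≤ d → eval a F = 0) ∧ ∃ x, eval (x + a) F ≠ eval x F := by
  by_cases h3 : 3 ≤ d
  · by_contra hcon
    push Not at hcon
    have hz : ∀ a : Fin 4 → ℂ, eval a F = 0 → ∀ x, eval (x + a) F = eval x F := fun a ha =>
      hcon a fun _ => ha
    have hd0 : d ≠ 0 := by omega
    obtain ⟨w1, hw1, h10, h12, h13⟩ : ∃ w : Fin 4 → ℂ, eval w F = 0 ∧ (w 0 ≠ 0 ∨ w 1 ≠ 0) ∧
        w 2 = 0 ∧ w 3 = 0 := by
      rcases l93_root hF hd0 (Pi.single 0 1) (Pi.single 1 1) with h | ⟨t, h⟩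
      · exact ⟨_, h, Or.inr (by simp), by simp, by simp⟩
      · exact ⟨_, h, Or.inl (by simp), by simp, by simp⟩
    obtain ⟨w2, hw2, h20, h22, h23⟩ : ∃ w : Fin 4 → ℂ, eval w F = 0 ∧ (w 2 ≠ 0 ∨ w 3 ≠ 0) ∧
        w 0 = 0 ∧ w 1 = 0 := by
      rcases l93_root hF hd0 (Pi.single 2 1) (Pi.single 3 1) with h | ⟨t, h⟩
      · exact ⟨_, h, Or.inr (by simp), by simp, by simp⟩
      · exact ⟨_, h, Or.inl (by simp), by simp, by simp⟩
    refine l93_two hF (by omega) hi w1 w2 ?_ (hz _ hw1) (hz _ hw2)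
    rw [LinearIndependent.pair_iff]
    intro s t hst
    have e0 := congrFun hst 0
    have e1 := congrFun hst 1
    have e2 := congrFun hst 2
    have e3 := congrFun hst 3
    simp only [Pi.add_apply, Pi.smul_apply, smul_eq_mul, Pi.zero_apply, h12, h13, h22, h23, mul_zero,
      add_zero, zero_add, mul_eq_zero] at e0 e1 e2 e3
    refine ⟨?_, ?_⟩
    · rcases h10 with h | h
      · exact e0.resolve_right h
      · exact e1.resolve_right h
    · rcases h20 with h | h
      · exact e2.resolve_right h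
      · exact e3.resolve_right h
  · obtain ⟨a, ha⟩ : ∃ a : Fin 4 → ℂ, eval a F ≠ 0 := by
      by_contra hcon
      push Not at hcon
      exact hi.ne_zero (MvPolynomial.funext fun x => by rw [hcon x, map_zero])
    refine ⟨a, fun h => absurd h h3, 0, ?_⟩
    rw [zero_add]
    have h0 : eval (0 : Fin 4 → ℂ) F = 0 := by
      have h4 := l93_scale hF 0 (0 : Fin 4 → ℂ)
      rw [zero_smul, zero_pow (by omega), zero_mul] at h4
      exact h4
    rw [h0]
    exact ha

theorem l93_lin_deg {v : Fin 3 → ℂ} (h : v 1 ≠ 0 ∨ v 2 ≠ 0) :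
    1 ≤ (Pool.Agent.DP.linPoly v).totalDegree := by
  by_contra hcon
  have h0 : (Pool.Agent.DP.linPoly v).totalDegree = 0 := by omega
  rw [totalDegree_eq_zero_iff_eq_C] at h0
  rcases h with h | h
  · have h1 := congrArg (coeff (Finsupp.single 0 1)) h0
    apply h
    simpa [Pool.Agent.DP.linPoly, coeff_C_mul, coeff_X', Finsupp.single_eq_single_iff] using h1
  · have h1 := congrArg (coeff (Finsupp.single 1 1)) h0
    apply h
    simpa [Pool.Agent.DP.linPoly, coeff_C_mul, coeff_X', Finsupp.single_eq_single_iff] using h1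

/-- six different concurrent lines: the degree is at least five -/
theorem low_not_six {f : MvPolynomial (Fin 2) ℂ} (h0 : f ≠ 0) (h4 : f.totalDegree ≤ 4) :
    ¬ Pool.Agent.DP.SixConcurrentLines f := by
  rintro ⟨s, l, p, -, -, hdiff, hf⟩
  have hprod : ∏ i, Pool.Agent.DP.linPoly (l i) ≠ 0 := by
    rintro h
    rw [h, mul_zero] at hf
    exact h0 hf
  have hne : ∀ i, Pool.Agent.DP.linPoly (l i) ≠ 0 := fun i =>
    (Finset.prod_ne_zero_iff.1 hprod) i (Finset.mem_univ i)
  have hs : s ^ 2 ≠ 0 := by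
    rintro h
    rw [h, zero_mul] at hf
    exact h0 hf
  have hd : (∏ i, Pool.Agent.DP.linPoly (l i)).totalDegree ≤ 4 := by
    rw [hf, totalDegree_mul_of_isDomain hs hprod] at h4
    omega
  have hsum : (∏ i, Pool.Agent.DP.linPoly (l i)).totalDegree =
      ∑ i, (Pool.Agent.DP.linPoly (l i)).totalDegree := by
    have key : ∀ S : Finset (Fin 6), (∏ i ∈ S, Pool.Agent.DP.linPoly (l i)).totalDegree =
        ∑ i ∈ S, (Pool.Agent.DP.linPoly (l i)).totalDegree := by
      intro S
      classical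
      induction S using Finset.induction_on with
      | empty => simp
      | insert a S ha ih =>
        rw [Finset.prod_insert ha, Finset.sum_insert ha,
          totalDegree_mul_of_isDomain (hne a) (Finset.prod_ne_zero_iff.2 fun i _ => hne i), ih]
    exact key _
  -- at most one line is the line at infinity
  have hbad : ∀ i j, i ≠ j → (l i 1 = 0 ∧ l i 2 = 0) → (l j 1 = 0 ∧ l j 2 = 0) → False := by
    intro i j hij hi hj
    have h1 := hdiff i j hij (l j 0) (l i 0) (fun t => by
      fin_cases t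
      · exact mul_comm _ _
      · change l j 0 * l i 1 = l i 0 * l j 1
        rw [hi.1, hj.1, mul_zero, mul_zero]
      · change l j 0 * l i 2 = l i 0 * l j 2
        rw [hi.2, hj.2, mul_zero, mul_zero])
    have h2 := hdiff i j hij 1 0 (fun t => by
      fin_cases t
      · change 1 * l i 0 = 0 * l j 0
        rw [h1.2, mul_zero, zero_mul]
      · change 1 * l i 1 = 0 * l j 1
        rw [hi.1, mul_zero, zero_mul]
      · change 1 * l i 2 = 0 * l j 2
        rw [hi.2, mul_zero, zero_mul])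
    exact one_ne_zero h2.1
  classical
  have hcard : (Finset.univ.filter fun i : Fin 6 => l i 1 = 0 ∧ l i 2 = 0).card ≤ 1 := by
    rw [Finset.card_le_one]
    intro i hi j hj
    by_contra hij
    exact hbad i j hij (Finset.mem_filter.1 hi).2 (Finset.mem_filter.1 hj).2
  have hcard2 : 5 ≤ (Finset.univ.filter fun i : Fin 6 => ¬ (l i 1 = 0 ∧ l i 2 = 0)).card := by
    have h5 := Finset.card_filter_add_card_filter_not (s := (Finset.univ : Finset (Fin 6)))
      (fun i : Fin 6 => l i 1 = 0 ∧ l i 2 = 0)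
    rw [Finset.card_univ, Fintype.card_fin] at h5
    omega
  have h6 : 5 ≤ ∑ i, (Pool.Agent.DP.linPoly (l i)).totalDegree := by
    refine hcard2.trans ?_
    rw [Finset.card_eq_sum_ones]
    refine (Finset.sum_le_sum (f := fun _ => 1)
      (g := fun i => (Pool.Agent.DP.linPoly (l i)).totalDegree) fun i hi => ?_).trans
      (Finset.sum_le_sum_of_subset (Finset.filter_subset _ _))
    refine l93_lin_deg ?_
    have h7 := (Finset.mem_filter.1 hi).2
    by_contra h8
    push Not at h8
    exact h7 h8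
  omega

end Pool.Agent.QK
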