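import Pool.Agent.Lib_MP_1209e6_qx.SingD
import Pool.Agent.Lib_MP_1209e6_qx.Defs
import Pool.Agent.Lib_MP_1209e6_dl.Class

/-! Quartic surfaces with a singular point which is not a vertex: special and Brody-special are equivalent. -/

set_option autoImplicit false

open MvPolynomial

noncomputable section

namespace Pool.Agent.QS

open Pool.Agent.DP Pool.Agent.Campana Pool.Agent.CampanaFlow

variable {K : Type} [Field K] [Algebra ℂ K]

/-- the point `a` is not a vertex -/
theorem gc_ne_pt {a : Fin 4 → ℂ} {m : Fin 4} {F : MvPolynomial (Fin 4) ℂ} (hF : F.IsHomogeneous 4)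
    (hs : ∀ j, eval a (pderiv j F) = 0) (ha : a m ≠ 0) (hc : ∃ x : Fin 4 → ℂ, eval (x + a) F ≠ eval x F) :
    gc a m F 1 ≠ 0 ∨ gc a m F 2 ≠ 0 := by
  by_contra hcon
  push Not at hcon
  obtain ⟨h1, h2⟩ := hcon
  obtain ⟨x, hx⟩ := hc
  apply hx
  have key : ∀ x : Fin 4 → ℂ, eval x F = aeval (fun i : Fin 3 => yc a m x i.succ) (gc a m F 0) := by
    intro x
    have h := aeval_newF a m F (yc a m x)
    rw [xc_yc ha, expand hF hs, h1, h2] at h
    rw [← coe_aeval_eq_eval]
    simpa using h.symm
  rw [key, key]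
  have h3 : (fun i : Fin 3 => yc a m (x + a) i.succ) = fun i : Fin 3 => yc a m x i.succ := by
    funext i
    simp only [yc, Fin.cons_succ, Pi.add_apply, Algebra.algebraMap_self, RingHom.id_apply]
    field_simp
    ring
  rw [h3]

/-- a quartic surface with a singular point which is not a vertex is birational to a double plane branched in
degree `≤ 6` -/
theorem double_plane_pt {F : MvPolynomial (Fin 4) ℂ} (hF : F.IsHomogeneous 4) (hi : Irreducible F)
    (a : Fin 4 → ℂ) (ha : a ≠ 0) (hs : ∀ j, eval a (pderiv j F) = 0)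
    (hc : ∃ x : Fin 4 → ℂ, eval (x + a) F ≠ eval x F) (hK : Pool.Agent.QX.IsQuartic K F) :
    ∃ f : MvPolynomial (Fin 2) ℂ, f ≠ 0 ∧ f.totalDegree ≤ 6 ∧ IsDoublePlane K f := by
  obtain ⟨z, hz, hij, hgen⟩ := hK
  obtain ⟨m, hm⟩ := Function.ne_iff.1 ha
  have hm' : a m ≠ 0 := hm
  have hg := gc_ne_pt hF hs hm' hc
  let x : Fin 4 → K := Fin.cons 1 z
  let y : Fin 4 → K := yc a m x
  let t : Fin 3 → K := fun i => y i.succ
  have V : ∀ (d : ℕ) (A : MvPolynomial (Fin 3) ℂ), A.IsHomogeneous d → aeval t A = 0 → A = 0 :=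
    fun d A hA h0 => vanish hF hi hm' hg z hz hij d A hA h0
  have ht : t 0 ≠ 0 := by
    intro h
    have h1 := V 1 (X 0) (isHomogeneous_X ℂ 0) (by rw [aeval_X]; exact h)
    exact X_ne_zero (0 : Fin 3) h1
  let u : Fin 2 → K := fun i => t i.succ / t 0
  let r : K := y 0 / t 0
  have hu : AlgebraicIndependent ℂ u := indep_u ht V
  let A4 : K := aeval u (flat (gc a m F 0))
  let A3 : K := aeval u (flat (gc a m F 1))
  let A2 : K := aeval u (flat (gc a m F 2))
  have hy0 : y 0 = t 0 * r := by
    simp only [r]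
    field_simp
  have hE : A4 + A3 * r + A2 * r ^ 2 = 0 := by
    have h1 : aeval y (newF a m F) = 0 := by
      rw [aeval_newF, xc_yc hm']
      exact hz
    rw [expand hF hs] at h1
    have e4 : aeval t (gc a m F 0) = t 0 ^ 4 * A4 := flat_scale (gc_hom hF 0 4 rfl) ht
    have e3 : aeval t (gc a m F 1) = t 0 ^ 3 * A3 := flat_scale (gc_hom hF 1 3 rfl) ht
    have e2 : aeval t (gc a m F 2) = t 0 ^ 2 * A2 := flat_scale (gc_hom hF 2 2 rfl) ht
    have h2 : aeval t (gc a m F 0) + aeval t (gc a m F 1) * y 0 + aeval t (gc a m F 2) * y 0 ^ 2 = 0 := h1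
    rw [e4, e3, e2, hy0] at h2
    have h3 : t 0 ^ 4 * (A4 + A3 * r + A2 * r ^ 2) = 0 := by
      rw [← h2]
      ring
    exact (mul_eq_zero.1 h3).resolve_left (pow_ne_zero _ ht)
  -- the field is generated by `u` and `r`
  have hgen' : ∀ L : IntermediateField ℂ K, (∀ i, u i ∈ L) → r ∈ L → L = ⊤ := by
    intro L hL hr
    let η : Fin 4 → K := Fin.cons r (Fin.cons 1 u)
    have hη : ∀ i, η i ∈ L := by
      intro i
      refine Fin.cases ?_ (fun j => ?_) i
      · exact hr
      · refine Fin.cases ?_ (fun k => ?_) j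
        · exact L.one_mem
        · exact hL k
    have hyη : ∀ i, y i = t 0 * η i := by
      intro i
      refine Fin.cases ?_ (fun j => ?_) i
      · exact hy0
      · refine Fin.cases ?_ (fun k => ?_) j
        · change t 0 = t 0 * 1
          rw [mul_one]
        · change t k.succ = t 0 * (t k.succ / t 0)
          field_simp
    have hξ : ∀ j, xc a m η j ∈ L := by
      intro j
      refine L.add_mem (L.mul_mem (L.algebraMap_mem _) (hη 0)) ?_
      rcases Fin.eq_self_or_eq_succAbove m j with rfl | ⟨i, rfl⟩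
      · rw [Fin.insertNth_apply_same]
        exact L.zero_mem
      · rw [Fin.insertNth_apply_succAbove]
        exact hη _
    have hxξ : ∀ j, x j = t 0 * xc a m η j := by
      intro j
      have h1 : x j = xc a m y j := by rw [xc_yc hm']
      rw [h1, xc, xc, hyη 0, mul_add]
      rcases Fin.eq_self_or_eq_succAbove m j with rfl | ⟨i, rfl⟩
      · rw [Fin.insertNth_apply_same, Fin.insertNth_apply_same]
        ring
      · rw [Fin.insertNth_apply_succAbove, Fin.insertNth_apply_succAbove, hyη]
        ring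
    have h0 : (1 : K) = t 0 * xc a m η 0 := hxξ 0
    have ht0 : t 0 ∈ L := by
      have h1 : t 0 = (xc a m η 0)⁻¹ := eq_inv_of_mul_eq_one_left h0.symm
      rw [h1]
      exact L.inv_mem (hξ 0)
    rw [eq_top_iff, ← hgen, IntermediateField.adjoin_le_iff]
    rintro _ ⟨j, rfl⟩
    have h1 : z j = t 0 * xc a m η j.succ := hxξ j.succ
    change z j ∈ L
    rw [h1]
    exact L.mul_mem ht0 (hξ _)
  have haeval : ∀ (L : IntermediateField ℂ K), (∀ i, u i ∈ L) → ∀ G : MvPolynomial (Fin 2) ℂ, aeval u G ∈ L := by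
    intro L hL G
    induction G using MvPolynomial.induction_on with
    | C c => rw [algHom_C]; exact L.algebraMap_mem c
    | add p q hp hq => rw [map_add]; exact L.add_mem hp hq
    | mul_X p i hp => rw [map_mul, aeval_X]; exact L.mul_mem hp (hL i)
  -- the rational case
  have hrat : (∀ L : IntermediateField ℂ K, (∀ i, u i ∈ L) → r ∈ L) →
      ∃ f : MvPolynomial (Fin 2) ℂ, f ≠ 0 ∧ f.totalDegree ≤ 6 ∧ IsDoublePlane K f := by
    intro h
    refine ⟨1, one_ne_zero, by simp, u, 1, hu, by simp, ?_⟩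
    have hL : ∀ i, u i ∈ IntermediateField.adjoin ℂ (Set.range u ∪ {(1 : K)}) := fun i =>
      IntermediateField.subset_adjoin _ _ (Or.inl ⟨i, rfl⟩)
    exact hgen' _ hL (h _ hL)
  by_cases h2 : gc a m F 2 = 0
  · have h3 : gc a m F 1 ≠ 0 := by
      rcases hg with h | h
      · exact h
      · exact absurd h2 h
    have hA3 : A3 ≠ 0 := flat_ne ht V (gc_hom hF 1 3 rfl) h3
    have hA2 : A2 = 0 := by
      simp only [A2, h2, flat, map_zero]
    apply hrat
    intro L hL
    have hr : r = -A4 / A3 := by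
      rw [hA2, zero_mul, add_zero] at hE
      rw [eq_div_iff hA3]
      linear_combination hE
    rw [hr]
    exact L.div_mem (L.neg_mem (haeval L hL _)) (haeval L hL _)
  · have hA2 : A2 ≠ 0 := flat_ne ht V (gc_hom hF 2 2 rfl) h2
    let w : K := 2 * A2 * r + A3
    let D : MvPolynomial (Fin 2) ℂ := flat (gc a m F 1) ^ 2 - C 4 * (flat (gc a m F 2) * flat (gc a m F 0))
    have hw : w ^ 2 = aeval u D := by
      have h4 : (aeval u D : K) = A3 ^ 2 - 4 * (A2 * A4) := by
        simp only [D, map_sub, map_mul, map_pow, A2, A3, A4, map_ofNat]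
      rw [h4]
      simp only [w]
      linear_combination (4 * A2) * hE
    have hr : r = (w - A3) / (2 * A2) := by
      rw [eq_div_iff (mul_ne_zero (by
        have h5 : (2 : K) = algebraMap ℂ K 2 := (map_ofNat (algebraMap ℂ K) 2).symm
        rw [h5]
        exact (map_ne_zero _).2 two_ne_zero) hA2)]
      simp only [w]
      ring
    have h2mem : ∀ L : IntermediateField ℂ K, (2 : K) ∈ L := fun L => by
      have h5 : (2 : K) = algebraMap ℂ K 2 := (map_ofNat (algebraMap ℂ K) 2).symm
      rw [h5]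
      exact L.algebraMap_mem _
    by_cases hD : D = 0
    · apply hrat
      intro L hL
      have hw0 : w = 0 := by
        rw [hD, map_zero] at hw
        exact pow_eq_zero_iff (two_ne_zero) |>.1 hw
      rw [hr, hw0]
      exact L.div_mem (L.sub_mem L.zero_mem (haeval L hL _)) (L.mul_mem (h2mem L) (haeval L hL _))
    · refine ⟨D, hD, ?_, u, w, hu, hw, ?_⟩
      · have d4 : (flat (gc a m F 0)).totalDegree ≤ 4 := deg_flat (gc_hom hF 0 4 rfl)
        have d3 : (flat (gc a m F 1)).totalDegree ≤ 3 := deg_flat (gc_hom hF 1 3 rfl)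
        have d2 : (flat (gc a m F 2)).totalDegree ≤ 2 := deg_flat (gc_hom hF 2 2 rfl)
        refine (totalDegree_sub _ _).trans (max_le ?_ ?_)
        · refine (totalDegree_pow _ _).trans ?_
          omega
        · refine (totalDegree_mul _ _).trans ?_
          rw [totalDegree_C, zero_add]
          refine (totalDegree_mul _ _).trans ?_
          omega
      · have hL : ∀ i, u i ∈ IntermediateField.adjoin ℂ (Set.range u ∪ {w}) := fun i =>
          IntermediateField.subset_adjoin _ _ (Or.inl ⟨i, rfl⟩)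
        have hwL : w ∈ IntermediateField.adjoin ℂ (Set.range u ∪ {w}) :=
          IntermediateField.subset_adjoin _ _ (Or.inr rfl)
        apply hgen' _ hL
        rw [hr]
        exact (IntermediateField.adjoin ℂ (Set.range u ∪ {w})).div_mem
          ((IntermediateField.adjoin ℂ (Set.range u ∪ {w})).sub_mem hwL (haeval _ hL _))
          ((IntermediateField.adjoin ℂ (Set.range u ∪ {w})).mul_mem (h2mem _) (haeval _ hL _))

/-- a projective model of a quartic surface in `ℙ³` with a singular point which is not a vertex is special if and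
only if it is Brody-special. -/
theorem singular_pt {F : MvPolynomial (Fin 4) ℂ} (hF : F.IsHomogeneous 4) (hi : Irreducible F)
    (a : Fin 4 → ℂ) (ha : a ≠ 0) (hs : ∀ j, eval a (pderiv j F) = 0)
    (hc : ∃ x : Fin 4 → ℂ, eval (x + a) F ≠ eval x F) {n : ℕ}
    (P : Ideal (MvPolynomial (Fin (n + 1)) ℂ)) [P.IsPrime] (hP : IsVariety P)
    (hK : Pool.Agent.QX.IsQuartic (FunField P) F) : SpecialField (FunField P) ↔ BrodySpecial P := by
  obtain ⟨f, hf0, h6, hD⟩ := double_plane_pt hF hi a ha hs hc hK
  have h := classify hf0 h6 P hP hD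
  exact h.1.trans h.2.symm

end Pool.Agent.QS
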