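import Pool.Agent.Lib_MP_1209e6_qk.NotSpecial
import Pool.Agent.Lib_MP_1209e6_qk.Brody
import Pool.Agent.Lib_MP_1209e6_qk.Geo
import Pool.Agent.Lib_MP_1209e6_qk.SingPt

/-! Every irreducible singular quartic surface: special if and only if Brody-special. -/

set_option autoImplicit false

open MvPolynomial Pool.Agent.Campana Pool.Agent.CampanaFlow

noncomputable section

namespace Pool.Agent.QK

/-- an element of a field over `ℂ` which is algebraic over `ℂ` is a complex number -/
theorem const_alg {L : Type} [Field L] [Algebra ℂ L] {a : L} (h : IsAlgebraic ℂ a) :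
    ∃ c : ℂ, a = algebraMap ℂ L c := by
  have h1 := IsAlgClosed.degree_eq_one_of_irreducible ℂ (minpoly.irreducible h.isIntegral)
  have h2 := minpoly.mem_range_of_degree_eq_one ℂ a h1
  obtain ⟨c, hc⟩ := h2
  exact ⟨c, hc.symm⟩

/-- no linear form vanishes at the generic point of an irreducible quartic surface -/
theorem lin_ne {K : Type} [Field K] [Algebra ℂ K] {F : MvPolynomial (Fin 4) ℂ} (hF : F.IsHomogeneous 4)
    (hi : Irreducible F) (z : Fin 3 → K) (hz : aeval (Fin.cons 1 z : Fin 4 → K) F = 0)
    (hij : ∃ i j, AlgebraicIndependent ℂ ![z i, z j]) (v : Fin 4 → ℂ) (hv : v ≠ 0) :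
    ∑ j, algebraMap ℂ K (v j) * (Fin.cons 1 z : Fin 4 → K) j ≠ 0 := by
  intro h
  let L : MvPolynomial (Fin 4) ℂ := ∑ j, C (v j) * X j
  have hL : L.IsHomogeneous 1 := by
    apply IsHomogeneous.sum
    intro j _
    have h1 := (isHomogeneous_C (Fin 4) (v j)).mul (isHomogeneous_X ℂ j)
    rwa [zero_add] at h1
  have hL0 : aeval (Fin.cons 1 z : Fin 4 → K) L = 0 := by
    rw [← h, map_sum]
    refine Finset.sum_congr rfl fun j _ => ?_
    rw [map_mul, aeval_X, algHom_C]
  obtain ⟨q, hq⟩ := Pool.Agent.QS.dvd_of_zero hF hi z hz hij hL hL0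
  have hLne : L ≠ 0 := by
    obtain ⟨m, hm⟩ := Function.ne_iff.1 hv
    intro h0
    apply hm
    have h1 := congrArg (eval (Pi.single m 1 : Fin 4 → ℂ)) h0
    rw [map_zero, map_sum, Finset.sum_eq_single m] at h1
    · simpa using h1
    · intro j _ hj
      simp [Pi.single_eq_of_ne hj]
    · simp
  have hq0 : q ≠ 0 := by
    rintro rfl
    rw [mul_zero] at hq
    exact hLne hq
  have h2 := totalDegree_mul_of_isDomain hi.ne_zero hq0
  rw [← hq, hL.totalDegree hLne, hF.totalDegree hi.ne_zero] at h2
  omega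

/-- every irreducible quartic surface with a singular point: special if and only if Brody-special -/
theorem singular_all {F : MvPolynomial (Fin 4) ℂ} (hF : F.IsHomogeneous 4) (hi : Irreducible F)
    (a : Fin 4 → ℂ) (ha : a ≠ 0) (hs : ∀ j, eval a (pderiv j F) = 0)
    {n : ℕ} (P : Ideal (MvPolynomial (Fin (n + 1)) ℂ)) [P.IsPrime] (hP : IsVariety P)
    (hK : Pool.Agent.QX.IsQuartic (FunField P) F) : SpecialField (FunField P) ↔ BrodySpecial P := by
  by_cases hv : ∀ b : Fin 4 → ℂ, (∀ j, eval b (pderiv j F) = 0) → ∀ x, eval (x + b) F = eval x F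
  · obtain ⟨G, M, hG, hsm, hM, hGF⟩ := cone_form hF hi a ha hs hv
    obtain ⟨z, hz, hij, -⟩ := hK
    let y : Fin 4 → FunField P := Fin.cons 1 z
    let x : Fin 3 → FunField P := fun i => ∑ j, algebraMap ℂ (FunField P) (M i j) * y j
    have hx : aeval x G = 0 := by
      have h1 := comp_aeval_apply (R := ℂ) (f := fun i => ∑ j, C (M i j) * X j)
        (aeval y : MvPolynomial (Fin 4) ℂ →ₐ[ℂ] FunField P) G
      rw [hGF] at h1
      have h2 : (fun i => (aeval y) (∑ j, C (M i j) * X j : MvPolynomial (Fin 4) ℂ)) = x := by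
        funext i
        rw [map_sum]
        refine Finset.sum_congr rfl fun j _ => ?_
        rw [map_mul, aeval_X, algHom_C]
      rw [h2] at h1
      rw [← h1]
      exact hz
    have h0 : x 0 ≠ 0 := lin_ne hF hi z hz hij (M 0) (hM.ne_zero 0)
    have hne : ∀ c : ℂ, x 1 ≠ algebraMap ℂ _ c * x 0 := by
      intro c hc
      have hv1 : (fun j => M 1 j - c * M 0 j) ≠ 0 := by
        intro h
        have h1 := Fintype.linearIndependent_iff.1 hM ![-c, 1, 0] (by
          rw [Fin.sum_univ_three]
          funext j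
          have h2 := congrFun h j
          simp only [Pi.zero_apply] at h2
          simp only [Matrix.cons_val_zero, Matrix.cons_val_one, Matrix.cons_val, Pi.add_apply, Pi.smul_apply,
            smul_eq_mul, Pi.zero_apply]
          linear_combination h2) 1
        exact one_ne_zero h1
      apply lin_ne hF hi z hz hij _ hv1
      have h3 : ∑ j, algebraMap ℂ (FunField P) (M 1 j - c * M 0 j) * y j =
          x 1 - algebraMap ℂ _ c * x 0 := by
        simp only [x, map_sub, map_mul, Finset.mul_sum, ← Finset.sum_sub_distrib]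
        refine Finset.sum_congr rfl fun j _ => ?_
        ring
      exact h3.trans (sub_eq_zero.2 hc)
    have ht : Transcendental ℂ (x 1 / x 0) := by
      intro h
      obtain ⟨c, hc⟩ := const_alg h
      exact hne c (by rw [← hc, div_mul_cancel₀ _ h0])
    exact ⟨fun h => absurd h (cone_not_special hG hsm x h0 hx ht),
      fun h => absurd h (cone_not_brody P hP hG hsm x h0 hx hne)⟩
  · simp only [not_forall] at hv
    obtain ⟨b, hb, x, hx⟩ := hv
    have hb0 : b ≠ 0 := by
      rintro rfl
      exact hx (by rw [add_zero])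
    exact Pool.Agent.QS.singular_pt hF hi b hb0 hb ⟨x, hx⟩ P hP hK

end Pool.Agent.QK
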