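import Pool.Agent.Lib_MP_1209e6_ds.Coef
import Pool.Agent.Lib_MP_1209e6_ds.SmoothUp
import Pool.Agent.Lib_MP_1209e6_ag.Defs
import Pool.Agent.Lib_MP_1209e6_ag.Der

/-! PART D2 (a) (helper7): a field which contains the function field of a smooth plane quartic is not special. -/

set_option autoImplicit false

open MvPolynomial Pool.Agent.Campana

noncomputable section

namespace Pool.Agent.QK

theorem qk_euler {k : Type} [Field k] [Algebra ℂ k] {n d : ℕ} {G : MvPolynomial (Fin n) ℂ}
    (hG : G.IsHomogeneous d) (P : Fin n → k) : ∑ j, P j * aeval P (pderiv j G) = d * aeval P G := by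
  have h1 := congrArg (aeval P) hG.sum_X_mul_pderiv
  rw [map_sum, map_nsmul, nsmul_eq_mul] at h1
  simp only [map_mul, aeval_X] at h1
  exact h1

theorem qk_der {k : Type} [Field k] [Algebra ℂ k] (t : k) (ht : Transcendental ℂ t) :
    ∃ D : Derivation ℂ k k, D t = 1 := by
  have : CharZero k := charZero_of_injective_algebraMap (algebraMap ℂ k).injective
  have h2 : AlgebraicIndependent ℂ (fun _ : Unit => t) := algebraicIndependent_unique_type_iff.2 ht
  obtain ⟨E, hE⟩ := exists_derivation (fun _ : Unit => t) h2 (fun _ => 1)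
  exact ⟨E, hE ()⟩

/-- homogeneity at a point -/
theorem qk_hom {n d : ℕ} {G : MvPolynomial (Fin n) ℂ} (hG : G.IsHomogeneous d) {k : Type} [Field k] [Algebra ℂ k]
    (c : k) (x : Fin n → k) : aeval (fun j => c * x j) G = c ^ d * aeval x G := by
  rw [aeval_def, aeval_def, eval₂_eq, eval₂_eq, Finset.mul_sum]
  refine Finset.sum_congr rfl fun m hm => ?_
  have h1 : ∏ i ∈ m.support, (c * x i) ^ m i = c ^ d * ∏ i ∈ m.support, x i ^ m i := by
    simp only [mul_pow, Finset.prod_mul_distrib]
    rw [Finset.prod_pow_eq_pow_sum]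
    have h2 : ∑ i ∈ m.support, m i = d := by
      have h3 := hG (mem_support_iff.1 hm)
      rw [Finsupp.weight_apply] at h3
      simpa [Finsupp.sum] using h3
    rw [h2]
  rw [h1]
  ring

/-- the coordinates of `x × D x` -/
def wr {R : Type} [CommRing R] (x y : Fin 3 → R) : Fin 3 → R :=
  ![x 1 * y 2 - x 2 * y 1, x 2 * y 0 - x 0 * y 2, x 0 * y 1 - x 1 * y 0]

theorem wr_par {R : Type} [CommRing R] (x y g : Fin 3 → R) (h1 : x 0 * g 0 + x 1 * g 1 + x 2 * g 2 = 0)
    (h2 : y 0 * g 0 + y 1 * g 1 + y 2 * g 2 = 0) (i j : Fin 3) : wr x y i * g j = wr x y j * g i := by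
  fin_cases i <;> fin_cases j <;> simp [wr] <;>
    first
      | linear_combination (y 2) * h1 - (x 2) * h2
      | linear_combination (x 2) * h2 - (y 2) * h1
      | linear_combination (y 1) * h1 - (x 1) * h2
      | linear_combination (x 1) * h2 - (y 1) * h1
      | linear_combination (y 0) * h1 - (x 0) * h2
      | linear_combination (x 0) * h2 - (y 0) * h1

theorem wr_smul {R : Type} [CommRing R] (x y : Fin 3 → R) (c d : R) (i : Fin 3) :
    wr (fun j => c * x j) (fun j => d * x j + c * y j) i = c ^ 2 * wr x y i := by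
  fin_cases i <;> simp [wr] <;> ring

variable {K : Type} [Field K] [Algebra ℂ K]

/-- the gradient at a point of the curve -/
def gr (G : MvPolynomial (Fin 3) ℂ) (x : Fin 3 → K) (i : Fin 3) : K := aeval x (pderiv i G)

theorem par {G : MvPolynomial (Fin 3) ℂ} (hG : G.IsHomogeneous 4) (x : Fin 3 → K) (hx : aeval x G = 0)
    (D : Derivation ℂ K K) (i j : Fin 3) :
    wr x (fun l => D (x l)) i * gr G x j = wr x (fun l => D (x l)) j * gr G x i := by
  refine wr_par x _ (gr G x) ?_ ?_ i j
  · have h1 := qk_euler hG x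
    rw [hx, mul_zero, Fin.sum_univ_three] at h1
    exact h1
  · have h1 := Pool.Agent.DS.chain D x G
    rw [hx, map_zero, Fin.sum_univ_three] at h1
    exact h1.symm

theorem gr_smul {G : MvPolynomial (Fin 3) ℂ} (hG : G.IsHomogeneous 4) (c : K) (x : Fin 3 → K) (i : Fin 3) :
    gr G (fun j => c * x j) i = c ^ 3 * gr G x i := by
  have h1 : (pderiv i G).IsHomogeneous 3 := hG.pderiv
  exact qk_hom h1 c x

theorem gr_ne {G : MvPolynomial (Fin 3) ℂ} (hs : Pool.Agent.DS.Smooth G) (x : Fin 3 → K) (hx : x ≠ 0) :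
    ∃ k, gr G x k ≠ 0 := by
  by_contra h
  push Not at h
  exact hx (Pool.Agent.DS.Smooth.up hs x h)

/-- a primitive point has a derivative which is a unit -/
theorem gr_unit {G : MvPolynomial (Fin 3) ℂ} (hs : Pool.Agent.DS.Smooth G) (O : ValuationSubring K)
    (hC : ∀ c : ℂ, algebraMap ℂ K c ∈ O) (x : Fin 3 → K) (hx : ∀ i, x i ∈ O) (m : Fin 3) (hm : x m = 1) :
    ∃ k, gr G x k ≠ 0 ∧ (gr G x k)⁻¹ ∈ O := by
  classical
  let alg : Algebra ℂ O := ((algebraMap ℂ K).codRestrict O.toSubring hC).toAlgebra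
  have : IsScalarTower ℂ O K := IsScalarTower.of_algebraMap_eq fun c => rfl
  let y : Fin 3 → O := fun i => ⟨x i, hx i⟩
  let r : Fin 3 → IsLocalRing.ResidueField O := fun i => IsLocalRing.residue O (y i)
  have hr : r ≠ 0 := by
    intro h
    have h1 : r m = 0 := by rw [h]; rfl
    have h2 : y m = 1 := Subtype.ext hm
    have h3 : r m = 1 := by
      show IsLocalRing.residue O (y m) = 1
      rw [h2, map_one]
    rw [h3] at h1
    exact one_ne_zero h1
  obtain ⟨k, hk⟩ := gr_ne hs r hr
  have hg : (algebraMap O K) (aeval y (pderiv k G)) = gr G x k := by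
    rw [← MvPolynomial.aeval_algebraMap_apply]
    rfl
  have hu : IsUnit (aeval y (pderiv k G) : O) := by
    by_contra h
    apply hk
    have h1 : (aeval y (pderiv k G) : O) ∈ IsLocalRing.maximalIdeal O := h
    have h2 : IsLocalRing.residue O (aeval y (pderiv k G)) = 0 := (IsLocalRing.residue_eq_zero_iff _).2 h1
    have h3 := MvPolynomial.aeval_algebraMap_apply (IsLocalRing.ResidueField O) y (pderiv k G)
    show aeval r (pderiv k G) = 0
    rw [← h2]
    exact h3
  obtain ⟨u, hu⟩ := hu
  have h4 : gr G x k * ((u⁻¹ : Oˣ) : O) = 1 := by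
    rw [← hg, ← hu]
    have h5 : ((u : O) * ((u⁻¹ : Oˣ) : O)) = 1 := Units.mul_inv u
    exact congrArg (algebraMap O K) h5
  have h6 : gr G x k ≠ 0 := left_ne_zero_of_mul_eq_one h4
  refine ⟨k, h6, ?_⟩
  rw [← eq_inv_of_mul_eq_one_right h4]
  exact ((u⁻¹ : Oˣ) : O).2

/-- the form `x₀ (x × dx)_k / G_k` -/
def om (G : MvPolynomial (Fin 3) ℂ) (x : Fin 3 → K) (k : Fin 3) : Derivation ℂ K K →ₗ[K] K where
  toFun D := x 0 * (wr x (fun l => D (x l)) k / gr G x k)
  map_add' D₁ D₂ := by
    fin_cases k <;> simp [wr] <;> ring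
  map_smul' c D := by
    fin_cases k <;> simp [wr] <;> ring

def om1 (G : MvPolynomial (Fin 3) ℂ) (x : Fin 3 → K) (k : Fin 3) : Form K 1 :=
  (Matrix.detRowAlternating (n := Fin 1) (R := K)).compLinearMap (LinearMap.pi fun _ => om G x k)

theorem om1_apply (G : MvPolynomial (Fin 3) ℂ) (x : Fin 3 → K) (k : Fin 3) (D : Fin 1 → Derivation ℂ K K) :
    om1 G x k D = om G x k (D 0) := by
  show Matrix.det (Matrix.of fun i j : Fin 1 => om G x k (D i)) = _
  rw [Matrix.det_unique]
  rfl

/-- a field which contains the function field of a smooth plane quartic is not special -/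
theorem cone_not_special {K : Type} [Field K] [Algebra ℂ K] {G : MvPolynomial (Fin 3) ℂ}
    (hG : G.IsHomogeneous 4) (hs : Pool.Agent.DS.Smooth G) (x : Fin 3 → K) (h0 : x 0 ≠ 0)
    (hx : aeval x G = 0) (htr : Transcendental ℂ (x 1 / x 0)) : ¬ SpecialField K := by
  classical
  intro hsp
  have : CharZero K := charZero_of_injective_algebraMap (algebraMap ℂ K).injective
  obtain ⟨k, hk⟩ := gr_ne hs x (fun h => h0 (by rw [h]; rfl))
  -- the form is not zero
  have hne : om1 G x k ≠ 0 := by
    intro h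
    obtain ⟨D, hD⟩ := qk_der (x 1 / x 0) htr
    have h1 : om1 G x k (fun _ => D) = 0 := by rw [h]; rfl
    rw [om1_apply] at h1
    have h2 : x 0 * (wr x (fun l => D (x l)) k / gr G x k) = 0 := h1
    have h3 : wr x (fun l => D (x l)) k = 0 := by
      rcases mul_eq_zero.1 h2 with h3 | h3
      · exact absurd h3 h0
      · exact (div_eq_zero_iff.1 h3).resolve_right hk
    have h4 : wr x (fun l => D (x l)) 2 = 0 := by
      have h5 := par hG x hx D 2 k
      rw [h3, zero_mul] at h5
      exact (mul_eq_zero.1 h5).resolve_right hk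
    have h5 : x 0 * D (x 1) - x 1 * D (x 0) = 0 := h4
    have h6 : D (x 1) = x 0 * 1 + (x 1 / x 0) * D (x 0) := by
      have h7 : x 1 = (x 1 / x 0) * x 0 := by field_simp
      have h8 := congrArg D h7
      rw [D.leibniz, hD, smul_eq_mul, smul_eq_mul] at h8
      rw [h8]
      ring
    rw [h6] at h5
    have h7 : x 0 * x 0 = 0 := by
      field_simp at h5
      linear_combination h5
    exact (mul_self_ne_zero.2 h0) h7
  refine hsp 1 le_rfl (om1 G x k) hne 1 le_rfl 1 one_ne_zero (fun _ => x 1 / x 0) ?_ ?_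
  · intro O hO
    obtain ⟨hC, hdvr⟩ := hO
    -- a coordinate of minimal order
    obtain ⟨m, hm0, hm⟩ : ∃ m, x m ≠ 0 ∧ ∀ i, x i / x m ∈ O := by
      obtain ⟨m, hm⟩ := Finite.exists_max fun i => O.valuation (x i)
      have h1 : x m ≠ 0 := by
        intro h
        have h2 := hm 0
        rw [h, map_zero] at h2
        exact h0 ((map_eq_zero _).1 (le_antisymm h2 zero_le))
      refine ⟨m, h1, fun i => ?_⟩
      rw [← O.valuation_le_one_iff, map_div₀]
      exact div_le_one_of_le₀ (hm i) zero_le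
    let y : Fin 3 → K := fun i => x i / x m
    have hyO : ∀ i, y i ∈ O := hm
    have hym : y m = 1 := div_self hm0
    have hxy : x = fun j => x m * y j := by
      funext j
      show x j = x m * (x j / x m)
      field_simp
    have hy : aeval y G = 0 := by
      have h1 := qk_hom hG (x m) y
      rw [← hxy, hx] at h1
      exact (mul_eq_zero.1 h1.symm).resolve_left (pow_ne_zero 4 hm0)
    obtain ⟨l, hl, hlO⟩ := gr_unit hs O hC y hyO m hym
    have hy0 : y 0 ≠ 0 := div_ne_zero h0 hm0
    have hkey : ∀ D : Derivation ℂ K K, om G x k D = y 0 * (wr y (fun l => D (y l)) l * (gr G y l)⁻¹) := by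
      intro D
      have h1 : gr G x k = x m ^ 3 * gr G y k := by
        conv_lhs => rw [hxy]
        exact gr_smul hG _ _ _
      have h2 : wr x (fun l => D (x l)) k = x m ^ 2 * wr y (fun l => D (y l)) k := by
        have h3 : (fun l => D (x l)) = fun j => D (x m) * y j + x m * D (y j) := by
          funext j
          have h4 : x j = x m * y j := congrFun hxy j
          rw [h4, D.leibniz, smul_eq_mul, smul_eq_mul]
          ring
        have h5 := wr_smul y (fun j => D (y j)) (x m) (D (x m)) k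
        rw [← hxy] at h5
        rw [h3]
        exact h5
      have h3 : gr G y k ≠ 0 := by
        intro h4
        rw [h4, mul_zero] at h1
        exact hk h1
      have h4 := par hG y hy D k l
      have h5 : x 0 = x m * y 0 := congrFun hxy 0
      show x 0 * (wr x (fun l => D (x l)) k / gr G x k) = _
      rw [h1, h2, h5]
      field_simp
      linear_combination h4
    have hwr : ∀ D : Derivation ℂ K K, (∀ a ∈ O, D a ∈ O) → wr y (fun l => D (y l)) l ∈ O := by
      intro D hD
      have h1 : ∀ i, D (y i) ∈ O := fun i => hD _ (hyO i)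
      have h2 : ∀ i j, y i * D (y j) - y j * D (y i) ∈ O := fun i j =>
        sub_mem (O.mul_mem _ _ (hyO i) (h1 j)) (O.mul_mem _ _ (hyO j) (h1 i))
      fin_cases l
      · exact h2 1 2
      · exact h2 2 0
      · exact h2 0 1
    refine ⟨⟨1, one_ne_zero, ?_, ?_⟩, fun _ => ⟨y 0, hy0, ?_, ?_⟩⟩
    · intro D hD
      rw [om1_apply, hkey, inv_one, one_mul]
      exact O.mul_mem _ _ (hyO 0) (O.mul_mem _ _ (hwr _ (hD 0)) hlO)
    · rw [one_pow, mul_one]
      exact O.one_mem
    · intro D hD
      rw [om1_apply, hkey, ← mul_assoc, inv_mul_cancel₀ hy0, one_mul]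
      exact O.mul_mem _ _ (hwr _ (hD 0)) hlO
    · have h1 : x 1 / x 0 * y 0 ^ 1 = y 1 := by
        show x 1 / x 0 * (x 0 / x m) ^ 1 = x 1 / x m
        field_simp
      rw [h1]
      exact hyO 1
  · have h1 : (fun i : Fin 1 => (fun _ => x 1 / x 0 : Fin 1 → K) i / 1) = fun _ : Fin 1 => x 1 / x 0 := by
      funext i
      rw [div_one]
    rw [h1]
    exact algebraicIndependent_unique_type_iff.2 htr

end Pool.Agent.QK
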