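import Pool.Agent.Lib_MP_b9fedf_ag.Smooth
import Pool.Agent.Lib_MP_1209e6_ds.Defs

/-! Entire curves in a smooth plane quartic: the cross product of the curve and its derivative. -/

set_option autoImplicit false

open MvPolynomial

namespace Pool.Agent.QK
open Filter Metric Set Pool.Agent.GGL

/-- the gradient is bounded below -/
theorem grad_ge {G : MvPolynomial (Fin 3) ℂ} (hG : G.IsHomogeneous 4) (hs : Pool.Agent.DS.Smooth G) :
    ∃ c : ℝ, 0 < c ∧ ∀ x : Fin 3 → ℂ, c * ‖x‖ ^ 3 ≤ ‖fun i => eval x (pderiv i G)‖ := by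
  have hcont : Continuous fun x : Fin 3 → ℂ => ‖fun i => eval x (pderiv i G)‖ := by
    refine continuous_norm.comp (continuous_pi fun i => ?_)
    exact MvPolynomial.continuous_eval _
  have hne : (sphere (0 : Fin 3 → ℂ) 1).Nonempty := ⟨fun _ => 1, by
    rw [mem_sphere_zero_iff_norm]
    simp⟩
  obtain ⟨x0, hx0, hmin⟩ := (isCompact_sphere (0 : Fin 3 → ℂ) 1).exists_isMinOn hne
    hcont.continuousOn
  have hx1 : ‖x0‖ = 1 := mem_sphere_zero_iff_norm.1 hx0
  refine ⟨‖fun i => eval x0 (pderiv i G)‖, ?_, ?_⟩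
  · rw [norm_pos_iff]
    intro h
    have h1 := hs x0 (fun j => congrFun h j)
    rw [h1, norm_zero] at hx1
    exact zero_ne_one hx1
  · intro x
    by_cases hx : x = 0
    · rw [hx, norm_zero]
      simp
    have hx' : 0 < ‖x‖ := norm_pos_iff.2 hx
    have h1 : ((‖x‖ : ℂ)⁻¹ • x) ∈ sphere (0 : Fin 3 → ℂ) 1 := by
      rw [mem_sphere_zero_iff_norm, norm_smul, norm_inv, Complex.norm_real, norm_norm]
      exact inv_mul_cancel₀ hx'.ne'
    have h2 := hmin h1
    simp only [mem_setOf_eq] at h2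
    have h3 : x = (‖x‖ : ℂ) • ((‖x‖ : ℂ)⁻¹ • x) := by
      rw [smul_smul, mul_inv_cancel₀ (by exact_mod_cast hx'.ne'), one_smul]
    have h4 : (fun i => eval x (pderiv i G)) =
        ((‖x‖ : ℂ) ^ 3) • fun i => eval ((‖x‖ : ℂ)⁻¹ • x) (pderiv i G) := by
      funext i
      have h5 := smooth_eval_smul (hG.pderiv (i := i)) (‖x‖ : ℂ) ((‖x‖ : ℂ)⁻¹ • x)
      rw [← h3] at h5
      rw [h5]
      rfl
    rw [h4, norm_smul, norm_pow, Complex.norm_real, norm_norm, mul_comm]
    exact mul_le_mul_of_nonneg_left h2 (by positivity)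

/-- the Wronskian is not zero -/
theorem wr_ne {g h : ℂ → ℂ} (hg : Differentiable ℂ g) (hh : Differentiable ℂ h)
    (hh0 : ∃ z, h z ≠ 0) (hnp : ∀ c : ℂ, ∃ z, g z ≠ c * h z) :
    ∃ z, h z * deriv g z - g z * deriv h z ≠ 0 := by
  by_contra hcon
  push Not at hcon
  obtain ⟨z0, hz0⟩ := hh0
  obtain ⟨z1, hz1⟩ := hnp (g z0 / h z0)
  apply hz1
  obtain ⟨ε, hε, hball⟩ := Metric.isOpen_iff.1
    (isOpen_ne_fun hh.continuous (continuous_const (y := (0 : ℂ)))) z0 hz0
  have hd : ∀ z ∈ ball z0 ε, HasDerivAt (fun z => g z / h z) 0 z := by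
    intro z hz
    have h1 := (hg z).hasDerivAt.div (hh z).hasDerivAt (hball hz)
    have h2 := hcon z
    have h3 : (deriv g z * h z - g z * deriv h z) / h z ^ 2 = 0 := by
      rw [div_eq_zero_iff]
      left
      linear_combination h2
    rwa [h3] at h1
  have hconst : ∀ z ∈ ball z0 ε, g z / h z = g z0 / h z0 := by
    intro z hz
    exact isOpen_ball.is_const_of_deriv_eq_zero (convex_ball z0 ε).isPreconnected
      (fun w hw => (hd w hw).differentiableAt.differentiableWithinAt)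
      (fun w hw => (hd w hw).deriv) hz (mem_ball_self hε)
  have hev : g =ᶠ[nhds z0] fun z => g z0 / h z0 * h z := by
    filter_upwards [ball_mem_nhds z0 hε] with z hz
    rw [← hconst z hz, div_mul_cancel₀ _ (hball hz)]
  have hall := AnalyticOnNhd.eq_of_eventuallyEq (f := g) (g := fun z => g z0 / h z0 * h z)
    (z₀ := z0) (fun z _ => hg.analyticAt z)
    (fun z _ => ((differentiable_const _).mul hh).analyticAt z) hev
  exact congrFun hall z1

/-- the cross product of the curve and its derivative -/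
noncomputable def wr (f : Fin 3 → ℂ → ℂ) (z : ℂ) : Fin 3 → ℂ :=
  ![f 1 z * deriv (f 2) z - f 2 z * deriv (f 1) z, f 2 z * deriv (f 0) z - f 0 z * deriv (f 2) z,
    f 0 z * deriv (f 1) z - f 1 z * deriv (f 0) z]

theorem wr_analytic {f : Fin 3 → ℂ → ℂ} {z0 : ℂ} (hf : ∀ k, AnalyticAt ℂ (f k) z0) (i : Fin 3) :
    AnalyticAt ℂ (fun z => wr f z i) z0 := by
  fin_cases i
  · exact ((hf 1).mul (hf 2).deriv).sub ((hf 2).mul (hf 1).deriv)
  · exact ((hf 2).mul (hf 0).deriv).sub ((hf 0).mul (hf 2).deriv)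
  · exact ((hf 0).mul (hf 1).deriv).sub ((hf 1).mul (hf 0).deriv)

/-- `wr (p u) = p² wr u`, pointwise -/
theorem wr_mul {u : Fin 3 → ℂ → ℂ} {p : ℂ → ℂ} {z : ℂ} (hu : ∀ k, DifferentiableAt ℂ (u k) z)
    (hp : DifferentiableAt ℂ p z) (i : Fin 3) :
    wr (fun k w => p w * u k w) z i = p z ^ 2 * wr u z i := by
  have hd : ∀ k, deriv (fun w => p w * u k w) z = deriv p z * u k z + p z * deriv (u k) z :=
    fun k => deriv_fun_mul hp (hu k)
  fin_cases i
  · show p z * u 1 z * deriv (fun w => p w * u 2 w) z - p z * u 2 z * deriv (fun w => p w * u 1 w) z =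
      p z ^ 2 * (u 1 z * deriv (u 2) z - u 2 z * deriv (u 1) z)
    rw [hd, hd]
    ring
  · show p z * u 2 z * deriv (fun w => p w * u 0 w) z - p z * u 0 z * deriv (fun w => p w * u 2 w) z =
      p z ^ 2 * (u 2 z * deriv (u 0) z - u 0 z * deriv (u 2) z)
    rw [hd, hd]
    ring
  · show p z * u 0 z * deriv (fun w => p w * u 1 w) z - p z * u 1 z * deriv (fun w => p w * u 0 w) z =
      p z ^ 2 * (u 0 z * deriv (u 1) z - u 1 z * deriv (u 0) z)
    rw [hd, hd]
    ring

theorem wr_congr {f g : Fin 3 → ℂ → ℂ} {z : ℂ} (h : ∀ k, f k =ᶠ[nhds z] g k) (i : Fin 3) :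
    wr f z i = wr g z i := by
  have h1 : ∀ k, f k z = g k z := fun k => (h k).self_of_nhds
  have h2 : ∀ k, deriv (f k) z = deriv (g k) z := fun k => (h k).deriv_eq
  simp only [wr, h1, h2]

theorem an_eval (p : MvPolynomial (Fin 3) ℂ) {f : Fin 3 → ℂ → ℂ} {z0 : ℂ}
    (hf : ∀ k, AnalyticAt ℂ (f k) z0) : AnalyticAt ℂ (fun z => eval (fun k => f k z) p) z0 := by
  induction p using MvPolynomial.induction_on with
  | C a => simpa using analyticAt_const
  | add p q hp hq =>
    simp only [map_add]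
    exact hp.add hq
  | mul_X p n hp =>
    simp only [map_mul, eval_X]
    exact hp.mul (hf n)

theorem chain_eval (p : MvPolynomial (Fin 3) ℂ) {f : Fin 3 → ℂ → ℂ} {z : ℂ}
    (hf : ∀ k, DifferentiableAt ℂ (f k) z) : HasDerivAt (fun w => eval (fun k => f k w) p)
        (∑ k, deriv (f k) z * eval (fun k => f k z) (pderiv k p)) z := by
  induction p using MvPolynomial.induction_on with
  | C a => simpa using hasDerivAt_const z a
  | add p q hp hq =>
    have := hp.add hq
    simp only [map_add, mul_add, Finset.sum_add_distrib]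
    exact this
  | mul_X p n hp =>
    have h1 := hp.mul (hf n).hasDerivAt
    have h2 : (∑ k, deriv (f k) z * eval (fun k => f k z) (pderiv k (p * X n))) =
        (∑ k, deriv (f k) z * eval (fun k => f k z) (pderiv k p)) * f n z +
          eval (fun k => f k z) p * deriv (f n) z := by
      have h3 : ∀ k, deriv (f k) z * eval (fun k => f k z) (pderiv k (p * X n)) =
          deriv (f k) z * eval (fun k => f k z) (pderiv k p) * f n z +
            eval (fun k => f k z) p * (if n = k then deriv (f k) z else 0) := by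
        intro k
        rw [pderiv_mul, pderiv_X, map_add, map_mul, map_mul, eval_X, Pi.single_apply]
        by_cases hk : n = k
        · rw [if_pos hk, if_pos hk, map_one]
          ring
        · rw [if_neg hk, if_neg hk, map_zero]
          ring
      rw [Finset.sum_congr rfl fun k _ => h3 k, Finset.sum_add_distrib, ← Finset.sum_mul,
        ← Finset.mul_sum, Finset.sum_ite_eq Finset.univ n, if_pos (Finset.mem_univ n)]
    rw [h2]
    have h4 : (fun w => eval (fun k => f k w) (p * X n)) =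
        fun w => eval (fun k => f k w) p * f n w := by
      funext w
      rw [map_mul, eval_X]
    rw [h4]
    exact h1

/-- the cross product is proportional to the gradient, pointwise -/
theorem wr_prop {G : MvPolynomial (Fin 3) ℂ} (hG : G.IsHomogeneous 4) {f : Fin 3 → ℂ → ℂ} {z : ℂ}
    (hf : ∀ k, DifferentiableAt ℂ (f k) z) (h : ∀ᶠ w in nhds z, eval (fun k => f k w) G = 0)
    (i j : Fin 3) : wr f z i * eval (fun k => f k z) (pderiv j G) =
      wr f z j * eval (fun k => f k z) (pderiv i G) := by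
  obtain ⟨g, hg⟩ : ∃ g : Fin 3 → ℂ, g = fun i => eval (fun k => f k z) (pderiv i G) := ⟨_, rfl⟩
  have hg' : ∀ i, eval (fun k => f k z) (pderiv i G) = g i := fun i => by rw [hg]
  have a : f 0 z * g 0 + f 1 z * g 1 + f 2 z * g 2 = 0 := by
    have h1 := congrArg (eval (fun k => f k z)) hG.sum_X_mul_pderiv
    rw [map_sum, Fin.sum_univ_three] at h1
    simp only [map_mul, eval_X, nsmul_eq_mul, map_natCast, h.self_of_nhds, mul_zero, hg'] at h1
    exact h1
  have b : deriv (f 0) z * g 0 + deriv (f 1) z * g 1 + deriv (f 2) z * g 2 = 0 := by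
    have h1 := chain_eval G hf
    have h2 : (fun w => eval (fun k => f k w) G) =ᶠ[nhds z] fun _ => 0 := h
    have h3 := (h1.congr_of_eventuallyEq h2.symm).unique (hasDerivAt_const z (0 : ℂ))
    rw [Fin.sum_univ_three] at h3
    simp only [hg'] at h3
    exact h3
  rw [hg', hg']
  have w0 : wr f z 0 = f 1 z * deriv (f 2) z - f 2 z * deriv (f 1) z := rfl
  have w1 : wr f z 1 = f 2 z * deriv (f 0) z - f 0 z * deriv (f 2) z := rfl
  have w2 : wr f z 2 = f 0 z * deriv (f 1) z - f 1 z * deriv (f 0) z := rfl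
  have p01 : wr f z 0 * g 1 = wr f z 1 * g 0 := by
    rw [w0, w1]
    linear_combination deriv (f 2) z * a - f 2 z * b
  have p12 : wr f z 1 * g 2 = wr f z 2 * g 1 := by
    rw [w1, w2]
    linear_combination deriv (f 0) z * a - f 0 z * b
  have p20 : wr f z 2 * g 0 = wr f z 0 * g 2 := by
    rw [w0, w2]
    linear_combination deriv (f 1) z * a - f 1 z * b
  fin_cases i <;> fin_cases j
  · rfl
  · exact p01
  · exact p20.symm
  · exact p01.symm
  · rfl
  · exact p12
  · exact p20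
  · exact p12.symm
  · rfl

/-- the local factor `ξ` -/
theorem exists_xi {G : MvPolynomial (Fin 3) ℂ} (hG : G.IsHomogeneous 4) (hs : Pool.Agent.DS.Smooth G)
    {f : Fin 3 → ℂ → ℂ} {z0 : ℂ} (hf : ∀ k, AnalyticAt ℂ (f k) z0) (h0 : ∃ k, f k z0 ≠ 0)
    (hGf : ∀ᶠ z in nhds z0, eval (fun k => f k z) G = 0) :
    ∃ ξ : ℂ → ℂ, AnalyticAt ℂ ξ z0 ∧
      ∀ᶠ z in nhds z0, ∀ i, wr f z i = ξ z * eval (fun k => f k z) (pderiv i G) := by
  obtain ⟨i0, hi0⟩ : ∃ i, eval (fun k => f k z0) (pderiv i G) ≠ 0 := by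
    by_contra hcon
    push Not at hcon
    obtain ⟨k, hk⟩ := h0
    exact hk (congrFun (hs (fun k => f k z0) hcon) k)
  have hga := an_eval (pderiv i0 G) hf
  refine ⟨fun z => wr f z i0 / eval (fun k => f k z) (pderiv i0 G),
    (wr_analytic hf i0).div hga hi0, ?_⟩
  have hd : ∀ᶠ z in nhds z0, ∀ k, AnalyticAt ℂ (f k) z :=
    eventually_all.2 fun k => (hf k).eventually_analyticAt
  filter_upwards [hga.continuousAt.eventually_ne hi0, hd, hGf.eventually_nhds] with z h1 h2 h3 i
  rw [div_mul_eq_mul_div, eq_div_iff h1]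
  exact wr_prop hG (fun k => (h2 k).differentiableAt) h3 i i0

/-- local form of a curve -/
theorem exists_loc {g : Fin 3 → ℂ → ℂ} (hg : ∀ k, Differentiable ℂ (g k)) (h0 : ∃ z, g 0 z ≠ 0)
    (z0 : ℂ) : ∃ (m : ℕ) (u : Fin 3 → ℂ → ℂ), (∀ k, AnalyticAt ℂ (u k) z0) ∧ (∃ k, u k z0 ≠ 0) ∧
      ∀ᶠ z in nhds z0, ∀ k, g k z = (z - z0) ^ m * u k z := by
  obtain ⟨j, -, hj⟩ := Finset.exists_min_image Finset.univ (fun k => analyticOrderAt (g k) z0)
    Finset.univ_nonempty
  have hj' : ∀ k, analyticOrderAt (g j) z0 ≤ analyticOrderAt (g k) z0 := fun k =>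
    hj k (Finset.mem_univ k)
  have h00 : analyticOrderAt (g 0) z0 ≠ ⊤ := by
    intro h
    rw [analyticOrderAt_eq_top] at h
    obtain ⟨z1, hz1⟩ := h0
    have h1 : g 0 =ᶠ[nhds z0] fun _ => 0 := h
    have h2 := AnalyticOnNhd.eq_of_eventuallyEq (f := g 0) (g := fun _ => 0)
      (z₀ := z0) (fun z _ => (hg 0).analyticAt z) (fun z _ => analyticAt_const) h1
    exact hz1 (congrFun h2 z1)
  have hjt : analyticOrderAt (g j) z0 ≠ ⊤ := fun h => h00 (top_le_iff.1 (h ▸ hj' 0))
  obtain ⟨m, hm⟩ := ENat.ne_top_iff_exists.1 hjt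
  have hex : ∀ k, ∃ v : ℂ → ℂ, AnalyticAt ℂ v z0 ∧ (k = j → v z0 ≠ 0) ∧
      ∀ᶠ z in nhds z0, g k z = (z - z0) ^ m * v z := by
    intro k
    by_cases hk : k = j
    · obtain ⟨v, hv1, hv2, hv3⟩ := ((hg k).analyticAt z0).analyticOrderAt_eq_natCast.1
        (by rw [hk]; exact hm.symm)
      exact ⟨v, hv1, fun _ => hv2, hv3⟩
    · obtain ⟨v, hv1, hv3⟩ := (natCast_le_analyticOrderAt ((hg k).analyticAt z0)).1
        (by rw [hm]; exact hj' k)
      exact ⟨v, hv1, fun h => absurd h hk, hv3⟩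
  choose u hu1 hu2 hu3 using hex
  exact ⟨m, u, hu1, ⟨j, hu2 j rfl⟩, eventually_all.2 hu3⟩

end Pool.Agent.QK
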