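import Pool.Agent.Lib_MP_1209e6_qk.SingPt

/-! Quartic surfaces with a singular point which are not cones: the discriminant of the projection from the point is
not the product of six concurrent lines. -/

set_option autoImplicit false

open MvPolynomial

noncomputable section

namespace Pool.Agent.QS

open Pool.Agent.DP Pool.Agent.Campana Pool.Agent.CampanaFlow

section

variable {K : Type} [Field K] [Algebra ℂ K]

/-- the discriminant with respect to the projection from the singular point -/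
def disc (a : Fin 4 → ℂ) (m : Fin 4) (F : MvPolynomial (Fin 4) ℂ) : MvPolynomial (Fin 2) ℂ :=
  flat (gc a m F 1) ^ 2 - C 4 * (flat (gc a m F 2) * flat (gc a m F 0))

/-- a quartic surface with a singular point which is not a vertex is rational or birational to the double plane
branched along the discriminant -/
theorem double_plane_disc {F : MvPolynomial (Fin 4) ℂ} (hF : F.IsHomogeneous 4) (hi : Irreducible F)
    (a : Fin 4 → ℂ) (m : Fin 4) (hm' : a m ≠ 0) (hs : ∀ j, eval a (pderiv j F) = 0)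
    (hc : ∃ x : Fin 4 → ℂ, eval (x + a) F ≠ eval x F) (hK : Pool.Agent.QX.IsQuartic K F) :
    IsDoublePlane K 1 ∨ (disc a m F ≠ 0 ∧ (disc a m F).totalDegree ≤ 6 ∧ IsDoublePlane K (disc a m F)) := by
  obtain ⟨z, hz, hij, hgen⟩ := hK
  have hg := gc_ne_pt hF hs hm' hc
  let x : Fin 4 → K := Fin.cons 1 z
  let y : Fin 4 → K := yc a m x
  let t : Fin 3 → K := fun i => y i.succ
  have V : ∀ (d : ℕ) (A : MvPolynomial (Fin 3) ℂ), A.IsHomogeneous d → aeval t A = 0 → A = 0 :=
    fun d A hA h0 => vanish hF hi hm' hg z hz hij d A hA h0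
  have ht : t 0 ≠ 0 := by
    intro h
    have h1 := V 1 (X 0) (isHomogeneous_X ℂ 0) (by rw [aeval_X]; exact h)
    exact X_ne_zero (0 : Fin 3) h1
  let u : Fin 2 → K := fun i => t i.succ / t 0
  let r : K := y 0 / t 0
  have hu : AlgebraicIndependent ℂ u := indep_u ht V
  let A4 : K := aeval u (flat (gc a m F 0))
  let A3 : K := aeval u (flat (gc a m F 1))
  let A2 : K := aeval u (flat (gc a m F 2))
  have hy0 : y 0 = t 0 * r := by
    simp only [r]
    field_simp
  have hE : A4 + A3 * r + A2 * r ^ 2 = 0 := by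
    have h1 : aeval y (newF a m F) = 0 := by
      rw [aeval_newF, xc_yc hm']
      exact hz
    rw [expand hF hs] at h1
    have e4 : aeval t (gc a m F 0) = t 0 ^ 4 * A4 := flat_scale (gc_hom hF 0 4 rfl) ht
    have e3 : aeval t (gc a m F 1) = t 0 ^ 3 * A3 := flat_scale (gc_hom hF 1 3 rfl) ht
    have e2 : aeval t (gc a m F 2) = t 0 ^ 2 * A2 := flat_scale (gc_hom hF 2 2 rfl) ht
    have h2 : aeval t (gc a m F 0) + aeval t (gc a m F 1) * y 0 + aeval t (gc a m F 2) * y 0 ^ 2 = 0 := h1
    rw [e4, e3, e2, hy0] at h2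
    have h3 : t 0 ^ 4 * (A4 + A3 * r + A2 * r ^ 2) = 0 := by
      rw [← h2]
      ring
    exact (mul_eq_zero.1 h3).resolve_left (pow_ne_zero _ ht)
  -- the field is generated by `u` and `r`
  have hgen' : ∀ L : IntermediateField ℂ K, (∀ i, u i ∈ L) → r ∈ L → L = ⊤ := by
    intro L hL hr
    let η : Fin 4 → K := Fin.cons r (Fin.cons 1 u)
    have hη : ∀ i, η i ∈ L := by
      intro i
      refine Fin.cases ?_ (fun j => ?_) i
      · exact hr
      · refine Fin.cases ?_ (fun k => ?_) j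
        · exact L.one_mem
        · exact hL k
    have hyη : ∀ i, y i = t 0 * η i := by
      intro i
      refine Fin.cases ?_ (fun j => ?_) i
      · exact hy0
      · refine Fin.cases ?_ (fun k => ?_) j
        · change t 0 = t 0 * 1
          rw [mul_one]
        · change t k.succ = t 0 * (t k.succ / t 0)
          field_simp
    have hξ : ∀ j, xc a m η j ∈ L := by
      intro j
      refine L.add_mem (L.mul_mem (L.algebraMap_mem _) (hη 0)) ?_
      rcases Fin.eq_self_or_eq_succAbove m j with rfl | ⟨i, rfl⟩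
      · rw [Fin.insertNth_apply_same]
        exact L.zero_mem
      · rw [Fin.insertNth_apply_succAbove]
        exact hη _
    have hxξ : ∀ j, x j = t 0 * xc a m η j := by
      intro j
      have h1 : x j = xc a m y j := by rw [xc_yc hm']
      rw [h1, xc, xc, hyη 0, mul_add]
      rcases Fin.eq_self_or_eq_succAbove m j with rfl | ⟨i, rfl⟩
      · rw [Fin.insertNth_apply_same, Fin.insertNth_apply_same]
        ring
      · rw [Fin.insertNth_apply_succAbove, Fin.insertNth_apply_succAbove, hyη]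
        ring
    have h0 : (1 : K) = t 0 * xc a m η 0 := hxξ 0
    have ht0 : t 0 ∈ L := by
      have h1 : t 0 = (xc a m η 0)⁻¹ := eq_inv_of_mul_eq_one_left h0.symm
      rw [h1]
      exact L.inv_mem (hξ 0)
    rw [eq_top_iff, ← hgen, IntermediateField.adjoin_le_iff]
    rintro _ ⟨j, rfl⟩
    have h1 : z j = t 0 * xc a m η j.succ := hxξ j.succ
    change z j ∈ L
    rw [h1]
    exact L.mul_mem ht0 (hξ _)
  have haeval : ∀ (L : IntermediateField ℂ K), (∀ i, u i ∈ L) → ∀ G : MvPolynomial (Fin 2) ℂ, aeval u G ∈ L := by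
    intro L hL G
    induction G using MvPolynomial.induction_on with
    | C c => rw [algHom_C]; exact L.algebraMap_mem c
    | add p q hp hq => rw [map_add]; exact L.add_mem hp hq
    | mul_X p i hp => rw [map_mul, aeval_X]; exact L.mul_mem hp (hL i)
  -- the rational case
  have hrat : (∀ L : IntermediateField ℂ K, (∀ i, u i ∈ L) → r ∈ L) →
      IsDoublePlane K 1 ∨ (disc a m F ≠ 0 ∧ (disc a m F).totalDegree ≤ 6 ∧ IsDoublePlane K (disc a m F)) := by
    intro h
    refine Or.inl ⟨u, 1, hu, by simp, ?_⟩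
    have hL : ∀ i, u i ∈ IntermediateField.adjoin ℂ (Set.range u ∪ {(1 : K)}) := fun i =>
      IntermediateField.subset_adjoin _ _ (Or.inl ⟨i, rfl⟩)
    exact hgen' _ hL (h _ hL)
  by_cases h2 : gc a m F 2 = 0
  · have h3 : gc a m F 1 ≠ 0 := by
      rcases hg with h | h
      · exact h
      · exact absurd h2 h
    have hA3 : A3 ≠ 0 := flat_ne ht V (gc_hom hF 1 3 rfl) h3
    have hA2 : A2 = 0 := by
      simp only [A2, h2, flat, map_zero]
    apply hrat
    intro L hL
    have hr : r = -A4 / A3 := by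
      rw [hA2, zero_mul, add_zero] at hE
      rw [eq_div_iff hA3]
      linear_combination hE
    rw [hr]
    exact L.div_mem (L.neg_mem (haeval L hL _)) (haeval L hL _)
  · have hA2 : A2 ≠ 0 := flat_ne ht V (gc_hom hF 2 2 rfl) h2
    let w : K := 2 * A2 * r + A3
    let D : MvPolynomial (Fin 2) ℂ := disc a m F
    have hw : w ^ 2 = aeval u D := by
      have h4 : (aeval u D : K) = A3 ^ 2 - 4 * (A2 * A4) := by
        simp only [D, disc, map_sub, map_mul, map_pow, A2, A3, A4, map_ofNat]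
      rw [h4]
      simp only [w]
      linear_combination (4 * A2) * hE
    have hr : r = (w - A3) / (2 * A2) := by
      rw [eq_div_iff (mul_ne_zero (by
        have h5 : (2 : K) = algebraMap ℂ K 2 := (map_ofNat (algebraMap ℂ K) 2).symm
        rw [h5]
        exact (map_ne_zero _).2 two_ne_zero) hA2)]
      simp only [w]
      ring
    have h2mem : ∀ L : IntermediateField ℂ K, (2 : K) ∈ L := fun L => by
      have h5 : (2 : K) = algebraMap ℂ K 2 := (map_ofNat (algebraMap ℂ K) 2).symm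
      rw [h5]
      exact L.algebraMap_mem _
    by_cases hD : D = 0
    · apply hrat
      intro L hL
      have hw0 : w = 0 := by
        rw [hD, map_zero] at hw
        exact pow_eq_zero_iff (two_ne_zero) |>.1 hw
      rw [hr, hw0]
      exact L.div_mem (L.sub_mem L.zero_mem (haeval L hL _)) (L.mul_mem (h2mem L) (haeval L hL _))
    · refine Or.inr ⟨hD, ?_, u, w, hu, hw, ?_⟩
      · have d4 : (flat (gc a m F 0)).totalDegree ≤ 4 := deg_flat (gc_hom hF 0 4 rfl)
        have d3 : (flat (gc a m F 1)).totalDegree ≤ 3 := deg_flat (gc_hom hF 1 3 rfl)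
        have d2 : (flat (gc a m F 2)).totalDegree ≤ 2 := deg_flat (gc_hom hF 2 2 rfl)
        refine (totalDegree_sub _ _).trans (max_le ?_ ?_)
        · refine (totalDegree_pow _ _).trans ?_
          omega
        · refine (totalDegree_mul _ _).trans ?_
          rw [totalDegree_C, zero_add]
          refine (totalDegree_mul _ _).trans ?_
          omega
      · have hL : ∀ i, u i ∈ IntermediateField.adjoin ℂ (Set.range u ∪ {w}) := fun i =>
          IntermediateField.subset_adjoin _ _ (Or.inl ⟨i, rfl⟩)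
        have hwL : w ∈ IntermediateField.adjoin ℂ (Set.range u ∪ {w}) :=
          IntermediateField.subset_adjoin _ _ (Or.inr rfl)
        apply hgen' _ hL
        rw [hr]
        exact (IntermediateField.adjoin ℂ (Set.range u ∪ {w})).div_mem
          ((IntermediateField.adjoin ℂ (Set.range u ∪ {w})).sub_mem hwL (haeval _ hL _))
          ((IntermediateField.adjoin ℂ (Set.range u ∪ {w})).mul_mem (h2mem _) (haeval _ hL _))

end

/-- the form of a line -/
def lf (v : Fin 3 → ℂ) : MvPolynomial (Fin 3) ℂ := C (v 0) * X 0 + C (v 1) * X 1 + C (v 2) * X 2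

theorem lf_hom (v : Fin 3 → ℂ) : (lf v).IsHomogeneous 1 := by
  have h : ∀ i : Fin 3, (C (v i) * X i : MvPolynomial (Fin 3) ℂ).IsHomogeneous 1 := fun i => by
    simpa using (isHomogeneous_C (Fin 3) (v i)).mul (isHomogeneous_X ℂ i)
  exact ((h 0).add (h 1)).add (h 2)

theorem flat_lf (v : Fin 3 → ℂ) : flat (lf v) = linPoly v := by
  have h1 : (Fin.cons 1 X : Fin 3 → MvPolynomial (Fin 2) ℂ) 1 = X 0 := rfl
  have h2 : (Fin.cons 1 X : Fin 3 → MvPolynomial (Fin 2) ℂ) 2 = X 1 := rfl
  simp only [flat, lf, linPoly, map_add, map_mul, aeval_X, algHom_C, algebraMap_eq, h1, h2, Fin.cons_zero, mul_one]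

theorem flat_inj {G : MvPolynomial (Fin 3) ℂ} {d : ℕ} (hG : G.IsHomogeneous d) (h0 : flat G = 0) : G = 0 := by
  let L := FractionRing (MvPolynomial (Fin 3) ℂ)
  let t : Fin 3 → L := fun i => algebraMap (MvPolynomial (Fin 3) ℂ) L (X i)
  have hinj : Function.Injective (algebraMap (MvPolynomial (Fin 3) ℂ) L) :=
    IsFractionRing.injective (MvPolynomial (Fin 3) ℂ) L
  have ht : t 0 ≠ 0 := by
    intro h
    exact X_ne_zero (0 : Fin 3) (hinj (by rw [map_zero]; exact h))
  have h1 := flat_scale hG ht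
  rw [h0, map_zero, mul_zero] at h1
  have h2 : aeval t G = algebraMap (MvPolynomial (Fin 3) ℂ) L G := by
    have h := DFunLike.congr_fun (comp_aeval (R := ℂ) (X : Fin 3 → MvPolynomial (Fin 3) ℂ)
      (IsScalarTower.toAlgHom ℂ (MvPolynomial (Fin 3) ℂ) L)) G
    rw [aeval_X_left] at h
    exact h.symm
  rw [h2] at h1
  exact hinj (by rw [map_zero]; exact h1)

theorem linPoly_deg {v : Fin 3 → ℂ} (h : v 1 ≠ 0 ∨ v 2 ≠ 0) : 1 ≤ (linPoly v).totalDegree := by
  by_contra hcon
  have h0 : (linPoly v).totalDegree = 0 := by omega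
  rw [totalDegree_eq_zero_iff_eq_C] at h0
  have e : ∀ i : Fin 2, coeff (Finsupp.single i 1) (linPoly v) = v i.succ := by
    intro i
    fin_cases i
    · simp [linPoly, coeff_C_mul, coeff_X, coeff_C, Finsupp.single_left_inj]
      intro h3
      exact absurd (DFunLike.congr_fun h3 0) (by simp)
    · simp [linPoly, coeff_C_mul, coeff_X, coeff_C, Finsupp.single_left_inj]
      intro h3
      exact absurd (DFunLike.congr_fun h3 1) (by simp)
  have e2 : ∀ i : Fin 2, v i.succ = 0 := by
    intro i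
    rw [← e i, h0, coeff_C, if_neg]
    intro h3
    have h4 := DFunLike.congr_fun h3 i
    simp at h4
  rcases h with h | h
  · exact h (e2 0)
  · exact h (e2 1)

theorem one_line {l : Fin 6 → Fin 3 → ℂ}
    (diff : ∀ i j, i ≠ j → ∀ a b : ℂ, (∀ t, a * l i t = b * l j t) → a = 0 ∧ b = 0) (i j : Fin 6) (hij : i ≠ j) :
    1 ≤ (linPoly (l i)).totalDegree ∨ 1 ≤ (linPoly (l j)).totalDegree := by
  by_contra hcon
  push Not at hcon
  have h1 : l i 1 = 0 ∧ l i 2 = 0 := by
    by_contra h
    have h2 := linPoly_deg (v := l i) (by tauto)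
    omega
  have h2 : l j 1 = 0 ∧ l j 2 = 0 := by
    by_contra h
    have h2 := linPoly_deg (v := l j) (by tauto)
    omega
  have h3 := diff i j hij (l j 0) (l i 0) (by
    intro t
    fin_cases t
    · exact mul_comm _ _
    · change l j 0 * l i 1 = l i 0 * l j 1
      rw [h1.1, h2.1, mul_zero, mul_zero]
    · change l j 0 * l i 2 = l i 0 * l j 2
      rw [h1.2, h2.2, mul_zero, mul_zero])
  have h4 := diff i j hij 1 0 (by
    intro t
    fin_cases t
    · change 1 * l i 0 = 0 * l j 0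
      rw [h3.2, mul_zero, zero_mul]
    · change 1 * l i 1 = 0 * l j 1
      rw [h1.1, mul_zero, zero_mul]
    · change 1 * l i 2 = 0 * l j 2
      rw [h1.2, mul_zero, zero_mul])
  exact one_ne_zero h4.1

theorem sum_deg {l : Fin 6 → Fin 3 → ℂ}
    (diff : ∀ i j, i ≠ j → ∀ a b : ℂ, (∀ t, a * l i t = b * l j t) → a = 0 ∧ b = 0) :
    5 ≤ ∑ i, (linPoly (l i)).totalDegree := by
  rw [Fin.sum_univ_six]
  have h := one_line diff
  have h01 := h 0 1 (by decide)
  have h02 := h 0 2 (by decide)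
  have h03 := h 0 3 (by decide)
  have h04 := h 0 4 (by decide)
  have h05 := h 0 5 (by decide)
  have h12 := h 1 2 (by decide)
  have h13 := h 1 3 (by decide)
  have h14 := h 1 4 (by decide)
  have h15 := h 1 5 (by decide)
  have h23 := h 2 3 (by decide)
  have h24 := h 2 4 (by decide)
  have h25 := h 2 5 (by decide)
  have h34 := h 3 4 (by decide)
  have h35 := h 3 5 (by decide)
  have h45 := h 4 5 (by decide)
  omega

theorem deg_six {f s : MvPolynomial (Fin 2) ℂ} (hf0 : f ≠ 0) {l : Fin 6 → Fin 3 → ℂ}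
    (diff : ∀ i j, i ≠ j → ∀ a b : ℂ, (∀ t, a * l i t = b * l j t) → a = 0 ∧ b = 0)
    (hf : f = s ^ 2 * ∏ i, linPoly (l i)) : 2 * s.totalDegree + 5 ≤ f.totalDegree := by
  have h1 : s ^ 2 ≠ 0 := by
    intro h
    apply hf0
    rw [hf, h, zero_mul]
  have h2 : ∏ i, linPoly (l i) ≠ 0 := by
    intro h
    apply hf0
    rw [hf, h, mul_zero]
  have h3 : s ≠ 0 := fun h => h1 (by rw [h]; simp)
  have h4 : ∀ i, linPoly (l i) ≠ 0 := fun i => (Finset.prod_ne_zero_iff.1 h2) i (Finset.mem_univ i)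
  have h5 : (∏ i, linPoly (l i)).totalDegree = ∑ i, (linPoly (l i)).totalDegree := by
    rw [Fin.prod_univ_six, Fin.sum_univ_six]
    rw [totalDegree_mul_of_isDomain (by simp [h4]) (h4 5), totalDegree_mul_of_isDomain (by simp [h4]) (h4 4),
      totalDegree_mul_of_isDomain (by simp [h4]) (h4 3), totalDegree_mul_of_isDomain (by simp [h4]) (h4 2),
      totalDegree_mul_of_isDomain (h4 0) (h4 1)]
  have h6 := sum_deg diff
  rw [hf, totalDegree_mul_of_isDomain h1 h2, h5, pow_two, totalDegree_mul_of_isDomain h3 h3]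
  omega

theorem not_six_one : ¬ SixConcurrentLines 1 := by
  rintro ⟨s, l, p, hp, hl, diff, hf⟩
  have h := deg_six one_ne_zero diff hf
  rw [totalDegree_one] at h
  omega


/-- the statement on forms: if the discriminant is a product of six different lines through `(0, 0, 1)` then the
quartic surface is a cone -/
def SixCone : Prop := ∀ (A B E : MvPolynomial (Fin 3) ℂ), A.IsHomogeneous 2 → B.IsHomogeneous 3 →
  E.IsHomogeneous 4 → ∀ c : ℂ, c ≠ 0 → ∀ u w : Fin 6 → ℂ, (∀ i j, i ≠ j → u i * w j - u j * w i ≠ 0) →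
  B ^ 2 - C 4 * (A * E) = C c * ∏ i, (C (u i) * X 0 + C (w i) * X 1) →
  ∃ β : ℂ, ∀ y : Fin 3 → ℂ, eval (y + Pi.single 2 1) A = eval y A ∧
    eval (y + Pi.single 2 1) B = eval y B - 2 * β * eval y A ∧
    eval (y + Pi.single 2 1) E = eval y E - β * eval y B + β ^ 2 * eval y A

/-- change of coordinates with the rows of `M` -/
def tau (M : Matrix (Fin 3) (Fin 3) ℂ) (j : Fin 3) : MvPolynomial (Fin 3) ℂ := ∑ i, C (M i j) * X i

theorem tau_hom (M : Matrix (Fin 3) (Fin 3) ℂ) (j : Fin 3) : (tau M j).IsHomogeneous 1 := by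
  refine IsHomogeneous.sum _ _ _ fun i _ => ?_
  simpa using (isHomogeneous_C (Fin 3) (M i j)).mul (isHomogeneous_X ℂ i)

theorem aeval_tau_hom (M : Matrix (Fin 3) (Fin 3) ℂ) {G : MvPolynomial (Fin 3) ℂ} {d : ℕ}
    (hG : G.IsHomogeneous d) : (aeval (tau M) G).IsHomogeneous d := by
  have h := hG.aeval (tau M) (n := 1) (tau_hom M)
  simpa using h

theorem eval_tau (M : Matrix (Fin 3) (Fin 3) ℂ) (G : MvPolynomial (Fin 3) ℂ) (y : Fin 3 → ℂ) :
    eval y (aeval (tau M) G) = eval (Matrix.vecMul y M) G := by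
  have h : ((aeval y : MvPolynomial (Fin 3) ℂ →ₐ[ℂ] ℂ).comp (aeval (tau M))) = aeval (Matrix.vecMul y M) := by
    apply MvPolynomial.algHom_ext
    intro j
    rw [AlgHom.comp_apply, aeval_X, aeval_X, tau, map_sum, Matrix.vecMul, dotProduct]
    refine Finset.sum_congr rfl fun i _ => ?_
    rw [map_mul, aeval_X, algHom_C, mul_comm]
    rfl
  have h2 := DFunLike.congr_fun h G
  rw [← coe_aeval_eq_eval, ← coe_aeval_eq_eval]
  exact h2

theorem aeval_lf (M : Matrix (Fin 3) (Fin 3) ℂ) (v : Fin 3 → ℂ) (h2 : M 2 0 * v 0 + M 2 1 * v 1 + M 2 2 * v 2 = 0) :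
    aeval (tau M) (lf v) = C (M 0 0 * v 0 + M 0 1 * v 1 + M 0 2 * v 2) * X 0 +
      C (M 1 0 * v 0 + M 1 1 * v 1 + M 1 2 * v 2) * X 1 := by
  have h3 : (C (M 2 0 * v 0 + M 2 1 * v 1 + M 2 2 * v 2) : MvPolynomial (Fin 3) ℂ) = 0 := by
    rw [h2, map_zero]
  simp only [map_add, map_mul] at h3
  simp only [lf, map_add, map_mul, aeval_X, algHom_C, algebraMap_eq, tau, Fin.sum_univ_three]
  linear_combination (X 2 : MvPolynomial (Fin 3) ℂ) * h3

/-- a quartic surface with a singular point which is not a cone: the discriminant of the projection from the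
point is not a product of six concurrent lines -/
theorem not_six {F : MvPolynomial (Fin 4) ℂ} (six : SixCone) (hF : F.IsHomogeneous 4)
    (a : Fin 4 → ℂ) (m : Fin 4) (hm : a m ≠ 0) (hs : ∀ j, eval a (pderiv j F) = 0)
    (hc : ∀ b : Fin 4 → ℂ, b ≠ 0 → ∃ x : Fin 4 → ℂ, eval (x + b) F ≠ eval x F)
    (hD0 : disc a m F ≠ 0) (hD6 : (disc a m F).totalDegree ≤ 6) : ¬ SixConcurrentLines (disc a m F) := by
  rintro ⟨s, l, p, hp, hl, diff, hf⟩
  have h1 := deg_six hD0 diff hf
  have hs0 : s.totalDegree = 0 := by omega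
  rw [totalDegree_eq_zero_iff_eq_C] at hs0
  obtain ⟨s0, hs0⟩ : ∃ s0 : ℂ, s = C s0 := ⟨_, hs0⟩
  have hs1 : s0 ^ 2 ≠ 0 := by
    intro h
    apply hD0
    rw [hf, hs0, ← map_pow, h, map_zero, zero_mul]
  obtain ⟨M, hM, hM2⟩ := exists_row p hp
  let G : MvPolynomial (Fin 3) ℂ :=
    gc a m F 1 ^ 2 - C 4 * (gc a m F 2 * gc a m F 0) - C (s0 ^ 2) * ∏ i, lf (l i)
  have e3 : (gc a m F 1).IsHomogeneous 3 := gc_hom hF 1 3 rfl
  have e2 : (gc a m F 2).IsHomogeneous 2 := gc_hom hF 2 2 rfl
  have e4 : (gc a m F 0).IsHomogeneous 4 := gc_hom hF 0 4 rfl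
  have hG : G.IsHomogeneous 6 := by
    have h2 : (gc a m F 1 ^ 2).IsHomogeneous 6 := e3.pow 2
    have h3 : (C 4 * (gc a m F 2 * gc a m F 0)).IsHomogeneous 6 := by
      have h := (isHomogeneous_C (Fin 3) (4 : ℂ)).mul (e2.mul e4)
      rwa [zero_add] at h
    have h4 : (C (s0 ^ 2) * ∏ i, lf (l i)).IsHomogeneous 6 := by
      have h := (isHomogeneous_C (Fin 3) (s0 ^ 2 : ℂ)).mul
        (IsHomogeneous.prod Finset.univ (fun i : Fin 6 => lf (l i)) (fun _ => 1) fun i _ => lf_hom (l i))
      simpa using h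
    exact (h2.sub h3).sub h4
  have hG0 : G = 0 := by
    apply flat_inj hG
    have h2 : flat G = disc a m F - C (s0 ^ 2) * ∏ i, linPoly (l i) := by
      simp only [G, disc]
      have h3 : ∀ i, linPoly (l i) = flat (lf (l i)) := fun i => (flat_lf (l i)).symm
      simp only [h3, flat, map_sub, map_mul, map_pow, map_prod, algHom_C, algebraMap_eq]
    rw [h2, hf, hs0, map_pow, sub_self]
  have hQ : gc a m F 1 ^ 2 - C 4 * (gc a m F 2 * gc a m F 0) = C (s0 ^ 2) * ∏ i, lf (l i) := sub_eq_zero.1 hG0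
  let u : Fin 6 → ℂ := fun i => M 0 0 * l i 0 + M 0 1 * l i 1 + M 0 2 * l i 2
  let w : Fin 6 → ℂ := fun i => M 1 0 * l i 0 + M 1 1 * l i 1 + M 1 2 * l i 2
  have hz : ∀ i, M 2 0 * l i 0 + M 2 1 * l i 1 + M 2 2 * l i 2 = 0 := by
    intro i
    rw [hM2]
    exact hl i
  have hinj : ∀ v : Fin 3 → ℂ, M 0 0 * v 0 + M 0 1 * v 1 + M 0 2 * v 2 = 0 →
      M 1 0 * v 0 + M 1 1 * v 1 + M 1 2 * v 2 = 0 → M 2 0 * v 0 + M 2 1 * v 1 + M 2 2 * v 2 = 0 → v = 0 := by
    intro v h0 h1 h2
    have h3 : M.mulVec v = 0 := by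
      funext i
      simp only [Matrix.mulVec, dotProduct, Fin.sum_univ_three]
      fin_cases i
      · exact h0
      · exact h1
      · exact h2
    have h4 := Matrix.mulVec_injective_of_isUnit hM
    exact h4 (by rw [h3, Matrix.mulVec_zero])
  have hne : ∀ i, l i ≠ 0 := by
    intro i hi
    obtain ⟨j, hj⟩ : ∃ j : Fin 6, i ≠ j := by
      rcases eq_or_ne i 0 with h | h
      · exact ⟨1, by rw [h]; decide⟩
      · exact ⟨0, h⟩
    have h1 := diff i j hj 1 0 fun t => by rw [hi]; simp
    exact one_ne_zero h1.1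
  have hL : ∀ i j, i ≠ j → u i * w j - u j * w i ≠ 0 := by
    intro i j hij h0
    have h2 : (fun t => w j * l i t - w i * l j t) = (0 : Fin 3 → ℂ) := by
      apply hinj
      · simp only [u, w] at h0 ⊢
        linear_combination h0
      · simp only [w]
        ring
      · linear_combination w j * hz i - w i * hz j
    have h3 := diff i j hij (w j) (w i) (fun t => sub_eq_zero.1 (congrFun h2 t))
    have h4 : (fun t => u j * l i t - u i * l j t) = (0 : Fin 3 → ℂ) := by
      apply hinj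
      · simp only [u]
        ring
      · simp only [u, w] at h0 ⊢
        linear_combination -h0
      · linear_combination u j * hz i - u i * hz j
    have h5 := diff i j hij (u j) (u i) (fun t => sub_eq_zero.1 (congrFun h4 t))
    exact hne i (hinj (l i) h5.2 h3.2 (hz i))
  have hD : aeval (tau M) (gc a m F 1) ^ 2 - C 4 * (aeval (tau M) (gc a m F 2) * aeval (tau M) (gc a m F 0)) =
      C (s0 ^ 2) * ∏ i, (C (u i) * X 0 + C (w i) * X 1) := by
    have h2 := congrArg (aeval (tau M) : MvPolynomial (Fin 3) ℂ →ₐ[ℂ] MvPolynomial (Fin 3) ℂ) hQ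
    simp only [map_sub, map_mul, map_pow, map_prod, algHom_C, algebraMap_eq] at h2
    have h3 : ∀ i, aeval (tau M) (lf (l i)) = C (u i) * X 0 + C (w i) * X 1 := fun i => aeval_lf M (l i) (hz i)
    simp only [h3] at h2
    simpa only [map_pow] using h2
  obtain ⟨β, hβ⟩ := six _ _ _ (aeval_tau_hom M e2) (aeval_tau_hom M e3) (aeval_tau_hom M e4) (s0 ^ 2) hs1 u w hL hD
  simp only [eval_tau] at hβ
  have hp2 : Matrix.vecMul (Pi.single 2 1) M = p := by
    funext j
    simp [Matrix.vecMul, dotProduct, Fin.sum_univ_three, ← hM2]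
  have hβ' : ∀ v : Fin 3 → ℂ, eval (v + p) (gc a m F 2) = eval v (gc a m F 2) ∧
      eval (v + p) (gc a m F 1) = eval v (gc a m F 1) - 2 * β * eval v (gc a m F 2) ∧
      eval (v + p) (gc a m F 0) = eval v (gc a m F 0) - β * eval v (gc a m F 1) + β ^ 2 * eval v (gc a m F 2) := by
    intro v
    have h2 := hβ (Matrix.vecMul v M⁻¹)
    have h3 : Matrix.vecMul (Matrix.vecMul v M⁻¹) M = v := by
      rw [Matrix.vecMul_vecMul, Matrix.nonsing_inv_mul M ((Matrix.isUnit_iff_isUnit_det M).1 hM), Matrix.vecMul_one]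
    rw [Matrix.add_vecMul, hp2, h3] at h2
    exact h2
  -- the vertex
  let b : Fin 4 → ℂ := xc a m (Fin.cons β p : Fin 4 → ℂ)
  have hb : b ≠ 0 := by
    intro h
    have h2 : yc a m b = (Fin.cons β p : Fin 4 → ℂ) := yc_xc hm _
    apply hp
    funext i
    have h3 := congrFun h2 i.succ
    rw [h, Fin.cons_succ] at h3
    rw [← h3]
    simp [yc]
  obtain ⟨x, hx⟩ := hc b hb
  apply hx
  have key : ∀ x : Fin 4 → ℂ, eval x F = eval (fun i : Fin 3 => yc a m x i.succ) (gc a m F 0) +
      eval (fun i : Fin 3 => yc a m x i.succ) (gc a m F 1) * yc a m x 0 +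
      eval (fun i : Fin 3 => yc a m x i.succ) (gc a m F 2) * yc a m x 0 ^ 2 := by
    intro x
    have h := aeval_newF a m F (yc a m x)
    rw [xc_yc hm, expand hF hs] at h
    simp only [← coe_aeval_eq_eval]
    exact h.symm
  have hy : ∀ j, yc a m (x + b) j = yc a m x j + (Fin.cons β p : Fin 4 → ℂ) j := by
    intro j
    have h2 : yc a m (x + b) = yc a m x + yc a m b := by
      funext j
      refine Fin.cases ?_ (fun i => ?_) j
      · simp only [yc, Fin.cons_zero, Pi.add_apply]
        ring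
      · simp only [yc, Fin.cons_succ, Pi.add_apply]
        ring
    rw [h2, Pi.add_apply, yc_xc hm]
  have hy2 : (fun i : Fin 3 => yc a m (x + b) i.succ) = (fun i : Fin 3 => yc a m x i.succ) + p := by
    funext i
    rw [hy, Fin.cons_succ, Pi.add_apply]
  obtain ⟨g2, g1, g0⟩ := hβ' (fun i : Fin 3 => yc a m x i.succ)
  rw [key (x + b), key x, hy2, hy 0, Fin.cons_zero, g2, g1, g0]
  ring

/-- a projective model of a quartic surface with a singular point which is not a cone is special and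
Brody-special. -/
theorem singular_both_of (six : SixCone) {F : MvPolynomial (Fin 4) ℂ} (hF : F.IsHomogeneous 4) (hi : Irreducible F)
    (a : Fin 4 → ℂ) (ha : a ≠ 0) (hs : ∀ j, eval a (pderiv j F) = 0)
    (hc : ∀ b : Fin 4 → ℂ, b ≠ 0 → ∃ x : Fin 4 → ℂ, eval (x + b) F ≠ eval x F) {n : ℕ}
    (P : Ideal (MvPolynomial (Fin (n + 1)) ℂ)) [P.IsPrime] (hP : IsVariety P)
    (hK : Pool.Agent.QX.IsQuartic (FunField P) F) : SpecialField (FunField P) ∧ BrodySpecial P := by
  obtain ⟨m, hm⟩ := Function.ne_iff.1 ha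
  have hm' : a m ≠ 0 := hm
  rcases double_plane_disc hF hi a m hm' hs (hc a ha) hK with h | ⟨h0, h6, h⟩
  · exact pos_other one_ne_zero (by simp) not_six_one P hP h
  · exact pos_other h0 h6 (not_six six hF a m hm' hs hc h0 h6) P hP h


end Pool.Agent.QS
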