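import Pool.Agent.Lib_MP_1209e6_ds.Coef

/-! PIECE TWO (helper93): the directional derivatives of `B` and `C` if `B² - 4AC` is squarefree. -/

set_option autoImplicit false

open MvPolynomial

noncomputable section

namespace Pool.Agent.QK

variable {n : ℕ}

/-- the derivative in the direction `p` -/
def Dp (p : Fin n → ℂ) : Derivation ℂ (MvPolynomial (Fin n) ℂ) (MvPolynomial (Fin n) ℂ) :=
  mkDerivation ℂ fun j => C (p j)

theorem Dp_X (p : Fin n → ℂ) (j : Fin n) : Dp p (X j) = C (p j) := mkDerivation_X ℂ _ j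

theorem Dp_eq (p : Fin n → ℂ) (G : MvPolynomial (Fin n) ℂ) :
    Dp p G = ∑ j, C (p j) * pderiv j G := by
  have h := Pool.Agent.DS.chain (Dp p) X G
  rw [aeval_X_left, AlgHom.id_apply] at h
  rw [h]
  refine Finset.sum_congr rfl fun j _ => ?_
  rw [Dp_X, AlgHom.id_apply]

theorem Dp_hom (p : Fin n → ℂ) {G : MvPolynomial (Fin n) ℂ} {d : ℕ} (hG : G.IsHomogeneous (d + 1)) :
    (Dp p G).IsHomogeneous d := by
  rw [Dp_eq]
  refine IsHomogeneous.sum _ _ _ fun j _ => ?_
  have h := (isHomogeneous_C (Fin n) (p j)).mul (hG.pderiv (i := j))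
  simpa using h

/-- the translation `x ↦ x + X p` -/
def tr (p : Fin n → ℂ) : MvPolynomial (Fin n) ℂ →ₐ[ℂ] Polynomial (MvPolynomial (Fin n) ℂ) :=
  aeval fun j => Polynomial.C (X j) + Polynomial.X * Polynomial.C (C (p j))

theorem tr_der (p : Fin n → ℂ) (G : MvPolynomial (Fin n) ℂ) :
    Polynomial.derivative (tr p G) = tr p (Dp p G) := by
  induction G using MvPolynomial.induction_on with
  | C a =>
    have h1 : Dp p (C a) = 0 := by
      rw [← algebraMap_eq]
      exact Derivation.map_algebraMap _ _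
    rw [h1, map_zero, tr, algHom_C]
    exact Polynomial.derivative_C
  | add a b ha hb => rw [map_add, Polynomial.derivative_add, ha, hb, map_add, map_add]
  | mul_X a i ha =>
    have hX : tr p (X i) = Polynomial.C (X i) + Polynomial.X * Polynomial.C (C (p i)) := aeval_X _ _
    have hC : tr p (C (p i)) = Polynomial.C (C (p i)) := by
      rw [tr, algHom_C]
      rfl
    rw [map_mul, Polynomial.derivative_mul, ha, Derivation.leibniz, smul_eq_mul, smul_eq_mul,
      map_add, map_mul, map_mul, Dp_X, hX, hC]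
    simp only [Polynomial.derivative_add, Polynomial.derivative_C, Polynomial.derivative_mul,
      Polynomial.derivative_X, zero_add, one_mul, mul_zero, add_zero]
    ring

theorem tr_inj (p : Fin n → ℂ) {G : MvPolynomial (Fin n) ℂ} (h : tr p G = 0) : G = 0 := by
  have h1 : ((Polynomial.aeval (0 : MvPolynomial (Fin n) ℂ) :
      Polynomial (MvPolynomial (Fin n) ℂ) →ₐ[MvPolynomial (Fin n) ℂ] MvPolynomial (Fin n) ℂ).restrictScalars ℂ).comp
        (tr p) = AlgHom.id ℂ _ := by
    apply MvPolynomial.algHom_ext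
    intro j
    simp [tr]
  have h2 := DFunLike.congr_fun h1 G
  rw [AlgHom.comp_apply, h, map_zero] at h2
  exact h2.symm

/-- the kernel is factorially closed -/
theorem Dp_factor (p : Fin n → ℂ) {a b : MvPolynomial (Fin n) ℂ} (h0 : a * b ≠ 0)
    (h : Dp p (a * b) = 0) : Dp p a = 0 := by
  have h1 : Polynomial.derivative (tr p (a * b)) = 0 := by rw [tr_der, h, map_zero]
  have h2 := Polynomial.natDegree_eq_zero_of_derivative_eq_zero h1
  have ha : tr p a ≠ 0 := fun h3 => left_ne_zero_of_mul h0 (tr_inj p h3)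
  have hb : tr p b ≠ 0 := fun h3 => right_ne_zero_of_mul h0 (tr_inj p h3)
  rw [map_mul, Polynomial.natDegree_mul ha hb] at h2
  have h3 : (tr p a).natDegree = 0 := by omega
  apply tr_inj p
  rw [← tr_der, Polynomial.eq_C_of_natDegree_eq_zero h3, Polynomial.derivative_C]

theorem dvd_two (p : Fin n → ℂ) {A B D : MvPolynomial (Fin n) ℂ} (hA0 : A ≠ 0)
    (hD : Squarefree (B ^ 2 - 4 * (A * D))) (hpA : Dp p A = 0)
    (hpD : Dp p (B ^ 2 - 4 * (A * D)) = 0) :
    A ∣ Dp p B ∧ B * Dp p B = 2 * A * Dp p D := by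
  have e : B * Dp p B = 2 * A * Dp p D := by
    have h4 : Dp p (4 : MvPolynomial (Fin n) ℂ) = 0 := by
      have : (4 : MvPolynomial (Fin n) ℂ) = algebraMap ℂ _ 4 := (map_ofNat (algebraMap ℂ _) 4).symm
      rw [this, Derivation.map_algebraMap]
    rw [map_sub, Derivation.leibniz, Derivation.leibniz, hpA, h4, sq, Derivation.leibniz] at hpD
    simp only [smul_eq_mul, mul_zero, add_zero] at hpD
    have h2 : (2 : MvPolynomial (Fin n) ℂ) ≠ 0 := two_ne_zero
    apply mul_left_cancel₀ h2
    linear_combination hpD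
  obtain ⟨A', B', g, hrel, hgA, hgB⟩ := UniqueFactorizationMonoid.exists_reduced_factors A hA0 B
  have hg0 : g ≠ 0 := by
    rintro rfl
    rw [zero_mul] at hgA
    exact hA0 hgA.symm
  have hg : Dp p g = 0 := Dp_factor p (a := g) (b := A') (by rw [hgA]; exact hA0) (by rw [hgA]; exact hpA)
  have h1 : g ∣ Dp p B := by
    rw [← hgB, Derivation.leibniz, hg, smul_zero, add_zero, smul_eq_mul]
    exact dvd_mul_right _ _
  have h2 : A' ∣ Dp p B := by
    apply hrel.dvd_of_dvd_mul_left
    refine ⟨2 * Dp p D, ?_⟩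
    apply mul_left_cancel₀ hg0
    rw [← hgA] at e
    nth_rewrite 1 [← hgB] at e
    linear_combination e
  have h3 : IsRelPrime g A' := by
    intro d hd1 hd2
    obtain ⟨g1, rfl⟩ := hd1
    obtain ⟨A1, rfl⟩ := hd2
    apply hD
    refine ⟨g1 * (g1 * B' ^ 2 - 4 * A1 * D), ?_⟩
    rw [← hgA, ← hgB]
    ring
  refine ⟨?_, e⟩
  rw [← hgA]
  exact h3.mul_dvd h1 h2

/-- `d_p B = -2 β A`, `d_p C = -β B` -/
theorem six_two {A B D : MvPolynomial (Fin n) ℂ} (hA : A.IsHomogeneous 2) (hB : B.IsHomogeneous 3)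
    (p : Fin n → ℂ) (hD : Squarefree (B ^ 2 - 4 * (A * D))) (hpA : Dp p A = 0)
    (hpD : Dp p (B ^ 2 - 4 * (A * D)) = 0) :
    ∃ β : ℂ, Dp p B = C (-2 * β) * A ∧ Dp p D = C (-β) * B := by
  have hA0 : A ≠ 0 := by
    rintro rfl
    rw [zero_mul, mul_zero, sub_zero] at hD
    have h1 : IsUnit B := hD B (by rw [sq])
    have h2 := (isUnit_iff_totalDegree_of_isReduced.1 h1).2
    rw [hB.totalDegree h1.ne_zero] at h2
    omega
  obtain ⟨⟨q, hq⟩, e⟩ := dvd_two p hA0 hD hpA hpD
  obtain ⟨c, rfl⟩ : ∃ c : ℂ, q = C c := by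
    by_cases hq0 : q = 0
    · exact ⟨0, by rw [hq0, map_zero]⟩
    · have h1 : (Dp p B).totalDegree ≤ 2 := (Dp_hom p hB).totalDegree_le
      rw [hq, totalDegree_mul_of_isDomain hA0 hq0, hA.totalDegree hA0] at h1
      have h2 : q.totalDegree = 0 := by omega
      exact ⟨_, totalDegree_eq_zero_iff_eq_C.1 h2⟩
  refine ⟨-c / 2, ?_, ?_⟩
  · rw [hq, mul_comm]
    congr 2
    ring
  · have h2 : (2 : MvPolynomial (Fin n) ℂ) ≠ 0 := two_ne_zero
    have h3 : (2 : MvPolynomial (Fin n) ℂ) * C (-(-c / 2)) = C c := by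
      have h4 : (2 : MvPolynomial (Fin n) ℂ) = C 2 := (map_ofNat (C : ℂ →+* MvPolynomial (Fin n) ℂ) 2).symm
      rw [h4, ← C_mul]
      congr 1
      ring
    apply mul_left_cancel₀ (mul_ne_zero h2 hA0)
    rw [← e, hq]
    linear_combination (-A * B) * h3

/-- the values of `G` on the line `y + t p` -/
def ln (p y : Fin n → ℂ) (G : MvPolynomial (Fin n) ℂ) : Polynomial ℂ :=
  Polynomial.map (eval y) (tr p G)

theorem ln_eval (p y : Fin n → ℂ) (G : MvPolynomial (Fin n) ℂ) (t : ℂ) :
    (ln p y G).eval t = eval (y + t • p) G := by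
  let φ : MvPolynomial (Fin n) ℂ →+* ℂ :=
    ((Polynomial.evalRingHom t).comp (Polynomial.mapRingHom (eval y))).comp
      (tr p : MvPolynomial (Fin n) ℂ →+* Polynomial (MvPolynomial (Fin n) ℂ))
  have h : φ = eval (y + t • p) := by
    apply MvPolynomial.ringHom_ext
    · intro c
      simp [φ, tr]
    · intro j
      simp only [φ, tr, RingHom.comp_apply, RingHom.coe_coe, aeval_X, map_add, map_mul,
        Polynomial.coe_mapRingHom, Polynomial.map_C, Polynomial.map_X, eval_X, eval_C,
        Polynomial.coe_evalRingHom, Polynomial.eval_C, Polynomial.eval_X, Pi.add_apply,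
        Pi.smul_apply, smul_eq_mul]
  exact DFunLike.congr_fun h G

theorem ln_der (p y : Fin n → ℂ) (G : MvPolynomial (Fin n) ℂ) :
    Polynomial.derivative (ln p y G) = ln p y (Dp p G) := by
  rw [ln, ln, Polynomial.derivative_map, tr_der]

theorem eq_of_der {P Q : Polynomial ℂ} (h : Polynomial.derivative P = Polynomial.derivative Q)
    (h0 : P.eval 0 = Q.eval 0) : P = Q := by
  have h1 : Polynomial.derivative (P - Q) = 0 := by rw [Polynomial.derivative_sub, h, sub_self]
  have h2 := Polynomial.eq_C_of_natDegree_eq_zero (Polynomial.natDegree_eq_zero_of_derivative_eq_zero h1)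
  have h3 : (P - Q).eval 0 = 0 := by rw [Polynomial.eval_sub, h0, sub_self]
  rw [h2, Polynomial.eval_C] at h3
  rw [h3, Polynomial.C_0] at h2
  exact sub_eq_zero.1 h2

/-- step 2 in the form of `six_cone` -/
theorem six_two_eval {A B E : MvPolynomial (Fin n) ℂ} (hA : A.IsHomogeneous 2) (hB : B.IsHomogeneous 3)
    (p : Fin n → ℂ) (hD : Squarefree (B ^ 2 - 4 * (A * E))) (hpA : Dp p A = 0)
    (hpD : Dp p (B ^ 2 - 4 * (A * E)) = 0) :
    ∃ β : ℂ, ∀ y : Fin n → ℂ, eval (y + p) A = eval y A ∧ eval (y + p) B = eval y B - 2 * β * eval y A ∧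
      eval (y + p) E = eval y E - β * eval y B + β ^ 2 * eval y A := by
  obtain ⟨β, hB1, hE1⟩ := six_two hA hB p hD hpA hpD
  refine ⟨β, fun y => ?_⟩
  have e0 : ∀ G, (ln p y G).eval 0 = eval y G := fun G => by rw [ln_eval, zero_smul, add_zero]
  have e1 : ∀ G, (ln p y G).eval 1 = eval (y + p) G := fun G => by rw [ln_eval, one_smul]
  have hmul : ∀ (c : ℂ) (G : MvPolynomial (Fin n) ℂ), ln p y (C c * G) = Polynomial.C c * ln p y G := by
    intro c G
    rw [ln, ln, map_mul, Polynomial.map_mul, tr, algHom_C]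
    congr 1
    change Polynomial.map (eval y) (Polynomial.C (C c)) = _
    rw [Polynomial.map_C, eval_C]
  have hlA : ln p y A = Polynomial.C (eval y A) := by
    apply eq_of_der
    · rw [ln_der, hpA, Polynomial.derivative_C, ln, map_zero, Polynomial.map_zero]
    · rw [e0, Polynomial.eval_C]
  have hlB : ln p y B = Polynomial.C (eval y B) + Polynomial.C (-2 * β * eval y A) * Polynomial.X := by
    apply eq_of_der
    · rw [ln_der, hB1, hmul, hlA, ← Polynomial.C_mul]
      simp
    · rw [e0]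
      simp
  have hlE : ln p y E = Polynomial.C (eval y E) + Polynomial.C (-β * eval y B) * Polynomial.X +
      Polynomial.C (β ^ 2 * eval y A) * Polynomial.X ^ 2 := by
    apply eq_of_der
    · rw [ln_der, hE1, hmul, hlB]
      simp only [Polynomial.derivative_add, Polynomial.derivative_C, Polynomial.derivative_C_mul,
        Polynomial.derivative_X, Polynomial.derivative_X_pow, zero_add, mul_one]
      rw [mul_add, ← Polynomial.C_mul, ← mul_assoc, ← Polynomial.C_mul]
      have h2 : (Polynomial.C ((2 : ℕ) : ℂ) : Polynomial ℂ) * Polynomial.X ^ (2 - 1) =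
          Polynomial.C 2 * Polynomial.X := by norm_num
      have h5 : (Polynomial.C (β ^ 2 * eval y A) : Polynomial ℂ) * (Polynomial.C 2 * Polynomial.X) =
          Polynomial.C (β ^ 2 * eval y A * 2) * Polynomial.X := by
        rw [← mul_assoc, ← Polynomial.C_mul]
      rw [h2, h5]
      congr 3
      ring
    · rw [e0]
      simp
  refine ⟨?_, ?_, ?_⟩
  · rw [← e1, hlA, Polynomial.eval_C]
  · rw [← e1, hlB]
    simp only [Polynomial.eval_add, Polynomial.eval_C, Polynomial.eval_mul, Polynomial.eval_X]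
    ring
  · rw [← e1, hlE]
    simp only [Polynomial.eval_add, Polynomial.eval_C, Polynomial.eval_mul, Polynomial.eval_X,
      Polynomial.eval_pow]
    ring

end Pool.Agent.QK
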