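import Pool.Agent.Lib_MP_1209e6_ag.Defs
import Pool.Agent.Lib_MP_1209e6_ag.Der
import Pool.Agent.Lib_MP_1209e6_ds.SmoothUp

/-! PIECE NOTSPECIAL (helper93): a field over the function field of a smooth plane quartic is not special. -/

set_option autoImplicit false

open MvPolynomial Pool.Agent.Campana

noncomputable section

namespace Pool.Agent.QK

theorem x93_scale {k : Type} [Field k] [Algebra ℂ k] {n d : ℕ} {F : MvPolynomial (Fin n) ℂ}
    (hF : F.IsHomogeneous d) (s : k) (p : Fin n → k) :
    aeval (fun i => s * p i) F = s ^ d * aeval p F := by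
  rw [aeval_def, eval₂_eq', aeval_def, eval₂_eq', Finset.mul_sum]
  refine Finset.sum_congr rfl fun t ht => ?_
  have h2 : ∑ i, t i = d := by
    have h3 := hF (mem_support_iff.1 ht)
    rw [Finsupp.weight_apply, Finsupp.sum_fintype _ _ (by simp)] at h3
    simpa using h3
  rw [← h2, ← Finset.prod_pow_eq_pow_sum]
  simp only [mul_pow, Finset.prod_mul_distrib]
  ring

/-- chain rule -/
theorem x93_chain {K : Type} [Field K] [Algebra ℂ K] (D : Derivation ℂ K K) {n : ℕ} (p : Fin n → K)
    (q : MvPolynomial (Fin n) ℂ) : D (aeval p q) = ∑ i, aeval p (pderiv i q) * D (p i) := by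
  induction q using MvPolynomial.induction_on with
  | C a => simp
  | add a b ha hb => simp [ha, hb, add_mul, Finset.sum_add_distrib]
  | mul_X a i ha =>
    simp only [map_mul, aeval_X, Derivation.leibniz, ha, smul_eq_mul, map_add, add_mul,
      Finset.sum_add_distrib, Finset.mul_sum]
    have h1 : ∑ x, aeval p a * aeval p (pderiv x (X i : MvPolynomial (Fin n) ℂ)) * D (p x) =
        aeval p a * D (p i) := by
      rw [Finset.sum_eq_single i]
      · simp
      · intro b _ hb
        rw [pderiv_X_of_ne (Ne.symm hb)]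
        simp
      · simp
    rw [h1]
    congr 1
    exact Finset.sum_congr rfl fun _ _ => by ring

/-- some partial derivative is a unit at a primitive representative -/
theorem x93_unit {K : Type} [Field K] [Algebra ℂ K] {n : ℕ} {F : MvPolynomial (Fin (n + 1)) ℂ}
    (hs : Pool.Agent.DS.Smooth F) (O : ValuationSubring K) (hC : ∀ c : ℂ, algebraMap ℂ K c ∈ O)
    (z : Fin (n + 1) → K) (hz : ∀ i, z i ∈ O) (i0 : Fin (n + 1)) (h1 : z i0 = 1) :
    ∃ k, aeval z (pderiv k F) ≠ 0 ∧ (aeval z (pderiv k F))⁻¹ ∈ O := by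
  have hO : ∀ q : MvPolynomial (Fin (n + 1)) ℂ, aeval z q ∈ O := by
    intro q
    induction q using MvPolynomial.induction_on with
    | C a => rw [algHom_C]; exact hC a
    | add a b ha hb => rw [map_add]; exact O.add_mem _ _ ha hb
    | mul_X a i ha => rw [map_mul, aeval_X]; exact O.mul_mem _ _ ha (hz i)
  by_contra hcon
  push Not at hcon
  have hlt : ∀ k, O.valuation (aeval z (pderiv k F)) < 1 := by
    intro k
    by_cases h0 : aeval z (pderiv k F) = 0
    · rw [h0, map_zero]; exact zero_lt_one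
    · have h2 := hcon k h0
      rw [← ValuationSubring.valuation_le_one_iff, not_le, map_inv₀,
        one_lt_inv₀ (zero_lt_iff.2 ((Valuation.ne_zero_iff _).2 h0))] at h2
      exact h2
  let I : Ideal (MvPolynomial (Fin (n + 1)) ℂ) := Ideal.span (Set.range fun j => pderiv j F)
  have hX : (X i0 : MvPolynomial (Fin (n + 1)) ℂ) ∈ vanishingIdeal ℂ (zeroLocus ℂ I) := by
    rw [mem_vanishingIdeal_iff]
    intro w hw
    have hw0 : w = 0 := hs w fun j =>
      (mem_zeroLocus_iff.1 hw) _ (Ideal.subset_span ⟨j, rfl⟩)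
    rw [hw0, aeval_X, Pi.zero_apply]
  rw [vanishingIdeal_zeroLocus_eq_radical] at hX
  obtain ⟨N, hN⟩ := hX
  obtain ⟨A, hA⟩ := (Ideal.mem_span_range_iff_exists_fun).1 hN
  have h3 : ∑ k, aeval z (A k) * aeval z (pderiv k F) = 1 := by
    have h4 := congrArg (aeval z) hA
    rw [map_pow, aeval_X, h1, one_pow, map_sum] at h4
    rw [← h4]
    exact Finset.sum_congr rfl fun _ _ => by rw [map_mul]
  have h5 : O.valuation (∑ k, aeval z (A k) * aeval z (pderiv k F)) < 1 := by
    refine Valuation.map_sum_lt _ one_ne_zero fun k _ => ?_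
    rw [map_mul]
    exact lt_of_le_of_lt (mul_le_of_le_one_left'
      ((ValuationSubring.valuation_le_one_iff _ _).2 (hO _))) (hlt k)
  rw [h3, map_one] at h5
  exact lt_irrefl _ h5

/-- the form `(y_a dy_b - y_b dy_a) / g` -/
def x93_lin {K : Type} [Field K] [Algebra ℂ K] (a b g : K) : Derivation ℂ K K →ₗ[K] K where
  toFun D := (a * D b - b * D a) / g
  map_add' D E := by simp only [Derivation.add_apply]; ring
  map_smul' c D := by simp only [Derivation.smul_apply, smul_eq_mul, RingHom.id_apply]; ring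

def x93_form {K : Type} [Field K] [Algebra ℂ K] (a b g : K) : Form K 1 :=
  (Matrix.detRowAlternating (n := Fin 1) (R := K)).compLinearMap
    (LinearMap.pi fun _ => x93_lin a b g)

theorem x93_form_apply {K : Type} [Field K] [Algebra ℂ K] (a b g : K)
    (D : Fin 1 → Derivation ℂ K K) : x93_form a b g D = (a * D 0 b - b * D 0 a) / g := by
  rw [x93_form, AlternatingMap.compLinearMap_apply]
  change Matrix.det _ = _
  rw [Matrix.det_fin_one]
  rfl

theorem x93_core {K : Type} [Field K] [Algebra ℂ K] {G : MvPolynomial (Fin 3) ℂ}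
    (hG : G.IsHomogeneous 4) (hs : Pool.Agent.DS.Smooth G) (y : Fin 3 → K) (i j : Fin 3)
    (hj : y j = 1) (hi : Transcendental ℂ (y i)) (hy : aeval y G = 0) : ¬ SpecialField K := by
  intro hsp
  -- the gradient at `y`
  set g : Fin 3 → K := fun l => aeval y (pderiv l G) with hg
  obtain ⟨k, hk⟩ : ∃ k, g k ≠ 0 := by
    by_contra hcon
    push Not at hcon
    have h1 := hs.up y hcon
    rw [h1] at hj
    exact zero_ne_one hj
  have hyg : ∑ l, y l * g l = 0 := by
    have h1 := congrArg (aeval y) hG.sum_X_mul_pderiv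
    simp only [map_sum, map_mul, aeval_X, map_nsmul, hy, smul_zero] at h1
    exact h1
  have hdg : ∀ D : Derivation ℂ K K, ∑ l, g l * D (y l) = 0 := by
    intro D
    have h1 := x93_chain D y G
    rw [hy, map_zero] at h1
    exact h1.symm
  have hyg' : y 0 * g 0 + y 1 * g 1 + y 2 * g 2 = 0 := by
    rw [Fin.sum_univ_three] at hyg; exact hyg
  have hdg' : ∀ D : Derivation ℂ K K, g 0 * D (y 0) + g 1 * D (y 1) + g 2 * D (y 2) = 0 := by
    intro D
    have := hdg D
    rw [Fin.sum_univ_three] at this; exact this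
  -- `(y × dy) × g = dy (y · g) - y (dy · g) = 0`
  have key : ∀ (D : Derivation ℂ K K) (k l : Fin 3),
      (y (l + 1) * D (y (l + 2)) - y (l + 2) * D (y (l + 1))) * g k =
        (y (k + 1) * D (y (k + 2)) - y (k + 2) * D (y (k + 1))) * g l := by
    intro D k l
    have e0 : (y 2 * D (y 0) - y 0 * D (y 2)) * g 2 = (y 0 * D (y 1) - y 1 * D (y 0)) * g 1 := by
      linear_combination D (y 0) * hyg' - y 0 * hdg' D
    have e1 : (y 0 * D (y 1) - y 1 * D (y 0)) * g 0 = (y 1 * D (y 2) - y 2 * D (y 1)) * g 2 := by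
      linear_combination D (y 1) * hyg' - y 1 * hdg' D
    have e2 : (y 1 * D (y 2) - y 2 * D (y 1)) * g 1 = (y 2 * D (y 0) - y 0 * D (y 2)) * g 0 := by
      linear_combination D (y 2) * hyg' - y 2 * hdg' D
    fin_cases k <;> fin_cases l <;>
      simp only [Fin.zero_eta, Fin.mk_one, Fin.reduceFinMk, Fin.isValue, zero_add, Fin.reduceAdd]
    · exact e2.symm
    · exact e1
    · exact e2
    · exact e0.symm
    · exact e1.symm
    · exact e0
  have hij : ∀ p q : Fin 3, p ≠ q → ∃ l : Fin 3, (p = l + 1 ∧ q = l + 2) ∨ (q = l + 1 ∧ p = l + 2) := by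
    decide
  have hne : i ≠ j := by
    rintro rfl
    rw [hj] at hi
    exact hi isAlgebraic_one
  have hω : x93_form (y (k + 1)) (y (k + 2)) (g k) ≠ 0 := by
    intro h0
    obtain ⟨D, hD⟩ := exists_derivation (fun _ : Unit => y i)
      ((algebraicIndependent_unique_type_iff (ι := Unit) (x := fun _ : Unit => y i)).2 hi)
      (fun _ => (1 : K))
    have hD1 : D (y i) = 1 := hD ()
    have hDj : D (y j) = 0 := by rw [hj, Derivation.map_one_eq_zero]
    have h1 : (y (k + 1) * D (y (k + 2)) - y (k + 2) * D (y (k + 1))) / g k = 0 := by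
      rw [← x93_form_apply (y (k + 1)) (y (k + 2)) (g k) (fun _ => D), h0]
      rfl
    have h2 : y (k + 1) * D (y (k + 2)) - y (k + 2) * D (y (k + 1)) = 0 := by
      rcases div_eq_zero_iff.1 h1 with h | h
      · exact h
      · exact absurd h hk
    have h3 : ∀ l : Fin 3, y (l + 1) * D (y (l + 2)) - y (l + 2) * D (y (l + 1)) = 0 := by
      intro l
      have h4 := key D k l
      rw [h2, zero_mul] at h4
      exact (mul_eq_zero.1 h4).resolve_right hk
    obtain ⟨l, h | h⟩ := hij i j hne
    · have h4 := h3 l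
      rw [← h.1, ← h.2, hD1, hDj, hj] at h4
      simp at h4
    · have h4 := h3 l
      rw [← h.1, ← h.2, hD1, hDj, hj] at h4
      simp at h4
  refine hsp 1 le_rfl _ hω 1 le_rfl 1 one_ne_zero (fun _ => y i) (fun O hO => ?_) ?_
  · obtain ⟨i0, hi0⟩ : ∃ j, ∀ i, O.valuation (y i) ≤ O.valuation (y j) := by
      obtain ⟨j, -, hj⟩ := Finset.exists_max_image (Finset.univ : Finset (Fin 3))
        (fun i => O.valuation (y i)) Finset.univ_nonempty
      exact ⟨j, fun i => hj i (Finset.mem_univ i)⟩
    have hy0 : y i0 ≠ 0 := by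
      intro h
      have h1 := hi0 j
      rw [hj, h, map_one, map_zero] at h1
      exact absurd h1 (not_le.2 zero_lt_one)
    have hv0 : O.valuation (y i0) ≠ 0 := (Valuation.ne_zero_iff _).2 hy0
    set u : K := (y i0)⁻¹ with hu
    have hu0 : u ≠ 0 := inv_ne_zero hy0
    have hz : ∀ l, u * y l ∈ O := by
      intro l
      rw [← ValuationSubring.valuation_le_one_iff, map_mul, hu, map_inv₀]
      rw [inv_mul_le_iff₀ (zero_lt_iff.2 hv0), mul_one]
      exact hi0 l
    have hz1 : u * y i0 = 1 := inv_mul_cancel₀ hy0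
    obtain ⟨m, hm, hm'⟩ := x93_unit hs O hO.1 (fun l => u * y l) hz i0 hz1
    rw [x93_scale hG.pderiv u y] at hm hm'
    change u ^ 3 * g m ≠ 0 at hm
    change (u ^ 3 * g m)⁻¹ ∈ O at hm'
    have hgm : g m ≠ 0 := right_ne_zero_of_mul hm
    have hu1 : u ∈ O := by
      have := hz j
      rwa [hj, mul_one] at this
    have hreg : ∀ f : K, f * u ∈ O →
        RegularAt O (x93_form (y (k + 1)) (y (k + 2)) (g k)) 1 f := by
      intro f hf
      refine ⟨u, hu0, fun D hD => ?_, by rwa [pow_one]⟩
      rw [x93_form_apply]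
      have h1 : (u * y (m + 1)) * D 0 (u * y (m + 2)) - (u * y (m + 2)) * D 0 (u * y (m + 1)) ∈ O :=
        O.sub_mem (O.mul_mem _ _ (hz _) (hD 0 _ (hz _)))
          (O.mul_mem _ _ (hz _) (hD 0 _ (hz _)))
      have h2 := O.mul_mem _ _ h1 hm'
      have h3 : u⁻¹ * ((y (k + 1) * D 0 (y (k + 2)) - y (k + 2) * D 0 (y (k + 1))) / g k) =
          ((u * y (m + 1)) * D 0 (u * y (m + 2)) - (u * y (m + 2)) * D 0 (u * y (m + 1))) *
            (u ^ 3 * g m)⁻¹ := by
        have h5 : (y (k + 1) * D 0 (y (k + 2)) - y (k + 2) * D 0 (y (k + 1))) / g k =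
            (y (m + 1) * D 0 (y (m + 2)) - y (m + 2) * D 0 (y (m + 1))) / g m := by
          rw [div_eq_div_iff hk hgm]
          exact (key (D 0) k m).symm
        rw [h5]
        have h6 : (u * y (m + 1)) * D 0 (u * y (m + 2)) - (u * y (m + 2)) * D 0 (u * y (m + 1)) =
            u ^ 2 * (y (m + 1) * D 0 (y (m + 2)) - y (m + 2) * D 0 (y (m + 1))) := by
          simp only [Derivation.leibniz, smul_eq_mul]
          ring
        rw [h6]
        field_simp
      rw [h3]
      exact h2
    refine ⟨hreg 1 (by rwa [one_mul]), fun _ => hreg _ ?_⟩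
    rw [mul_comm]
    exact hz i
  · simp only [div_one]
    exact (algebraicIndependent_unique_type_iff (ι := Fin 1) (x := fun _ : Fin 1 => y i)).2 hi

theorem x93_cone_not_special {K : Type} [Field K] [Algebra ℂ K] {G : MvPolynomial (Fin 3) ℂ}
    (hG : G.IsHomogeneous 4) (hs : Pool.Agent.DS.Smooth G) (x : Fin 3 → K) (h0 : x 0 ≠ 0)
    (hx : aeval x G = 0) (ht : Transcendental ℂ (x 1 / x 0)) : ¬ SpecialField K := by
  refine x93_core hG hs (fun i => (x 0)⁻¹ * x i) 1 0 (inv_mul_cancel₀ h0) ?_ ?_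
  · rw [div_eq_inv_mul] at ht
    exact ht
  · rw [x93_scale hG, hx, mul_zero]

end Pool.Agent.QK
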